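import Mathlib

/-!
# MM7: common definitions for the Mahler measure of (1+x)(1+y)(1+z)+t  (MP_870c49_nt)
-/

open Real MeasureTheory Set

namespace MM7

noncomputable section

/-- `e a = exp (2 π i a)` -/
def e (a : ℝ) : ℂ := Complex.exp (2 * π * a * Complex.I)

/-- the (logarithmic) Mahler measure of `(1+x)(1+y)(1+z)+t` -/
def mahler : ℝ :=
  ∫ a in (0:ℝ)..1, ∫ b in (0:ℝ)..1, ∫ c in (0:ℝ)..1, ∫ d in (0:ℝ)..1,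
    Real.log ‖(1 + e a) * (1 + e b) * (1 + e c) + e d‖

/-- theta constants on the imaginary axis, nome `exp (-π y)` -/
def th2 (y : ℝ) : ℝ := ∑' n : ℤ, Real.exp (-(π * ((n:ℝ) + 1/2) ^ 2 * y))
def th3 (y : ℝ) : ℝ := ∑' n : ℤ, Real.exp (-(π * (n:ℝ) ^ 2 * y))
def th4 (y : ℝ) : ℝ := ∑' n : ℤ, (-1:ℝ) ^ n.natAbs * Real.exp (-(π * (n:ℝ) ^ 2 * y))

/-- the modular function `256 θ2⁴ θ4⁴ / θ3⁸` -/
def ww (y : ℝ) : ℝ := 256 * th2 y ^ 4 * th4 y ^ 4 / th3 y ^ 8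

/-- the weight 4 form `θ2² θ4² (θ4⁴ - θ2⁴)` -/
def Psi (y : ℝ) : ℝ := th2 y ^ 2 * th4 y ^ 2 * (th4 y ^ 4 - th2 y ^ 4)

/-- the odd character mod 4, with real values -/
def chi (n : ℤ) : ℝ := ((ZMod.χ₄ (n : ZMod 4) : ℤ) : ℝ)

/-- indicator of even integers -/
def ev (n : ℤ) : ℝ := if Even n then 1 else 0

/-- indicator of odd integers -/
def od (n : ℤ) : ℝ := if Odd n then 1 else 0

/-- lattice point `m i y + n` for `p = (m, n)` -/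
def lam (y : ℝ) (p : ℤ × ℤ) : ℂ := (p.1 : ℂ) * y * Complex.I + p.2

/-- `|m i y + n|²` -/
def Pf (y : ℝ) (p : ℤ × ℤ) : ℝ := (p.1 : ℝ) ^ 2 * y ^ 2 + (p.2 : ℝ) ^ 2

/-- regularised lattice sum of `|λ|⁻²` (even-even minus odd-odd), written by rows -/
def Eser (y : ℝ) : ℝ :=
  π ^ 2 * y / 12 - π * Real.log 2
    + 2 * π * (∑' k : ℕ, 1 / (2 * (k:ℝ) + 2) / (Real.exp (π * (2 * (k:ℝ) + 2) * y) - 1))
    + 2 * π * (∑' k : ℕ, 1 / (2 * (k:ℝ) + 1) / (Real.exp (π * (2 * (k:ℝ) + 1) * y) + 1))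

/-- the weight 4 Eisenstein series `Σ χ₄(m) χ₄(n) (m i y + n)⁻⁴` -/
def Gser (y : ℝ) : ℂ := ∑' p : ℤ × ℤ, ((chi p.1 * chi p.2 : ℝ) : ℂ) / lam y p ^ 4

/-- `√-7` -/
def rt : ℂ := (√7 : ℝ) * Complex.I

/-- `π = (1+√-7)/2`, generator of a prime above 2 of `O = ℤ[(1+√-7)/2]` -/
def om : ℂ := (1 + rt) / 2

/-- the element `a + b (1+√-7)/2` of `O` -/
def xx (p : ℤ × ℤ) : ℂ := (p.1 : ℂ) + (p.2 : ℂ) * om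

/-- the Dirichlet series `½ Σ' α² N(α)^{-s}` (`N α = |α|²`) of the weight 3 newform of level 7 -/
def Lser (s : ℂ) : ℂ := (1 / 2) * ∑' p : ℤ × ℤ, xx p ^ 2 / ((Complex.normSq (xx p) : ℝ) : ℂ) ^ s

/-- `Σ' |x|⁻⁶` over `O` -/
def E33 : ℝ := ∑' p : ℤ × ℤ, 1 / Complex.normSq (xx p) ^ 3

/-- `Σ' x⁻⁴ x̄⁻²` over `O` (it is real) -/
def E42 : ℂ := ∑' p : ℤ × ℤ, 1 / (xx p ^ 4 * (starRingEnd ℂ (xx p)) ^ 2)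

/-- the double lattice sum of Part 3 -/
def Aser (y : ℝ) : ℝ :=
  y ^ 4 * ∑' q : (ℤ × ℤ) × (ℤ × ℤ),
    chi q.1.1 * chi q.1.2 * ev q.2.1 * ev q.2.2 * ((q.1.1 : ℝ) * q.2.2 - (q.2.1 : ℝ) * q.1.2)
      / (Pf y q.1 ^ 2 * Pf y q.2 * Pf y (q.1 + q.2))

/-- `u = -Re λ² / |λ|²` -/
def uf (y : ℝ) (p : ℤ × ℤ) : ℝ := ((p.1 : ℝ) ^ 2 * y ^ 2 - (p.2 : ℝ) ^ 2) / Pf y p

/-- `y d/dy` of `Aser` -/
def Bser (y : ℝ) : ℝ :=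
  -(y ^ 4 * ∑' q : (ℤ × ℤ) × (ℤ × ℤ),
    chi q.1.1 * chi q.1.2 * ev q.2.1 * ev q.2.2 * ((q.1.1 : ℝ) * q.2.2 - (q.2.1 : ℝ) * q.1.2)
      * (2 * uf y q.1 + uf y q.2 + uf y (q.1 + q.2))
      / (Pf y q.1 ^ 2 * Pf y q.2 * Pf y (q.1 + q.2)))

end

end MM7
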