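import Pool.Agent.MM7.Defs3b

/-!
# MM7, Part 3, module AOne

Swap coordinates: the bijection ((m1,n1),(m2,n2)) ↦ ((n1,m1),(n2,m2)) fixes Pf 1, the weights, and changes the sign
of m1 n2 - m2 n1; so Aser 1 = -Aser 1.
-/

open Real MeasureTheory Set Filter Topology

namespace MM7

theorem AOne_Pf (p : ℤ × ℤ) : Pf 1 p.swap = Pf 1 p := by
  unfold Pf
  simp only [Prod.fst_swap, Prod.snd_swap]
  ring

theorem Aser_one : Aser 1 = 0 := by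
  have key : (∑' q : (ℤ × ℤ) × (ℤ × ℤ),
    chi q.1.1 * chi q.1.2 * ev q.2.1 * ev q.2.2 * ((q.1.1 : ℝ) * q.2.2 - (q.2.1 : ℝ) * q.1.2)
      / (Pf 1 q.1 ^ 2 * Pf 1 q.2 * Pf 1 (q.1 + q.2))) =
      -(∑' q : (ℤ × ℤ) × (ℤ × ℤ),
    chi q.1.1 * chi q.1.2 * ev q.2.1 * ev q.2.2 * ((q.1.1 : ℝ) * q.2.2 - (q.2.1 : ℝ) * q.1.2)
      / (Pf 1 q.1 ^ 2 * Pf 1 q.2 * Pf 1 (q.1 + q.2))) := by
    rw [← tsum_neg]
    rw [← Equiv.tsum_eq (Equiv.prodCongr (Equiv.prodComm ℤ ℤ) (Equiv.prodComm ℤ ℤ))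
      (fun q : (ℤ × ℤ) × (ℤ × ℤ) =>
        chi q.1.1 * chi q.1.2 * ev q.2.1 * ev q.2.2 * ((q.1.1 : ℝ) * q.2.2 - (q.2.1 : ℝ) * q.1.2)
          / (Pf 1 q.1 ^ 2 * Pf 1 q.2 * Pf 1 (q.1 + q.2)))]
    refine tsum_congr ?_
    rintro ⟨p, q⟩
    have h1 : Pf 1 (p.swap + q.swap) = Pf 1 (p + q) := by
      have := AOne_Pf (p + q)
      rwa [show (p + q).swap = p.swap + q.swap from rfl] at this
    simp only [Equiv.prodCongr_apply, Prod.map_apply, Equiv.prodComm_apply, Prod.fst_swap,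
      Prod.snd_swap, AOne_Pf, h1]
    ring
  have h0 := self_eq_neg.mp key
  unfold Aser
  rw [h0, mul_zero]

end MM7
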