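import Pool.Agent.MM7.Defs4

/-!
# MM7, Part 4, module Arith4

Elementary facts about O = ℤ[om], om = (1+√-7)/2, omb = 1 - om = conj om, om² = om - 2, om*omb = 2.
xx (a,b) = a + b om; |a + b om|² = a² + ab + 2b² ≥ (1/2)... (positive definite: ≥ c (a²+b²)), which gives xx_kk.
mulPi (a,b) = (-2b, a+b): om*(a+b om) = a om + b (om-2). mulPb (a,b) = (a+2b, -a).
-/

open Real MeasureTheory Set Filter Topology

namespace MM7

theorem rt_sq : rt ^ 2 = -7 := by
  unfold rt
  rw [mul_pow, Complex.I_sq, ← Complex.ofReal_pow, Real.sq_sqrt (by norm_num)]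
  norm_num
theorem conj_rt : starRingEnd ℂ rt = -rt := by
  unfold rt
  rw [map_mul, Complex.conj_I, Complex.conj_ofReal]
  ring
theorem om_sq : om ^ 2 = om - 2 := by
  have h := rt_sq
  unfold om
  linear_combination (1 / 4) * h
theorem conj_om : starRingEnd ℂ om = omb := by
  unfold omb om
  rw [map_div₀, map_add, map_one, conj_rt, map_ofNat]
  ring
theorem om_mul_omb : om * omb = 2 := by
  have h := om_sq
  unfold omb
  linear_combination -h
theorem xx_add (p r : ℤ × ℤ) : xx (p + r) = xx p + xx r := by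
  unfold xx
  simp only [Prod.fst_add, Prod.snd_add, Int.cast_add]
  ring
theorem xx_neg (p : ℤ × ℤ) : xx (-p) = -xx p := by
  unfold xx
  simp only [Prod.fst_neg, Prod.snd_neg, Int.cast_neg]
  ring
theorem normSq_xx (p : ℤ × ℤ) :
    Complex.normSq (xx p) = (p.1 : ℝ) ^ 2 + p.1 * p.2 + 2 * (p.2 : ℝ) ^ 2 := by
  have h1 : ((Complex.normSq (xx p) : ℝ) : ℂ) =
      (((p.1 : ℝ) ^ 2 + p.1 * p.2 + 2 * (p.2 : ℝ) ^ 2 : ℝ) : ℂ) := by
    rw [← Complex.mul_conj]
    unfold xx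
    rw [map_add, map_mul, map_intCast, map_intCast, conj_om]
    have h := om_mul_omb
    have h2 : omb = 1 - om := rfl
    push_cast
    linear_combination (p.2 : ℂ) ^ 2 * h + (p.1 : ℂ) * p.2 * h2
  exact_mod_cast h1
theorem xx_eq_zero (p : ℤ × ℤ) : xx p = 0 ↔ p = 0 := by
  constructor
  · intro h
    have h1 := normSq_xx p
    rw [h, Complex.normSq_zero] at h1
    have h2 : (0 : ℝ) = ((p.1 : ℝ) + p.2 / 2) ^ 2 + 7 / 4 * (p.2 : ℝ) ^ 2 := by
      rw [h1]; ring
    have h3 : (p.2 : ℝ) ^ 2 = 0 := by nlinarith [sq_nonneg ((p.1 : ℝ) + p.2 / 2), sq_nonneg (p.2 : ℝ)]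
    have h4 : (p.2 : ℝ) = 0 := by simpa using h3
    have h5 : (p.1 : ℝ) = 0 := by
      rw [h4] at h2
      have : (p.1 : ℝ) ^ 2 = 0 := by nlinarith
      simpa using this
    ext
    · exact_mod_cast h5
    · exact_mod_cast h4
  · rintro rfl
    simp [xx]
theorem xx_mulPi (p : ℤ × ℤ) : xx (mulPi p) = om * xx p := by
  have h := om_sq
  unfold xx mulPi
  push_cast
  linear_combination (-(p.2 : ℂ)) * h
theorem xx_mulPb (p : ℤ × ℤ) : xx (mulPb p) = omb * xx p := by
  have h := om_sq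
  unfold xx mulPb omb
  push_cast
  linear_combination (p.2 : ℂ) * h
theorem xx_conj (p : ℤ × ℤ) : starRingEnd ℂ (xx p) = xx (p.1 + p.2, -p.2) := by
  unfold xx
  rw [map_add, map_mul, map_intCast, map_intCast, conj_om]
  unfold omb
  push_cast
  ring
theorem mulPi_injective : Function.Injective mulPi := by
  rintro ⟨a, b⟩ ⟨c, d⟩ h
  unfold mulPi at h
  simp only [Prod.mk.injEq] at h ⊢
  constructor <;> omega
theorem mulPb_injective : Function.Injective mulPb := by
  rintro ⟨a, b⟩ ⟨c, d⟩ h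
  unfold mulPb at h
  simp only [Prod.mk.injEq] at h ⊢
  constructor <;> omega
theorem mem_range_mulPi (p : ℤ × ℤ) : p ∈ Set.range mulPi ↔ Even p.1 := by
  obtain ⟨a, b⟩ := p
  constructor
  · rintro ⟨⟨c, d⟩, h⟩
    unfold mulPi at h
    simp only [Prod.mk.injEq] at h
    exact ⟨-d, by omega⟩
  · rintro ⟨k, hk⟩
    refine ⟨(b + k, -k), ?_⟩
    unfold mulPi
    simp only [Prod.mk.injEq] at hk ⊢
    constructor
    · omega
    · omega
theorem mem_range_mulPb (p : ℤ × ℤ) : p ∈ Set.range mulPb ↔ Even (p.1 + p.2) := by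
  obtain ⟨a, b⟩ := p
  constructor
  · rintro ⟨⟨c, d⟩, h⟩
    unfold mulPb at h
    simp only [Prod.mk.injEq] at h
    exact ⟨d, by simp only; omega⟩
  · rintro ⟨k, hk⟩
    simp only at hk
    refine ⟨(-b, k), ?_⟩
    unfold mulPb
    simp only [Prod.mk.injEq]
    constructor <;> omega
theorem xx_kk : ∃ C : ℝ, 0 ≤ C ∧ ∀ p : ℤ × ℤ, 1 / ‖xx p‖ ^ 3 ≤ C * kk p := by
  refine ⟨8, by norm_num, fun p => ?_⟩
  by_cases hp : p = 0
  · subst hp
    have h1 : xx 0 = 0 := (xx_eq_zero 0).2 rfl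
    rw [h1]
    simp [kk, nn]
  · have h1 : nn p ≤ 4 * Complex.normSq (xx p) := by
      rw [normSq_xx]
      unfold nn
      nlinarith [sq_nonneg ((p.1 : ℝ) + (p.2 : ℝ)), sq_nonneg ((p.1 : ℝ)), sq_nonneg (p.2 : ℝ)]
    have h2 : √(nn p) ≤ 2 * ‖xx p‖ := by
      rw [show 2 * ‖xx p‖ = √((2 * ‖xx p‖) ^ 2) from (Real.sqrt_sq (by positivity)).symm]
      refine Real.sqrt_le_sqrt ?_
      rw [mul_pow, ← Complex.normSq_eq_norm_sq]
      linarith
    have h3 : 0 < nn p := by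
      unfold nn
      have h4 : p.1 ≠ 0 ∨ p.2 ≠ 0 := by
        by_contra hcon
        push Not at hcon
        exact hp (Prod.ext hcon.1 hcon.2)
      rcases h4 with h4 | h4
      · have : (p.1 : ℝ) ≠ 0 := by exact_mod_cast h4
        positivity
      · have : (p.2 : ℝ) ≠ 0 := by exact_mod_cast h4
        positivity
    have h5 : 0 < √(nn p) := Real.sqrt_pos.2 h3
    have h6 : 0 < ‖xx p‖ := by linarith
    unfold kk
    rw [mul_one_div, div_le_div_iff₀ (by positivity) (by positivity), one_mul]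
    calc √(nn p) ^ 3 ≤ (2 * ‖xx p‖) ^ 3 := by gcongr
      _ = 8 * ‖xx p‖ ^ 3 := by ring

end MM7
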