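import Pool.Agent.MM7.Defs4
import Pool.Agent.MM7.Arith4

/-!
# MM7, Part 4, module Bdry33

Evaluate. For x = 0 everything is 0 (division by zero). For x ≠ 0 every kernel with a vanishing line is 0 (division by 0);
the surviving kernels are homogeneous: value at 1 times 1/(x conj x)³. Exact parts, in units of 1/|x|⁶:
F33a 0 x = 3/2, F33a x x = 3/2, F33a (om x) x = 1, F33a x 0 = 4 (sum 8);
F33b 0 x = 1/2, F33b x x = 1, F33b (om x) x = 3/16, F33b x 0 = 3/2 (sum 51/16).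
-/

open Real MeasureTheory Set Filter Topology

namespace MM7

theorem bdry33_rho (a b x : ℂ) : rho (a * x) (b * x) = rho a b * (x * starRingEnd ℂ x) := by
  simp only [rho, map_mul]; ring

theorem bdry33_NNk (a b x : ℂ) :
    NNk (a * x) (b * x) = NNk a b * (1 / (x * starRingEnd ℂ x) ^ 3) := by
  have h : a * x + b * x = (a + b) * x := by ring
  unfold NNk
  rw [h]
  simp only [map_mul, one_div, mul_inv, inv_pow, mul_pow]
  ring

theorem bdry33_one (c M : ℂ) : M * (1 / M ^ 3) * (c * (1 / M)) = c * (1 / M ^ 3) := by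
  by_cases hM : M = 0
  · simp [hM]
  · field_simp

theorem bdry33_T1k (a b x : ℂ) :
    T1k (a * x) (b * x) = T1k a b * (1 / (x * starRingEnd ℂ x) ^ 3) := by
  have h1 : (1 : ℂ) / (a * x * starRingEnd ℂ (a * x))
      = (1 / (a * starRingEnd ℂ a)) * (1 / (x * starRingEnd ℂ x)) := by
    simp only [map_mul, one_div, mul_inv]; ring
  unfold T1k
  rw [bdry33_rho, bdry33_NNk, h1]
  have := bdry33_one (1 / (a * starRingEnd ℂ a)) (x * starRingEnd ℂ x)
  calc _ = rho a b * NNk a b * ((x * starRingEnd ℂ x) * (1 / (x * starRingEnd ℂ x) ^ 3)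
        * ((1 / (a * starRingEnd ℂ a)) * (1 / (x * starRingEnd ℂ x)))) := by ring
    _ = _ := by rw [this]; ring

theorem bdry33_T2k (a b x : ℂ) :
    T2k (a * x) (b * x) = T2k a b * (1 / (x * starRingEnd ℂ x) ^ 3) := by
  have h1 : (1 : ℂ) / (b * x * starRingEnd ℂ (b * x))
      = (1 / (b * starRingEnd ℂ b)) * (1 / (x * starRingEnd ℂ x)) := by
    simp only [map_mul, one_div, mul_inv]; ring
  unfold T2k
  rw [bdry33_rho, bdry33_NNk, h1]
  have := bdry33_one (1 / (b * starRingEnd ℂ b)) (x * starRingEnd ℂ x)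
  calc _ = rho a b * NNk a b * ((x * starRingEnd ℂ x) * (1 / (x * starRingEnd ℂ x) ^ 3)
        * ((1 / (b * starRingEnd ℂ b)) * (1 / (x * starRingEnd ℂ x)))) := by ring
    _ = _ := by rw [this]; ring

theorem bdry33_T3k (a b x : ℂ) :
    T3k (a * x) (b * x) = T3k a b * (1 / (x * starRingEnd ℂ x) ^ 3) := by
  have h0 : a * x + b * x = (a + b) * x := by ring
  have h1 : (1 : ℂ) / ((a + b) * x * starRingEnd ℂ ((a + b) * x))
      = (1 / ((a + b) * starRingEnd ℂ (a + b))) * (1 / (x * starRingEnd ℂ x)) := by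
    simp only [map_mul, one_div, mul_inv]; ring
  unfold T3k
  rw [bdry33_rho, bdry33_NNk, h0, h1]
  have := bdry33_one (1 / ((a + b) * starRingEnd ℂ (a + b))) (x * starRingEnd ℂ x)
  calc _ = rho a b * NNk a b * ((x * starRingEnd ℂ x) * (1 / (x * starRingEnd ℂ x) ^ 3)
        * ((1 / ((a + b) * starRingEnd ℂ (a + b))) * (1 / (x * starRingEnd ℂ x)))) := by ring
    _ = _ := by rw [this]; ring

theorem bdry33_F33a (p q x : ℂ) :
    F33a (p * x) (q * x) = F33a p q * (1 / (x * starRingEnd ℂ x) ^ 3) := by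
  have e1 : -(p * x - q * x) = (-(p - q)) * x := by ring
  have e2 : -(p * x - om * (q * x)) = (-(p - om * q)) * x := by ring
  have e3 : p * x - q * x = (p - q) * x := by ring
  have e4 : omb * (p * x) = (omb * p) * x := by ring
  have e5 : om * (p * x - q * x) = (om * (p - q)) * x := by ring
  unfold F33a
  rw [e1, e2, e5, e4, e3]
  simp only [bdry33_NNk, bdry33_T1k, bdry33_T2k, bdry33_T3k]
  ring

theorem bdry33_F33b (p q x : ℂ) :
    F33b (p * x) (q * x) = F33b p q * (1 / (x * starRingEnd ℂ x) ^ 3) := by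
  have e1 : -(p * x - q * x) = (-(p - q)) * x := by ring
  have e2 : -(p * x - om * (q * x)) = (-(p - om * q)) * x := by ring
  have e3 : p * x - q * x = (p - q) * x := by ring
  have e4 : omb * (p * x) = (omb * p) * x := by ring
  have e5 : om * (p * x - q * x) = (om * (p - q)) * x := by ring
  unfold F33b
  rw [e1, e2, e5, e4, e3]
  simp only [bdry33_NNk, bdry33_T1k, bdry33_T2k, bdry33_T3k]
  ring

/-- value of `rho`, `NNk` on explicit points, through their norms -/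
theorem bdry33_val {a b : ℂ} (r na nb ns : ℂ) (hr : rho a b = r) (ha : a * starRingEnd ℂ a = na)
    (hb : b * starRingEnd ℂ b = nb) (hs : (a + b) * starRingEnd ℂ (a + b) = ns) :
    NNk a b = 1 / (na * nb * ns) ∧ T1k a b = r * (1 / (na * nb * ns)) * (1 / na)
      ∧ T2k a b = r * (1 / (na * nb * ns)) * (1 / nb)
      ∧ T3k a b = r * (1 / (na * nb * ns)) * (1 / ns) := by
  unfold T1k T2k T3k NNk
  rw [hr, ha, hb, hs]
  exact ⟨rfl, rfl, rfl, rfl⟩

theorem bdry33_conj_om : starRingEnd ℂ om = (1 - rt) / 2 := by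
  rw [conj_om, omb, om]; ring
theorem bdry33_conj_omb : starRingEnd ℂ omb = (1 + rt) / 2 := by
  rw [omb, map_sub, map_one, conj_om, omb, om]; ring

/-- `T` kernels with a vanishing first, second or third point are zero -/
theorem bdry33_z1 (b : ℂ) : NNk 0 b = 0 ∧ T1k 0 b = 0 ∧ T2k 0 b = 0 ∧ T3k 0 b = 0 := by
  simp [NNk, T1k, T2k, T3k]
theorem bdry33_z2 (a : ℂ) : NNk a 0 = 0 ∧ T1k a 0 = 0 ∧ T2k a 0 = 0 ∧ T3k a 0 = 0 := by
  simp [NNk, T1k, T2k, T3k]
theorem bdry33_z3 (a : ℂ) : NNk a (-a) = 0 ∧ T1k a (-a) = 0 ∧ T2k a (-a) = 0 ∧ T3k a (-a) = 0 := by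
  simp [NNk, T1k, T2k, T3k]

theorem bdry33_norm_om : om * starRingEnd ℂ om = 2 := by rw [conj_om, om_mul_omb]
theorem bdry33_rt_mul : rt * rt = -7 := by rw [← sq, rt_sq]

/-- the pair `(-1, om)` -/
theorem bdry33_p1 : NNk (-1) om = 1 / 4 ∧ T1k (-1) om = -rt / 4 ∧ T2k (-1) om = -rt / 8
    ∧ T3k (-1) om = -rt / 8 := by
  have hr : rho (-1) om = -rt := by
    rw [rho, bdry33_conj_om, om, map_neg, map_one]; ring
  have ha : (-1 : ℂ) * starRingEnd ℂ (-1) = 1 := by rw [map_neg, map_one]; ring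
  have hs : (-1 + om) * starRingEnd ℂ (-1 + om) = 2 := by
    rw [map_add, bdry33_conj_om, om, map_neg, map_one]
    linear_combination (-1 / 4 : ℂ) * bdry33_rt_mul
  obtain ⟨v0, v1, v2, v3⟩ := bdry33_val (-rt) 1 2 2 hr ha bdry33_norm_om hs
  rw [v0, v1, v2, v3]
  refine ⟨by norm_num, by ring, by ring, by ring⟩

/-- the pair `(1, -(1 - om))` -/
theorem bdry33_p2 : NNk 1 (-(1 - om)) = 1 / 4 ∧ T1k 1 (-(1 - om)) = rt / 4
    ∧ T2k 1 (-(1 - om)) = rt / 8 ∧ T3k 1 (-(1 - om)) = rt / 8 := by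
  have hr : rho 1 (-(1 - om)) = rt := by
    rw [rho, map_neg, map_sub, bdry33_conj_om, om, map_one]; ring
  have ha : (1 : ℂ) * starRingEnd ℂ 1 = 1 := by rw [map_one]; ring
  have hb : -(1 - om) * starRingEnd ℂ (-(1 - om)) = 2 := by
    rw [map_neg, map_sub, bdry33_conj_om, om, map_one]
    linear_combination (-1 / 4 : ℂ) * bdry33_rt_mul
  have hs : (1 + -(1 - om)) * starRingEnd ℂ (1 + -(1 - om)) = 2 := by
    have : (1 : ℂ) + -(1 - om) = om := by ring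
    rw [this, bdry33_norm_om]
  obtain ⟨v0, v1, v2, v3⟩ := bdry33_val rt 1 2 2 hr ha hb hs
  rw [v0, v1, v2, v3]
  refine ⟨by norm_num, by ring, by ring, by ring⟩

/-- the pair `(om, -(om - 1))` -/
theorem bdry33_p3 : NNk om (-(om - 1)) = 1 / 4 ∧ T1k om (-(om - 1)) = -rt / 8
    ∧ T2k om (-(om - 1)) = -rt / 8 ∧ T3k om (-(om - 1)) = -rt / 4 := by
  have hr : rho om (-(om - 1)) = -rt := by
    rw [rho, map_neg, map_sub, bdry33_conj_om, om, map_one]; ring
  have hb : -(om - 1) * starRingEnd ℂ (-(om - 1)) = 2 := by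
    rw [map_neg, map_sub, bdry33_conj_om, om, map_one]
    linear_combination (-1 / 4 : ℂ) * bdry33_rt_mul
  have hs : (om + -(om - 1)) * starRingEnd ℂ (om + -(om - 1)) = 1 := by
    have : om + -(om - 1) = 1 := by ring
    rw [this, map_one]; ring
  obtain ⟨v0, v1, v2, v3⟩ := bdry33_val (-rt) 2 2 1 hr bdry33_norm_om hb hs
  rw [v0, v1, v2, v3]
  refine ⟨by norm_num, by ring, by ring, by ring⟩

/-- the pair `(omb, om)` -/
theorem bdry33_p4 : NNk omb om = 1 / 4 ∧ T1k omb om = rt / 8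
    ∧ T2k omb om = rt / 8 ∧ T3k omb om = rt / 4 := by
  have hr : rho omb om = rt := by
    rw [rho, bdry33_conj_omb, bdry33_conj_om, omb, om]; ring
  have ha : omb * starRingEnd ℂ omb = 2 := by
    rw [bdry33_conj_omb, omb, om]
    linear_combination (-1 / 4 : ℂ) * bdry33_rt_mul
  have hs : (omb + om) * starRingEnd ℂ (omb + om) = 1 := by
    have : omb + om = 1 := by rw [omb]; ring
    rw [this, map_one]; ring
  obtain ⟨v0, v1, v2, v3⟩ := bdry33_val rt 2 2 1 hr ha bdry33_norm_om hs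
  rw [v0, v1, v2, v3]
  refine ⟨by norm_num, by ring, by ring, by ring⟩

theorem bdry33_a0 : F33a 0 1 = 3 / 2 := by
  have h1 : (0 : ℂ) - 1 = -1 := by ring
  have h2 : -((0 : ℂ) - om * 1) = om := by ring
  have h3 : omb * 0 = 0 := by ring
  obtain ⟨v0, v1, v2, v3⟩ := bdry33_p1
  unfold F33a
  rw [h3, h2, h1, (bdry33_z1 _).1, (bdry33_z1 _).2.1, (bdry33_z1 _).2.2.1, (bdry33_z1 _).2.2.2,
    (bdry33_z1 _).2.1, (bdry33_z1 _).2.2.2, (bdry33_z1 _).2.1, (bdry33_z1 _).2.2.1, v1, v3]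
  linear_combination (-3 / 14 : ℂ) * bdry33_rt_mul

theorem bdry33_b0 : F33b 0 1 = 1 / 2 := by
  have h1 : (0 : ℂ) - 1 = -1 := by ring
  have h2 : -((0 : ℂ) - om * 1) = om := by ring
  have h3 : omb * 0 = 0 := by ring
  obtain ⟨v0, v1, v2, v3⟩ := bdry33_p1
  unfold F33b
  rw [h3, h2, h1]
  simp only [(bdry33_z1 _).1, (bdry33_z1 _).2.1, (bdry33_z1 _).2.2.1, (bdry33_z1 _).2.2.2, v2, v3]
  linear_combination (-1 / 14 : ℂ) * bdry33_rt_mul

theorem bdry33_a1 : F33a 1 1 = 3 / 2 := by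
  have h1 : (1 : ℂ) - 1 = 0 := by ring
  have h2 : -((1 : ℂ) - om * 1) = -(1 - om) := by ring
  obtain ⟨v0, v1, v2, v3⟩ := bdry33_p2
  unfold F33a
  rw [h2, h1, neg_zero, mul_zero]
  simp only [(bdry33_z1 _).1, (bdry33_z1 _).2.1, (bdry33_z1 _).2.2.1, (bdry33_z1 _).2.2.2,
    (bdry33_z2 _).1, (bdry33_z2 _).2.1, (bdry33_z2 _).2.2.1, (bdry33_z2 _).2.2.2, v1, v3]
  linear_combination (-3 / 14 : ℂ) * bdry33_rt_mul

theorem bdry33_b1 : F33b 1 1 = 1 := by
  have h1 : (1 : ℂ) - 1 = 0 := by ring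
  have h2 : -((1 : ℂ) - om * 1) = -(1 - om) := by ring
  obtain ⟨v0, v1, v2, v3⟩ := bdry33_p2
  unfold F33b
  rw [h2, h1, neg_zero, mul_zero]
  simp only [(bdry33_z1 _).1, (bdry33_z1 _).2.1, (bdry33_z1 _).2.2.1, (bdry33_z1 _).2.2.2,
    (bdry33_z2 _).1, (bdry33_z2 _).2.1, (bdry33_z2 _).2.2.1, (bdry33_z2 _).2.2.2, v0, v1, v2, v3]
  linear_combination (-3 / 28 : ℂ) * bdry33_rt_mul

theorem bdry33_a2 : F33a om 1 = 1 := by
  have h2 : -(om - om * 1) = 0 := by ring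
  have h3 : om * (om - 1) = -(omb * om) := by rw [omb]; ring
  obtain ⟨v0, v1, v2, v3⟩ := bdry33_p3
  unfold F33a
  rw [h2, h3]
  simp only [(bdry33_z1 _).1, (bdry33_z1 _).2.1, (bdry33_z1 _).2.2.1, (bdry33_z1 _).2.2.2,
    (bdry33_z2 _).1, (bdry33_z2 _).2.1, (bdry33_z2 _).2.2.1, (bdry33_z2 _).2.2.2,
    (bdry33_z3 _).1, (bdry33_z3 _).2.1, (bdry33_z3 _).2.2.1, (bdry33_z3 _).2.2.2, v0, v1, v2, v3]
  linear_combination (-3 / 28 : ℂ) * bdry33_rt_mul

theorem bdry33_b2 : F33b om 1 = 3 / 16 := by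
  have h2 : -(om - om * 1) = 0 := by ring
  have h3 : om * (om - 1) = -(omb * om) := by rw [omb]; ring
  obtain ⟨v0, v1, v2, v3⟩ := bdry33_p3
  unfold F33b
  rw [h2, h3]
  simp only [(bdry33_z1 _).1, (bdry33_z1 _).2.1, (bdry33_z1 _).2.2.1, (bdry33_z1 _).2.2.2,
    (bdry33_z2 _).1, (bdry33_z2 _).2.1, (bdry33_z2 _).2.2.1, (bdry33_z2 _).2.2.2,
    (bdry33_z3 _).1, (bdry33_z3 _).2.1, (bdry33_z3 _).2.2.1, (bdry33_z3 _).2.2.2, v0, v1, v2, v3]
  linear_combination (-3 / 112 : ℂ) * bdry33_rt_mul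

theorem bdry33_a3 : F33a 1 0 = 4 := by
  have h1 : (1 : ℂ) - 0 = 1 := by ring
  have h2 : -((1 : ℂ) - om * 0) = -1 := by ring
  obtain ⟨v0, v1, v2, v3⟩ := bdry33_p4
  unfold F33a
  rw [h2, h1, mul_one, mul_one]
  simp only [(bdry33_z3 _).1, (bdry33_z3 _).2.1, (bdry33_z3 _).2.2.1, (bdry33_z3 _).2.2.2,
    v0, v1, v2, v3]
  linear_combination (-4 / 7 : ℂ) * bdry33_rt_mul

theorem bdry33_b3 : F33b 1 0 = 3 / 2 := by
  have h1 : (1 : ℂ) - 0 = 1 := by ring
  have h2 : -((1 : ℂ) - om * 0) = -1 := by ring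
  obtain ⟨v0, v1, v2, v3⟩ := bdry33_p4
  unfold F33b
  rw [h2, h1, mul_one, mul_one]
  simp only [(bdry33_z3 _).1, (bdry33_z3 _).2.1, (bdry33_z3 _).2.2.1, (bdry33_z3 _).2.2.2,
    v0, v1, v2, v3]
  linear_combination (-3 / 14 : ℂ) * bdry33_rt_mul

theorem bdry33a (x : ℂ) :
    F33a 0 x + F33a x x + F33a (om * x) x + F33a x 0 = 8 * (1 / (x * starRingEnd ℂ x) ^ 3) := by
  have h0 := bdry33_F33a 0 1 x
  have h1 := bdry33_F33a 1 1 x
  have h2 := bdry33_F33a om 1 x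
  have h3 := bdry33_F33a 1 0 x
  rw [zero_mul, one_mul, bdry33_a0] at h0
  rw [one_mul, bdry33_a1] at h1
  rw [one_mul, bdry33_a2] at h2
  rw [zero_mul, one_mul, bdry33_a3] at h3
  rw [h0, h1, h2, h3]; ring
theorem bdry33b (x : ℂ) :
    F33b 0 x + F33b x x + F33b (om * x) x + F33b x 0 = 51 / 16 * (1 / (x * starRingEnd ℂ x) ^ 3) := by
  have h0 := bdry33_F33b 0 1 x
  have h1 := bdry33_F33b 1 1 x
  have h2 := bdry33_F33b om 1 x
  have h3 := bdry33_F33b 1 0 x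
  rw [zero_mul, one_mul, bdry33_b0] at h0
  rw [one_mul, bdry33_b1] at h1
  rw [one_mul, bdry33_b2] at h2
  rw [zero_mul, one_mul, bdry33_b3] at h3
  rw [h0, h1, h2, h3]; ring

end MM7
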