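import Pool.Agent.MM7.Defs4
import Pool.Agent.MM7.Arith4

/-!
# MM7, Part 4, module LineSum

The function v ↦ F (xx v.1) (xx v.2) vanishes outside the union of the four families
{(0,p)}, {(p,p)}, {(mulPi p, p)}, {(p,0)}, p ≠ 0, which are pairwise disjoint (and 0 contributes F 0 0 = 0; on the right side p = 0
contributes 4 F 0 0 = 0). Indeed xx v.1 - om xx v.2 = 0 iff v.1 = mulPi v.2 etc. Split the sum
(e.g. Summable.tsum_subtype / tsum over a Sum type with an injective map from (Fin 4) × {p // p ≠ 0}, or four times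
Function.Injective.tsum_eq on indicator functions).
-/

open Real MeasureTheory Set Filter Topology

namespace MM7

private lemma lineSum_xx_inj {p r : ℤ × ℤ} (h : xx p - xx r = 0) : p = r := by
  have h1 : xx (p + -r) = 0 := by
    rw [xx_add, xx_neg, ← sub_eq_add_neg]
    exact h
  have h2 := (xx_eq_zero _).1 h1
  exact add_neg_eq_zero.1 h2

private lemma lineSum_xx_zero : xx 0 = 0 := (xx_eq_zero 0).2 rfl

private lemma lineSum_mulPi_zero : mulPi 0 = 0 := by
  simp [mulPi]

private lemma lineSum_fix {p : ℤ × ℤ} (h : p = mulPi p) : p = 0 := by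
  have h1 := congrArg Prod.fst h
  have h2 := congrArg Prod.snd h
  simp only [mulPi] at h1 h2
  ext
  · simp only [Prod.fst_zero]
    omega
  · simp only [Prod.snd_zero]
    omega

private lemma lineSum_piece (g : (ℤ × ℤ) × (ℤ × ℤ) → ℂ) (i : ℤ × ℤ → (ℤ × ℤ) × (ℤ × ℤ))
    (hi : Function.Injective i) :
    ∑' v, (Set.range i).indicator g v = ∑' p, g (i p) := by
  rw [← tsum_subtype, tsum_range g hi]

theorem line_sum {F : ℂ → ℂ → ℂ}
    (h0 : ∀ x y : ℂ, x ≠ 0 → x - y ≠ 0 → x - om * y ≠ 0 → y ≠ 0 → F x y = 0)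
    (h00 : F 0 0 = 0)
    (hs : Summable fun v : (ℤ × ℤ) × (ℤ × ℤ) => F (xx v.1) (xx v.2)) :
    ∑' v : (ℤ × ℤ) × (ℤ × ℤ), F (xx v.1) (xx v.2)
      = ∑' p : ℤ × ℤ, (F 0 (xx p) + F (xx p) (xx p) + F (om * xx p) (xx p) + F (xx p) 0) := by
  classical
  set g : (ℤ × ℤ) × (ℤ × ℤ) → ℂ := fun v => F (xx v.1) (xx v.2) with hg
  set i1 : ℤ × ℤ → (ℤ × ℤ) × (ℤ × ℤ) := fun p => (0, p) with hi1
  set i2 : ℤ × ℤ → (ℤ × ℤ) × (ℤ × ℤ) := fun p => (p, p) with hi2
  set i3 : ℤ × ℤ → (ℤ × ℤ) × (ℤ × ℤ) := fun p => (mulPi p, p) with hi3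
  set i4 : ℤ × ℤ → (ℤ × ℤ) × (ℤ × ℤ) := fun p => (p, 0) with hi4
  have j1 : Function.Injective i1 := fun a b h => congrArg Prod.snd h
  have j2 : Function.Injective i2 := fun a b h => congrArg Prod.snd h
  have j3 : Function.Injective i3 := fun a b h => congrArg Prod.snd h
  have j4 : Function.Injective i4 := fun a b h => congrArg Prod.fst h
  have m1 : ∀ v : (ℤ × ℤ) × (ℤ × ℤ), v ∈ Set.range i1 ↔ v.1 = 0 := by
    intro v
    constructor
    · rintro ⟨p, rfl⟩
      rfl
    · intro h
      exact ⟨v.2, Prod.ext h.symm rfl⟩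
  have m2 : ∀ v : (ℤ × ℤ) × (ℤ × ℤ), v ∈ Set.range i2 ↔ v.1 = v.2 := by
    intro v
    constructor
    · rintro ⟨p, rfl⟩
      rfl
    · intro h
      exact ⟨v.2, Prod.ext h.symm rfl⟩
  have m3 : ∀ v : (ℤ × ℤ) × (ℤ × ℤ), v ∈ Set.range i3 ↔ v.1 = mulPi v.2 := by
    intro v
    constructor
    · rintro ⟨p, rfl⟩
      rfl
    · intro h
      exact ⟨v.2, Prod.ext h.symm rfl⟩
  have m4 : ∀ v : (ℤ × ℤ) × (ℤ × ℤ), v ∈ Set.range i4 ↔ v.2 = 0 := by
    intro v
    constructor
    · rintro ⟨p, rfl⟩
      rfl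
    · intro h
      exact ⟨v.1, Prod.ext rfl h.symm⟩
  have hpt : ∀ v, g v = (Set.range i1).indicator g v + (Set.range i2).indicator g v
      + (Set.range i3).indicator g v + (Set.range i4).indicator g v := by
    intro v
    simp only [Set.indicator_apply, m1, m2, m3, m4]
    by_cases hv : v = 0
    · have : g v = 0 := by
        rw [hv, hg]
        simp only [Prod.fst_zero, Prod.snd_zero, lineSum_xx_zero]
        exact h00
      simp [this]
    · by_cases a1 : v.1 = 0
      · have b4 : v.2 ≠ 0 := fun h => hv (Prod.ext a1 h)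
        have b2 : v.1 ≠ v.2 := fun h => b4 (by rw [← h, a1])
        have b3 : v.1 ≠ mulPi v.2 := by
          intro h
          rw [a1] at h
          exact b4 (mulPi_injective (h.symm.trans lineSum_mulPi_zero.symm))
        simp only [if_pos a1, if_neg b2, if_neg b3, if_neg b4, add_zero]
      · by_cases a2 : v.1 = v.2
        · have b4 : v.2 ≠ 0 := fun h => a1 (a2.trans h)
          have b3 : v.1 ≠ mulPi v.2 := by
            intro h
            rw [a2] at h
            exact b4 (lineSum_fix h)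
          simp only [if_neg a1, if_pos a2, if_neg b3, if_neg b4, add_zero, zero_add]
        · by_cases a3 : v.1 = mulPi v.2
          · have b4 : v.2 ≠ 0 := by
              intro h
              rw [h, lineSum_mulPi_zero] at a3
              exact a1 a3
            simp only [if_neg a1, if_neg a2, if_pos a3, if_neg b4, add_zero, zero_add]
          · by_cases a4 : v.2 = 0
            · simp only [if_neg a1, if_neg a2, if_neg a3, if_pos a4, zero_add]
            · simp only [if_neg a1, if_neg a2, if_neg a3, if_neg a4, add_zero]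
              refine h0 _ _ ?_ ?_ ?_ ?_
              · exact fun h => a1 ((xx_eq_zero _).1 h)
              · exact fun h => a2 (lineSum_xx_inj h)
              · intro h
                rw [← xx_mulPi] at h
                exact a3 (lineSum_xx_inj h)
              · exact fun h => a4 ((xx_eq_zero _).1 h)
  have s1 := hs.indicator (Set.range i1)
  have s2 := hs.indicator (Set.range i2)
  have s3 := hs.indicator (Set.range i3)
  have s4 := hs.indicator (Set.range i4)
  have hsum : ∑' v, g v = ∑' p, g (i1 p) + ∑' p, g (i2 p) + ∑' p, g (i3 p) + ∑' p, g (i4 p) := by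
    rw [← lineSum_piece g i1 j1, ← lineSum_piece g i2 j2, ← lineSum_piece g i3 j3,
      ← lineSum_piece g i4 j4, ← Summable.tsum_add s1 s2, ← Summable.tsum_add (s1.add s2) s3,
      ← Summable.tsum_add ((s1.add s2).add s3) s4]
    exact tsum_congr hpt
  rw [hsum]
  have t1 : Summable fun p => g (i1 p) := hs.comp_injective j1
  have t2 : Summable fun p => g (i2 p) := hs.comp_injective j2
  have t3 : Summable fun p => g (i3 p) := hs.comp_injective j3
  have t4 : Summable fun p => g (i4 p) := hs.comp_injective j4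
  rw [← Summable.tsum_add t1 t2, ← Summable.tsum_add (t1.add t2) t3,
    ← Summable.tsum_add ((t1.add t2).add t3) t4]
  refine tsum_congr fun p => ?_
  simp only [hg, hi1, hi2, hi3, hi4, lineSum_xx_zero, xx_mulPi]

end MM7
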