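import Pool.Agent.MM7.Defs4
import Pool.Agent.MM7.Arith4

/-!
# MM7, Part 4, module Rel33

Pointwise rational identities. Put w = rt (w² = -7, conj w = -w), om = (1+w)/2, omb = (1-w)/2; replace conj x, conj y by
independent variables x', y' (conj (x - om y) = x' - omb y', ...). After clearing denominators ((x)(x-y)(x-om y)(y))^2 and the
same with primes, both sides are bihomogeneous polynomials of bidegree (5,5) in (x,y),(x',y') with coefficients in ℤ[w]: 36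
monomials. Prove first a general lemma with variables x y x' y' w, hypotheses w^2 = -7 and 8 non-vanishings; `field_simp` then
`linear_combination (e) * hw` (find e by polynomial division, or substitute om², om*omb = 2 systematically and use `ring_nf`).
Checked exactly with rational arithmetic over ℚ(√-7).
-/

open Real MeasureTheory Set Filter Topology

namespace MM7


/-- polynomial identity behind `rel33a` -/
theorem Rel33_polyA (x y x' y' o : ℂ) (ho : o ^ 2 - o + 2 = 0) :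
    -(2 * o - 1) * (x * x') * ((x - y) * (x' - y')) * ((x - o * y) * (x' - (1 - o) * y')) * (y * y')
    + 2 * (x' * y - x * y') * ((x - y) * (x' - y') + x * x') * ((x - o * y) * (x' - (1 - o) * y')) * (y * y')
    + (x' * y - x * y') * (x * x') * ((x - y) * (x' - y')) * ((x - o * y) * (x' - (1 - o) * y'))
    - (o * x' * y - (1 - o) * x * y') * ((x - y) * (x' - y')) ^ 2 * (2 * (y * y') + x * x')
    + (-((x' - y') * (x - o * y)) + (x - y) * (x' - (1 - o) * y')) * (x * x') ^ 2 *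
      (2 * (y * y') + (x - y) * (x' - y'))
    - 2 * (o * o * x' * (x - y) - (1 - o) * (1 - o) * x * (x' - y')) *
      ((x - y) * (x' - y') + x * x') * (y * y') ^ 2 = 0 := by
  linear_combination ((-1)*x*y^3*x'*y'^3 + 2*x*y^3*x'*y'^3*o + 2*x*y^3*x'^2*y'^2 + (-2)*x*y^3*x'^2*y'^2*o + (-1)*x*y^3*x'^3*y' + (-2)*x^2*y^2*x'*y'^3*o + (-1)*x^2*y^2*x'^2*y'^2 + 2*x^2*y^2*x'^2*y'^2*o + 1*x^2*y^2*x'^3*y' + 1*x^3*y*x'*y'^3 + (-1)*x^3*y*x'^2*y'^2) * ho

/-- polynomial identity behind `rel33b` -/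
theorem Rel33_polyB (x y x' y' o : ℂ) (ho : o ^ 2 - o + 2 = 0) :
    -(2 * o - 1) * (x * x') * ((x - y) * (x' - y')) * ((x - o * y) * (x' - (1 - o) * y')) * (y * y')
    + (x' * y - x * y') * ((x - o * y) * (x' - (1 - o) * y')) ^ 2 * (y * y' + x * x')
    - (o * x' * y - (1 - o) * x * y') * ((x - y) * (x' - y')) * ((x - o * y) * (x' - (1 - o) * y')) * (y * y')
    - (o * x' * y - (1 - o) * x * y') * (2 * (x * x') * ((x - y) * (x' - y')) * (y * y')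
      + x * x' * ((x - y) * (x' - y')) * ((x - o * y) * (x' - (1 - o) * y')))
    + (-((x' - y') * (x - o * y)) + (x - y) * (x' - (1 - o) * y')) *
      (2 * (x * x') ^ 2 * (y * y') + (x * x') ^ 2 * ((x - o * y) * (x' - (1 - o) * y')))
    - (o * o * x' * (x - y) - (1 - o) * (1 - o) * x * (x' - y')) *
      ((x - o * y) * (x' - (1 - o) * y') * (y * y') ^ 2 + 2 * (x * x') * (y * y') ^ 2) = 0 := by
  linear_combination ((-1)*x*y^3*x'^2*y'^2*o + 1*x*y^3*x'^2*y'^2*o^2 + 1*x*y^3*x'^3*y'*o + 1*x^2*y^2*x'*y'^3*o + (-1)*x^2*y^2*x'*y'^3*o^2 + 1*x^2*y^2*x'^2*y'^2 + (-2)*x^2*y^2*x'^2*y'^2*o + (-1)*x^2*y^2*x'^3*y' + (-1)*x^3*y*x'*y'^3 + 1*x^3*y*x'*y'^3*o + 1*x^3*y*x'^2*y'^2) * ho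


theorem Rel33_T1 {a b r A B S : ℂ} (hr : rho a b = r) (hA : a * starRingEnd ℂ a = A)
    (hB : b * starRingEnd ℂ b = B) (hS : (a + b) * starRingEnd ℂ (a + b) = S) :
    T1k a b = r * (1 / (A * B * S)) * (1 / A) := by
  simp only [T1k, NNk, hr, hA, hB, hS]

theorem Rel33_T2 {a b r A B S : ℂ} (hr : rho a b = r) (hA : a * starRingEnd ℂ a = A)
    (hB : b * starRingEnd ℂ b = B) (hS : (a + b) * starRingEnd ℂ (a + b) = S) :
    T2k a b = r * (1 / (A * B * S)) * (1 / B) := by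
  simp only [T2k, NNk, hr, hA, hB, hS]

theorem Rel33_T3 {a b r A B S : ℂ} (hr : rho a b = r) (hA : a * starRingEnd ℂ a = A)
    (hB : b * starRingEnd ℂ b = B) (hS : (a + b) * starRingEnd ℂ (a + b) = S) :
    T3k a b = r * (1 / (A * B * S)) * (1 / S) := by
  simp only [T3k, NNk, hr, hA, hB, hS]

theorem Rel33_N {a b A B S : ℂ} (hA : a * starRingEnd ℂ a = A)
    (hB : b * starRingEnd ℂ b = B) (hS : (a + b) * starRingEnd ℂ (a + b) = S) :
    NNk a b = 1 / (A * B * S) := by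
  simp only [NNk, hA, hB, hS]

theorem Rel33_ratA {X U P Y r1 r2 r3 r4 w : ℂ} (hw : w ^ 2 = -7) (hX : X ≠ 0) (hU : U ≠ 0)
    (hP : P ≠ 0) (hY : Y ≠ 0)
    (h : -w * X * U * P * Y + 2 * r1 * (U + X) * P * Y + r1 * X * U * P
      - r2 * U ^ 2 * (2 * Y + X) + r3 * X ^ 2 * (2 * Y + U) - 2 * r4 * (U + X) * Y ^ 2 = 0) :
    1 / (X * U * Y) + 2 * w / 7 * (r1 * (1 / (X * U * Y)) * (1 / X) + r1 * (1 / (X * U * Y)) * (1 / U))
    + w / 7 * (r1 * (1 / (X * U * Y)) * (1 / Y))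
    - 4 * w / 7 * (r2 * (1 / (X * P * (2 * Y))) * (1 / X) + r2 * (1 / (X * P * (2 * Y))) * (1 / (2 * Y)))
    + 4 * w / 7 * (r3 * (1 / (U * P * (2 * Y))) * (1 / U) + r3 * (1 / (U * P * (2 * Y))) * (1 / (2 * Y)))
    - 16 * w / 7 * (r4 * (1 / ((2 * X) * (2 * U) * P)) * (1 / (2 * X))
      + r4 * (1 / ((2 * X) * (2 * U) * P)) * (1 / (2 * U))) = 0 := by
  have hfac : 1 / (X * U * Y) + 2 * w / 7 * (r1 * (1 / (X * U * Y)) * (1 / X) + r1 * (1 / (X * U * Y)) * (1 / U))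
    + w / 7 * (r1 * (1 / (X * U * Y)) * (1 / Y))
    - 4 * w / 7 * (r2 * (1 / (X * P * (2 * Y))) * (1 / X) + r2 * (1 / (X * P * (2 * Y))) * (1 / (2 * Y)))
    + 4 * w / 7 * (r3 * (1 / (U * P * (2 * Y))) * (1 / U) + r3 * (1 / (U * P * (2 * Y))) * (1 / (2 * Y)))
    - 16 * w / 7 * (r4 * (1 / ((2 * X) * (2 * U) * P)) * (1 / (2 * X))
      + r4 * (1 / ((2 * X) * (2 * U) * P)) * (1 / (2 * U)))
    = (w * (-w * X * U * P * Y + 2 * r1 * (U + X) * P * Y + r1 * X * U * P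
      - r2 * U ^ 2 * (2 * Y + X) + r3 * X ^ 2 * (2 * Y + U) - 2 * r4 * (U + X) * Y ^ 2)
      + (w ^ 2 + 7) * (X * U * P * Y)) / (7 * X ^ 2 * U ^ 2 * P * Y ^ 2) := by
    field_simp
    ring
  rw [hfac, h, hw]
  simp

theorem Rel33_ratB {X U P Y r1 r2 r3 r4 w : ℂ} (hw : w ^ 2 = -7) (hX : X ≠ 0) (hU : U ≠ 0)
    (hP : P ≠ 0) (hY : Y ≠ 0)
    (h : -w * X * U * P * Y + r1 * P ^ 2 * (Y + X) - r2 * U * P * Y
      - r2 * (2 * X * U * Y + X * U * P) + r3 * (2 * X ^ 2 * Y + X ^ 2 * P)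
      - r4 * (P * Y ^ 2 + 2 * X * Y ^ 2) = 0) :
    1 / (X * P * (2 * Y)) + w / 14 * (r1 * (1 / (X * U * Y)) * (1 / X) + r1 * (1 / (X * U * Y)) * (1 / Y))
    - w / 7 * (r2 * (1 / (X * P * (2 * Y))) * (1 / X))
    - 2 * w / 7 * (r2 * (1 / (X * P * (2 * Y))) * (1 / P) + r2 * (1 / (X * P * (2 * Y))) * (1 / (2 * Y)))
    + 2 * w / 7 * (r3 * (1 / (U * P * (2 * Y))) * (1 / P) + r3 * (1 / (U * P * (2 * Y))) * (1 / (2 * Y)))
    - 4 * w / 7 * (r4 * (1 / ((2 * X) * (2 * U) * P)) * (1 / (2 * X))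
      + r4 * (1 / ((2 * X) * (2 * U) * P)) * (1 / P)) = 0 := by
  have hfac : 1 / (X * P * (2 * Y)) + w / 14 * (r1 * (1 / (X * U * Y)) * (1 / X) + r1 * (1 / (X * U * Y)) * (1 / Y))
    - w / 7 * (r2 * (1 / (X * P * (2 * Y))) * (1 / X))
    - 2 * w / 7 * (r2 * (1 / (X * P * (2 * Y))) * (1 / P) + r2 * (1 / (X * P * (2 * Y))) * (1 / (2 * Y)))
    + 2 * w / 7 * (r3 * (1 / (U * P * (2 * Y))) * (1 / P) + r3 * (1 / (U * P * (2 * Y))) * (1 / (2 * Y)))
    - 4 * w / 7 * (r4 * (1 / ((2 * X) * (2 * U) * P)) * (1 / (2 * X))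
      + r4 * (1 / ((2 * X) * (2 * U) * P)) * (1 / P))
    = (w * (-w * X * U * P * Y + r1 * P ^ 2 * (Y + X) - r2 * U * P * Y
      - r2 * (2 * X * U * Y + X * U * P) + r3 * (2 * X ^ 2 * Y + X ^ 2 * P)
      - r4 * (P * Y ^ 2 + 2 * X * Y ^ 2))
      + (w ^ 2 + 7) * (X * U * P * Y)) / (14 * X ^ 2 * U * P ^ 2 * Y ^ 2) := by
    field_simp
    ring
  rw [hfac, h, hw]
  simp

theorem Rel33_conj_omb : starRingEnd ℂ omb = om := by
  rw [omb, map_sub, map_one, conj_om, omb]; ring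

theorem Rel33_ho : om ^ 2 - om + 2 = 0 := by rw [om_sq]; ring

theorem Rel33_rt : rt = 2 * om - 1 := by rw [om]; ring

section
variable (x y : ℂ)

theorem Rel33_rho1 : rho x (-(x - y)) = starRingEnd ℂ x * y - x * starRingEnd ℂ y := by
  simp only [rho, map_neg, map_sub]; ring

theorem Rel33_rho2 : rho x (-(x - om * y)) =
    om * starRingEnd ℂ x * y - (1 - om) * x * starRingEnd ℂ y := by
  simp only [rho, map_neg, map_sub, map_mul, conj_om, omb]; ring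

theorem Rel33_rho3 : rho (x - y) (-(x - om * y)) =
    -((starRingEnd ℂ x - starRingEnd ℂ y) * (x - om * y))
      + (x - y) * (starRingEnd ℂ x - (1 - om) * starRingEnd ℂ y) := by
  simp only [rho, map_neg, map_sub, map_mul, conj_om, omb]; ring

theorem Rel33_rho4 : rho (omb * x) (om * (x - y)) =
    om * om * starRingEnd ℂ x * (x - y) - (1 - om) * (1 - om) * x *
      (starRingEnd ℂ x - starRingEnd ℂ y) := by
  simp only [rho, map_sub, map_mul, conj_om, Rel33_conj_omb]; rw [omb]; ring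

theorem Rel33_U : -(x - y) * starRingEnd ℂ (-(x - y)) =
    (x - y) * (starRingEnd ℂ x - starRingEnd ℂ y) := by
  simp only [map_neg, map_sub]; ring

theorem Rel33_U' : (x - y) * starRingEnd ℂ (x - y) =
    (x - y) * (starRingEnd ℂ x - starRingEnd ℂ y) := by
  simp only [map_sub]

theorem Rel33_Y1 : (x + -(x - y)) * starRingEnd ℂ (x + -(x - y)) = y * starRingEnd ℂ y := by
  simp only [map_neg, map_sub, map_add]; ring

theorem Rel33_P : -(x - om * y) * starRingEnd ℂ (-(x - om * y)) =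
    (x - om * y) * (starRingEnd ℂ x - (1 - om) * starRingEnd ℂ y) := by
  simp only [map_neg, map_sub, map_mul, conj_om, omb]; ring

theorem Rel33_Y2 : (x + -(x - om * y)) * starRingEnd ℂ (x + -(x - om * y)) =
    2 * (y * starRingEnd ℂ y) := by
  simp only [map_neg, map_sub, map_mul, map_add, conj_om]
  linear_combination (y * starRingEnd ℂ y) * om_mul_omb

theorem Rel33_Y3 : (x - y + -(x - om * y)) * starRingEnd ℂ (x - y + -(x - om * y)) =
    2 * (y * starRingEnd ℂ y) := by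
  simp only [map_neg, map_sub, map_mul, map_add, conj_om, omb]
  linear_combination (-y * starRingEnd ℂ y) * Rel33_ho

theorem Rel33_X2 : (omb * x) * starRingEnd ℂ (omb * x) = 2 * (x * starRingEnd ℂ x) := by
  simp only [map_mul, Rel33_conj_omb]
  linear_combination (x * starRingEnd ℂ x) * om_mul_omb

theorem Rel33_U2 : (om * (x - y)) * starRingEnd ℂ (om * (x - y)) =
    2 * ((x - y) * (starRingEnd ℂ x - starRingEnd ℂ y)) := by
  simp only [map_mul, map_sub, conj_om]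
  linear_combination ((x - y) * (starRingEnd ℂ x - starRingEnd ℂ y)) * om_mul_omb

theorem Rel33_P2 : (omb * x + om * (x - y)) * starRingEnd ℂ (omb * x + om * (x - y)) =
    (x - om * y) * (starRingEnd ℂ x - (1 - om) * starRingEnd ℂ y) := by
  simp only [map_mul, map_sub, map_add, conj_om, Rel33_conj_omb]
  rw [omb]; ring

end

theorem rel33a (x y : ℂ) (h0 : x ≠ 0) (h1 : x - y ≠ 0) (hp : x - om * y ≠ 0) (hi : y ≠ 0) :
    F33a x y = 0 := by
  have h0' : starRingEnd ℂ x ≠ 0 := (map_ne_zero _).2 h0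
  have hi' : starRingEnd ℂ y ≠ 0 := (map_ne_zero _).2 hi
  have h1' : starRingEnd ℂ x - starRingEnd ℂ y ≠ 0 := by
    rw [← map_sub]; exact (map_ne_zero _).2 h1
  have hp' : starRingEnd ℂ x - (1 - om) * starRingEnd ℂ y ≠ 0 := by
    have : starRingEnd ℂ (x - om * y) ≠ 0 := (map_ne_zero _).2 hp
    rwa [map_sub, map_mul, conj_om, omb] at this
  rw [F33a, Rel33_N rfl (Rel33_U x y) (Rel33_Y1 x y),
    Rel33_T1 (Rel33_rho1 x y) rfl (Rel33_U x y) (Rel33_Y1 x y),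
    Rel33_T2 (Rel33_rho1 x y) rfl (Rel33_U x y) (Rel33_Y1 x y),
    Rel33_T3 (Rel33_rho1 x y) rfl (Rel33_U x y) (Rel33_Y1 x y),
    Rel33_T1 (Rel33_rho2 x y) rfl (Rel33_P x y) (Rel33_Y2 x y),
    Rel33_T3 (Rel33_rho2 x y) rfl (Rel33_P x y) (Rel33_Y2 x y),
    Rel33_T1 (Rel33_rho3 x y) (Rel33_U' x y) (Rel33_P x y) (Rel33_Y3 x y),
    Rel33_T3 (Rel33_rho3 x y) (Rel33_U' x y) (Rel33_P x y) (Rel33_Y3 x y),
    Rel33_T1 (Rel33_rho4 x y) (Rel33_X2 x) (Rel33_U2 x y) (Rel33_P2 x y),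
    Rel33_T2 (Rel33_rho4 x y) (Rel33_X2 x) (Rel33_U2 x y) (Rel33_P2 x y)]
  refine Rel33_ratA rt_sq (mul_ne_zero h0 h0') (mul_ne_zero h1 h1') (mul_ne_zero hp hp')
    (mul_ne_zero hi hi') ?_
  rw [Rel33_rt]
  exact Rel33_polyA x y (starRingEnd ℂ x) (starRingEnd ℂ y) om Rel33_ho

theorem rel33b (x y : ℂ) (h0 : x ≠ 0) (h1 : x - y ≠ 0) (hp : x - om * y ≠ 0) (hi : y ≠ 0) :
    F33b x y = 0 := by
  have h0' : starRingEnd ℂ x ≠ 0 := (map_ne_zero _).2 h0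
  have hi' : starRingEnd ℂ y ≠ 0 := (map_ne_zero _).2 hi
  have h1' : starRingEnd ℂ x - starRingEnd ℂ y ≠ 0 := by
    rw [← map_sub]; exact (map_ne_zero _).2 h1
  have hp' : starRingEnd ℂ x - (1 - om) * starRingEnd ℂ y ≠ 0 := by
    have : starRingEnd ℂ (x - om * y) ≠ 0 := (map_ne_zero _).2 hp
    rwa [map_sub, map_mul, conj_om, omb] at this
  rw [F33b, Rel33_N rfl (Rel33_P x y) (Rel33_Y2 x y),
    Rel33_T1 (Rel33_rho1 x y) rfl (Rel33_U x y) (Rel33_Y1 x y),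
    Rel33_T3 (Rel33_rho1 x y) rfl (Rel33_U x y) (Rel33_Y1 x y),
    Rel33_T1 (Rel33_rho2 x y) rfl (Rel33_P x y) (Rel33_Y2 x y),
    Rel33_T2 (Rel33_rho2 x y) rfl (Rel33_P x y) (Rel33_Y2 x y),
    Rel33_T3 (Rel33_rho2 x y) rfl (Rel33_P x y) (Rel33_Y2 x y),
    Rel33_T2 (Rel33_rho3 x y) (Rel33_U' x y) (Rel33_P x y) (Rel33_Y3 x y),
    Rel33_T3 (Rel33_rho3 x y) (Rel33_U' x y) (Rel33_P x y) (Rel33_Y3 x y),
    Rel33_T1 (Rel33_rho4 x y) (Rel33_X2 x) (Rel33_U2 x y) (Rel33_P2 x y),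
    Rel33_T3 (Rel33_rho4 x y) (Rel33_X2 x) (Rel33_U2 x y) (Rel33_P2 x y)]
  refine Rel33_ratB rt_sq (mul_ne_zero h0 h0') (mul_ne_zero h1 h1') (mul_ne_zero hp hp')
    (mul_ne_zero hi hi') ?_
  rw [Rel33_rt]
  linear_combination Rel33_polyB x y (starRingEnd ℂ x) (starRingEnd ℂ y) om Rel33_ho

end MM7
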