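import Pool.Agent.MM7.Comps

/-!
# MM7, Part 4, module Sym33

All sums are absolutely convergent (KerBd). Write Σ[ω] k = WS ω k. Symmetries of the three points x1=a, x2=b, x3=-(a+b):
rho(b,a) = -rho(a,b), rho(a,-(a+b)) = -rho(a,b), rho(-(a+b), a) = rho(a,b); hence
T1k(a,-(a+b)) = -T1k(a,b), T2k(a,b) = -T1k(b,a), T3k(a,b) = T1k(-(a+b),a), T3k(b,a) = -T3k(a,b);
T*k(conj a, conj b) = -T*k(a,b) and conj T*k(a,b) = T*k(conj a, conj b) = -T*k(a,b) (purely imaginary).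
Reindexings of q = (q.1,q.2): swap, (q.1, -(q.1+q.2)), cyclic, conjugation p ↦ (p.1+p.2,-p.2) (xx_conj; exchanges ap and bp).
ap, bp are even functions, and ap(q.3) for q.3 = -(q.1+q.2) is ap(q.1+q.2).
Q = Σ[a2]T1, R = Σ[b1 a2]T1.
one: Σ T1 = 0 by (2 3)-swap, etc.  a3: Σ[a3]T1 = -Σ[a2]T1 = -Q; Σ[a3]T2 = -Σ[a3]T1 = Q (swap 1 2); Σ[a3]T3 = 0 (swap 1 2).
b3: conjugation: Σ[b3]T = -Σ[a3]T for T = T1,T2,T3.
ba: Σ[b1a2]T2 = -Σ[b2a1]T1 = +Σ[a2b1]T1 = R (swap 1 2, then conjugation).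
  Σ[b1a2]T3: pointwise a1+a2+a3 = 1 + 2 a0, where a0 = a1 a2 a3 = a1 a2 (for q.1+q.2+q.3 = 0: exactly one or all three
  divisible), so Σ[b1a1]T3 + Σ[b1a2]T3 + Σ[b1a3]T3 = Σ[b1]T3 + 2Σ[b1a0]T3.  Σ[b1a1]T3 = 0 (conjugation).
  Σ[b1a3]T3 = Σ[a1b2]T1 (cyclic) = -Σ[b1a2]T1 = -R;  Σ[b1]T3 = Σ[b2]T1 (cyclic) = -Σ[a2]T1 = -Q;
  Σ[b1a0]T3: q = mulPi-multiple of r, T3(om a, om b) = T3(a,b)/8, bp(mulPi r) = bp r: = (1/8) Σ[b1]T3 = -Q/8.
  So Σ[b1a2]T3 = R - Q - Q/4.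
re: Q and R are sums of purely imaginary numbers.
NN: NNk is symmetric: Σ[a1]=Σ[a2]=Σ[a3]; 3 Σ[a3]N = Σ N + 2Σ[a0]N = (1 + 2/8) Σ N (NNk(om a, om b) = NNk(a,b)/8).
-/

open Real MeasureTheory Set Filter Topology

namespace MM7

/-! ### symmetries of the kernels -/

theorem Sym33_rho_swap (a b : ℂ) : rho b a = -rho a b := by
  unfold rho; ring

theorem Sym33_rho_23 (a b : ℂ) : rho a (-(a + b)) = -rho a b := by
  unfold rho; simp only [map_neg, map_add]; ring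

theorem Sym33_rho_31 (a b : ℂ) : rho (-(a + b)) a = rho a b := by
  unfold rho; simp only [map_neg, map_add]; ring

theorem Sym33_rho_conj (a b : ℂ) :
    rho (starRingEnd ℂ a) (starRingEnd ℂ b) = -rho a b := by
  unfold rho; simp only [Complex.conj_conj]; ring

theorem Sym33_conj_rho (a b : ℂ) : starRingEnd ℂ (rho a b) = -rho a b := by
  unfold rho; simp only [map_sub, map_mul, Complex.conj_conj]; ring

theorem Sym33_NN_swap (a b : ℂ) : NNk b a = NNk a b := by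
  unfold NNk; congr 1; simp only [map_add]; ring

theorem Sym33_NN_23 (a b : ℂ) : NNk a (-(a + b)) = NNk a b := by
  unfold NNk; congr 1; simp only [map_add, map_neg]; ring

theorem Sym33_NN_31 (a b : ℂ) : NNk (-(a + b)) a = NNk a b := by
  unfold NNk; congr 1; simp only [map_add, map_neg]; ring

theorem Sym33_NN_conj (a b : ℂ) :
    NNk (starRingEnd ℂ a) (starRingEnd ℂ b) = NNk a b := by
  unfold NNk; congr 1; simp only [map_add, Complex.conj_conj]; ring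

theorem Sym33_conj_NN (a b : ℂ) : starRingEnd ℂ (NNk a b) = NNk a b := by
  unfold NNk
  simp only [map_div₀, map_one, map_mul, map_add, Complex.conj_conj]
  congr 1; ring

theorem Sym33_T1_23 (a b : ℂ) : T1k a (-(a + b)) = -T1k a b := by
  unfold T1k; rw [Sym33_rho_23, Sym33_NN_23]; ring

theorem Sym33_T2_swap (a b : ℂ) : T2k b a = -T1k a b := by
  unfold T1k T2k; rw [Sym33_rho_swap, Sym33_NN_swap]; ring

theorem Sym33_T3_swap (a b : ℂ) : T3k b a = -T3k a b := by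
  unfold T3k; rw [Sym33_rho_swap, Sym33_NN_swap, add_comm b a]; ring

theorem Sym33_T3_31 (a b : ℂ) : T3k b (-(a + b)) = T1k a b := by
  have h1 : rho b (-(a + b)) = rho a b := by
    unfold rho; simp only [map_neg, map_add]; ring
  have h2 : NNk b (-(a + b)) = NNk a b := by
    unfold NNk; congr 1; simp only [map_add, map_neg]; ring
  have h3 : b + -(a + b) = -a := by ring
  unfold T1k T3k
  rw [h1, h2, h3, map_neg, neg_mul_neg]

theorem Sym33_T1_conj (a b : ℂ) :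
    T1k (starRingEnd ℂ a) (starRingEnd ℂ b) = -T1k a b := by
  unfold T1k; rw [Sym33_rho_conj, Sym33_NN_conj, Complex.conj_conj, mul_comm (starRingEnd ℂ a) a]
  ring

theorem Sym33_T2_conj (a b : ℂ) :
    T2k (starRingEnd ℂ a) (starRingEnd ℂ b) = -T2k a b := by
  unfold T2k; rw [Sym33_rho_conj, Sym33_NN_conj, Complex.conj_conj, mul_comm (starRingEnd ℂ b) b]
  ring

theorem Sym33_T3_conj (a b : ℂ) :
    T3k (starRingEnd ℂ a) (starRingEnd ℂ b) = -T3k a b := by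
  unfold T3k
  rw [Sym33_rho_conj, Sym33_NN_conj, ← map_add, Complex.conj_conj,
    mul_comm (starRingEnd ℂ (a + b)) (a + b)]
  ring

theorem Sym33_conj_T1 (a b : ℂ) : starRingEnd ℂ (T1k a b) = -T1k a b := by
  unfold T1k
  rw [map_mul, map_mul, Sym33_conj_rho, Sym33_conj_NN, map_div₀, map_one, map_mul,
    Complex.conj_conj, mul_comm (starRingEnd ℂ a) a]
  ring

theorem Sym33_om_conj (z : ℂ) : om * z * starRingEnd ℂ (om * z) = 2 * (z * starRingEnd ℂ z) := by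
  rw [map_mul, conj_om, ← om_mul_omb]; ring

theorem Sym33_NN_om (a b : ℂ) : NNk (om * a) (om * b) = 1 / 8 * NNk a b := by
  unfold NNk
  rw [← mul_add, Sym33_om_conj, Sym33_om_conj, Sym33_om_conj, one_div, one_div, one_div,
    ← mul_inv]
  congr 1; ring

theorem Sym33_rho_om (a b : ℂ) : rho (om * a) (om * b) = 2 * rho a b := by
  unfold rho
  rw [map_mul, map_mul, conj_om, ← om_mul_omb]; ring

theorem Sym33_T3_om (a b : ℂ) : T3k (om * a) (om * b) = 1 / 8 * T3k a b := by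
  unfold T3k
  rw [← mul_add, Sym33_NN_om, Sym33_rho_om, Sym33_om_conj, one_div (2 * _), mul_inv]
  ring

/-! ### weights -/

theorem Sym33_ev_neg (n : ℤ) : ev (-n) = ev n := by
  unfold ev; simp only [even_neg]

theorem Sym33_ap_neg (p : ℤ × ℤ) : ap (-p) = ap p := by
  unfold ap; rw [Prod.fst_neg, Sym33_ev_neg]

theorem Sym33_bp_neg (p : ℤ × ℤ) : bp (-p) = bp p := by
  unfold bp; rw [Prod.fst_neg, Prod.snd_neg, ← neg_add, Sym33_ev_neg]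

theorem Sym33_ev_mem (n : ℤ) : ev n = 0 ∨ ev n = 1 := by
  unfold ev; split_ifs <;> simp

theorem Sym33_ev_abs (n : ℤ) : |ev n| ≤ 1 := by
  rcases Sym33_ev_mem n with h | h <;> rw [h] <;> norm_num

theorem Sym33_ap_abs (p : ℤ × ℤ) : |ap p| ≤ 1 := Sym33_ev_abs _

theorem Sym33_bp_abs (p : ℤ × ℤ) : |bp p| ≤ 1 := Sym33_ev_abs _

theorem Sym33_a0 (p r : ℤ × ℤ) : ap p + ap r + ap (p + r) = 1 + 2 * (ap p * ap r) := by
  unfold ap ev
  rw [Prod.fst_add]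
  by_cases h1 : Even p.1 <;> by_cases h2 : Even r.1 <;>
    simp [Int.even_add, h1, h2] <;> norm_num

/-- conjugation on coordinates -/
def Sym33_cj (p : ℤ × ℤ) : ℤ × ℤ := (p.1 + p.2, -p.2)

theorem Sym33_cj_cj (p : ℤ × ℤ) : Sym33_cj (Sym33_cj p) = p := by
  ext <;> simp [Sym33_cj]

theorem Sym33_cj_add (p r : ℤ × ℤ) : Sym33_cj (p + r) = Sym33_cj p + Sym33_cj r := by
  ext
  · simp [Sym33_cj]; ring
  · simp [Sym33_cj]; ring

theorem Sym33_ap_cj (p : ℤ × ℤ) : ap (Sym33_cj p) = bp p := rfl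

theorem Sym33_bp_cj (p : ℤ × ℤ) : bp (Sym33_cj p) = ap p := by
  unfold ap bp Sym33_cj; simp

theorem Sym33_xx_cj (p : ℤ × ℤ) : xx (Sym33_cj p) = starRingEnd ℂ (xx p) :=
  (xx_conj p).symm

theorem Sym33_ap_mulPi (p : ℤ × ℤ) : ap (mulPi p) = 1 := by
  unfold ap mulPi ev; rw [if_pos]; exact ⟨-p.2, by ring⟩

theorem Sym33_bp_mulPi (p : ℤ × ℤ) : bp (mulPi p) = bp p := by
  unfold bp mulPi ev
  have : Even (-2 * p.2 + (p.1 + p.2)) ↔ Even (p.1 + p.2) := by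
    rw [Int.even_add]
    simp
  simp only [this]

/-! ### reindexings -/

/-- `(q.1, -(q.1+q.2))` -/
def Sym33_E23 : ((ℤ × ℤ) × (ℤ × ℤ)) ≃ ((ℤ × ℤ) × (ℤ × ℤ)) where
  toFun q := (q.1, -(q.1 + q.2))
  invFun q := (q.1, -(q.1 + q.2))
  left_inv q := by
    obtain ⟨a, b⟩ := q
    simp only [Prod.mk.injEq, true_and]; abel
  right_inv q := by
    obtain ⟨a, b⟩ := q
    simp only [Prod.mk.injEq, true_and]; abel

/-- `(q.2, -(q.1+q.2))` -/
def Sym33_Ecy : ((ℤ × ℤ) × (ℤ × ℤ)) ≃ ((ℤ × ℤ) × (ℤ × ℤ)) where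
  toFun q := (q.2, -(q.1 + q.2))
  invFun q := (-(q.1 + q.2), q.1)
  left_inv q := by
    obtain ⟨a, b⟩ := q
    simp only [Prod.mk.injEq, and_true]; abel
  right_inv q := by
    obtain ⟨a, b⟩ := q
    simp only [Prod.mk.injEq, true_and]; abel

/-- conjugation of both points -/
def Sym33_Ecj : ((ℤ × ℤ) × (ℤ × ℤ)) ≃ ((ℤ × ℤ) × (ℤ × ℤ)) where
  toFun q := (Sym33_cj q.1, Sym33_cj q.2)
  invFun q := (Sym33_cj q.1, Sym33_cj q.2)
  left_inv q := by simp only [Sym33_cj_cj]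
  right_inv q := by simp only [Sym33_cj_cj]

theorem Sym33_reindex {ω ω' : (ℤ × ℤ) × (ℤ × ℤ) → ℝ} {k k' : ℂ → ℂ → ℂ}
    (E : ((ℤ × ℤ) × (ℤ × ℤ)) ≃ ((ℤ × ℤ) × (ℤ × ℤ)))
    (h : ∀ r, (ω (E r) : ℂ) * k (xx (E r).1) (xx (E r).2) = (ω' r : ℂ) * k' (xx r.1) (xx r.2)) :
    WS ω k = WS ω' k' := by
  unfold WS
  rw [← E.tsum_eq (fun q => (ω q : ℂ) * k (xx q.1) (xx q.2))]
  exact tsum_congr h

theorem Sym33_reindex_neg {ω ω' : (ℤ × ℤ) × (ℤ × ℤ) → ℝ} {k k' : ℂ → ℂ → ℂ}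
    (E : ((ℤ × ℤ) × (ℤ × ℤ)) ≃ ((ℤ × ℤ) × (ℤ × ℤ)))
    (h : ∀ r, (ω (E r) : ℂ) * k (xx (E r).1) (xx (E r).2)
      = -((ω' r : ℂ) * k' (xx r.1) (xx r.2))) :
    WS ω k = -WS ω' k' := by
  unfold WS
  rw [← E.tsum_eq (fun q => (ω q : ℂ) * k (xx q.1) (xx q.2)), ← tsum_neg]
  exact tsum_congr h

theorem Sym33_23 {ω ω' : (ℤ × ℤ) × (ℤ × ℤ) → ℝ} {k : ℂ → ℂ → ℂ}
    (hk : ∀ a b, k a (-(a + b)) = -k a b) (hω : ∀ r, ω (r.1, -(r.1 + r.2)) = ω' r) :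
    WS ω k = -WS ω' k := by
  refine Sym33_reindex_neg Sym33_E23 fun r => ?_
  change ((ω (r.1, -(r.1 + r.2)) : ℝ) : ℂ) * k (xx r.1) (xx (-(r.1 + r.2))) = _
  rw [hω, xx_neg, xx_add, hk]; ring

theorem Sym33_swap {ω ω' : (ℤ × ℤ) × (ℤ × ℤ) → ℝ} {k k' : ℂ → ℂ → ℂ}
    (hk : ∀ a b, k b a = -k' a b) (hω : ∀ r, ω (r.2, r.1) = ω' r) :
    WS ω k = -WS ω' k' := by
  refine Sym33_reindex_neg (Equiv.prodComm _ _) fun r => ?_
  change ((ω (r.2, r.1) : ℝ) : ℂ) * k (xx r.2) (xx r.1) = _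
  rw [hω, hk]; ring

theorem Sym33_conjn {ω ω' : (ℤ × ℤ) × (ℤ × ℤ) → ℝ} {k : ℂ → ℂ → ℂ}
    (hk : ∀ a b, k (starRingEnd ℂ a) (starRingEnd ℂ b) = -k a b)
    (hω : ∀ r, ω (Sym33_cj r.1, Sym33_cj r.2) = ω' r) :
    WS ω k = -WS ω' k := by
  refine Sym33_reindex_neg Sym33_Ecj fun r => ?_
  change ((ω (Sym33_cj r.1, Sym33_cj r.2) : ℝ) : ℂ) * k (xx (Sym33_cj r.1)) (xx (Sym33_cj r.2)) = _
  rw [hω, Sym33_xx_cj, Sym33_xx_cj, hk]; ring

theorem Sym33_cyc {ω ω' : (ℤ × ℤ) × (ℤ × ℤ) → ℝ} {k k' : ℂ → ℂ → ℂ}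
    (hk : ∀ a b, k b (-(a + b)) = k' a b) (hω : ∀ r, ω (r.2, -(r.1 + r.2)) = ω' r) :
    WS ω k = WS ω' k' := by
  refine Sym33_reindex Sym33_Ecy fun r => ?_
  change ((ω (r.2, -(r.1 + r.2)) : ℝ) : ℂ) * k (xx r.2) (xx (-(r.1 + r.2))) = _
  rw [hω, xx_neg, xx_add, hk]

/-- restriction to the multiples of `om` -/
theorem Sym33_restrict {g : (ℤ × ℤ) × (ℤ × ℤ) → ℝ} {k : ℂ → ℂ → ℂ} {c : ℂ}
    (hk : ∀ a b, k (om * a) (om * b) = c * k a b)
    (hg : ∀ r : (ℤ × ℤ) × (ℤ × ℤ), g (mulPi r.1, mulPi r.2) = g r) :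
    WS (fun q => g q * (ap q.1 * ap q.2)) k = c * WS g k := by
  have hinj : Function.Injective
      (fun r : (ℤ × ℤ) × (ℤ × ℤ) => (mulPi r.1, mulPi r.2)) := by
    intro r s h
    have h1 := mulPi_injective (Prod.ext_iff.1 h).1
    have h2 := mulPi_injective (Prod.ext_iff.1 h).2
    exact Prod.ext h1 h2
  unfold WS
  rw [← tsum_mul_left, ← hinj.tsum_eq]
  · refine tsum_congr fun r => ?_
    simp only [xx_mulPi, hk, hg, Sym33_ap_mulPi]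
    push_cast; ring
  · intro q hq
    rw [Function.mem_support] at hq
    have hne : ap q.1 ≠ 0 ∧ ap q.2 ≠ 0 := by
      constructor
      · intro h0; apply hq; simp only [h0]; simp
      · intro h0; apply hq; simp only [h0]; simp
    have key : ∀ p : ℤ × ℤ, ap p ≠ 0 → p ∈ Set.range mulPi := by
      intro p hp
      rw [mem_range_mulPi]
      by_contra hcon
      apply hp
      unfold ap ev; rw [if_neg hcon]
    obtain ⟨u, hu⟩ := key _ hne.1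
    obtain ⟨v, hv⟩ := key _ hne.2
    exact ⟨(u, v), Prod.ext hu hv⟩

theorem Sym33_WS_add {k : ℂ → ℂ → ℂ} (hk : KerO k) {ω ω' : (ℤ × ℤ) × (ℤ × ℤ) → ℝ}
    (h : ∃ B : ℝ, ∀ q, |ω q| ≤ B) (h' : ∃ B : ℝ, ∀ q, |ω' q| ≤ B) :
    WS (fun q => ω q + ω' q) k = WS ω k + WS ω' k := by
  unfold WS
  rw [← (hk.summable_weight h).tsum_add (hk.summable_weight h')]
  refine tsum_congr fun q => ?_
  push_cast; ring

theorem Sym33_WS_two {k : ℂ → ℂ → ℂ} {ω : (ℤ × ℤ) × (ℤ × ℤ) → ℝ} :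
    WS (fun q => 2 * ω q) k = 2 * WS ω k := by
  unfold WS
  rw [← tsum_mul_left]
  refine tsum_congr fun q => ?_
  push_cast; ring

theorem Sym33_abs_mul {x y : ℝ} (hx : |x| ≤ 1) (hy : |y| ≤ 1) : |x * y| ≤ 1 := by
  rw [abs_mul]; exact mul_le_one₀ hx (abs_nonneg _) hy

/-- the three classes modulo `om` -/
theorem Sym33_three {k : ℂ → ℂ → ℂ} (hk : KerO k) {g : (ℤ × ℤ) × (ℤ × ℤ) → ℝ}
    (hg : ∀ q, |g q| ≤ 1) :
    WS (fun q => g q * ap q.1) k + WS (fun q => g q * ap q.2) k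
      + WS (fun q => g q * ap (q.1 + q.2)) k
      = WS g k + 2 * WS (fun q => g q * (ap q.1 * ap q.2)) k := by
  have b1 : ∃ B : ℝ, ∀ q : (ℤ × ℤ) × (ℤ × ℤ), |g q * ap q.1| ≤ B :=
    ⟨1, fun q => Sym33_abs_mul (hg q) (Sym33_ap_abs _)⟩
  have b2 : ∃ B : ℝ, ∀ q : (ℤ × ℤ) × (ℤ × ℤ), |g q * ap q.2| ≤ B :=
    ⟨1, fun q => Sym33_abs_mul (hg q) (Sym33_ap_abs _)⟩
  have b3 : ∃ B : ℝ, ∀ q : (ℤ × ℤ) × (ℤ × ℤ), |g q * ap (q.1 + q.2)| ≤ B :=
    ⟨1, fun q => Sym33_abs_mul (hg q) (Sym33_ap_abs _)⟩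
  have b12 : ∃ B : ℝ, ∀ q : (ℤ × ℤ) × (ℤ × ℤ), |g q * ap q.1 + g q * ap q.2| ≤ B :=
    ⟨1 + 1, fun q => (abs_add_le _ _).trans
      (add_le_add (Sym33_abs_mul (hg q) (Sym33_ap_abs _))
        (Sym33_abs_mul (hg q) (Sym33_ap_abs _)))⟩
  have b0 : ∃ B : ℝ, ∀ q : (ℤ × ℤ) × (ℤ × ℤ), |2 * (g q * (ap q.1 * ap q.2))| ≤ B := by
    refine ⟨2, fun q => ?_⟩
    rw [abs_mul, abs_two]
    have := Sym33_abs_mul (hg q) (Sym33_abs_mul (Sym33_ap_abs q.1) (Sym33_ap_abs q.2))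
    linarith
  rw [← Sym33_WS_add hk b1 b2, ← Sym33_WS_add hk b12 b3, ← Sym33_WS_two,
    ← Sym33_WS_add hk ⟨1, hg⟩ b0]
  congr 1
  funext q
  have := Sym33_a0 q.1 q.2
  linear_combination g q * this

/-! ### the statements -/

theorem Sym33_T1_one : WS w1 T1k = 0 := by
  have h : WS w1 T1k = -WS w1 T1k := Sym33_23 Sym33_T1_23 fun _ => rfl
  exact self_eq_neg.1 h

theorem Sym33_T3_sym {ω : (ℤ × ℤ) × (ℤ × ℤ) → ℝ} (hω : ∀ r, ω (r.2, r.1) = ω r) :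
    WS ω T3k = 0 := by
  have h : WS ω T3k = -WS ω T3k := Sym33_swap Sym33_T3_swap hω
  exact self_eq_neg.1 h

theorem sym33_one : WS w1 T1k = 0 ∧ WS w1 T2k = 0 ∧ WS w1 T3k = 0 := by
  refine ⟨Sym33_T1_one, ?_, Sym33_T3_sym fun _ => rfl⟩
  have h : WS w1 T2k = -WS w1 T1k := Sym33_swap Sym33_T2_swap fun _ => rfl
  rw [h, Sym33_T1_one, neg_zero]

theorem sym33_a3 : WS wa3 T1k = -WS wa2 T1k ∧ WS wa3 T2k = WS wa2 T1k ∧ WS wa3 T3k = 0 := by
  have h1 : WS wa3 T1k = -WS wa2 T1k := by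
    refine Sym33_23 Sym33_T1_23 fun r => ?_
    unfold wa3 wa2
    have : r.1 + -(r.1 + r.2) = -r.2 := by abel
    simp only [this, Sym33_ap_neg]
  have h2 : WS wa3 T2k = -WS wa3 T1k := by
    refine Sym33_swap Sym33_T2_swap fun r => ?_
    unfold wa3
    simp only [add_comm]
  refine ⟨h1, by rw [h2, h1, neg_neg], Sym33_T3_sym fun r => ?_⟩
  unfold wa3
  simp only [add_comm]

theorem Sym33_b3_conj {k : ℂ → ℂ → ℂ}
    (hk : ∀ a b, k (starRingEnd ℂ a) (starRingEnd ℂ b) = -k a b) :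
    WS wb3 k = -WS wa3 k := by
  refine Sym33_conjn hk fun r => ?_
  unfold wb3 wa3
  simp only [← Sym33_cj_add, Sym33_bp_cj]

theorem sym33_b3 : WS wb3 T1k = WS wa2 T1k ∧ WS wb3 T2k = -WS wa2 T1k ∧ WS wb3 T3k = 0 := by
  obtain ⟨h1, h2, h3⟩ := sym33_a3
  refine ⟨?_, ?_, ?_⟩
  · rw [Sym33_b3_conj Sym33_T1_conj, h1, neg_neg]
  · rw [Sym33_b3_conj Sym33_T2_conj, h2]
  · rw [Sym33_b3_conj Sym33_T3_conj, h3, neg_zero]

/-- `Σ[a1 b2] T1 = -Σ[b1 a2] T1` -/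
theorem Sym33_ab : WS (fun q => ap q.1 * bp q.2) T1k = -WS wba T1k := by
  refine Sym33_conjn Sym33_T1_conj fun r => ?_
  unfold wba
  simp only [Sym33_ap_cj, Sym33_bp_cj]

theorem sym33_ba : WS wba T2k = WS wba T1k ∧ WS wba T3k = WS wba T1k - 5 / 4 * WS wa2 T1k := by
  constructor
  · have h : WS wba T2k = -WS (fun q => ap q.1 * bp q.2) T1k := by
      refine Sym33_swap Sym33_T2_swap fun r => ?_
      unfold wba
      simp only [mul_comm]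
    rw [h, Sym33_ab, neg_neg]
  · have h3 := Sym33_three KerO_T3k (g := fun q => bp q.1) (fun q => Sym33_bp_abs _)
    have e1 : WS (fun q => bp q.1 * ap q.1) T3k = 0 := by
      have h : WS (fun q => bp q.1 * ap q.1) T3k = -WS (fun q => bp q.1 * ap q.1) T3k := by
        refine Sym33_conjn Sym33_T3_conj fun r => ?_
        simp only [Sym33_ap_cj, Sym33_bp_cj]
        ring
      exact self_eq_neg.1 h
    have e3 : WS (fun q => bp q.1 * ap (q.1 + q.2)) T3k = -WS wba T1k := by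
      rw [← Sym33_ab]
      refine Sym33_cyc Sym33_T3_31 fun r => ?_
      have : r.2 + -(r.1 + r.2) = -r.1 := by abel
      simp only [this, Sym33_ap_neg]
      ring
    have e4 : WS (fun q => bp q.1) T3k = -WS wa2 T1k := by
      have h1 : WS (fun q => bp q.1) T3k = WS (fun q => bp q.2) T1k :=
        Sym33_cyc Sym33_T3_31 fun r => rfl
      rw [h1]
      refine Sym33_conjn Sym33_T1_conj fun r => ?_
      unfold wa2
      simp only [Sym33_bp_cj]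
    have e5 : WS (fun q => bp q.1 * (ap q.1 * ap q.2)) T3k
        = 1 / 8 * WS (fun q => bp q.1) T3k :=
      Sym33_restrict Sym33_T3_om fun r => Sym33_bp_mulPi _
    have e2 : WS (fun q => bp q.1 * ap q.2) T3k = WS wba T3k := rfl
    rw [e1, e2, e3, e5, e4] at h3
    linear_combination h3

theorem Sym33_re {ω : (ℤ × ℤ) × (ℤ × ℤ) → ℝ} : (WS ω T1k).re = 0 := by
  have h : starRingEnd ℂ (WS ω T1k) = -WS ω T1k := by
    unfold WS
    rw [Complex.conj_tsum, ← tsum_neg]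
    refine tsum_congr fun q => ?_
    rw [map_mul, Sym33_conj_T1, Complex.conj_ofReal]; ring
  have h2 := congrArg Complex.re h
  rw [Complex.conj_re, Complex.neg_re] at h2
  exact self_eq_neg.1 h2

theorem sym33_re : (WS wa2 T1k).re = 0 ∧ (WS wba T1k).re = 0 := ⟨Sym33_re, Sym33_re⟩

theorem sym33_NN : WS wa3 NNk = 5 / 12 * WS w1 NNk := by
  have h3 := Sym33_three KerO_NNk (g := w1) (fun q => by unfold w1; norm_num)
  have e1 : WS (fun q => w1 q * ap q.1) NNk = WS (fun q => w1 q * ap q.2) NNk := by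
    refine Sym33_reindex (Equiv.prodComm _ _) fun r => ?_
    change ((w1 (r.2, r.1) * ap r.2 : ℝ) : ℂ) * NNk (xx r.2) (xx r.1) = _
    rw [Sym33_NN_swap]; rfl
  have e3 : WS (fun q => w1 q * ap (q.1 + q.2)) NNk = WS (fun q => w1 q * ap q.2) NNk := by
    refine Sym33_reindex Sym33_E23 fun r => ?_
    change ((w1 (r.1, -(r.1 + r.2)) * ap (r.1 + -(r.1 + r.2)) : ℝ) : ℂ)
      * NNk (xx r.1) (xx (-(r.1 + r.2))) = _
    have : r.1 + -(r.1 + r.2) = -r.2 := by abel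
    rw [this, Sym33_ap_neg, xx_neg, xx_add, Sym33_NN_23]; rfl
  have e0 : WS (fun q => w1 q * (ap q.1 * ap q.2)) NNk = 1 / 8 * WS w1 NNk :=
    Sym33_restrict Sym33_NN_om fun r => rfl
  have e4 : WS (fun q => w1 q * ap (q.1 + q.2)) NNk = WS wa3 NNk := by
    congr 1; funext q; unfold w1 wa3; rw [one_mul]
  rw [e1, ← e3, e4, e0] at h3
  linear_combination 1 / 3 * h3

end MM7
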