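import Pool.Agent.MM7.Comps
import Pool.Agent.MM7.Sym33
import Pool.Agent.MM7.Rel33
import Pool.Agent.MM7.Bdry33
import Pool.Agent.MM7.LineSum

/-!
# MM7, Part 4, module Asm33

asm33a: F33a (xx v.1) (xx v.2) is a linear combination of the kernels at the four triples; by Comps it is summable with sum
 Σ N + (2w/7)(ΣT1+ΣT2) + (w/7) ΣT3 - (4w/7)(Σ[a3]T1 + Σ[a3]T3) + (4w/7)(Σ[b3]T1+Σ[b3]T3) - (16w/7)(Σ[ba]T1+Σ[ba]T2)
 = N + (4w/7)Q + (4w/7)Q - (32w/7)R (Sym33), Q = WS wa2 T1k, R = WS wba T1k. (F33a 0 0 = 0.)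
 By line_sum (rel33a) and bdry33a it equals Σ_p 8/|xx p|⁶ = 8 E33. So N - (32w/7)(R - Q/4) = 8 E33.
asm33b: same with F33b: 5/12 N - (w/7)(-Q) - (2w/7)(Q + 0) + (2w/7)(-Q + 0) - (4w/7)(R + R - 5/4 Q)
 = 5/12 N + (2w/7) Q - (8w/7) R = 5/12 N - (8w/7)(R - Q/4) = 51/16 E33.
asm33: subtract 1/4 of the first: N (5/12 - 1/4) = (51/16 - 2) E33, N = 57/8 E33; then R - Q/4 = (7w/256) E33 (w² = -7).
-/

open Real MeasureTheory Set Filter Topology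

namespace MM7

theorem asm33_E33 (c : ℂ) :
    ∑' p : ℤ × ℤ, c * (1 / (xx p * starRingEnd ℂ (xx p)) ^ 3) = c * (E33 : ℂ) := by
  rw [tsum_mul_left, E33, Complex.ofReal_tsum]
  congr 1
  refine tsum_congr fun p => ?_
  rw [Complex.mul_conj]
  push_cast
  rfl

theorem asm33_F33a_zero : F33a 0 0 = 0 := by
  simp [F33a, NNk, T1k, T2k, T3k, rho]

theorem asm33_F33b_zero : F33b 0 0 = 0 := by
  simp [F33b, NNk, T1k, T2k, T3k, rho]

theorem asm33_hasSum_a : HasSum (fun v : (ℤ × ℤ) × (ℤ × ℤ) => F33a (xx v.1) (xx v.2))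
    (WS w1 NNk + 2 * rt / 7 * (WS w1 T1k + WS w1 T2k) + rt / 7 * WS w1 T3k
      - 4 * rt / 7 * (WS wa3 T1k + WS wa3 T3k) + 4 * rt / 7 * (WS wb3 T1k + WS wb3 T3k)
      - 16 * rt / 7 * (WS wba T1k + WS wba T2k)) := by
  have h1 := (hasSum_tri1 KerO_NNk)
  have h2 := ((hasSum_tri1 KerO_T1k).add (hasSum_tri1 KerO_T2k)).mul_left (2 * rt / 7)
  have h3 := (hasSum_tri1 KerO_T3k).mul_left (rt / 7)
  have h4 := ((hasSum_tri2 KerO_T1k).add (hasSum_tri2 KerO_T3k)).mul_left (4 * rt / 7)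
  have h5 := ((hasSum_tri3 KerO_T1k).add (hasSum_tri3 KerO_T3k)).mul_left (4 * rt / 7)
  have h6 := ((hasSum_tri4 KerO_T1k).add (hasSum_tri4 KerO_T2k)).mul_left (16 * rt / 7)
  exact ((((h1.add h2).add h3).sub h4).add h5).sub h6

theorem asm33_hasSum_b : HasSum (fun v : (ℤ × ℤ) × (ℤ × ℤ) => F33b (xx v.1) (xx v.2))
    (WS wa3 NNk + rt / 14 * (WS w1 T1k + WS w1 T3k) - rt / 7 * WS wa3 T1k
      - 2 * rt / 7 * (WS wa3 T2k + WS wa3 T3k) + 2 * rt / 7 * (WS wb3 T2k + WS wb3 T3k)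
      - 4 * rt / 7 * (WS wba T1k + WS wba T3k)) := by
  have h1 := (hasSum_tri2 KerO_NNk)
  have h2 := ((hasSum_tri1 KerO_T1k).add (hasSum_tri1 KerO_T3k)).mul_left (rt / 14)
  have h3 := (hasSum_tri2 KerO_T1k).mul_left (rt / 7)
  have h4 := ((hasSum_tri2 KerO_T2k).add (hasSum_tri2 KerO_T3k)).mul_left (2 * rt / 7)
  have h5 := ((hasSum_tri3 KerO_T2k).add (hasSum_tri3 KerO_T3k)).mul_left (2 * rt / 7)
  have h6 := ((hasSum_tri4 KerO_T1k).add (hasSum_tri4 KerO_T3k)).mul_left (4 * rt / 7)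
  exact ((((h1.add h2).sub h3).sub h4).add h5).sub h6

theorem asm33a : WS w1 NNk - 32 * rt / 7 * (WS wba T1k - 1 / 4 * WS wa2 T1k) = 8 * (E33 : ℂ) := by
  have hs := asm33_hasSum_a
  have h := line_sum (F := F33a) (fun x y h0 h1 hp hi => rel33a x y h0 h1 hp hi)
    asm33_F33a_zero hs.summable
  rw [hs.tsum_eq] at h
  simp only [bdry33a] at h
  rw [asm33_E33] at h
  obtain ⟨e1, e2, e3⟩ := sym33_one
  obtain ⟨a1, a2, a3⟩ := sym33_a3
  obtain ⟨b1, b2, b3⟩ := sym33_b3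
  obtain ⟨c1, c2⟩ := sym33_ba
  rw [e1, e2, e3, a1, a3, b1, b3, c1] at h
  linear_combination h

theorem asm33b : 5 / 12 * WS w1 NNk - 8 * rt / 7 * (WS wba T1k - 1 / 4 * WS wa2 T1k)
    = 51 / 16 * (E33 : ℂ) := by
  have hs := asm33_hasSum_b
  have h := line_sum (F := F33b) (fun x y h0 h1 hp hi => rel33b x y h0 h1 hp hi)
    asm33_F33b_zero hs.summable
  rw [hs.tsum_eq] at h
  simp only [bdry33b] at h
  rw [asm33_E33] at h
  obtain ⟨e1, e2, e3⟩ := sym33_one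
  obtain ⟨a1, a2, a3⟩ := sym33_a3
  obtain ⟨b1, b2, b3⟩ := sym33_b3
  obtain ⟨c1, c2⟩ := sym33_ba
  rw [e1, e3, a1, a2, a3, b2, b3, c2, sym33_NN] at h
  linear_combination h

theorem asm33 : WS w1 NNk = 57 / 8 * (E33 : ℂ) ∧
    WS wba T1k - 1 / 4 * WS wa2 T1k = 7 * rt / 256 * (E33 : ℂ) := by
  have ha := asm33a
  have hb := asm33b
  have hN : WS w1 NNk = 57 / 8 * (E33 : ℂ) := by
    linear_combination 6 * hb - 6 / 4 * ha
  refine ⟨hN, ?_⟩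
  have hr := rt_sq
  rw [hN] at ha
  -- (57/8) E - 32 w / 7 * X = 8 E, so w X = -(7/32)(7/8) E... multiply by w
  linear_combination (rt / 32) * ha + (WS wba T1k - 1 / 4 * WS wa2 T1k) / 7 * hr

end MM7
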