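import Pool.Agent.MM7.Defs4
import Pool.Agent.MM7.Arith4
import Pool.Agent.MM7.Bdry33

/-!
# MM7, Part 4, module Bdry42

As Bdry33. Exact parts in units of 1/(x⁴ conj x²), w = rt: at (0,x): -7/32 + w/16; at (x,x): -7/16 - w/16;
at (om x, x): -7/64 + 3w/64; at (x,0): -21/32 - 5w/32; the sum is -91/64 - 7w/64. Terms with a zero denominator are 0
(this applies to the kernels and also to the summands of SepA, SepB: n4 0 = 0, 1/0^2 = 0).
-/

open Real MeasureTheory Set Filter Topology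

namespace MM7

theorem bdry42_unit (x : ℂ) : 1 / (x * starRingEnd ℂ x) ^ 3 * (starRingEnd ℂ x / x)
    = 1 / (x ^ 4 * (starRingEnd ℂ x) ^ 2) := by
  by_cases hx : x = 0
  · simp [hx]
  · have hc : starRingEnd ℂ x ≠ 0 := by
      intro h
      exact hx ((map_eq_zero (starRingEnd ℂ)).1 h)
    field_simp

theorem bdry42_unit2 (x : ℂ) : 1 / (x * starRingEnd ℂ x) ^ 2 * (1 / x ^ 2)
    = 1 / (x ^ 4 * (starRingEnd ℂ x) ^ 2) := by
  by_cases hx : x = 0
  · simp [hx]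
  · have hc : starRingEnd ℂ x ≠ 0 := by
      intro h
      exact hx ((map_eq_zero (starRingEnd ℂ)).1 h)
    field_simp

theorem bdry42_pk (a x : ℂ) : pk (a * x) = pk a * (starRingEnd ℂ x / x) := by
  simp only [pk, map_mul, div_eq_mul_inv, mul_inv]; ring

theorem bdry42_H1k (a b x : ℂ) :
    H1k (a * x) (b * x) = H1k a b * (1 / (x ^ 4 * (starRingEnd ℂ x) ^ 2)) := by
  have h0 : a * x + b * x = (a + b) * x := by ring
  unfold H1k
  rw [h0, bdry33_T1k, bdry42_pk, bdry42_pk, bdry42_pk, ← bdry42_unit]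
  ring

theorem bdry42_H3k (a b x : ℂ) :
    H3k (a * x) (b * x) = H3k a b * (1 / (x ^ 4 * (starRingEnd ℂ x) ^ 2)) := by
  have h0 : a * x + b * x = (a + b) * x := by ring
  unfold H3k
  rw [h0, bdry33_T3k, bdry42_pk, bdry42_pk, bdry42_pk, ← bdry42_unit]
  ring

theorem bdry42_n4 (a x : ℂ) : n4 (a * x) = n4 a * (1 / (x * starRingEnd ℂ x) ^ 2) := by
  simp only [n4, map_mul, one_div, mul_pow, mul_inv]; ring

theorem bdry42_sq (a x : ℂ) : 1 / (a * x) ^ 2 = 1 / a ^ 2 * (1 / x ^ 2) := by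
  simp only [one_div, mul_pow, mul_inv]

theorem bdry42_F42 (p q x : ℂ) :
    F42 (p * x) (q * x) = F42 p q * (1 / (x ^ 4 * (starRingEnd ℂ x) ^ 2)) := by
  have e1 : -(p * x - q * x) = (-(p - q)) * x := by ring
  have e2 : -(p * x - om * (q * x)) = (-(p - om * q)) * x := by ring
  have e3 : p * x - q * x = (p - q) * x := by ring
  have e4 : omb * (p * x) = (omb * p) * x := by ring
  have e5 : om * (p * x - q * x) = (om * (p - q)) * x := by ring
  unfold F42
  rw [e1, e2, e5, e4, e3]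
  simp only [bdry42_H1k, bdry42_H3k]
  ring

theorem bdry42_SepA (p q x : ℂ) :
    SepA (p * x) (q * x) = SepA p q * (1 / (x ^ 4 * (starRingEnd ℂ x) ^ 2)) := by
  have e2 : p * x - om * (q * x) = (p - om * q) * x := by ring
  have e3 : p * x - q * x = (p - q) * x := by ring
  unfold SepA
  rw [e2, e3, bdry42_n4, ← bdry42_unit2]
  simp only [bdry42_sq]
  ring

theorem bdry42_SepB (p q x : ℂ) :
    SepB (p * x) (q * x) = SepB p q * (1 / (x ^ 4 * (starRingEnd ℂ x) ^ 2)) := by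
  have e2 : p * x - om * (q * x) = (p - om * q) * x := by ring
  have e3 : p * x - q * x = (p - q) * x := by ring
  unfold SepB
  rw [e2, e3, bdry42_n4, ← bdry42_unit2]
  simp only [bdry42_sq]
  ring

theorem bdry42_h1z1 (b : ℂ) : H1k 0 b = 0 := by
  rw [H1k, (bdry33_z1 _).2.1, zero_mul]
theorem bdry42_h3z1 (b : ℂ) : H3k 0 b = 0 := by
  rw [H3k, (bdry33_z1 _).2.2.2, zero_mul]
theorem bdry42_h1z2 (a : ℂ) : H1k a 0 = 0 := by
  rw [H1k, (bdry33_z2 _).2.1, zero_mul]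
theorem bdry42_h3z2 (a : ℂ) : H3k a 0 = 0 := by
  rw [H3k, (bdry33_z2 _).2.2.2, zero_mul]
theorem bdry42_h1z3 (a : ℂ) : H1k a (-a) = 0 := by
  rw [H1k, (bdry33_z3 _).2.1, zero_mul]
theorem bdry42_h3z3 (a : ℂ) : H3k a (-a) = 0 := by
  rw [H3k, (bdry33_z3 _).2.2.2, zero_mul]

theorem bdry42_om_ne : om ≠ 0 := by
  intro h
  have := om_mul_omb
  rw [h, zero_mul] at this
  norm_num at this
theorem bdry42_omb_ne : omb ≠ 0 := by
  intro h
  have := om_mul_omb
  rw [h, mul_zero] at this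
  norm_num at this

theorem bdry42_pk_one : pk 1 = 1 := by rw [pk, map_one, div_one]
theorem bdry42_pk_neg (z : ℂ) : pk (-z) = pk z := by rw [pk, pk, map_neg, neg_div_neg_eq]
theorem bdry42_pk_om : pk om = (-3 - rt) / 4 := by
  rw [pk, bdry33_conj_om, div_eq_iff bdry42_om_ne, om]
  linear_combination (1 / 8 : ℂ) * bdry33_rt_mul
theorem bdry42_pk_omb : pk omb = (-3 + rt) / 4 := by
  rw [pk, bdry33_conj_omb, div_eq_iff bdry42_omb_ne, omb, om]
  linear_combination (1 / 8 : ℂ) * bdry33_rt_mul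

theorem bdry42_io : 1 / om ^ 2 = (-3 - rt) / 8 := by
  rw [div_eq_iff (pow_ne_zero 2 bdry42_om_ne), om_sq, om]
  linear_combination (1 / 16 : ℂ) * bdry33_rt_mul
theorem bdry42_ib : 1 / (1 - om) ^ 2 = (-3 + rt) / 8 := by
  have hne : (1 - om) ^ 2 ≠ 0 := pow_ne_zero 2 bdry42_omb_ne
  rw [div_eq_iff hne]
  have h : (1 - om) ^ 2 = -om - 1 := by linear_combination om_sq
  rw [h, om]
  linear_combination (1 / 16 : ℂ) * bdry33_rt_mul

theorem bdry42_n41 : n4 1 = 1 := by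
  rw [n4, map_one]; norm_num
theorem bdry42_n40 : n4 0 = 0 := by
  rw [n4]; norm_num
theorem bdry42_n4om : n4 om = 1 / 4 := by
  rw [n4, bdry33_norm_om]; norm_num
theorem bdry42_z : (1 : ℂ) / 0 ^ 2 = 0 := by norm_num

theorem bdry42_v0 : F42 0 1 - (SepA 0 1 + SepB 0 1) = -7 / 32 + rt / 16 := by
  have h1 : (0 : ℂ) - 1 = -1 := by ring
  have h2 : -((0 : ℂ) - om * 1) = om := by ring
  have h2' : (0 : ℂ) - om * 1 = -om := by ring
  have h3 : omb * 0 = 0 := by ring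
  have hp : pk (-1 + om) = (-3 + rt) / 4 := by
    rw [show (-1 : ℂ) + om = -omb by rw [omb]; ring, bdry42_pk_neg, bdry42_pk_omb]
  have hk : H3k (-1) om = (7 + 5 * rt) / 32 := by
    rw [H3k, bdry33_p1.2.2.2, bdry42_pk_neg, bdry42_pk_one, bdry42_pk_om, hp]
    linear_combination (-1 / 32 : ℂ) * bdry33_rt_mul
  have hF : F42 0 1 = (-21 + rt) / 128 := by
    unfold F42
    rw [h3, h2, h1, bdry42_h1z1, bdry42_h1z1, bdry42_h3z1, bdry42_h1z1, bdry42_h3z1, hk]
    linear_combination (5 / 256 : ℂ) * bdry33_rt_mul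
  have hA : SepA 0 1 = 0 := by rw [SepA, bdry42_n40, zero_mul]
  have hB : SepB 0 1 = (7 - 7 * rt) / 128 := by
    unfold SepB
    rw [h2', h1, bdry42_n41, bdry42_z, neg_sq, neg_sq, bdry42_io]
    linear_combination (-1 / 512 : ℂ) * bdry33_rt_mul
  rw [hF, hA, hB]; ring

theorem bdry42_v1 : F42 1 1 - (SepA 1 1 + SepB 1 1) = -7 / 16 - rt / 16 := by
  have h1 : (1 : ℂ) - 1 = 0 := by ring
  have h2 : -((1 : ℂ) - om * 1) = -(1 - om) := by ring
  have h2' : (1 : ℂ) - om * 1 = 1 - om := by ring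
  have hp : pk (-(1 - om)) = (-3 + rt) / 4 := by
    rw [bdry42_pk_neg]; exact bdry42_pk_omb
  have hq : pk (1 + -(1 - om)) = (-3 - rt) / 4 := by
    rw [show (1 : ℂ) + -(1 - om) = om by ring, bdry42_pk_om]
  have hk : H1k 1 (-(1 - om)) = rt / 8 := by
    rw [H1k, bdry33_p2.2.1, bdry42_pk_one, hp, hq]
    ring
  have hk3 : H3k 1 (-(1 - om)) = (7 - 5 * rt) / 32 := by
    rw [H3k, bdry33_p2.2.2.2, bdry42_pk_one, hp, hq]
    linear_combination (-1 / 32 : ℂ) * bdry33_rt_mul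
  have hF : F42 1 1 = (-49 + 3 * rt) / 256 := by
    unfold F42
    rw [h2, h1, neg_zero, mul_zero, bdry42_h1z2, bdry42_h1z2, bdry42_h3z2, bdry42_h3z1, hk, hk3]
    linear_combination (9 / 512 : ℂ) * bdry33_rt_mul
  have hA : SepA 1 1 = (14 + 6 * rt) / 128 := by
    unfold SepA
    rw [h2', h1, bdry42_n41, bdry42_z, bdry42_ib, one_pow]
    linear_combination (-1 / 128 : ℂ) * bdry33_rt_mul
  have hB : SepB 1 1 = (35 + 7 * rt) / 256 := by
    unfold SepB
    rw [h2', h1, bdry42_n41, bdry42_z, bdry42_ib, one_pow]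
    linear_combination (1 / 512 : ℂ) * bdry33_rt_mul
  rw [hF, hA, hB]; ring

theorem bdry42_v2 : F42 om 1 - (SepA om 1 + SepB om 1) = -7 / 64 + 3 * rt / 64 := by
  have h2 : om - om * 1 = 0 := by ring
  have h3 : om * (om - 1) = -(omb * om) := by rw [omb]; ring
  have h4 : -(om - 1) = omb := by rw [omb]; ring
  have hq : pk (om + -(om - 1)) = 1 := by
    rw [show om + -(om - 1) = 1 by ring, bdry42_pk_one]
  have hp : pk (-(om - 1)) = (-3 + rt) / 4 := by rw [h4, bdry42_pk_omb]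
  have hk : H1k om (-(om - 1)) = (5 * rt - 7) / 32 := by
    rw [H1k, bdry33_p3.2.1, hq, hp, bdry42_pk_om]
    linear_combination (1 / 32 : ℂ) * bdry33_rt_mul
  have hk3 : H3k om (-(om - 1)) = -rt / 8 := by
    rw [H3k, bdry33_p3.2.2.2, hq, hp, bdry42_pk_om]
    ring
  have hi : 1 / (om - 1) ^ 2 = (-3 + rt) / 8 := by
    rw [show (om - 1) ^ 2 = (1 - om) ^ 2 by ring, bdry42_ib]
  have hF : F42 om 1 = (13 * rt - 7) / 512 := by
    unfold F42
    rw [h3, h2, neg_zero, bdry42_h1z3, bdry42_h1z2, bdry42_h3z2, bdry42_h3z2, hk, hk3]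
    linear_combination (-1 / 1024 : ℂ) * bdry33_rt_mul
  have hA : SepA om 1 = (21 - 7 * rt) / 512 := by
    unfold SepA
    rw [h2, bdry42_n4om, bdry42_z, hi, one_pow]
    linear_combination (1 / 512 : ℂ) * bdry33_rt_mul
  have hB : SepB om 1 = (28 - 4 * rt) / 512 := by
    unfold SepB
    rw [h2, bdry42_n41, bdry42_z, hi, bdry42_io]
    linear_combination (-7 / 512 : ℂ) * bdry33_rt_mul
  rw [hF, hA, hB]; ring

theorem bdry42_v3 : F42 1 0 - (SepA 1 0 + SepB 1 0) = -21 / 32 - 5 * rt / 32 := by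
  have h1 : (1 : ℂ) - 0 = 1 := by ring
  have h2 : (1 : ℂ) - om * 0 = 1 := by ring
  have hq : pk (omb + om) = 1 := by
    rw [show omb + om = 1 by rw [omb]; ring, bdry42_pk_one]
  have hk : H1k omb om = (-5 * rt - 7) / 32 := by
    rw [H1k, bdry33_p4.2.1, hq, bdry42_pk_om, bdry42_pk_omb]
    linear_combination (1 / 32 : ℂ) * bdry33_rt_mul
  have hF : F42 1 0 = (-5 * rt - 7) / 32 := by
    unfold F42
    rw [h2, h1, mul_one, mul_one, bdry42_h1z3, bdry42_h3z3, hk]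
    ring
  have hA : SepA 1 0 = 7 / 16 := by
    unfold SepA
    rw [h2, h1, bdry42_n41, bdry42_z, one_pow]
    ring
  have hB : SepB 1 0 = 0 := by rw [SepB, bdry42_n40, zero_mul]
  rw [hF, hA, hB]; ring

theorem bdry42 (x : ℂ) :
    (F42 0 x - (SepA 0 x + SepB 0 x)) + (F42 x x - (SepA x x + SepB x x))
      + (F42 (om * x) x - (SepA (om * x) x + SepB (om * x) x))
      + (F42 x 0 - (SepA x 0 + SepB x 0))
    = (-91 / 64 - 7 / 64 * rt) * (1 / (x ^ 4 * (starRingEnd ℂ x) ^ 2)) := by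
  have hh : ∀ p q : ℂ, F42 (p * x) (q * x) - (SepA (p * x) (q * x) + SepB (p * x) (q * x))
      = (F42 p q - (SepA p q + SepB p q)) * (1 / (x ^ 4 * (starRingEnd ℂ x) ^ 2)) := by
    intro p q
    rw [bdry42_F42, bdry42_SepA, bdry42_SepB]; ring
  have h0 := hh 0 1
  have h1 := hh 1 1
  have h2 := hh om 1
  have h3 := hh 1 0
  rw [zero_mul, one_mul, bdry42_v0] at h0
  rw [one_mul, bdry42_v1] at h1
  rw [one_mul, bdry42_v2] at h2
  rw [zero_mul, one_mul, bdry42_v3] at h3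
  rw [h0, h1, h2, h3]; ring

end MM7
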