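import Pool.Agent.MM7.Defs4
import Pool.Agent.MM7.Arith4

/-!
# MM7, Part 4, module Rel42

As Rel33, for the relation of weight (4,2): common denominator
`x³ (x-y)² (x-om y)² y³ x'² (x'-y') (x'-omb y') y'²`, numerator of bidegree (6,4), 35 monomials.
Each term times the common denominator is a polynomial (`rel42_alg`), then one
`linear_combination e * hw` (`rel42_poly`).
-/

open Real MeasureTheory Set Filter Topology

namespace MM7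

theorem rel42_poly (x y X Y w : ℂ) (hw : w ^ 2 = w - 2) :
    (w ^ 2 * X * (x - y) - (1 - w) ^ 2 * x * (X - Y)) *
        (2 * w ^ 2 * X * (x - y) * (x - w * y) + (1 - w) ^ 2 * (X - Y) * x * (x - w * y)
          + 2 * (X - (1 - w) * Y) * x * (x - y)) / 16 * (y ^ 3 * Y ^ 2)
      + (3 - (2 * w - 1)) / 32 * ((x * (X - Y) - X * (x - y)) *
        (2 * X * (x - y) * y + (X - Y) * x * y + Y * x * (x - y))) *
          ((x - w * y) ^ 2 * y * (X - (1 - w) * Y) * Y)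
      + (-1 - (2 * w - 1)) / 32 * ((x * (X - Y) - X * (x - y)) *
        (X * (x - y) * y + (X - Y) * x * y + 2 * Y * x * (x - y))) *
          (x * (x - w * y) ^ 2 * X * (X - (1 - w) * Y))
      + (-3 + (2 * w - 1)) / 64 * ((x * (X - (1 - w) * Y) - X * (x - w * y)) *
        (4 * X * (x - w * y) * y + 2 * (X - (1 - w) * Y) * x * y
          + (1 - w) ^ 2 * Y * x * (x - w * y))) *
          ((x - y) ^ 2 * y * (X - Y) * Y)
      + (-5 - (2 * w - 1)) / 64 * ((x * (X - (1 - w) * Y) - X * (x - w * y)) *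
        (X * (x - w * y) * y + (X - (1 - w) * Y) * x * y
          + (1 - w) ^ 2 * Y * x * (x - w * y))) *
          (x * (x - y) ^ 2 * X * (X - Y))
      + (-1 + (2 * w - 1)) / 32 * (((x - y) * (X - (1 - w) * Y) - (X - Y) * (x - w * y)) *
        ((X - Y) * (x - w * y) * y + (X - (1 - w) * Y) * (x - y) * y
          + w ^ 2 * Y * (x - y) * (x - w * y))) *
          (x ^ 3 * X ^ 2)
    = x * (X - Y) * (X - (1 - w) * Y) * Y ^ 2 *
        ((2 * w - 1) / 16 * (x - w * y) ^ 2 * y ^ 3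
          + (7 - (2 * w - 1)) / 16 * (x - y) ^ 2 * y ^ 3
          + (7 - (2 * w - 1)) / 32 * (x - y) ^ 2 * (x - w * y) ^ 2 * y)
      + X ^ 2 * (X - Y) * (X - (1 - w) * Y) * y *
        ((7 + 3 * (2 * w - 1)) / 64 * x * (x - y) ^ 2 * (x - w * y) ^ 2
          - (2 * w - 1) / 16 * x ^ 3 * (x - w * y) ^ 2
          + (-7 + (2 * w - 1)) / 64 * x ^ 3 * (x - y) ^ 2) := by
  linear_combination (
    (1/32)*x^6*X^2*Y^2*w^2 + (1/32)*x^6*X^2*Y^2 + (1/32)*x^6*X*Y^3*w^2 + (-1/32)*x^6*X*Y^3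
     + (1/32)*x^5*y*X^3*Y*w^2 + (-3/32)*x^5*y*X^3*Y*w + (1/16)*x^5*y*X^3*Y
     + (-1/32)*x^5*y*X^2*Y^2*w^3 + (-3/32)*x^5*y*X^2*Y^2*w^2 + (3/32)*x^5*y*X^2*Y^2*w
     + (-9/32)*x^5*y*X^2*Y^2 + (-1/32)*x^5*y*X*Y^3*w^3 + (-1/32)*x^5*y*X*Y^3*w^2
     + (-3/16)*x^5*y*X*Y^3*w + (5/16)*x^5*y*X*Y^3 + (-1/32)*x^5*y*Y^4*w^2 + (1/8)*x^5*y*Y^4*w
     + (-3/32)*x^5*y*Y^4 + (-1/32)*x^4*y^2*X^3*Y*w^3 + (3/32)*x^4*y^2*X^3*Y*w^2
     + (1/16)*x^4*y^2*X^3*Y*w + (-1/8)*x^4*y^2*X^3*Y + (3/32)*x^4*y^2*X^2*Y^2*w^3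
     + (-1/32)*x^4*y^2*X^2*Y^2*w^2 + (-1/32)*x^4*y^2*X^2*Y^2*w + (17/32)*x^4*y^2*X^2*Y^2
     + (1/32)*x^4*y^2*X*Y^3*w^3 + (3/16)*x^4*y^2*X*Y^3*w^2 + (3/16)*x^4*y^2*X*Y^3*w
     + (-21/32)*x^4*y^2*X*Y^3 + (1/32)*x^4*y^2*Y^4*w^3 + (-1/16)*x^4*y^2*Y^4*w^2
     + (-7/32)*x^4*y^2*Y^4*w + (1/4)*x^4*y^2*Y^4 + (-1/8)*x^3*y^3*X^3*Y*w^2
     + (-3/32)*x^3*y^3*X^3*Y*w + (1/4)*x^3*y^3*X^3*Y + (-1/16)*x^3*y^3*X^2*Y^2*w^3
     + (5/32)*x^3*y^3*X^2*Y^2*w^2 + (15/32)*x^3*y^3*X^2*Y^2*w + (-35/32)*x^3*y^3*X^2*Y^2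
     + (1/16)*x^3*y^3*X*Y^3*w^3 + (-3/16)*x^3*y^3*X*Y^3*w^2 + (-11/16)*x^3*y^3*X*Y^3*w
     + (23/16)*x^3*y^3*X*Y^3 + (-1/16)*x^3*y^3*Y^4*w^3 + (5/32)*x^3*y^3*Y^4*w^2
     + (1/2)*x^3*y^3*Y^4*w + (-19/32)*x^3*y^3*Y^4 + (1/32)*x^2*y^4*X^3*Y*w^3
     + (3/32)*x^2*y^4*X^3*Y*w^2 + (-1/16)*x^2*y^4*X^3*Y*w + (-1/8)*x^2*y^4*X^3*Y
     + (1/32)*x^2*y^4*X^2*Y^2*w^3 + (-13/16)*x^2*y^4*X^2*Y^2*w^2 + (3/32)*x^2*y^4*X^2*Y^2*w
     + (7/8)*x^2*y^4*X^2*Y^2 + (-9/32)*x^2*y^4*X*Y^3*w^3 + (21/32)*x^2*y^4*X*Y^3*w^2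
     + (1/4)*x^2*y^4*X*Y^3*w + (-11/8)*x^2*y^4*X*Y^3 + (3/32)*x^2*y^4*Y^4*w^3
     + (-5/16)*x^2*y^4*Y^4*w^2 + (-13/32)*x^2*y^4*Y^4*w + (5/8)*x^2*y^4*Y^4
     + (-1/32)*x*y^5*X^3*Y*w^2 + (1/16)*x*y^5*X^3*Y*w + (5/32)*x*y^5*X^2*Y^2*w^3
     + (7/16)*x*y^5*X^2*Y^2*w^2 + (-3/16)*x*y^5*X^2*Y^2*w + (-1/4)*x*y^5*X^2*Y^2
     + (3/32)*x*y^5*X*Y^3*w^3 + (-7/32)*x*y^5*X*Y^3*w^2 + (-1/16)*x*y^5*X*Y^3*w
     + (1/2)*x*y^5*X*Y^3 + (1/16)*x*y^5*Y^4*w^2 + (3/16)*x*y^5*Y^4*w + (-1/4)*x*y^5*Y^4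
     + (-1/8)*y^6*X^2*Y^2*w^3) * hw

theorem rel42_alg (l0 l1 lp li m0 m1 mp mi r w v : ℂ) (h0 : l0 ≠ 0) (h1 : l1 ≠ 0)
    (hp : lp ≠ 0) (hi : li ≠ 0) (k0 : m0 ≠ 0) (k1 : m1 ≠ 0) (kp : mp ≠ 0) (ki : mi ≠ 0) :
    (w ^ 2 * m0 * l1 - v ^ 2 * l0 * m1) *
        (2 * w ^ 2 * m0 * l1 * lp + v ^ 2 * m1 * l0 * lp + 2 * mp * l0 * l1)
          / (16 * (l0 ^ 3 * l1 ^ 2 * lp ^ 2 * m0 ^ 2 * m1 * mp))
      + (3 - r) / 32 * ((l0 * m1 - m0 * l1) * (2 * m0 * l1 * li + m1 * l0 * li + mi * l0 * l1)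
          / (l0 ^ 3 * l1 ^ 2 * li ^ 2 * m0 ^ 2 * m1 * mi))
      + (-1 - r) / 32 * ((l0 * m1 - m0 * l1) * (m0 * l1 * li + m1 * l0 * li + 2 * mi * l0 * l1)
          / (l0 ^ 2 * l1 ^ 2 * li ^ 3 * m0 * m1 * mi ^ 2))
      + (-3 + r) / 16 * ((l0 * mp - m0 * lp) *
          (4 * m0 * lp * li + 2 * mp * l0 * li + v ^ 2 * mi * l0 * lp)
          / (4 * (l0 ^ 3 * lp ^ 2 * li ^ 2 * m0 ^ 2 * mp * mi)))
      + (-5 - r) / 16 * ((l0 * mp - m0 * lp) *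
          (m0 * lp * li + mp * l0 * li + v ^ 2 * mi * l0 * lp)
          / (4 * (l0 ^ 2 * lp ^ 2 * li ^ 3 * m0 * mp * mi ^ 2)))
      + (-1 + r) / 8 * ((l1 * mp - m1 * lp) *
          (m1 * lp * li + mp * l1 * li + w ^ 2 * mi * l1 * lp)
          / (4 * (l1 ^ 2 * lp ^ 2 * li ^ 3 * m1 * mp * mi ^ 2)))
    = ((w ^ 2 * m0 * l1 - v ^ 2 * l0 * m1) *
        (2 * w ^ 2 * m0 * l1 * lp + v ^ 2 * m1 * l0 * lp + 2 * mp * l0 * l1) / 16
          * (li ^ 3 * mi ^ 2)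
      + (3 - r) / 32 * ((l0 * m1 - m0 * l1) *
          (2 * m0 * l1 * li + m1 * l0 * li + mi * l0 * l1)) * (lp ^ 2 * li * mp * mi)
      + (-1 - r) / 32 * ((l0 * m1 - m0 * l1) *
          (m0 * l1 * li + m1 * l0 * li + 2 * mi * l0 * l1)) * (l0 * lp ^ 2 * m0 * mp)
      + (-3 + r) / 64 * ((l0 * mp - m0 * lp) *
          (4 * m0 * lp * li + 2 * mp * l0 * li + v ^ 2 * mi * l0 * lp))
          * (l1 ^ 2 * li * m1 * mi)
      + (-5 - r) / 64 * ((l0 * mp - m0 * lp) *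
          (m0 * lp * li + mp * l0 * li + v ^ 2 * mi * l0 * lp)) * (l0 * l1 ^ 2 * m0 * m1)
      + (-1 + r) / 32 * ((l1 * mp - m1 * lp) *
          (m1 * lp * li + mp * l1 * li + w ^ 2 * mi * l1 * lp)) * (l0 ^ 3 * m0 ^ 2))
        / (l0 ^ 3 * l1 ^ 2 * lp ^ 2 * li ^ 3 * m0 ^ 2 * m1 * mp * mi ^ 2) := by
  field_simp
  ring

theorem rel42_rhs (l0 l1 lp li m0 m1 mp mi r : ℂ) (h0 : l0 ≠ 0) (h1 : l1 ≠ 0)
    (hp : lp ≠ 0) (hi : li ≠ 0) (k0 : m0 ≠ 0) (k1 : m1 ≠ 0) (kp : mp ≠ 0) (ki : mi ≠ 0) :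
    1 / (l0 * m0) ^ 2 * (r / 16 * (1 / l1 ^ 2) + (7 - r) / 16 * (1 / lp ^ 2)
        + (7 - r) / 32 * (1 / li ^ 2))
      + 1 / (li * mi) ^ 2 * ((7 + 3 * r) / 64 * (1 / l0 ^ 2) - r / 16 * (1 / l1 ^ 2)
        + (-7 + r) / 64 * (1 / lp ^ 2))
    = (l0 * m1 * mp * mi ^ 2 *
        (r / 16 * lp ^ 2 * li ^ 3 + (7 - r) / 16 * l1 ^ 2 * li ^ 3
          + (7 - r) / 32 * l1 ^ 2 * lp ^ 2 * li)
      + m0 ^ 2 * m1 * mp * li *
        ((7 + 3 * r) / 64 * l0 * l1 ^ 2 * lp ^ 2 - r / 16 * l0 ^ 3 * lp ^ 2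
          + (-7 + r) / 64 * l0 ^ 3 * l1 ^ 2))
        / (l0 ^ 3 * l1 ^ 2 * lp ^ 2 * li ^ 3 * m0 ^ 2 * m1 * mp * mi ^ 2) := by
  field_simp

theorem rel42_H1 (a b c A B C : ℂ) (hc : a + b = c) (hA : starRingEnd ℂ a = A)
    (hB : starRingEnd ℂ b = B) (hC : starRingEnd ℂ c = C) (ha : a ≠ 0) (hb : b ≠ 0)
    (hc0 : c ≠ 0) :
    H1k a b = (A * b - a * B) * (2 * A * b * c + B * a * c + C * a * b)
      / (a ^ 3 * b ^ 2 * c ^ 2 * A ^ 2 * B * C) := by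
  have hA0 : A ≠ 0 := by rw [← hA]; exact (map_ne_zero _).2 ha
  have hB0 : B ≠ 0 := by rw [← hB]; exact (map_ne_zero _).2 hb
  have hC0 : C ≠ 0 := by rw [← hC]; exact (map_ne_zero _).2 hc0
  unfold H1k T1k NNk rho pk
  rw [hc, hA, hB, hC]
  field_simp

theorem rel42_H3 (a b c A B C : ℂ) (hc : a + b = c) (hA : starRingEnd ℂ a = A)
    (hB : starRingEnd ℂ b = B) (hC : starRingEnd ℂ c = C) (ha : a ≠ 0) (hb : b ≠ 0)
    (hc0 : c ≠ 0) :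
    H3k a b = (A * b - a * B) * (A * b * c + B * a * c + 2 * C * a * b)
      / (a ^ 2 * b ^ 2 * c ^ 3 * A * B * C ^ 2) := by
  have hA0 : A ≠ 0 := by rw [← hA]; exact (map_ne_zero _).2 ha
  have hB0 : B ≠ 0 := by rw [← hB]; exact (map_ne_zero _).2 hb
  have hC0 : C ≠ 0 := by rw [← hC]; exact (map_ne_zero _).2 hc0
  unfold H3k T3k NNk rho pk
  rw [hc, hA, hB, hC]
  field_simp

theorem rel42_rt : rt = 2 * om - 1 := by
  unfold om
  ring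

theorem rel42 (x y : ℂ) (h0 : x ≠ 0) (h1 : x - y ≠ 0) (hp : x - om * y ≠ 0) (hi : y ≠ 0) :
    F42 x y = SepA x y + SepB x y := by
  have hww : om * omb = 2 := om_mul_omb
  have hom : om ≠ 0 := by
    intro h; rw [h, zero_mul] at hww; norm_num at hww
  have homb : omb ≠ 0 := by
    intro h; rw [h, mul_zero] at hww; norm_num at hww
  have hcomb : starRingEnd ℂ omb = om := by
    rw [← conj_om, Complex.conj_conj]
  obtain ⟨X, hX⟩ : ∃ X, starRingEnd ℂ x = X := ⟨_, rfl⟩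
  obtain ⟨Y, hY⟩ : ∃ Y, starRingEnd ℂ y = Y := ⟨_, rfl⟩
  have k0 : X ≠ 0 := by rw [← hX]; exact (map_ne_zero _).2 h0
  have ki : Y ≠ 0 := by rw [← hY]; exact (map_ne_zero _).2 hi
  have hX1 : starRingEnd ℂ (x - y) = X - Y := by rw [map_sub, hX, hY]
  have hXp : starRingEnd ℂ (x - om * y) = X - omb * Y := by
    rw [map_sub, map_mul, conj_om, hX, hY]
  have k1 : X - Y ≠ 0 := by rw [← hX1]; exact (map_ne_zero _).2 h1
  have kp : X - omb * Y ≠ 0 := by rw [← hXp]; exact (map_ne_zero _).2 hp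
  -- the six kernels
  have e1 : H1k (omb * x) (om * (x - y)) =
      (om ^ 2 * X * (x - y) - omb ^ 2 * x * (X - Y)) *
        (2 * om ^ 2 * X * (x - y) * (x - om * y) + omb ^ 2 * (X - Y) * x * (x - om * y)
          + 2 * (X - omb * Y) * x * (x - y))
          / (16 * (x ^ 3 * (x - y) ^ 2 * (x - om * y) ^ 2 * X ^ 2 * (X - Y)
            * (X - omb * Y))) := by
    rw [rel42_H1 (omb * x) (om * (x - y)) (x - om * y) (om * X) (omb * (X - Y))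
      (X - omb * Y) (by unfold omb; ring) (by rw [map_mul, hcomb, hX])
      (by rw [map_mul, conj_om, hX1]) hXp (mul_ne_zero homb h0) (mul_ne_zero hom h1) hp]
    congr 1
    · generalize x - om * y = lp
      generalize X - omb * Y = mp
      linear_combination
        ((om ^ 2 * X * (x - y) - omb ^ 2 * x * (X - Y)) * (mp * x * (x - y))) * hww
    · generalize x - om * y = lp
      generalize X - omb * Y = mp
      linear_combination (x ^ 3 * (x - y) ^ 2 * lp ^ 2 * X ^ 2 * (X - Y) * mp *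
        ((om * omb) ^ 3 + 2 * (om * omb) ^ 2 + 4 * (om * omb) + 8)) * hww
  have e2 : H1k x (-(x - y)) =
      (x * (X - Y) - X * (x - y)) * (2 * X * (x - y) * y + (X - Y) * x * y + Y * x * (x - y))
          / (x ^ 3 * (x - y) ^ 2 * y ^ 2 * X ^ 2 * (X - Y) * Y) := by
    rw [rel42_H1 x (-(x - y)) y X (-(X - Y)) Y (by ring) hX (by rw [map_neg, hX1]) hY h0
      (neg_ne_zero.2 h1) hi]
    generalize x - y = l1 at *
    generalize X - Y = m1 at *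
    rw [div_eq_div_iff (by simp [h0, h1, hi, k0, k1, ki]) (by simp [h0, h1, hi, k0, k1, ki])]
    ring
  have e3 : H3k x (-(x - y)) =
      (x * (X - Y) - X * (x - y)) * (X * (x - y) * y + (X - Y) * x * y + 2 * Y * x * (x - y))
          / (x ^ 2 * (x - y) ^ 2 * y ^ 3 * X * (X - Y) * Y ^ 2) := by
    rw [rel42_H3 x (-(x - y)) y X (-(X - Y)) Y (by ring) hX (by rw [map_neg, hX1]) hY h0
      (neg_ne_zero.2 h1) hi]
    generalize x - y = l1 at *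
    generalize X - Y = m1 at *
    rw [div_eq_div_iff (by simp [h0, h1, hi, k0, k1, ki]) (by simp [h0, h1, hi, k0, k1, ki])]
    ring
  have e4 : H1k x (-(x - om * y)) =
      (x * (X - omb * Y) - X * (x - om * y)) *
          (4 * X * (x - om * y) * y + 2 * (X - omb * Y) * x * y
            + omb ^ 2 * Y * x * (x - om * y))
          / (4 * (x ^ 3 * (x - om * y) ^ 2 * y ^ 2 * X ^ 2 * (X - omb * Y) * Y)) := by
    rw [rel42_H1 x (-(x - om * y)) (om * y) X (-(X - omb * Y)) (omb * Y) (by ring) hX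
      (by rw [map_neg, hXp]) (by rw [map_mul, conj_om, hY]) h0
      (neg_ne_zero.2 hp) (mul_ne_zero hom hi)]
    generalize x - om * y = lp at *
    generalize X - omb * Y = mp at *
    rw [div_eq_div_iff (by simp [h0, hp, hi, k0, kp, ki, hom, homb])
      (by simp [h0, hp, hi, k0, kp, ki])]
    linear_combination ((x * mp - X * lp) * (x ^ 3 * lp ^ 2 * y ^ 2 * X ^ 2 * mp * Y) *
      (2 * om * (2 * X * lp * y + mp * x * y) + omb * (om * omb + 2) * (Y * x * lp))) * hww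
  have e5 : H3k x (-(x - om * y)) =
      (x * (X - omb * Y) - X * (x - om * y)) *
          (X * (x - om * y) * y + (X - omb * Y) * x * y + omb ^ 2 * Y * x * (x - om * y))
          / (4 * (x ^ 2 * (x - om * y) ^ 2 * y ^ 3 * X * (X - omb * Y) * Y ^ 2)) := by
    rw [rel42_H3 x (-(x - om * y)) (om * y) X (-(X - omb * Y)) (omb * Y) (by ring) hX
      (by rw [map_neg, hXp]) (by rw [map_mul, conj_om, hY]) h0
      (neg_ne_zero.2 hp) (mul_ne_zero hom hi)]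
    generalize x - om * y = lp at *
    generalize X - omb * Y = mp at *
    rw [div_eq_div_iff (by simp [h0, hp, hi, k0, kp, ki, hom, homb])
      (by simp [h0, hp, hi, k0, kp, ki])]
    linear_combination ((x * mp - X * lp) * (x ^ 2 * lp ^ 2 * y ^ 3 * X * mp * Y ^ 2) *
      (om * (om * omb + 2) * (X * lp * y + mp * x * y)
        + omb * ((om * omb) ^ 2 + 2 * (om * omb) + 4) * (Y * x * lp))) * hww
  have e6 : H3k (x - y) (-(x - om * y)) =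
      ((x - y) * (X - omb * Y) - (X - Y) * (x - om * y)) *
          ((X - Y) * (x - om * y) * y + (X - omb * Y) * (x - y) * y
            + om ^ 2 * Y * (x - y) * (x - om * y))
          / (4 * ((x - y) ^ 2 * (x - om * y) ^ 2 * y ^ 3 * (X - Y) * (X - omb * Y)
            * Y ^ 2)) := by
    rw [rel42_H3 (x - y) (-(x - om * y)) (-(omb * y)) (X - Y) (-(X - omb * Y)) (-(om * Y))
      (by unfold omb; ring) hX1
      (by rw [map_neg, hXp]) (by rw [map_neg, map_mul, hcomb, hY]) h1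
      (neg_ne_zero.2 hp) (neg_ne_zero.2 (mul_ne_zero homb hi))]
    generalize x - om * y = lp at *
    generalize X - omb * Y = mp at *
    generalize x - y = l1 at *
    generalize X - Y = m1 at *
    rw [div_eq_div_iff (by simp [h1, hp, hi, k1, kp, ki, hom, homb])
      (by simp [h1, hp, hi, k1, kp, ki])]
    linear_combination (-(l1 * mp - m1 * lp) * (l1 ^ 2 * lp ^ 2 * y ^ 3 * m1 * mp * Y ^ 2) *
      (omb * (om * omb + 2) * (m1 * lp * y + mp * l1 * y)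
        + om * ((om * omb) ^ 2 + 2 * (om * omb) + 4) * (Y * l1 * lp))) * hww
  unfold F42 SepA SepB n4
  rw [e1, e2, e3, e4, e5, e6, hX, hY]
  rw [rel42_alg x (x - y) (x - om * y) y X (X - Y) (X - omb * Y) Y rt om omb h0 h1 hp hi
      k0 k1 kp ki,
    rel42_rhs x (x - y) (x - om * y) y X (X - Y) (X - omb * Y) Y rt h0 h1 hp hi k0 k1 kp ki]
  congr 1
  have ho : omb = 1 - om := rfl
  rw [ho, rel42_rt]
  exact rel42_poly x y X Y om om_sq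

end MM7
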