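import Pool.Agent.MM7.Defs3b

/-!
# MM7, Part 3, module Summ

kk p = |p|^-3 is summable on ℤ² (for instance compare with (1+|m|)^(-3/2) (1+|n|)^(-3/2), because
m²+n² ≥ 2|m||n|; treat m = 0 and n = 0 apart; or use Mathlib's EisensteinSeries summability).
summable_kk12 is a product. summable_kk13, summable_kk23: change of variables
(q.1,q.2) ↦ (q.1, q.1+q.2) resp. (q.2, q.1+q.2), bijections of (ℤ×ℤ)×(ℤ×ℤ).
summable_KK = summable_kk12 + summable_kk13.
-/

open Real MeasureTheory Set Filter Topology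

namespace MM7

theorem Summ_kk_nonneg (p : ℤ × ℤ) : 0 ≤ kk p := by
  unfold kk
  positivity

theorem Summ_norm_le (p : ℤ × ℤ) :
    ‖((finTwoArrowEquiv ℤ).symm p)‖ ≤ Real.sqrt (nn p) := by
  rw [EisensteinSeries.norm_eq_max_natAbs]
  have h1 : ((finTwoArrowEquiv ℤ).symm p) 0 = p.1 := rfl
  have h2 : ((finTwoArrowEquiv ℤ).symm p) 1 = p.2 := rfl
  rw [h1, h2]
  have e1 : ((p.1.natAbs : ℕ) : ℝ) = |(p.1 : ℝ)| := by
    rw [Nat.cast_natAbs, Int.cast_abs]
  have e2 : ((p.2.natAbs : ℕ) : ℝ) = |(p.2 : ℝ)| := by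
    rw [Nat.cast_natAbs, Int.cast_abs]
  rw [Nat.cast_max, e1, e2]
  unfold nn
  apply max_le
  · apply Real.abs_le_sqrt
    nlinarith [sq_nonneg (p.2 : ℝ)]
  · apply Real.abs_le_sqrt
    nlinarith [sq_nonneg (p.1 : ℝ)]

theorem summable_kk : Summable kk := by
  have h := EisensteinSeries.summable_one_div_norm_rpow (k := 3) (by norm_num)
  have h2 : Summable (fun p : ℤ × ℤ => ‖((finTwoArrowEquiv ℤ).symm p)‖ ^ (-(3:ℝ))) :=
    (finTwoArrowEquiv ℤ).symm.summable_iff.mpr h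
  refine Summable.of_nonneg_of_le Summ_kk_nonneg ?_ h2
  intro p
  have hle := Summ_norm_le p
  by_cases hp : p = 0
  · subst hp
    have : kk 0 = 0 := by
      unfold kk nn
      simp
    rw [this]
    positivity
  · have hpos : 0 < ‖((finTwoArrowEquiv ℤ).symm p)‖ := by
      rw [norm_pos_iff]
      intro hc
      apply hp
      have := congrArg (finTwoArrowEquiv ℤ) hc
      rw [Equiv.apply_symm_apply] at this
      rw [this]
      rfl
    rw [Real.rpow_neg hpos.le, ← one_div]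
    unfold kk
    have h3 : ‖((finTwoArrowEquiv ℤ).symm p)‖ ^ (3:ℝ) = ‖((finTwoArrowEquiv ℤ).symm p)‖ ^ (3:ℕ) := by
      rw [← Real.rpow_natCast]
      norm_num
    rw [h3]
    apply one_div_le_one_div_of_le (by positivity)
    gcongr

/-- shear `(a, b) ↦ (a, a + b)` -/
def Summ_e1 : (ℤ × ℤ) × (ℤ × ℤ) ≃ (ℤ × ℤ) × (ℤ × ℤ) where
  toFun q := (q.1, q.1 + q.2)
  invFun q := (q.1, q.2 - q.1)
  left_inv q := by simp
  right_inv q := by simp

/-- shear `(a, b) ↦ (b, a + b)` -/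
def Summ_e2 : (ℤ × ℤ) × (ℤ × ℤ) ≃ (ℤ × ℤ) × (ℤ × ℤ) where
  toFun q := (q.2, q.1 + q.2)
  invFun q := (q.2 - q.1, q.1)
  left_inv q := by simp
  right_inv q := by simp

theorem summable_kk12 : Summable (fun q : (ℤ × ℤ) × (ℤ × ℤ) => kk q.1 * kk q.2) :=
  summable_kk.mul_of_nonneg summable_kk Summ_kk_nonneg Summ_kk_nonneg

theorem summable_kk13 : Summable (fun q : (ℤ × ℤ) × (ℤ × ℤ) => kk q.1 * kk (q.1 + q.2)) :=
  Summ_e1.summable_iff.mpr summable_kk12

theorem summable_kk23 : Summable (fun q : (ℤ × ℤ) × (ℤ × ℤ) => kk q.2 * kk (q.1 + q.2)) :=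
  Summ_e2.summable_iff.mpr summable_kk12

theorem summable_KK : Summable KK := by
  have h := summable_kk12.add summable_kk13
  refine h.congr ?_
  intro q
  unfold KK
  ring

end MM7
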