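import Pool.Agent.MM7.Defs4
import Pool.Agent.MM7.Summ
import Pool.Agent.MM7.Arith4

/-!
# MM7, Part 4, module Kappa

Let s z = 1/z² (s 0 = 0), F v = s(1 - om xx v) - s(om xx v), κ = Σ_v F v (absolutely convergent: |s z - s w| ≤
|z+w|(|z|⁻³+|w|⁻³), s even). Claim: (7 + w) conj κ = (7 - w) κ (w = rt), whence (7-w) κ is real.
With g c = Σ_u [s(c-2u) - s(2u)] (c in O): splitting v = mulPb u + {0,1} and om*omb = 2 give
 κ = g 1 + g omb - g om, conj κ = g 1 + g om - g omb (conjugation: conj (g c) = g (conj c)), and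
 κ = omb² g omb, conj κ = om² g om by homogeneity.
-/

open Real MeasureTheory Set Filter Topology

namespace MM7

private theorem Kappa_cube {u v : ℝ} (hu : 0 ≤ u) (hv : 0 ≤ v) :
    u ^ 2 * v + u * v ^ 2 ≤ u ^ 3 + v ^ 3 := by
  nlinarith [mul_nonneg (add_nonneg hu hv) (sq_nonneg (u - v))]

private theorem Kappa_bound (z w : ℂ) :
    ‖1 / z ^ 2 - 1 / w ^ 2‖ ≤ ‖z + w‖ * (1 / ‖z‖ ^ 3 + 1 / ‖w‖ ^ 3) := by
  by_cases hz : z = 0
  · by_cases hw : w = 0
    · subst hz; subst hw; simp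
    · subst hz
      have h0 : 0 < ‖w‖ := norm_pos_iff.2 hw
      simp only [ne_eq, OfNat.ofNat_ne_zero, not_false_eq_true, zero_pow, div_zero, zero_sub,
        norm_neg, norm_div, norm_one, norm_pow, zero_add, norm_zero]
      rw [mul_one_div, div_le_div_iff₀ (by positivity) (by positivity)]
      exact le_of_eq (by ring)
  · by_cases hw : w = 0
    · subst hw
      have h0 : 0 < ‖z‖ := norm_pos_iff.2 hz
      simp only [ne_eq, OfNat.ofNat_ne_zero, not_false_eq_true, zero_pow, div_zero, sub_zero,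
        norm_div, norm_one, norm_pow, add_zero, norm_zero]
      rw [mul_one_div, div_le_div_iff₀ (by positivity) (by positivity)]
      exact le_of_eq (by ring)
    · have hz0 : 0 < ‖z‖ := norm_pos_iff.2 hz
      have hw0 : 0 < ‖w‖ := norm_pos_iff.2 hw
      have h1 : 1 / z ^ 2 - 1 / w ^ 2 = (z + w) * ((w - z) * (1 / z) ^ 2 * (1 / w) ^ 2) := by
        field_simp
        ring
      rw [h1, norm_mul]
      refine mul_le_mul_of_nonneg_left ?_ (norm_nonneg _)
      rw [norm_mul, norm_mul, norm_pow, norm_pow, norm_div, norm_div, norm_one]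
      have h2 : ‖w - z‖ ≤ ‖w‖ + ‖z‖ := norm_sub_le _ _
      have h3 := Kappa_cube (u := 1 / ‖z‖) (v := 1 / ‖w‖) (by positivity) (by positivity)
      calc ‖w - z‖ * (1 / ‖z‖) ^ 2 * (1 / ‖w‖) ^ 2
          ≤ (‖w‖ + ‖z‖) * (1 / ‖z‖) ^ 2 * (1 / ‖w‖) ^ 2 := by gcongr
        _ = (1 / ‖z‖) ^ 2 * (1 / ‖w‖) + (1 / ‖z‖) * (1 / ‖w‖) ^ 2 := by
            field_simp
        _ ≤ (1 / ‖z‖) ^ 3 + (1 / ‖w‖) ^ 3 := h3
        _ = 1 / ‖z‖ ^ 3 + 1 / ‖w‖ ^ 3 := by rw [one_div_pow, one_div_pow]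

/-- a general summability statement -/
private theorem Kappa_summable {φ ψ : ℤ × ℤ → ℤ × ℤ} (hφ : Function.Injective φ)
    (hψ : Function.Injective ψ) (c : ℤ × ℤ) (hc : ∀ u, φ u + ψ u = c) :
    Summable (fun u : ℤ × ℤ => 1 / xx (φ u) ^ 2 - 1 / xx (ψ u) ^ 2) := by
  obtain ⟨C, hC, hk⟩ := xx_kk
  have h1 : Summable (fun u => ‖xx c‖ * (C * kk (φ u) + C * kk (ψ u))) :=
    (((summable_kk.comp_injective hφ).mul_left C).add
      ((summable_kk.comp_injective hψ).mul_left C)).mul_left _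
  refine Summable.of_norm_bounded h1 (fun u => ?_)
  refine (Kappa_bound _ _).trans ?_
  rw [← xx_add, hc u]
  exact mul_le_mul_of_nonneg_left (add_le_add (hk _) (hk _)) (norm_nonneg _)

private theorem Kappa_two_inj : Function.Injective (fun u : ℤ × ℤ => u + u) := by
  rintro ⟨a, b⟩ ⟨c, d⟩ h
  simp only [Prod.mk_add_mk, Prod.mk.injEq] at h ⊢
  constructor <;> omega

private theorem Kappa_sub_inj (c : ℤ × ℤ) : Function.Injective (fun u : ℤ × ℤ => c - (u + u)) := by
  intro u v h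
  have h2 : c - (u + u) = c - (v + v) := h
  exact Kappa_two_inj (sub_right_injective h2)

private noncomputable def KappaG (c u : ℤ × ℤ) : ℂ := 1 / xx (c - (u + u)) ^ 2 - 1 / xx (u + u) ^ 2

private theorem KappaG_summable (c : ℤ × ℤ) : Summable (KappaG c) :=
  Kappa_summable (Kappa_sub_inj c) Kappa_two_inj c (fun u => by simp)

private theorem KappaG_neg (c u : ℤ × ℤ) :
    KappaG c (-u) = 1 / xx (c + (u + u)) ^ 2 - 1 / xx (u + u) ^ 2 := by
  unfold KappaG
  have h1 : c - (-u + -u) = c + (u + u) := by abel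
  have h2 : -u + -u = -(u + u) := by abel
  rw [h1, h2, xx_neg, neg_sq]

private theorem KappaG_tsum_neg (c : ℤ × ℤ) :
    HasSum (fun u : ℤ × ℤ => 1 / xx (c + (u + u)) ^ 2 - 1 / xx (u + u) ^ 2) (∑' u, KappaG c u) := by
  have h := (Equiv.neg (ℤ × ℤ)).hasSum_iff.mpr (KappaG_summable c).hasSum
  refine h.congr_fun ?_ 
  intro u
  simp only [Function.comp_apply, Equiv.neg_apply]
  rw [KappaG_neg]

private theorem Kappa_mul_two (p : ℤ × ℤ) : mulPi (mulPb p) = p + p := by
  obtain ⟨a, b⟩ := p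
  unfold mulPi mulPb
  simp only [Prod.mk_add_mk, Prod.mk.injEq]
  constructor <;> ring

private theorem Kappa_mul_two' (p : ℤ × ℤ) : mulPi (mulPb p + (1, 0)) = (0, 1) + (p + p) := by
  obtain ⟨a, b⟩ := p
  unfold mulPi mulPb
  simp only [Prod.mk_add_mk, Prod.mk.injEq]
  constructor <;> ring

private theorem Kappa_xx_one : xx (1, 0) = 1 := by
  unfold xx; push_cast; ring

private theorem Kappa_xx_om : xx (0, 1) = om := by
  unfold xx; push_cast; ring

private theorem Kappa_xx_omb : xx (1, -1) = omb := by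
  unfold xx omb; push_cast; ring

/-- the summand -/
private noncomputable def KappaF (v : ℤ × ℤ) : ℂ :=
  1 / (1 - om * xx v) ^ 2 - 1 / (om * xx v) ^ 2

private theorem KappaF_eq (v : ℤ × ℤ) :
    KappaF v = 1 / xx ((1, 0) - mulPi v) ^ 2 - 1 / xx (mulPi v) ^ 2 := by
  unfold KappaF
  rw [sub_eq_add_neg (1, 0) (mulPi v), xx_add, xx_neg, xx_mulPi, Kappa_xx_one, ← sub_eq_add_neg]

private theorem KappaF_summable : Summable KappaF := by
  have h := Kappa_summable (φ := fun v => (1, 0) - mulPi v) (ψ := mulPi)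
    (fun u v h => mulPi_injective (sub_right_injective h)) mulPi_injective (1, 0)
    (fun u => by simp)
  exact h.congr (fun v => (KappaF_eq v).symm)

private theorem Kappa_compl :
    (Set.range mulPb)ᶜ = Set.range (fun u : ℤ × ℤ => mulPb u + (1, 0)) := by
  ext p
  rw [Set.mem_compl_iff, mem_range_mulPb]
  constructor
  · intro h
    have h1 : Even ((p - (1, 0)).1 + (p - (1, 0)).2) := by
      rw [Int.not_even_iff_odd] at h
      obtain ⟨k, hk⟩ := h
      refine ⟨k, ?_⟩
      simp only [Prod.fst_sub, Prod.snd_sub]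
      omega
    obtain ⟨u, hu⟩ := (mem_range_mulPb _).2 h1
    exact ⟨u, by simp only [hu]; abel⟩
  · rintro ⟨u, hu⟩ h
    have h1 : Even ((mulPb u).1 + (mulPb u).2) := (mem_range_mulPb _).1 ⟨u, rfl⟩
    obtain ⟨k, hk⟩ := h1
    obtain ⟨j, hj⟩ := h
    rw [← hu] at hj
    simp only [Prod.fst_add, Prod.snd_add] at hj
    omega

private theorem Kappa_split {f : ℤ × ℤ → ℂ} (hf : Summable f) :
    ∑' v, f v = ∑' u, f (mulPb u) + ∑' u, f (mulPb u + (1, 0)) := by
  rw [← hf.tsum_subtype_add_tsum_subtype_compl (Set.range mulPb), Kappa_compl,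
    tsum_range f mulPb_injective,
    tsum_range f (g := fun u : ℤ × ℤ => mulPb u + (1, 0))
      (fun u v h => mulPb_injective (add_right_cancel h))]

private theorem Kappa_one :
    ∑' v, KappaF v = ∑' u, KappaG (1, 0) u + (∑' u, KappaG (1, -1) u - ∑' u, KappaG (0, 1) u) := by
  rw [Kappa_split KappaF_summable]
  congr 1
  · refine tsum_congr (fun u => ?_)
    rw [KappaF_eq, Kappa_mul_two]
    rfl
  · have h := (KappaG_summable (1, -1)).hasSum.sub (KappaG_tsum_neg (0, 1))
    rw [← h.tsum_eq]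
    refine tsum_congr (fun u => ?_)
    rw [KappaF_eq, Kappa_mul_two']
    unfold KappaG
    have h1 : ((1, 0) : ℤ × ℤ) - ((0, 1) + (u + u)) = (1, -1) - (u + u) := by
      ext
      · simp
      · simp only [Prod.snd_sub, Prod.snd_add]; ring
    rw [h1]
    ring

/-- conjugation on coordinates -/
private def KappaT : ℤ × ℤ ≃ ℤ × ℤ where
  toFun p := (p.1 + p.2, -p.2)
  invFun p := (p.1 + p.2, -p.2)
  left_inv p := by simp
  right_inv p := by simp

private theorem KappaT_xx (p : ℤ × ℤ) : starRingEnd ℂ (xx p) = xx (KappaT p) := xx_conj p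

private theorem KappaT_sub (p r : ℤ × ℤ) : KappaT (p - r) = KappaT p - KappaT r := by
  ext
  · simp only [KappaT, Equiv.coe_fn_mk, Prod.fst_sub, Prod.snd_sub]; ring
  · simp only [KappaT, Equiv.coe_fn_mk, Prod.fst_sub, Prod.snd_sub]; ring

private theorem KappaT_add (p r : ℤ × ℤ) : KappaT (p + r) = KappaT p + KappaT r := by
  ext
  · simp only [KappaT, Equiv.coe_fn_mk, Prod.fst_add, Prod.snd_add]; ring
  · simp only [KappaT, Equiv.coe_fn_mk, Prod.fst_add, Prod.snd_add]; ring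

private theorem KappaG_conj (c : ℤ × ℤ) :
    starRingEnd ℂ (∑' u, KappaG c u) = ∑' u, KappaG (KappaT c) u := by
  rw [Complex.conj_tsum, ← KappaT.tsum_eq (KappaG (KappaT c))]
  refine tsum_congr (fun u => ?_)
  unfold KappaG
  rw [map_sub, map_div₀, map_div₀, map_pow, map_pow, map_one, KappaT_xx, KappaT_xx, KappaT_sub,
    KappaT_add]

private theorem Kappa_T1 : KappaT (1, 0) = (1, 0) := by
  simp [KappaT]
private theorem Kappa_T2 : KappaT (1, -1) = (0, 1) := by
  simp [KappaT]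
private theorem Kappa_T3 : KappaT (0, 1) = (1, -1) := by
  simp [KappaT]

private theorem Kappa_omb_ne : omb ≠ 0 := by
  intro h
  have := om_mul_omb
  rw [h, mul_zero] at this
  norm_num at this

private theorem Kappa_hom : ∑' v, KappaF v = omb ^ 2 * ∑' u, KappaG (1, -1) u := by
  rw [← tsum_mul_left]
  refine tsum_congr (fun u => ?_)
  have h0 := Kappa_omb_ne
  unfold KappaF KappaG
  have h1 : xx ((1, -1) - (u + u)) = omb * (1 - om * xx u) := by
    rw [sub_eq_add_neg, xx_add, xx_neg, xx_add, Kappa_xx_omb]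
    linear_combination xx u * om_mul_omb
  have h2 : xx (u + u) = omb * (om * xx u) := by
    rw [xx_add]
    linear_combination -(xx u) * om_mul_omb
  rw [h1, h2, mul_pow omb (1 - om * xx u), mul_pow omb (om * xx u), mul_sub, ← mul_div_assoc,
    ← mul_div_assoc, mul_one, div_mul_eq_div_div, div_mul_eq_div_div,
    div_self (pow_ne_zero 2 h0)]

theorem kappa_im : ((7 - rt) * ∑' v : ℤ × ℤ,
    (1 / (1 - om * xx v) ^ 2 - 1 / (om * xx v) ^ 2)).im = 0 := by
  have e1 : (∑' v : ℤ × ℤ, (1 / (1 - om * xx v) ^ 2 - 1 / (om * xx v) ^ 2)) = ∑' v, KappaF v := rfl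
  rw [e1]
  have h1 := Kappa_one
  have h2 := congrArg (starRingEnd ℂ) Kappa_one
  have h3 := Kappa_hom
  have h4 := congrArg (starRingEnd ℂ) Kappa_hom
  rw [map_add, map_sub, KappaG_conj, KappaG_conj, KappaG_conj, Kappa_T1, Kappa_T2, Kappa_T3] at h2
  have hob : starRingEnd ℂ omb = om := by
    rw [← conj_om, Complex.conj_conj]
  rw [map_mul, map_pow, hob, KappaG_conj, Kappa_T2] at h4
  have hrt : rt = 2 * om - 1 := by unfold om; ring
  have hom := om_sq
  have homb : omb = 1 - om := rfl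
  have hmul := om_mul_omb
  rw [← Complex.conj_eq_iff_im, map_mul, map_sub, conj_rt, map_ofNat]
  generalize (starRingEnd ℂ) (∑' v, KappaF v) = k' at *
  generalize (∑' v, KappaF v) = k at *
  generalize (∑' u, KappaG (1, 0) u) = g1 at *
  generalize (∑' u, KappaG (1, -1) u) = gb at *
  generalize (∑' u, KappaG (0, 1) u) = ga at *
  linear_combination 4 * (h2 - h1) - 2 * omb ^ 2 * h4 + 2 * om ^ 2 * h3
    - 2 * (ga - gb) * (om * omb + 2) * hmul + (k' + k) * hrt + 2 * (k' - k) * hom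
    + 2 * k' * (omb + 1 - om) * homb

end MM7
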