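import Pool.Agent.MM7.Defs3b

/-!
# MM7, Part 3, module Shift

Telescoping. For μ = (1,0): the double sum is absolutely convergent, so Fubini (HasSum over the fibres n fixed):
for every n, Σ_m (g(m+1,n) - g(m,n)) = 0 because g(·,n) → 0 at ±∞ (partial sums over [-M,M) are
g(M,n)-g(-M,n)).  Same for (0,1). For general μ: the set of μ with the property
(summable and sum 0) is closed under addition (g(p+μ+ν)-g(p) = [g((p+μ)+ν)-g(p+μ)] + [g(p+μ)-g p], shift
invariance of sums over ℤ²) and negation.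
-/

open Real MeasureTheory Set Filter Topology

namespace MM7

theorem Shift_row {f : ℤ → ℂ} (h0 : Tendsto f cofinite (𝓝 0))
    (hs : Summable fun n : ℤ => f (n + 1) - f n) :
    HasSum (fun n : ℤ => f (n + 1) - f n) 0 := by
  have hinj1 : Function.Injective (fun n : ℕ => (n : ℤ)) := fun a b h => by simpa using h
  have hinj2 : Function.Injective (fun n : ℕ => -((n : ℤ))) := fun a b h => by simpa using h
  have hinj3 : Function.Injective (fun n : ℕ => -((n : ℤ) + 1)) := fun a b h => by simpa using h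
  have t1 : Tendsto (fun n : ℕ => f (n : ℤ)) atTop (𝓝 0) := by
    have := h0.comp hinj1.tendsto_cofinite
    rwa [Nat.cofinite_eq_atTop] at this
  have t2 : Tendsto (fun n : ℕ => f (-(n : ℤ))) atTop (𝓝 0) := by
    have := h0.comp hinj2.tendsto_cofinite
    rwa [Nat.cofinite_eq_atTop] at this
  have s1 : Summable (fun n : ℕ => f ((n : ℤ) + 1) - f (n : ℤ)) := hs.comp_injective hinj1
  have s2 : Summable (fun n : ℕ => f (-((n : ℤ) + 1) + 1) - f (-((n : ℤ) + 1))) :=
    hs.comp_injective hinj3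
  have e1 : HasSum (fun n : ℕ => f ((n : ℤ) + 1) - f (n : ℤ)) (0 - f 0) := by
    have a := s1.hasSum.tendsto_sum_nat
    have b : Tendsto (fun N : ℕ => ∑ n ∈ Finset.range N, (f ((n : ℤ) + 1) - f (n : ℤ))) atTop
        (𝓝 (0 - f 0)) := by
      have : (fun N : ℕ => ∑ n ∈ Finset.range N, (f ((n : ℤ) + 1) - f (n : ℤ)))
          = fun N : ℕ => f (N : ℤ) - f 0 := by
        funext N
        have := Finset.sum_range_sub (fun n : ℕ => f (n : ℤ)) N
        simpa using this
      rw [this]
      exact t1.sub_const (f 0)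
    have c := tendsto_nhds_unique a b
    rw [← c]
    exact s1.hasSum
  have e2 : HasSum (fun n : ℕ => f (-((n : ℤ) + 1) + 1) - f (-((n : ℤ) + 1))) (f 0 - 0) := by
    have a := s2.hasSum.tendsto_sum_nat
    have b : Tendsto (fun N : ℕ => ∑ n ∈ Finset.range N, (f (-((n : ℤ) + 1) + 1) - f (-((n : ℤ) + 1))))
        atTop (𝓝 (f 0 - 0)) := by
      have : (fun N : ℕ => ∑ n ∈ Finset.range N, (f (-((n : ℤ) + 1) + 1) - f (-((n : ℤ) + 1))))
          = fun N : ℕ => f 0 - f (-(N : ℤ)) := by
        funext N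
        have := Finset.sum_range_sub' (fun n : ℕ => f (-(n : ℤ))) N
        have h2 : ∀ n : ℕ, f (-((n : ℤ) + 1) + 1) - f (-((n : ℤ) + 1))
            = f (-(n : ℤ)) - f (-((n + 1 : ℕ) : ℤ)) := by
          intro n
          have a1 : -((n : ℤ) + 1) + 1 = -(n : ℤ) := by ring
          have a2 : -((n : ℤ) + 1) = -((n + 1 : ℕ) : ℤ) := by
            push_cast
            ring
          rw [a1, a2]
        rw [Finset.sum_congr rfl (fun n _ => h2 n)]
        simpa using this
      rw [this]
      exact t2.const_sub (f 0)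
    have c := tendsto_nhds_unique a b
    rw [← c]
    exact s2.hasSum
  have := HasSum.of_nat_of_neg_add_one (f := fun n : ℤ => f (n + 1) - f n) e1 e2
  simpa using this

theorem Shift_col {g : ℤ × ℤ → ℂ} (hg : Tendsto g cofinite (𝓝 0))
    (h2 : Summable fun p : ℤ × ℤ => g (p + (0, 1)) - g p) :
    HasSum (fun p : ℤ × ℤ => g (p + (0, 1)) - g p) 0 := by
  have key : ∀ m : ℤ, HasSum (fun n : ℤ => g ((m, n) + (0, 1)) - g (m, n)) 0 := by
    intro m
    have hinj : Function.Injective (fun n : ℤ => ((m, n) : ℤ × ℤ)) := fun a b h => by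
      simpa using h
    have h0 : Tendsto (fun n : ℤ => g (m, n)) cofinite (𝓝 0) := hg.comp hinj.tendsto_cofinite
    have hs : Summable (fun n : ℤ => g (m, n + 1) - g (m, n)) := by
      have := h2.comp_injective hinj
      refine this.congr ?_
      intro n
      simp
    have := Shift_row h0 hs
    refine this.congr_fun ?_
    intro n
    simp
  have a := h2.hasSum.prod_fiberwise key
  have b : HasSum (fun _ : ℤ => (0 : ℂ)) 0 := hasSum_zero
  have c := a.unique b
  rw [← c]
  exact h2.hasSum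

theorem Shift_swap {g : ℤ × ℤ → ℂ} (hg : Tendsto g cofinite (𝓝 0))
    (h1 : Summable fun p : ℤ × ℤ => g (p + (1, 0)) - g p) :
    HasSum (fun p : ℤ × ℤ => g (p + (1, 0)) - g p) 0 := by
  have e := (Equiv.prodComm ℤ ℤ)
  have hg' : Tendsto (fun p : ℤ × ℤ => g p.swap) cofinite (𝓝 0) :=
    hg.comp (Prod.swap_injective.tendsto_cofinite)
  have hs : Summable (fun p : ℤ × ℤ => g ((p + (0, 1)).swap) - g p.swap) := by
    have := h1.comp_injective (Prod.swap_injective (α := ℤ) (β := ℤ))
    refine this.congr ?_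
    intro p
    rfl
  have := Shift_col hg' hs
  have h3 := (Equiv.prodComm ℤ ℤ).hasSum_iff (f := fun p : ℤ × ℤ => g (p + (1, 0)) - g p) (a := 0)
  rw [← h3]
  exact this

theorem hasSum_shift {g : ℤ × ℤ → ℂ} (hg : Tendsto g cofinite (𝓝 0))
    (h1 : Summable fun p : ℤ × ℤ => g (p + (1, 0)) - g p)
    (h2 : Summable fun p : ℤ × ℤ => g (p + (0, 1)) - g p) (μ : ℤ × ℤ) :
    HasSum (fun p : ℤ × ℤ => g (p + μ) - g p) 0 := by
  have hadd : ∀ μ ν : ℤ × ℤ, HasSum (fun p : ℤ × ℤ => g (p + μ) - g p) 0 →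
      HasSum (fun p : ℤ × ℤ => g (p + ν) - g p) 0 →
      HasSum (fun p : ℤ × ℤ => g (p + (μ + ν)) - g p) 0 := by
    intro μ ν a b
    have a' : HasSum (fun p : ℤ × ℤ => g (p + ν + μ) - g (p + ν)) 0 := by
      have := (Equiv.addRight ν).hasSum_iff (f := fun p : ℤ × ℤ => g (p + μ) - g p) (a := 0)
      exact this.2 a
    have c := a'.add b
    rw [add_zero] at c
    refine c.congr_fun ?_
    intro p
    have : p + (μ + ν) = p + ν + μ := by abel
    simp only [this]
    ring
  have hneg : ∀ μ : ℤ × ℤ, HasSum (fun p : ℤ × ℤ => g (p + μ) - g p) 0 →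
      HasSum (fun p : ℤ × ℤ => g (p + (-μ)) - g p) 0 := by
    intro μ a
    have a' : HasSum (fun p : ℤ × ℤ => g (p + (-μ) + μ) - g (p + (-μ))) 0 := by
      have := (Equiv.addRight (-μ)).hasSum_iff (f := fun p : ℤ × ℤ => g (p + μ) - g p) (a := 0)
      exact this.2 a
    have c := a'.neg
    rw [neg_zero] at c
    refine c.congr_fun ?_
    intro p
    have : p + (-μ) + μ = p := by abel
    simp only [this]
    ring
  have hgen : ∀ ρ : ℤ × ℤ, HasSum (fun p : ℤ × ℤ => g (p + ρ) - g p) 0 → ∀ n : ℤ,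
      HasSum (fun p : ℤ × ℤ => g (p + n • ρ) - g p) 0 := by
    intro ρ hρ n
    induction n using Int.induction_on with
    | zero => simp
    | succ n ih =>
      have := hadd _ _ ih hρ
      rw [add_zsmul, one_zsmul]
      exact this
    | pred n ih =>
      have := hadd _ _ ih (hneg _ hρ)
      have e : ((-(n : ℤ) - 1) • ρ) = -(n : ℤ) • ρ + -ρ := by
        rw [sub_zsmul, one_zsmul]
      rw [e]
      exact this
  have hA := hgen _ (Shift_swap hg h1) μ.1
  have hB := hgen _ (Shift_col hg h2) μ.2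
  have := hadd _ _ hA hB
  have e : μ.1 • ((1, 0) : ℤ × ℤ) + μ.2 • ((0, 1) : ℤ × ℤ) = μ := by
    ext <;> simp
  rw [e] at this
  exact this

end MM7
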