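import Pool.Agent.MM7.Defs4
import Pool.Agent.MM7.Summ
import Pool.Agent.MM7.Arith4
import Pool.Agent.MM7.Shift
import Pool.Agent.MM7.Kappa

/-!
# MM7, Part 4, module SepSum

s z = 1/z², even, |s z - s w| ≤ 2|z+w|(|z|⁻³+|w|⁻³) (all z,w, with 1/0 = 0).
sepA: 7/32-coefficient: rt/16 + (7-rt)/16/om² + (7-rt)/32 = 0, so with α = rt/16, β = (7-rt)/16:
SepA(x,y) = n4 x * ( α [s(x-y) - s(y)] + β [s(x - om y) - s(om y)] ) (s(om y) = om⁻² s(y)).
Absolutely summable over pairs: |x|⁻⁴ * C |x| (|x-y|⁻³+|y|⁻³+|x-om y|⁻³+|om y|⁻³) (summable_kk12 and injective linear maps).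
Inner sum over y = xx v.2 for fixed x = xx v.1: Σ_y [s(y-x) - s(y)] = 0 (hasSum_shift), and
κ(x) := Σ_y [s(x - om y) - s(om y)] depends only on x mod om O (hasSum_shift for g(y) = s(x - om y)), κ(0) = 0, so
κ(x) = 0 if om | x and κ(x) = κ(1) otherwise; β κ(1) is real by kappa_im. So Σ SepA = β κ(1) Σ_{om ∤ x} |x|⁻⁴, real.
sepB: coefficients (7+3rt)/64 - rt/16 + (-7+rt)/64 = 0, so
SepB(x,y) = n4 y * ( -rt/16 [s(x-y) - s(x)] + (-7+rt)/64 [s(x-om y) - s(x)] ), inner sum over x is 0 by hasSum_shift.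
-/

open Real MeasureTheory Set Filter Topology

namespace MM7

private theorem SepSum_cube {u v : ℝ} (hu : 0 ≤ u) (hv : 0 ≤ v) :
    u ^ 2 * v + u * v ^ 2 ≤ u ^ 3 + v ^ 3 := by
  nlinarith [mul_nonneg (add_nonneg hu hv) (sq_nonneg (u - v))]

private theorem SepSum_bound (z w : ℂ) :
    ‖1 / z ^ 2 - 1 / w ^ 2‖ ≤ ‖z + w‖ * (1 / ‖z‖ ^ 3 + 1 / ‖w‖ ^ 3) := by
  by_cases hz : z = 0
  · by_cases hw : w = 0
    · subst hz; subst hw; simp
    · subst hz
      have h0 : 0 < ‖w‖ := norm_pos_iff.2 hw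
      simp only [ne_eq, OfNat.ofNat_ne_zero, not_false_eq_true, zero_pow, div_zero, zero_sub,
        norm_neg, norm_div, norm_one, norm_pow, zero_add, norm_zero]
      rw [mul_one_div, div_le_div_iff₀ (by positivity) (by positivity)]
      exact le_of_eq (by ring)
  · by_cases hw : w = 0
    · subst hw
      have h0 : 0 < ‖z‖ := norm_pos_iff.2 hz
      simp only [ne_eq, OfNat.ofNat_ne_zero, not_false_eq_true, zero_pow, div_zero, sub_zero,
        norm_div, norm_one, norm_pow, add_zero, norm_zero]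
      rw [mul_one_div, div_le_div_iff₀ (by positivity) (by positivity)]
      exact le_of_eq (by ring)
    · have hz0 : 0 < ‖z‖ := norm_pos_iff.2 hz
      have hw0 : 0 < ‖w‖ := norm_pos_iff.2 hw
      have h1 : 1 / z ^ 2 - 1 / w ^ 2 = (z + w) * ((w - z) * (1 / z) ^ 2 * (1 / w) ^ 2) := by
        field_simp
        ring
      rw [h1, norm_mul]
      refine mul_le_mul_of_nonneg_left ?_ (norm_nonneg _)
      rw [norm_mul, norm_mul, norm_pow, norm_pow, norm_div, norm_div, norm_one]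
      have h2 : ‖w - z‖ ≤ ‖w‖ + ‖z‖ := norm_sub_le _ _
      have h3 := SepSum_cube (u := 1 / ‖z‖) (v := 1 / ‖w‖) (by positivity) (by positivity)
      calc ‖w - z‖ * (1 / ‖z‖) ^ 2 * (1 / ‖w‖) ^ 2
          ≤ (‖w‖ + ‖z‖) * (1 / ‖z‖) ^ 2 * (1 / ‖w‖) ^ 2 := by gcongr
        _ = (1 / ‖z‖) ^ 2 * (1 / ‖w‖) + (1 / ‖z‖) * (1 / ‖w‖) ^ 2 := by
            field_simp
        _ ≤ (1 / ‖z‖) ^ 3 + (1 / ‖w‖) ^ 3 := h3
        _ = 1 / ‖z‖ ^ 3 + 1 / ‖w‖ ^ 3 := by rw [one_div_pow, one_div_pow]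

/-- the function `1 / x²` on the lattice -/
private noncomputable def SepS (p : ℤ × ℤ) : ℂ := 1 / xx p ^ 2

private theorem SepS_neg (p : ℤ × ℤ) : SepS (-p) = SepS p := by
  unfold SepS
  rw [xx_neg, neg_sq]

private theorem SepS_bound : ∃ C : ℝ, 0 ≤ C ∧ ∀ p q : ℤ × ℤ,
    ‖SepS p - SepS q‖ ≤ C * ‖xx (p - q)‖ * (kk p + kk q) := by
  obtain ⟨C, hC, hk⟩ := xx_kk
  refine ⟨C, hC, fun p q => ?_⟩
  rw [← SepS_neg q]
  unfold SepS
  refine (SepSum_bound _ _).trans ?_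
  rw [← xx_add, ← sub_eq_add_neg, xx_neg, norm_neg]
  have h1 := hk p
  have h2 := hk q
  have h3 : 0 ≤ ‖xx (p - q)‖ := norm_nonneg _
  calc ‖xx (p - q)‖ * (1 / ‖xx p‖ ^ 3 + 1 / ‖xx q‖ ^ 3)
      ≤ ‖xx (p - q)‖ * (C * kk p + C * kk q) := mul_le_mul_of_nonneg_left (add_le_add h1 h2) h3
    _ = C * ‖xx (p - q)‖ * (kk p + kk q) := by ring

private theorem SepS_summable {φ ψ : ℤ × ℤ → ℤ × ℤ} (hφ : Function.Injective φ)
    (hψ : Function.Injective ψ) (c : ℤ × ℤ) (hc : ∀ u, φ u - ψ u = c) :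
    Summable (fun u : ℤ × ℤ => SepS (φ u) - SepS (ψ u)) := by
  obtain ⟨C, hC, hk⟩ := SepS_bound
  have h1 : Summable (fun u => C * ‖xx c‖ * (kk (φ u) + kk (ψ u))) :=
    ((summable_kk.comp_injective hφ).add (summable_kk.comp_injective hψ)).mul_left _
  refine Summable.of_norm_bounded h1 (fun u => ?_)
  have h2 := hk (φ u) (ψ u)
  rw [hc u] at h2
  exact h2

private theorem SepS_tendsto : Tendsto SepS cofinite (𝓝 0) := by
  obtain ⟨C, hC, hk⟩ := xx_kk
  have h1 : Tendsto kk cofinite (𝓝 0) := summable_kk.tendsto_cofinite_zero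
  have h2 : Tendsto (fun p => C * kk p) cofinite (𝓝 0) := by
    simpa using h1.const_mul C
  have h3 : Tendsto (fun p => 1 / ‖xx p‖ ^ 3) cofinite (𝓝 0) :=
    squeeze_zero (fun p => by positivity) hk h2
  have h4 : Tendsto (fun p => (1 / ‖xx p‖ ^ 3) ^ (2 / 3 : ℝ)) cofinite (𝓝 0) := by
    have h5 := h3.rpow_const (p := (2 / 3 : ℝ)) (Or.inr (by norm_num))
    rwa [Real.zero_rpow (by norm_num)] at h5
  refine squeeze_zero_norm (fun p => ?_) h4
  unfold SepS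
  rw [norm_div, norm_one, norm_pow]
  refine le_of_eq ?_
  by_cases hp : ‖xx p‖ = 0
  · rw [hp]
    rw [zero_pow (by norm_num), zero_pow (by norm_num), div_zero, Real.zero_rpow (by norm_num)]
  · have h6 : 0 < ‖xx p‖ := lt_of_le_of_ne (norm_nonneg _) (Ne.symm hp)
    rw [one_div, one_div, ← inv_pow, ← inv_pow, ← Real.rpow_natCast, ← Real.rpow_natCast,
      ← Real.rpow_mul (by positivity)]
    norm_num

private theorem SepS_shift (μ : ℤ × ℤ) : HasSum (fun p : ℤ × ℤ => SepS (p + μ) - SepS p) 0 := by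
  have h : ∀ ν : ℤ × ℤ, Summable (fun p : ℤ × ℤ => SepS (p + ν) - SepS p) := fun ν =>
    SepS_summable (φ := fun p => p + ν) (ψ := fun p => p) (add_left_injective ν)
      (fun a b hab => hab) ν (fun u => by simp)
  exact hasSum_shift SepS_tendsto (h _) (h _) μ

private theorem Sep_om_ne : om ≠ 0 := by
  intro h
  have h1 := om_mul_omb
  rw [h, zero_mul] at h1
  norm_num at h1

private theorem SepS_mulPi (p : ℤ × ℤ) : SepS (mulPi p) = 1 / om ^ 2 * SepS p := by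
  unfold SepS
  rw [xx_mulPi, mul_pow, one_div_mul_one_div]

private theorem mulPi_add' (p r : ℤ × ℤ) : mulPi (p + r) = mulPi p + mulPi r := by
  unfold mulPi
  ext
  · simp only [Prod.fst_add, Prod.snd_add]; ring
  · simp only [Prod.fst_add, Prod.snd_add]; ring

private theorem mulPi_sub' (p r : ℤ × ℤ) : mulPi (p - r) = mulPi p - mulPi r := by
  unfold mulPi
  ext
  · simp only [Prod.fst_sub, Prod.snd_sub]; ring
  · simp only [Prod.fst_sub, Prod.snd_sub]; ring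

private theorem SepS_shiftPi (μ : ℤ × ℤ) :
    HasSum (fun p : ℤ × ℤ => SepS (mulPi (p + μ)) - SepS (mulPi p)) 0 := by
  have h := (SepS_shift μ).mul_left (1 / om ^ 2)
  rw [mul_zero] at h
  refine h.congr_fun fun p => ?_
  rw [SepS_mulPi, SepS_mulPi]
  ring

/-- the inner sum -/
private noncomputable def SepK (a v : ℤ × ℤ) : ℂ := SepS (a - mulPi v) - SepS (mulPi v)

private noncomputable def SepK1 : ℂ := ∑' v : ℤ × ℤ, (1 / (1 - om * xx v) ^ 2 - 1 / (om * xx v) ^ 2)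

private theorem SepK_one : HasSum (SepK (1, 0)) SepK1 := by
  have h1 : Summable (SepK (1, 0)) := by
    have h := SepS_summable (φ := fun v => mulPi v - (1, 0)) (ψ := mulPi)
      (fun u v h => mulPi_injective (sub_left_injective h)) mulPi_injective (-(1, 0))
      (fun u => by abel)
    refine h.congr fun v => ?_
    unfold SepK
    rw [← SepS_neg (mulPi v - (1, 0)), neg_sub]
  have h2 : SepK1 = ∑' v, SepK (1, 0) v := by
    unfold SepK1
    refine tsum_congr fun v => ?_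
    unfold SepK SepS
    rw [sub_eq_add_neg (1, 0) (mulPi v), xx_add, xx_neg, xx_mulPi]
    have h3 : xx (1, 0) = 1 := by
      unfold xx; push_cast; ring
    rw [h3, ← sub_eq_add_neg]
  rw [h2]
  exact h1.hasSum

private theorem SepK_even (c : ℤ × ℤ) : HasSum (SepK (mulPi c)) 0 := by
  refine (SepS_shiftPi (-c)).congr_fun fun v => ?_
  unfold SepK
  rw [← mulPi_sub', ← SepS_neg (mulPi (c - v))]
  congr 2
  rw [mulPi_sub', neg_sub, ← sub_eq_add_neg v c, mulPi_sub']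

private theorem SepK_odd (c : ℤ × ℤ) : HasSum (SepK ((1, 0) + mulPi c)) SepK1 := by
  have h1 : HasSum (fun v => SepK (1, 0) (v - c)) SepK1 :=
    (Equiv.subRight c).hasSum_iff.2 SepK_one
  have h2 := h1.add (SepS_shiftPi (-c))
  rw [add_zero] at h2
  refine h2.congr_fun fun v => ?_
  unfold SepK
  rw [mulPi_sub', ← sub_eq_add_neg v c, mulPi_sub']
  have h3 : ((1, 0) : ℤ × ℤ) - (mulPi v - mulPi c) = (1, 0) + mulPi c - mulPi v := by abel
  rw [h3]
  ring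

private theorem SepK_all (a : ℤ × ℤ) : HasSum (SepK a) (if Even a.1 then 0 else SepK1) := by
  split_ifs with h
  · obtain ⟨c, hc⟩ := (mem_range_mulPi a).2 h
    rw [← hc]
    exact SepK_even c
  · have h1 : Even (a - (1, 0)).1 := by
      rw [Int.not_even_iff_odd] at h
      obtain ⟨k, hk⟩ := h
      refine ⟨k, ?_⟩
      simp only [Prod.fst_sub]
      omega
    obtain ⟨c, hc⟩ := (mem_range_mulPi _).2 h1
    have h2 : a = (1, 0) + mulPi c := by
      rw [hc]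
      abel
    rw [h2]
    exact SepK_odd c

private theorem Sep_n4 (p : ℤ × ℤ) : n4 (xx p) = ((1 / Complex.normSq (xx p) ^ 2 : ℝ) : ℂ) := by
  unfold n4
  rw [Complex.mul_conj]
  push_cast
  rfl

private theorem Sep_n4_norm (p : ℤ × ℤ) : ‖n4 (xx p)‖ = 1 / ‖xx p‖ ^ 4 := by
  unfold n4
  rw [norm_div, norm_one, norm_pow, norm_mul, RCLike.norm_conj]
  ring

/-- the bound for one term -/
private theorem Sep_term : ∃ C : ℝ, 0 ≤ C ∧ ∀ a p q : ℤ × ℤ, (p - q = a ∨ p - q = -a) →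
    ‖n4 (xx a) * (SepS p - SepS q)‖ ≤ C * (kk a * kk p + kk a * kk q) := by
  obtain ⟨C, hC, hk⟩ := xx_kk
  obtain ⟨D, hD, hb⟩ := SepS_bound
  refine ⟨C * D, by positivity, fun a p q hpq => ?_⟩
  have h1 : ‖xx (p - q)‖ = ‖xx a‖ := by
    rcases hpq with h | h
    · rw [h]
    · rw [h, xx_neg, norm_neg]
  have h2 := hb p q
  rw [h1] at h2
  rw [norm_mul, Sep_n4_norm]
  have h3 : 1 / ‖xx a‖ ^ 4 * ‖xx a‖ ≤ C * kk a := by
    refine le_trans (le_of_eq ?_) (hk a)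
    by_cases h0 : ‖xx a‖ = 0
    · rw [h0]
      norm_num
    · field_simp
  have h4 : 0 ≤ kk p + kk q := add_nonneg (Summ_kk_nonneg p) (Summ_kk_nonneg q)
  calc 1 / ‖xx a‖ ^ 4 * ‖SepS p - SepS q‖
      ≤ 1 / ‖xx a‖ ^ 4 * (D * ‖xx a‖ * (kk p + kk q)) :=
        mul_le_mul_of_nonneg_left h2 (by positivity)
    _ = (1 / ‖xx a‖ ^ 4 * ‖xx a‖) * (D * (kk p + kk q)) := by ring
    _ ≤ (C * kk a) * (D * (kk p + kk q)) :=
        mul_le_mul_of_nonneg_right h3 (by positivity)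
    _ = C * D * (kk a * kk p + kk a * kk q) := by ring

private theorem Sep_sumk {T : (ℤ × ℤ) × (ℤ × ℤ) → (ℤ × ℤ) × (ℤ × ℤ)}
    (hT : Function.Injective T) : Summable (fun v => kk (T v).1 * kk (T v).2) :=
  summable_kk12.comp_injective hT

private theorem Sep_summable {A P Q : (ℤ × ℤ) × (ℤ × ℤ) → ℤ × ℤ}
    (h1 : Function.Injective (fun v => (A v, P v))) (h2 : Function.Injective (fun v => (A v, Q v)))
    (h : ∀ v, P v - Q v = A v ∨ P v - Q v = -A v) :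
    Summable (fun v => n4 (xx (A v)) * (SepS (P v) - SepS (Q v))) := by
  obtain ⟨C, hC, hk⟩ := Sep_term
  refine Summable.of_norm_bounded (((Sep_sumk h1).add (Sep_sumk h2)).mul_left C) (fun v => ?_)
  exact hk (A v) (P v) (Q v) (h v)

private theorem Sep_coefA : rt / 16 + (7 - rt) / 16 * (1 / om ^ 2) + (7 - rt) / 32 = 0 := by
  have h1 := Sep_om_ne
  have h2 := rt_sq
  have h5 : om ^ 2 * ((-3 - rt) / 8) = 1 := by
    have h3 : om = (1 + rt) / 2 := rfl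
    rw [h3]
    linear_combination ((-5 - rt) / 32) * h2
  have h6 : 1 / om ^ 2 = (-3 - rt) / 8 := by
    rw [div_eq_iff (pow_ne_zero 2 h1)]
    linear_combination (-1) * h5
  rw [h6]
  linear_combination (1 / 128) * h2

theorem sepA_sum : ∃ r : ℝ, HasSum (fun v : (ℤ × ℤ) × (ℤ × ℤ) => SepA (xx v.1) (xx v.2)) (r : ℂ) := by
  have e : ∀ v : (ℤ × ℤ) × (ℤ × ℤ), SepA (xx v.1) (xx v.2) =
      rt / 16 * (n4 (xx v.1) * (SepS (v.2 - v.1) - SepS v.2)) +
        (7 - rt) / 16 * (n4 (xx v.1) * (SepS (v.1 - mulPi v.2) - SepS (mulPi v.2))) := by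
    intro v
    have h1 : SepS (v.2 - v.1) = 1 / (xx v.1 - xx v.2) ^ 2 := by
      rw [← SepS_neg, neg_sub]
      unfold SepS
      rw [sub_eq_add_neg v.1 v.2, xx_add, xx_neg, ← sub_eq_add_neg]
    have h2 : SepS (v.1 - mulPi v.2) = 1 / (xx v.1 - om * xx v.2) ^ 2 := by
      unfold SepS
      rw [sub_eq_add_neg v.1 (mulPi v.2), xx_add, xx_neg, xx_mulPi, ← sub_eq_add_neg]
    rw [h1, h2, SepS_mulPi]
    have h3 : SepS v.2 = 1 / xx v.2 ^ 2 := rfl
    rw [h3]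
    unfold SepA
    have h4 := Sep_coefA
    linear_combination (n4 (xx v.1) * (1 / xx v.2 ^ 2)) * h4
  have hs1 : Summable (fun v : (ℤ × ℤ) × (ℤ × ℤ) =>
      n4 (xx v.1) * (SepS (v.2 - v.1) - SepS v.2)) := by
    refine Sep_summable (A := fun v => v.1) (P := fun v => v.2 - v.1) (Q := fun v => v.2) ?_ ?_ ?_
    · rintro ⟨a, b⟩ ⟨c, d⟩ h
      simp only [Prod.mk.injEq] at h ⊢
      obtain ⟨h1, h2⟩ := h
      subst h1
      exact ⟨rfl, sub_left_injective h2⟩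
    · rintro ⟨a, b⟩ ⟨c, d⟩ h
      exact h
    · intro v
      right
      abel
  have hs2 : Summable (fun v : (ℤ × ℤ) × (ℤ × ℤ) =>
      n4 (xx v.1) * (SepS (v.1 - mulPi v.2) - SepS (mulPi v.2))) := by
    have h := Sep_summable (A := fun v => v.1) (P := fun v => mulPi v.2 - v.1)
      (Q := fun v => mulPi v.2) ?_ ?_ ?_
    · refine h.congr fun v => ?_
      rw [← SepS_neg (mulPi v.2 - v.1), neg_sub]
    · rintro ⟨a, b⟩ ⟨c, d⟩ h
      simp only [Prod.mk.injEq] at h ⊢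
      obtain ⟨h1, h2⟩ := h
      subst h1
      exact ⟨rfl, mulPi_injective (sub_left_injective h2)⟩
    · rintro ⟨a, b⟩ ⟨c, d⟩ h
      simp only [Prod.mk.injEq] at h ⊢
      exact ⟨h.1, mulPi_injective h.2⟩
    · intro v
      right
      abel
  have hs : Summable (fun v : (ℤ × ℤ) × (ℤ × ℤ) => SepA (xx v.1) (xx v.2)) := by
    have h := (hs1.mul_left (rt / 16)).add (hs2.mul_left ((7 - rt) / 16))
    exact h.congr fun v => (e v).symm
  -- the fibres
  set c0 : ℝ := ((7 - rt) * SepK1).re / 16 with hc0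
  have hc1 : (7 - rt) / 16 * SepK1 = (c0 : ℂ) := by
    have h1 := kappa_im
    have h2 : ((7 - rt) * SepK1).im = 0 := h1
    have h3 : (7 - rt) * SepK1 = ((((7 - rt) * SepK1).re : ℝ) : ℂ) := by
      apply Complex.ext
      · simp
      · rw [h2]; simp
    rw [hc0]
    push_cast
    rw [← h3]
    ring
  set ρ : ℤ × ℤ → ℝ := fun a => if Even a.1 then 0 else 1 / Complex.normSq (xx a) ^ 2 * c0 with hρ
  have hfib : ∀ a : ℤ × ℤ, HasSum (fun b : ℤ × ℤ => SepA (xx a) (xx b)) ((ρ a : ℝ) : ℂ) := by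
    intro a
    have h1 : HasSum (fun b : ℤ × ℤ => rt / 16 * (n4 (xx a) * (SepS (b - a) - SepS b))) 0 := by
      have h2 := ((SepS_shift (-a)).mul_left (n4 (xx a))).mul_left (rt / 16)
      simp only [mul_zero] at h2
      refine h2.congr_fun fun b => ?_
      rw [← sub_eq_add_neg]
    have h3 := ((SepK_all a).mul_left (n4 (xx a))).mul_left ((7 - rt) / 16)
    have h4 := h1.add h3
    have h5 : 0 + (7 - rt) / 16 * (n4 (xx a) * (if Even a.1 then 0 else SepK1)) =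
        ((ρ a : ℝ) : ℂ) := by
      simp only [hρ]
      split_ifs with h
      · simp
      · rw [Sep_n4]
        push_cast
        rw [← hc1]
        ring
    rw [h5] at h4
    refine h4.congr_fun fun b => ?_
    exact e (a, b)
  have hg : HasSum (fun a => ((ρ a : ℝ) : ℂ)) (∑' v : (ℤ × ℤ) × (ℤ × ℤ), SepA (xx v.1) (xx v.2)) :=
    hs.hasSum.prod_fiberwise hfib
  refine ⟨∑' a, ρ a, ?_⟩
  have h6 : ((∑' a, ρ a : ℝ) : ℂ) = ∑' v : (ℤ × ℤ) × (ℤ × ℤ), SepA (xx v.1) (xx v.2) := by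
    rw [Complex.ofReal_tsum]
    exact hg.tsum_eq
  rw [h6]
  exact hs.hasSum

theorem sepB_sum : HasSum (fun v : (ℤ × ℤ) × (ℤ × ℤ) => SepB (xx v.1) (xx v.2)) 0 := by
  have e : ∀ v : (ℤ × ℤ) × (ℤ × ℤ), SepB (xx v.1) (xx v.2) =
      (-rt / 16) * (n4 (xx v.2) * (SepS (v.1 - v.2) - SepS v.1)) +
        (-7 + rt) / 64 * (n4 (xx v.2) * (SepS (v.1 - mulPi v.2) - SepS v.1)) := by
    intro v
    have h1 : SepS (v.1 - v.2) = 1 / (xx v.1 - xx v.2) ^ 2 := by
      unfold SepS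
      rw [sub_eq_add_neg v.1 v.2, xx_add, xx_neg, ← sub_eq_add_neg]
    have h2 : SepS (v.1 - mulPi v.2) = 1 / (xx v.1 - om * xx v.2) ^ 2 := by
      unfold SepS
      rw [sub_eq_add_neg v.1 (mulPi v.2), xx_add, xx_neg, xx_mulPi, ← sub_eq_add_neg]
    rw [h1, h2]
    have h3 : SepS v.1 = 1 / xx v.1 ^ 2 := rfl
    rw [h3]
    unfold SepB
    ring
  obtain ⟨C, hC, hk⟩ := xx_kk
  obtain ⟨D, hD, hb⟩ := SepS_bound
  -- general summability
  have hgen : ∀ T : ℤ × ℤ → ℤ × ℤ, (∃ B : ℝ, 0 ≤ B ∧ ∀ p, ‖xx (T p)‖ ≤ B * ‖xx p‖) →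
      Summable (fun v : (ℤ × ℤ) × (ℤ × ℤ) => n4 (xx v.2) * (SepS (v.1 - T v.2) - SepS v.1)) := by
    rintro T ⟨B, hB, hT⟩
    have i1 : Function.Injective (fun v : (ℤ × ℤ) × (ℤ × ℤ) => (v.2, v.1 - T v.2)) := by
      rintro ⟨a, b⟩ ⟨c, d⟩ h
      simp only [Prod.mk.injEq] at h ⊢
      obtain ⟨h1, h2⟩ := h
      subst h1
      exact ⟨sub_left_injective h2, rfl⟩
    have i2 : Function.Injective (fun v : (ℤ × ℤ) × (ℤ × ℤ) => (v.2, v.1)) := by
      rintro ⟨a, b⟩ ⟨c, d⟩ h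
      simp only [Prod.mk.injEq] at h ⊢
      exact ⟨h.2, h.1⟩
    refine Summable.of_norm_bounded (((Sep_sumk i1).add (Sep_sumk i2)).mul_left (C * D * B))
      (fun v => ?_)
    have h2 := hb (v.1 - T v.2) v.1
    have h1 : ‖xx (v.1 - T v.2 - v.1)‖ ≤ B * ‖xx v.2‖ := by
      have h3 : v.1 - T v.2 - v.1 = -(T v.2) := by abel
      rw [h3, xx_neg, norm_neg]
      exact hT _
    rw [norm_mul, Sep_n4_norm]
    have h3 : 1 / ‖xx v.2‖ ^ 4 * ‖xx v.2‖ ≤ C * kk v.2 := by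
      refine le_trans (le_of_eq ?_) (hk v.2)
      by_cases h0 : ‖xx v.2‖ = 0
      · rw [h0]
        norm_num
      · field_simp
    have h4 : 0 ≤ kk (v.1 - T v.2) + kk v.1 :=
      add_nonneg (Summ_kk_nonneg _) (Summ_kk_nonneg _)
    calc 1 / ‖xx v.2‖ ^ 4 * ‖SepS (v.1 - T v.2) - SepS v.1‖
        ≤ 1 / ‖xx v.2‖ ^ 4 * (D * ‖xx (v.1 - T v.2 - v.1)‖ * (kk (v.1 - T v.2) + kk v.1)) :=
          mul_le_mul_of_nonneg_left h2 (by positivity)
      _ ≤ 1 / ‖xx v.2‖ ^ 4 * (D * (B * ‖xx v.2‖) * (kk (v.1 - T v.2) + kk v.1)) := by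
          gcongr
      _ = (1 / ‖xx v.2‖ ^ 4 * ‖xx v.2‖) * (D * B * (kk (v.1 - T v.2) + kk v.1)) := by ring
      _ ≤ (C * kk v.2) * (D * B * (kk (v.1 - T v.2) + kk v.1)) :=
          mul_le_mul_of_nonneg_right h3 (by positivity)
      _ = C * D * B * (kk v.2 * kk (v.1 - T v.2) + kk v.2 * kk v.1) := by ring
  have hs1 := hgen (fun p => p) ⟨1, by norm_num, fun p => by simp⟩
  have hs2 := hgen mulPi ⟨‖om‖, norm_nonneg _, fun p => by rw [xx_mulPi, norm_mul]⟩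
  have hs : Summable (fun v : (ℤ × ℤ) × (ℤ × ℤ) => SepB (xx v.1) (xx v.2)) := by
    have h := (hs1.mul_left (-rt / 16)).add (hs2.mul_left ((-7 + rt) / 64))
    exact h.congr fun v => (e v).symm
  have hsw : HasSum (fun v : (ℤ × ℤ) × (ℤ × ℤ) => SepB (xx v.2) (xx v.1))
      (∑' v : (ℤ × ℤ) × (ℤ × ℤ), SepB (xx v.1) (xx v.2)) :=
    (Equiv.prodComm (ℤ × ℤ) (ℤ × ℤ)).hasSum_iff.2 hs.hasSum
  have hfib : ∀ b : ℤ × ℤ, HasSum (fun a : ℤ × ℤ => SepB (xx a) (xx b)) 0 := by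
    intro b
    have h1 := ((SepS_shift (-b)).mul_left (n4 (xx b))).mul_left (-rt / 16)
    have h2 := ((SepS_shift (-(mulPi b))).mul_left (n4 (xx b))).mul_left ((-7 + rt) / 64)
    have h3 := h1.add h2
    simp only [mul_zero, add_zero] at h3
    refine h3.congr_fun fun a => ?_
    rw [← sub_eq_add_neg, ← sub_eq_add_neg]
    exact e (a, b)
  have hg := hsw.prod_fiberwise hfib
  have h0 : (∑' v : (ℤ × ℤ) × (ℤ × ℤ), SepB (xx v.1) (xx v.2)) = 0 := hg.unique hasSum_zero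
  have h7 := hs.hasSum
  rw [h0] at h7
  exact h7

end MM7
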