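import Pool.Agent.MM7.Comps

/-!
# MM7, Part 4, module Sym42

All sums are absolutely convergent (KerBd). x1=a, x2=b, x3=-(a+b); pk(-z) = pk z. H1k(a,-(a+b)) = -H1k(a,b) (swap 2,3),
H3k(b,a) = -H3k(a,b) (swap 1,2). Reindex q ↦ (q.1, -(q.1+q.2)) resp. q ↦ (q.2,q.1):
Σ H1 = -Σ H1 = 0; Σ H3 = 0; Σ[a3]H1 = -Σ[a2]H1; Σ[a3]H3 = -Σ[a3]H3 = 0; Σ[b3]H3 = 0.
(ap(-p) = ap p.)
-/

open Real MeasureTheory Set Filter Topology

namespace MM7

lemma Sym42_xx_add (p q : ℤ × ℤ) : xx (p + q) = xx p + xx q := by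
  unfold xx
  simp only [Prod.fst_add, Prod.snd_add]
  push_cast
  ring

lemma Sym42_xx_neg (p : ℤ × ℤ) : xx (-p) = -xx p := by
  unfold xx
  simp only [Prod.fst_neg, Prod.snd_neg]
  push_cast
  ring

lemma Sym42_pk_neg (z : ℂ) : pk (-z) = pk z := by
  unfold pk
  rw [map_neg, neg_div_neg_eq]

lemma Sym42_ap_neg (p : ℤ × ℤ) : ap (-p) = ap p := by
  unfold ap ev
  simp [Prod.fst_neg, even_neg]

/-- the swap of the points 2 and 3 -/
def Sym42_e23 : (ℤ × ℤ) × (ℤ × ℤ) ≃ (ℤ × ℤ) × (ℤ × ℤ) where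
  toFun q := (q.1, -(q.1 + q.2))
  invFun q := (q.1, -(q.1 + q.2))
  left_inv q := by
    ext <;> simp
  right_inv q := by
    ext <;> simp

lemma Sym42_H1k (a b : ℂ) : H1k a (-(a + b)) = -H1k a b := by
  have h1 : a + -(a + b) = -b := by ring
  unfold H1k
  have h2 : T1k a (-(a + b)) = -T1k a b := by
    unfold T1k
    have h3 : NNk a (-(a + b)) = NNk a b := by
      unfold NNk
      rw [h1]
      simp only [map_neg, map_add]
      congr 1
      ring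
    have h4 : rho a (-(a + b)) = -rho a b := by
      unfold rho
      simp only [map_neg, map_add]
      ring
    rw [h3, h4]
    ring
  rw [h2, h1, Sym42_pk_neg, Sym42_pk_neg]
  ring

lemma Sym42_H3k (a b : ℂ) : H3k b a = -H3k a b := by
  unfold H3k
  have h2 : T3k b a = -T3k a b := by
    unfold T3k
    have h3 : NNk b a = NNk a b := by
      unfold NNk
      rw [add_comm b a]
      congr 1
      ring
    have h4 : rho b a = -rho a b := by
      unfold rho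
      ring
    rw [h3, h4, add_comm b a]
    ring
  rw [h2, add_comm b a]
  ring

lemma Sym42_re23 (f : ℂ → ℂ → ℂ) (ω : (ℤ × ℤ) × (ℤ × ℤ) → ℝ) (hf : ∀ a b, f a (-(a + b)) = -f a b) :
    WS (fun q => ω (q.1, -(q.1 + q.2))) f = -WS ω f := by
  unfold WS
  rw [← Sym42_e23.tsum_eq (fun q => (ω q : ℂ) * f (xx q.1) (xx q.2)), ← tsum_neg]
  refine tsum_congr fun q => ?_
  change _ = -((ω (q.1, -(q.1 + q.2)) : ℂ) * f (xx q.1) (xx (-(q.1 + q.2))))
  rw [Sym42_xx_neg, Sym42_xx_add, hf]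
  ring

lemma Sym42_re12 (f : ℂ → ℂ → ℂ) (ω : (ℤ × ℤ) × (ℤ × ℤ) → ℝ) (hf : ∀ a b, f b a = -f a b) :
    WS (fun q => ω (q.2, q.1)) f = -WS ω f := by
  unfold WS
  rw [← (Equiv.prodComm (ℤ × ℤ) (ℤ × ℤ)).tsum_eq (fun q => (ω q : ℂ) * f (xx q.1) (xx q.2)),
    ← tsum_neg]
  refine tsum_congr fun q => ?_
  change _ = -((ω (q.2, q.1) : ℂ) * f (xx q.2) (xx q.1))
  rw [hf]
  ring

theorem sym42_one : WS w1 H1k = 0 ∧ WS w1 H3k = 0 := by
  constructor
  · have h := Sym42_re23 H1k w1 Sym42_H1k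
    have h' : WS w1 H1k = -WS w1 H1k := h
    exact self_eq_neg.mp h'
  · have h := Sym42_re12 H3k w1 Sym42_H3k
    have h' : WS w1 H3k = -WS w1 H3k := h
    exact self_eq_neg.mp h'
theorem sym42_a3 : WS wa3 H1k = -WS wa2 H1k ∧ WS wa3 H3k = 0 := by
  constructor
  · rw [← Sym42_re23 H1k wa2 Sym42_H1k]
    congr 1
    funext q
    change ap (q.1 + q.2) = ap (-(q.1 + q.2))
    rw [Sym42_ap_neg]
  · have h := Sym42_re12 H3k wa3 Sym42_H3k
    have e : (fun q : (ℤ × ℤ) × (ℤ × ℤ) => wa3 (q.2, q.1)) = wa3 := by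
      funext q
      change ap (q.2 + q.1) = ap (q.1 + q.2)
      rw [add_comm]
    rw [e] at h
    exact self_eq_neg.mp h
theorem sym42_b3 : WS wb3 H3k = 0 := by
  have h := Sym42_re12 H3k wb3 Sym42_H3k
  have e : (fun q : (ℤ × ℤ) × (ℤ × ℤ) => wb3 (q.2, q.1)) = wb3 := by
    funext q
    change bp (q.2 + q.1) = bp (q.1 + q.2)
    rw [add_comm]
  rw [e] at h
  exact self_eq_neg.mp h

end MM7
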