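import Pool.Agent.MM7.Comps
import Pool.Agent.MM7.Sym42
import Pool.Agent.MM7.Rel42
import Pool.Agent.MM7.Bdry42
import Pool.Agent.MM7.LineSum
import Pool.Agent.MM7.SepSum

/-!
# MM7, Part 4, module Asm42

G(x,y) = F42 x y - (SepA x y + SepB x y) vanishes when the four lines are nonzero (rel42), G 0 0 = 0. Σ_v F42 = (Comps, Sym42)
 Σ[ba]H1 + (-3+w)/16 Σ[a3]H1 = R - (-3+w)/16 Q, with R = WS wba H1k, Q = WS wa2 H1k (all other sums are 0).
 Σ SepA = r real, Σ SepB = 0. line_sum and bdry42: R - (-3+w)/16 Q - r = (-91/64 - 7w/64) Σ 1/(x⁴ conj x²) = (-91/64 - 7w/64) E42.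
 E42 is real (conjugation p ↦ (p.1+p.2,-p.2), xx_conj). Imaginary part: -(7√7/64) E42.re.
-/

open Real MeasureTheory Set Filter Topology

namespace MM7

private def asm42Sg : (ℤ × ℤ) ≃ (ℤ × ℤ) where
  toFun p := (p.1 + p.2, -p.2)
  invFun p := (p.1 + p.2, -p.2)
  left_inv p := by
    ext
    · simp
    · simp
  right_inv p := by
    ext
    · simp
    · simp

private theorem asm42_real : starRingEnd ℂ E42 = E42 := by
  unfold E42
  rw [Complex.conj_tsum]
  rw [← asm42Sg.tsum_eq (fun p : ℤ × ℤ => 1 / (xx p ^ 4 * (starRingEnd ℂ (xx p)) ^ 2))]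
  refine tsum_congr fun p => ?_
  have h1 : xx (asm42Sg p) = starRingEnd ℂ (xx p) := (xx_conj p).symm
  rw [h1, Complex.conj_conj, map_div₀, map_one, map_mul, map_pow, map_pow, Complex.conj_conj]

private theorem asm42_im : E42.im = 0 := Complex.conj_eq_iff_im.1 asm42_real

private theorem asm42_zero : F42 0 0 - (SepA 0 0 + SepB 0 0) = 0 := by
  simp [F42, SepA, SepB, n4, H1k, H3k, T1k, T3k, rho]

theorem asm42 : (WS wba H1k - (-3 + rt) / 16 * WS wa2 H1k).im = -(7 * √7 / 64) * E42.re := by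
  obtain ⟨r, hr⟩ := sepA_sum
  have hB := sepB_sum
  obtain ⟨s1, s2⟩ := sym42_one
  obtain ⟨s3, s4⟩ := sym42_a3
  have s5 := sym42_b3
  have t4 := hasSum_tri4 KerO_H1k
  have t1 := (hasSum_tri1 KerO_H1k).mul_left ((3 - rt) / 32)
  have t1' := (hasSum_tri1 KerO_H3k).mul_left ((-1 - rt) / 32)
  have t2 := (hasSum_tri2 KerO_H1k).mul_left ((-3 + rt) / 16)
  have t2' := (hasSum_tri2 KerO_H3k).mul_left ((-5 - rt) / 16)
  have t3 := (hasSum_tri3 KerO_H3k).mul_left ((-1 + rt) / 8)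
  have hF := ((((t4.add t1).add t1').add t2).add t2').add t3
  rw [s1, s2, s3, s4, s5] at hF
  have hG := hF.sub (hr.add hB)
  set S : ℂ := WS wba H1k - (-3 + rt) / 16 * WS wa2 H1k with hS
  have hG2 : HasSum (fun v : (ℤ × ℤ) × (ℤ × ℤ) =>
      (fun x y : ℂ => F42 x y - (SepA x y + SepB x y)) (xx v.1) (xx v.2)) (S - r) := by
    have e : S - r = WS wba H1k + (3 - rt) / 32 * 0 + (-1 - rt) / 32 * 0 +
        (-3 + rt) / 16 * -WS wa2 H1k + (-5 - rt) / 16 * 0 + (-1 + rt) / 8 * 0 - ((r : ℂ) + 0) := by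
      rw [hS]
      ring
    rw [e]
    exact hG
  have h0 : ∀ x y : ℂ, x ≠ 0 → x - y ≠ 0 → x - om * y ≠ 0 → y ≠ 0 →
      (fun x y : ℂ => F42 x y - (SepA x y + SepB x y)) x y = 0 := by
    intro x y hx hxy hp hy
    show F42 x y - (SepA x y + SepB x y) = 0
    rw [rel42 x y hx hxy hp hy, sub_self]
  have hline := line_sum (F := fun x y : ℂ => F42 x y - (SepA x y + SepB x y)) h0 asm42_zero
    hG2.summable
  rw [hG2.tsum_eq] at hline
  have hline2 : S - r = (-91 / 64 - 7 / 64 * rt) * E42 := by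
    rw [hline]
    unfold E42
    rw [← tsum_mul_left]
    exact tsum_congr fun p => bdry42 (xx p)
  have hS2 : S = (r : ℂ) + (-91 / 64 - 7 / 64 * rt) * E42 := by
    linear_combination hline2
  have hE : E42 = ((E42.re : ℝ) : ℂ) := by
    apply Complex.ext
    · simp
    · simp [asm42_im]
  have hform : (r : ℂ) + (-91 / 64 - 7 / 64 * rt) * E42 =
      ((r - 91 / 64 * E42.re : ℝ) : ℂ) + ((-(7 * √7 / 64) * E42.re : ℝ) : ℂ) * Complex.I := by
    conv_lhs => rw [hE]
    unfold rt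
    push_cast
    ring
  rw [hS2, hform, Complex.add_im, Complex.ofReal_im, Complex.mul_im, Complex.I_im, Complex.I_re,
    Complex.ofReal_re, Complex.ofReal_im]
  ring

end MM7
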