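import Pool.Agent.MM7.Defs3b

/-!
# MM7, Part 3, module Bound3

normSq_lam, lam_add, lam_eq_zero are direct (`lam y p = p.1 * y * I + p.2`).
lam_kk: Pf y p ≥ min(1,y²) * nn p.  abs_uf_le: |m²y²-n²| ≤ m²y²+n² (also if Pf = 0: 0/0 = 0).
Aterm_bound: y * |m1 n2 - m2 n1| = |Im (conj λ1 * λ2)| = |Im (conj λ1 * (λ1+λ2))| ≤ |λ1| |λ1+λ2|, so
|Aterm| ≤ y³ / (|λ1|³ |λ2|² |λ1+λ2|) and 1/(|λ2|²|λ1+λ2|) ≤ 1/|λ2|³ + 1/|λ1+λ2|³; |λ|² = Pf ≥ min(1,a²) nn.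
(|chi| ≤ 1, |ev| ≤ 1; if one of the three lattice points is 0 then Aterm = 0 because of division by 0.)
-/

open Real MeasureTheory Set Filter Topology

namespace MM7

theorem normSq_lam (y : ℝ) (p : ℤ × ℤ) : Complex.normSq (lam y p) = Pf y p := by
  unfold lam Pf
  rw [Complex.normSq_apply]
  simp
  ring

theorem lam_add (y : ℝ) (p r : ℤ × ℤ) : lam y (p + r) = lam y p + lam y r := by
  unfold lam
  simp only [Prod.fst_add, Prod.snd_add]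
  push_cast
  ring

theorem Bound3_norm_sq (y : ℝ) (p : ℤ × ℤ) : ‖lam y p‖ ^ 2 = Pf y p := by
  rw [← normSq_lam, Complex.sq_norm]

theorem Bound3_Pf_zero {y : ℝ} (hy : 0 < y) (p : ℤ × ℤ) : Pf y p = 0 ↔ p = 0 := by
  unfold Pf
  constructor
  · intro h
    have h1 : 0 ≤ (p.1 : ℝ) ^ 2 * y ^ 2 := by positivity
    have h2 : 0 ≤ (p.2 : ℝ) ^ 2 := by positivity
    have h3 : (p.1 : ℝ) ^ 2 * y ^ 2 = 0 := by linarith
    have h4 : (p.2 : ℝ) ^ 2 = 0 := by linarith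
    have h5 : (p.1 : ℝ) = 0 := by
      rcases mul_eq_zero.mp h3 with h | h
      · exact pow_eq_zero_iff (by norm_num) |>.mp h
      · exact absurd h (by positivity)
    have h6 : (p.2 : ℝ) = 0 := pow_eq_zero_iff (by norm_num) |>.mp h4
    have h7 : p.1 = 0 := by exact_mod_cast h5
    have h8 : p.2 = 0 := by exact_mod_cast h6
    exact Prod.ext h7 h8
  · rintro rfl
    simp

theorem lam_eq_zero {y : ℝ} (hy : 0 < y) (p : ℤ × ℤ) : lam y p = 0 ↔ p = 0 := by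
  rw [← Complex.normSq_eq_zero, normSq_lam, Bound3_Pf_zero hy]

theorem Bound3_nn_nonneg (p : ℤ × ℤ) : 0 ≤ nn p := by unfold nn; positivity

theorem Bound3_kk_nonneg (p : ℤ × ℤ) : 0 ≤ kk p := by unfold kk; positivity

/-- Uniform comparison of the norms. -/
theorem Bound3_cmp {c y : ℝ} (hc : 0 < c) (hc1 : c ≤ 1) (hcy : c ≤ y) (p : ℤ × ℤ) :
    1 / ‖lam y p‖ ^ 3 ≤ 1 / c ^ 3 * kk p := by
  have hy : 0 < y := lt_of_lt_of_le hc hcy
  by_cases hp : p = 0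
  · have h : lam y p = 0 := (lam_eq_zero hy p).mpr hp
    rw [h]
    have h0 : 0 ≤ 1 / c ^ 3 * kk p := mul_nonneg (by positivity) (Bound3_kk_nonneg p)
    simpa using h0
  · have hnn : 0 < nn p := by
      have h1 := (Bound3_Pf_zero (y := 1) one_pos p).not.mpr hp
      have h2 : Pf 1 p = nn p := by unfold Pf nn; ring
      rw [h2] at h1
      exact lt_of_le_of_ne (Bound3_nn_nonneg p) (Ne.symm h1)
    have hs : 0 < Real.sqrt (nn p) := Real.sqrt_pos.mpr hnn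
    have hPf : (c * Real.sqrt (nn p)) ^ 2 ≤ ‖lam y p‖ ^ 2 := by
      rw [Bound3_norm_sq, mul_pow, Real.sq_sqrt hnn.le]
      unfold nn Pf
      have h1 : c ^ 2 ≤ y ^ 2 := by gcongr
      have h2 : c ^ 2 ≤ 1 := pow_le_one₀ hc.le hc1
      have h3 : c ^ 2 * (p.1 : ℝ) ^ 2 ≤ (p.1 : ℝ) ^ 2 * y ^ 2 := by
        rw [mul_comm]; exact mul_le_mul_of_nonneg_left h1 (sq_nonneg _)
      have h4 : c ^ 2 * (p.2 : ℝ) ^ 2 ≤ (p.2 : ℝ) ^ 2 := mul_le_of_le_one_left (sq_nonneg _) h2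
      linarith
    have h5 : c * Real.sqrt (nn p) ≤ ‖lam y p‖ := le_of_sq_le_sq hPf (norm_nonneg _)
    have h6 : (c * Real.sqrt (nn p)) ^ 3 ≤ ‖lam y p‖ ^ 3 := by gcongr
    calc 1 / ‖lam y p‖ ^ 3 ≤ 1 / (c * Real.sqrt (nn p)) ^ 3 :=
          one_div_le_one_div_of_le (by positivity) h6
      _ = 1 / c ^ 3 * kk p := by unfold kk; rw [mul_pow]; field_simp

theorem lam_kk {y : ℝ} (hy : 0 < y) : ∃ C : ℝ, 0 ≤ C ∧ ∀ p : ℤ × ℤ, 1 / ‖lam y p‖ ^ 3 ≤ C * kk p := by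
  have hc : 0 < min 1 y := lt_min one_pos hy
  exact ⟨1 / (min 1 y) ^ 3, by positivity,
    fun p => Bound3_cmp hc (min_le_left _ _) (min_le_right _ _) p⟩

theorem abs_uf_le (y : ℝ) (p : ℤ × ℤ) : |uf y p| ≤ 1 := by
  unfold uf
  have h0 : 0 ≤ Pf y p := by unfold Pf; positivity
  rw [abs_div, abs_of_nonneg h0]
  apply div_le_one_of_le₀ _ h0
  unfold Pf
  have h1 : 0 ≤ (p.1 : ℝ) ^ 2 * y ^ 2 := by positivity
  have h2 : 0 ≤ (p.2 : ℝ) ^ 2 := by positivity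
  rw [abs_le]
  constructor <;> linarith

theorem Bound3_chi (n : ℤ) : |chi n| ≤ 1 := by
  unfold chi
  have h : ∀ a : ZMod 4, |((ZMod.χ₄ a : ℤ) : ℝ)| ≤ 1 := by
    intro a
    have h2 : |ZMod.χ₄ a| ≤ 1 := by
      revert a; decide
    exact_mod_cast h2
  exact h _

theorem Bound3_ev (n : ℤ) : |ev n| ≤ 1 := by
  unfold ev
  split_ifs <;> simp

/-- The determinant. -/
theorem Bound3_det {y : ℝ} (hy : 0 < y) (p r : ℤ × ℤ) :
    y * |(p.1 : ℝ) * r.2 - (r.1 : ℝ) * p.2| ≤ ‖lam y p‖ * ‖lam y (p + r)‖ := by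
  have h1 : ((starRingEnd ℂ) (lam y p) * lam y (p + r)).im =
      -(y * ((p.1 : ℝ) * r.2 - (r.1 : ℝ) * p.2)) := by
    unfold lam
    simp
    ring
  have h2 := Complex.abs_im_le_norm ((starRingEnd ℂ) (lam y p) * lam y (p + r))
  rw [h1, abs_neg, abs_mul, abs_of_pos hy, norm_mul, Complex.norm_conj] at h2
  exact h2

theorem Bound3_real {u v w : ℝ} (hu : 0 < u) (hv : 0 < v) (hw : 0 < w) :
    u * w / (u ^ 4 * v ^ 2 * w ^ 2) ≤ 1 / u ^ 3 * (1 / v ^ 3 + 1 / w ^ 3) := by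
  have e : u * w / (u ^ 4 * v ^ 2 * w ^ 2) = 1 / u ^ 3 * (1 / (v ^ 2 * w)) := by
    field_simp
  rw [e]
  apply mul_le_mul_of_nonneg_left _ (by positivity)
  have p1 : 0 < 1 / v ^ 3 := by positivity
  have p2 : 0 < 1 / w ^ 3 := by positivity
  rcases le_total v w with h | h
  · have : 1 / (v ^ 2 * w) ≤ 1 / v ^ 3 := by
      apply one_div_le_one_div_of_le (by positivity)
      calc v ^ 3 = v ^ 2 * v := by ring
        _ ≤ v ^ 2 * w := by gcongr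
    linarith
  · have : 1 / (v ^ 2 * w) ≤ 1 / w ^ 3 := by
      apply one_div_le_one_div_of_le (by positivity)
      calc w ^ 3 = w ^ 2 * w := by ring
        _ ≤ v ^ 2 * w := by gcongr
    linarith

theorem Aterm_bound {a b : ℝ} (ha : 0 < a) :
    ∃ C : ℝ, 0 ≤ C ∧ ∀ y ∈ Set.Ioo a b, ∀ q, |Aterm q y| ≤ C * KK q := by
  set c := min 1 a with hc
  have hc0 : 0 < c := lt_min one_pos ha
  refine ⟨|b| ^ 3 * (1 / c ^ 6), by positivity, ?_⟩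
  intro y hy q
  have hy0 : 0 < y := ha.trans hy.1
  have hcy : c ≤ y := (min_le_right _ _).trans hy.1.le
  have hc1 : c ≤ 1 := min_le_left _ _
  have hyb : y ≤ |b| := hy.2.le.trans (le_abs_self b)
  have hKK : 0 ≤ KK q := by
    unfold KK
    exact mul_nonneg (Bound3_kk_nonneg _) (add_nonneg (Bound3_kk_nonneg _) (Bound3_kk_nonneg _))
  have hR : 0 ≤ |b| ^ 3 * (1 / c ^ 6) * KK q := mul_nonneg (by positivity) hKK
  by_cases h1 : q.1 = 0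
  · have : Pf y q.1 = 0 := (Bound3_Pf_zero hy0 _).mpr h1
    unfold Aterm
    rw [this]
    simpa using hR
  by_cases h2 : q.2 = 0
  · have : Pf y q.2 = 0 := (Bound3_Pf_zero hy0 _).mpr h2
    unfold Aterm
    rw [this]
    simpa using hR
  by_cases h3 : q.1 + q.2 = 0
  · have : Pf y (q.1 + q.2) = 0 := (Bound3_Pf_zero hy0 _).mpr h3
    unfold Aterm
    rw [this]
    simpa using hR
  have n1 : 0 < ‖lam y q.1‖ := norm_pos_iff.mpr ((lam_eq_zero hy0 _).not.mpr h1)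
  have n2 : 0 < ‖lam y q.2‖ := norm_pos_iff.mpr ((lam_eq_zero hy0 _).not.mpr h2)
  have n3 : 0 < ‖lam y (q.1 + q.2)‖ := norm_pos_iff.mpr ((lam_eq_zero hy0 _).not.mpr h3)
  have hD := Bound3_det hy0 q.1 q.2
  have hden : Pf y q.1 ^ 2 * Pf y q.2 * Pf y (q.1 + q.2) =
      ‖lam y q.1‖ ^ 4 * ‖lam y q.2‖ ^ 2 * ‖lam y (q.1 + q.2)‖ ^ 2 := by
    rw [← Bound3_norm_sq, ← Bound3_norm_sq, ← Bound3_norm_sq]; ring
  have hw : |chi q.1.1 * chi q.1.2 * ev q.2.1 * ev q.2.2| ≤ 1 := by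
    rw [abs_mul, abs_mul, abs_mul]
    have a1 := Bound3_chi q.1.1
    have a2 := Bound3_chi q.1.2
    have a3 := Bound3_ev q.2.1
    have a4 := Bound3_ev q.2.2
    have b1 : |chi q.1.1| * |chi q.1.2| ≤ 1 := mul_le_one₀ a1 (abs_nonneg _) a2
    have b2 : |chi q.1.1| * |chi q.1.2| * |ev q.2.1| ≤ 1 := mul_le_one₀ b1 (abs_nonneg _) a3
    exact mul_le_one₀ b2 (abs_nonneg _) a4
  have hA : |Aterm q y| ≤ y ^ 3 * (‖lam y q.1‖ * ‖lam y (q.1 + q.2)‖ /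
      (‖lam y q.1‖ ^ 4 * ‖lam y q.2‖ ^ 2 * ‖lam y (q.1 + q.2)‖ ^ 2)) := by
    unfold Aterm
    rw [hden, abs_mul, abs_of_pos (by positivity : 0 < y ^ 4), abs_div, abs_mul,
      abs_of_pos (by positivity : 0 < ‖lam y q.1‖ ^ 4 * ‖lam y q.2‖ ^ 2 *
        ‖lam y (q.1 + q.2)‖ ^ 2)]
    have e : y ^ 4 * (|chi q.1.1 * chi q.1.2 * ev q.2.1 * ev q.2.2| *
        |(q.1.1 : ℝ) * q.2.2 - (q.2.1 : ℝ) * q.1.2| /
        (‖lam y q.1‖ ^ 4 * ‖lam y q.2‖ ^ 2 * ‖lam y (q.1 + q.2)‖ ^ 2)) =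
        y ^ 3 * (|chi q.1.1 * chi q.1.2 * ev q.2.1 * ev q.2.2| *
        (y * |(q.1.1 : ℝ) * q.2.2 - (q.2.1 : ℝ) * q.1.2|) /
        (‖lam y q.1‖ ^ 4 * ‖lam y q.2‖ ^ 2 * ‖lam y (q.1 + q.2)‖ ^ 2)) := by ring
    rw [e]
    apply mul_le_mul_of_nonneg_left _ (by positivity)
    apply div_le_div_of_nonneg_right _ (by positivity)
    calc |chi q.1.1 * chi q.1.2 * ev q.2.1 * ev q.2.2| *
        (y * |(q.1.1 : ℝ) * q.2.2 - (q.2.1 : ℝ) * q.1.2|)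
        ≤ 1 * (‖lam y q.1‖ * ‖lam y (q.1 + q.2)‖) :=
          mul_le_mul hw hD (by positivity) zero_le_one
      _ = _ := one_mul _
  refine hA.trans ?_
  have hr := Bound3_real n1 n2 n3
  have c1 := Bound3_cmp hc0 hc1 hcy q.1
  have c2 := Bound3_cmp hc0 hc1 hcy q.2
  have c3 := Bound3_cmp hc0 hc1 hcy (q.1 + q.2)
  have hk1 := Bound3_kk_nonneg q.1
  have hk2 := Bound3_kk_nonneg q.2
  have hk3 := Bound3_kk_nonneg (q.1 + q.2)
  calc y ^ 3 * (‖lam y q.1‖ * ‖lam y (q.1 + q.2)‖ /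
      (‖lam y q.1‖ ^ 4 * ‖lam y q.2‖ ^ 2 * ‖lam y (q.1 + q.2)‖ ^ 2))
      ≤ |b| ^ 3 * (1 / ‖lam y q.1‖ ^ 3 * (1 / ‖lam y q.2‖ ^ 3 +
        1 / ‖lam y (q.1 + q.2)‖ ^ 3)) := by
        apply mul_le_mul _ hr (by positivity) (by positivity)
        gcongr
    _ ≤ |b| ^ 3 * ((1 / c ^ 3 * kk q.1) * (1 / c ^ 3 * kk q.2 +
        1 / c ^ 3 * kk (q.1 + q.2))) := by
        gcongr
    _ = |b| ^ 3 * (1 / c ^ 6) * KK q := by
        unfold KK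
        field_simp

end MM7
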