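import Pool.Agent.MM7.KerBd

/-!
# MM7, Part 4, module Comps

Each of the four maps is an injective map j of (ℤ×ℤ)×(ℤ×ℤ) into itself:
tri1: j v = (v.1, v.2 - v.1) (bijective), tri2: j v = (v.1, mulPi v.2 - v.1), tri3: j v = (v.1 - v.2, mulPi v.2 - v.1),
tri4: j v = (mulPb v.1, mulPi (v.1 - v.2)); the function of v is k (xx q.1) (xx q.2) at q = j v.
Ranges: tri2: q.1+q.2 ∈ om O i.e. ap(q.1+q.2)=1;  tri3: q.1+q.2 = mulPi v.2 - v.2 = -mulPb v.2 (om - 1 = -omb), and
q.1 = v.1 - v.2 arbitrary, i.e. bp(q.1+q.2) = 1; tri4: bp q.1 = 1 and ap q.2 = 1.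
The weights are the indicators of the ranges (mem_range_mulPi, mem_range_mulPb; ev, ap, bp take values 0,1).
Use Function.Injective.hasSum_iff (function zero outside the range) and Summable (KerBd).
-/

open Real MeasureTheory Set Filter Topology

namespace MM7

theorem Comps_xx_sub (p r : ℤ × ℤ) : xx (p - r) = xx p - xx r := by
  rw [sub_eq_add_neg, xx_add, xx_neg]; ring

theorem Comps_ev_cases (n : ℤ) : ev n = 0 ∨ ev n = 1 := by
  unfold ev; split_ifs <;> simp

theorem Comps_ev_one {n : ℤ} (h : Even n) : ev n = 1 := by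
  unfold ev; rw [if_pos h]

theorem Comps_ev_zero {n : ℤ} (h : ¬ Even n) : ev n = 0 := by
  unfold ev; rw [if_neg h]

theorem Comps_ev_abs (n : ℤ) : |ev n| ≤ 1 := by
  rcases Comps_ev_cases n with h | h <;> simp [h]

theorem Comps_congr {f g : (ℤ × ℤ) × (ℤ × ℤ) → ℂ} {a : ℂ} (h : HasSum f a)
    (hfg : ∀ v, f v = g v) : HasSum g a := by
  have h1 : f = g := funext hfg
  rw [← h1]
  exact h

theorem Comps_main {k : ℂ → ℂ → ℂ} (hk : KerO k) {ω : (ℤ × ℤ) × (ℤ × ℤ) → ℝ}
    (hω : ∀ q, |ω q| ≤ 1) {j : (ℤ × ℤ) × (ℤ × ℤ) → (ℤ × ℤ) × (ℤ × ℤ)}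
    (hj : Function.Injective j) (h1 : ∀ v, ω (j v) = 1)
    (h0 : ∀ q, q ∉ Set.range j → ω q = 0) :
    HasSum (fun v : (ℤ × ℤ) × (ℤ × ℤ) => k (xx (j v).1) (xx (j v).2)) (WS ω k) := by
  have hs : Summable fun q : (ℤ × ℤ) × (ℤ × ℤ) => (ω q : ℂ) * k (xx q.1) (xx q.2) :=
    hk.summable_weight ⟨1, hω⟩
  have hS : HasSum (fun q : (ℤ × ℤ) × (ℤ × ℤ) => (ω q : ℂ) * k (xx q.1) (xx q.2)) (WS ω k) :=
    hs.hasSum
  have h2 := (hj.hasSum_iff (f := fun q : (ℤ × ℤ) × (ℤ × ℤ) =>
    (ω q : ℂ) * k (xx q.1) (xx q.2)) (a := WS ω k)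
    (by intro q hq; simp [h0 q hq])).mpr hS
  have h3 : ((fun q : (ℤ × ℤ) × (ℤ × ℤ) => (ω q : ℂ) * k (xx q.1) (xx q.2)) ∘ j)
      = fun v => k (xx (j v).1) (xx (j v).2) := by
    funext v
    simp only [Function.comp, h1 v, Complex.ofReal_one, one_mul]
  rw [h3] at h2
  exact h2

theorem Comps_even_mulPi (p : ℤ × ℤ) : Even (mulPi p).1 :=
  (mem_range_mulPi _).mp ⟨p, rfl⟩

theorem Comps_even_mulPb (p : ℤ × ℤ) : Even ((mulPb p).1 + (mulPb p).2) :=
  (mem_range_mulPb _).mp ⟨p, rfl⟩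

/-- `om - 1 = -omb` on coordinates -/
theorem Comps_mulPi_sub (p : ℤ × ℤ) : mulPi p - p = -mulPb p := by
  unfold mulPi mulPb
  ext
  · simp; ring
  · simp

theorem hasSum_tri1 {k : ℂ → ℂ → ℂ} (hk : KerO k) :
    HasSum (fun v : (ℤ × ℤ) × (ℤ × ℤ) => k (xx v.1) (-(xx v.1 - xx v.2))) (WS w1 k) := by
  have h := Comps_main hk (ω := w1) (by intro q; simp [w1])
    (j := fun v => (v.1, v.2 - v.1))
    (by
      rintro ⟨a, b⟩ ⟨c, d⟩ h
      simp only [Prod.mk.injEq] at h
      obtain ⟨h1, h2⟩ := h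
      subst h1
      rw [sub_left_inj] at h2
      rw [h2])
    (by intro v; rfl)
    (by
      intro q hq
      exact absurd ⟨(q.1, q.2 + q.1), by simp⟩ hq)
  refine Comps_congr h (fun v => ?_)
  simp only [Comps_xx_sub]
  congr 1
  ring

theorem hasSum_tri2 {k : ℂ → ℂ → ℂ} (hk : KerO k) :
    HasSum (fun v : (ℤ × ℤ) × (ℤ × ℤ) => k (xx v.1) (-(xx v.1 - om * xx v.2)))
      (WS wa3 k) := by
  have h := Comps_main hk (ω := wa3) (by intro q; exact Comps_ev_abs _)
    (j := fun v => (v.1, mulPi v.2 - v.1))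
    (by
      rintro ⟨a, b⟩ ⟨c, d⟩ h
      simp only [Prod.mk.injEq] at h
      obtain ⟨h1, h2⟩ := h
      subst h1
      rw [sub_left_inj] at h2
      rw [mulPi_injective h2])
    (by
      intro v
      have : v.1 + (mulPi v.2 - v.1) = mulPi v.2 := by abel
      simp only [wa3, ap, this]
      exact Comps_ev_one (Comps_even_mulPi _))
    (by
      intro q hq
      refine Comps_ev_zero fun hev => hq ?_
      obtain ⟨r, hr⟩ := (mem_range_mulPi _).mpr hev
      exact ⟨(q.1, r), by simp [hr]⟩)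
  refine Comps_congr h (fun v => ?_)
  simp only [Comps_xx_sub, xx_mulPi]
  congr 1
  ring

theorem hasSum_tri3 {k : ℂ → ℂ → ℂ} (hk : KerO k) :
    HasSum (fun v : (ℤ × ℤ) × (ℤ × ℤ) => k (xx v.1 - xx v.2) (-(xx v.1 - om * xx v.2)))
      (WS wb3 k) := by
  have h := Comps_main hk (ω := wb3) (by intro q; exact Comps_ev_abs _)
    (j := fun v => (v.1 - v.2, mulPi v.2 - v.1))
    (by
      rintro ⟨a, b⟩ ⟨c, d⟩ h
      simp only [Prod.mk.injEq] at h
      obtain ⟨h1, h2⟩ := h
      have h3 : -mulPb b = -mulPb d := by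
        rw [← Comps_mulPi_sub, ← Comps_mulPi_sub]
        calc mulPi b - b = (mulPi b - a) + (a - b) := by abel
          _ = (mulPi d - c) + (c - d) := by rw [h1, h2]
          _ = mulPi d - d := by abel
      have h4 : b = d := mulPb_injective (neg_injective h3)
      subst h4
      rw [sub_left_inj] at h1
      rw [h1])
    (by
      intro v
      have : v.1 - v.2 + (mulPi v.2 - v.1) = -mulPb v.2 := by
        rw [← Comps_mulPi_sub]; abel
      simp only [wb3, bp, this]
      refine Comps_ev_one ?_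
      have h := (Comps_even_mulPb v.2).neg
      simpa [add_comm] using h)
    (by
      intro q hq
      refine Comps_ev_zero fun hev => hq ?_
      obtain ⟨r, hr⟩ := (mem_range_mulPb _).mpr hev
      refine ⟨(q.1 - r, -r), ?_⟩
      have h5 : mulPi (-r) = -r + mulPb r := by
        unfold mulPi mulPb
        ext <;> simp <;> ring
      have h6 : mulPi (-r) - (q.1 - r) = q.2 := by
        rw [h5, hr]; abel
      simp only [h6]
      ext <;> simp)
  refine Comps_congr h (fun v => ?_)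
  simp only [Comps_xx_sub, xx_mulPi]
  congr 1
  ring

theorem hasSum_tri4 {k : ℂ → ℂ → ℂ} (hk : KerO k) :
    HasSum (fun v : (ℤ × ℤ) × (ℤ × ℤ) => k (omb * xx v.1) (om * (xx v.1 - xx v.2)))
      (WS wba k) := by
  have h := Comps_main hk (ω := wba)
    (by
      intro q
      unfold wba bp ap
      rw [abs_mul]
      exact mul_le_one₀ (Comps_ev_abs _) (abs_nonneg _) (Comps_ev_abs _))
    (j := fun v => (mulPb v.1, mulPi (v.1 - v.2)))
    (by
      rintro ⟨a, b⟩ ⟨c, d⟩ h
      simp only [Prod.mk.injEq] at h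
      obtain ⟨h1, h2⟩ := h
      have h3 := mulPb_injective h1
      subst h3
      have h4 := mulPi_injective h2
      rw [sub_right_inj] at h4
      rw [h4])
    (by
      intro v
      simp only [wba, bp, ap, Comps_ev_one (Comps_even_mulPb _),
        Comps_ev_one (Comps_even_mulPi _), mul_one])
    (by
      intro q hq
      by_contra hne
      have hb : Even (q.1.1 + q.1.2) := by
        by_contra hb
        exact hne (by simp [wba, bp, Comps_ev_zero hb])
      have ha : Even q.2.1 := by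
        by_contra ha
        exact hne (by simp [wba, ap, Comps_ev_zero ha])
      obtain ⟨r, hr⟩ := (mem_range_mulPb _).mpr hb
      obtain ⟨s, hs⟩ := (mem_range_mulPi _).mpr ha
      refine hq ⟨(r, r - s), ?_⟩
      simp only [sub_sub_cancel, hr, hs])
  refine Comps_congr h (fun v => ?_)
  simp only [Comps_xx_sub, xx_mulPi, xx_mulPb]

end MM7
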