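import Pool.Agent.MM7.Defs4
import Pool.Agent.MM7.Summ
import Pool.Agent.MM7.Arith4

/-!
# MM7, Part 4, module KerBd

With s = a+b (so that -s is the third point): |rho a b| = 2 |Im (conj a b)| ≤ 2 |a||b|, and rho a b = rho a s
= -(rho s b)..., so |rho a b| ≤ 2 min(|a||b|, |a||s|, |b||s|).  NNk = 1/(|a|²|b|²|s|²) ≤ (by AM-GM of three terms)
(1/3)(|a|⁻³|b|⁻³ + |a|⁻³|s|⁻³ + |b|⁻³|s|⁻³).  T1k: |T1k| ≤ 2 /(|a|³ |b| |s|²) (use |rho| ≤ 2|a||b|) and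
1/(|b||s|²) ≤ 1/|b|³ + 1/|s|³; T2k, T3k similarly. |pk| ≤ 1, so |H1k| ≤ 4 |T1k|, |H3k| ≤ 4 |T3k|.
If one of a, b, s is 0 the kernels are 0 (division by zero convention).
summable: compare with xx_kk and summable_kk12/13/23 (xx is additive). summable_weight: same with a bounded weight.
-/

open Real MeasureTheory Set Filter Topology

namespace MM7

private theorem KerBd_amgm {u v w : ℝ} (hu : 0 ≤ u) (hv : 0 ≤ v) (hw : 0 ≤ w) :
    u ^ 2 * v ^ 2 * w ^ 2 ≤ u ^ 3 * v ^ 3 + u ^ 3 * w ^ 3 + v ^ 3 * w ^ 3 := by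
  have h : ∀ x y z : ℝ, 0 ≤ x → 0 ≤ y → 0 ≤ z → x * y * z ≤ x ^ 3 + y ^ 3 + z ^ 3 := by
    intro x y z hx hy hz
    have h1 : 3 * (x * y * z) ≤ x ^ 3 + y ^ 3 + z ^ 3 := by
      nlinarith [mul_nonneg (add_nonneg (add_nonneg hx hy) hz)
        (add_nonneg (add_nonneg (sq_nonneg (x - y)) (sq_nonneg (y - z))) (sq_nonneg (x - z)))]
    have h2 : 0 ≤ x * y * z := by positivity
    linarith
  have h1 := h (u * v) (u * w) (v * w) (by positivity) (by positivity) (by positivity)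
  calc u ^ 2 * v ^ 2 * w ^ 2 = (u * v) * (u * w) * (v * w) := by ring
    _ ≤ _ := h1
    _ = _ := by ring

private theorem KerBd_young {v w : ℝ} (hv : 0 ≤ v) (hw : 0 ≤ w) : v * w ^ 2 ≤ v ^ 3 + w ^ 3 := by
  rcases le_total v w with h | h
  · have : v * w ^ 2 ≤ w * w ^ 2 := mul_le_mul_of_nonneg_right h (by positivity)
    have h2 : 0 ≤ v ^ 3 := by positivity
    nlinarith
  · have : v * w ^ 2 ≤ v * v ^ 2 :=
      mul_le_mul_of_nonneg_left (pow_le_pow_left₀ hw h 2) hv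
    have h2 : 0 ≤ w ^ 3 := by positivity
    nlinarith

private theorem KerBd_cancel (A : ℝ) : A * (1 / A) ^ 2 = 1 / A := by
  by_cases h : A = 0
  · rw [h]; norm_num
  · field_simp

private theorem KerBd_norm_NNk (a b : ℂ) :
    ‖NNk a b‖ = (1 / ‖a‖) ^ 2 * (1 / ‖b‖) ^ 2 * (1 / ‖a + b‖) ^ 2 := by
  unfold NNk
  rw [norm_div, norm_one]
  simp only [norm_mul, Complex.norm_conj]
  rw [one_div_pow, one_div_pow, one_div_pow, one_div_mul_one_div, one_div_mul_one_div]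
  congr 1
  ring

private theorem KerBd_norm_sq (z : ℂ) :
    ‖1 / (z * starRingEnd ℂ z)‖ = (1 / ‖z‖) ^ 2 := by
  rw [norm_div, norm_one, norm_mul, Complex.norm_conj, one_div_pow]
  congr 1
  ring

private theorem KerBd_rho (a b : ℂ) : ‖rho a b‖ ≤ 2 * (‖a‖ * ‖b‖) := by
  unfold rho
  refine (norm_sub_le _ _).trans ?_
  rw [norm_mul, norm_mul, Complex.norm_conj, Complex.norm_conj]
  linarith

private theorem KerBd_rho' (a b : ℂ) : ‖rho a b‖ ≤ 2 * (‖a‖ * ‖a + b‖) := by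
  have h : rho a b = rho a (a + b) := by
    unfold rho
    rw [map_add]
    ring
  rw [h]
  exact KerBd_rho _ _

private theorem KerBd_pk (z : ℂ) : ‖pk z‖ ≤ 1 := by
  unfold pk
  rw [norm_div, Complex.norm_conj]
  exact div_self_le_one _

private theorem KerBd_form (a b : ℂ) :
    1 / ‖a‖ ^ 3 * (1 / ‖b‖ ^ 3) + 1 / ‖a‖ ^ 3 * (1 / ‖a + b‖ ^ 3)
      + 1 / ‖b‖ ^ 3 * (1 / ‖a + b‖ ^ 3) =
    (1 / ‖a‖) ^ 3 * (1 / ‖b‖) ^ 3 + (1 / ‖a‖) ^ 3 * (1 / ‖a + b‖) ^ 3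
      + (1 / ‖b‖) ^ 3 * (1 / ‖a + b‖) ^ 3 := by
  simp only [one_div_pow]

theorem KerO_NNk : KerO NNk := by
  refine ⟨1, zero_le_one, fun a b => ?_⟩
  rw [KerBd_norm_NNk, KerBd_form, one_mul]
  exact KerBd_amgm (by positivity) (by positivity) (by positivity)

private theorem KerBd_T (r N q A B S u v w : ℝ) (hr : 0 ≤ r) (hr2 : r ≤ 2 * (A * B))
    (hA : A * u ^ 2 = u) (hB : B * v ^ 2 = v) (hu : 0 ≤ u) (hv : 0 ≤ v) (hw : 0 ≤ w)
    (hN : N = u ^ 2 * v ^ 2 * w ^ 2) (hq : q = u ^ 2) :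
    r * N * q ≤ 2 * (u ^ 3 * v ^ 3 + u ^ 3 * w ^ 3 + v ^ 3 * w ^ 3) := by
  have h1 : r * N * q ≤ 2 * (A * B) * N * q := by
    refine mul_le_mul_of_nonneg_right (mul_le_mul_of_nonneg_right hr2 ?_) ?_
    · rw [hN]; positivity
    · rw [hq]; positivity
  have h2 : 2 * (A * B) * N * q = 2 * (u ^ 3 * (v * w ^ 2)) := by
    rw [hN, hq]
    calc 2 * (A * B) * (u ^ 2 * v ^ 2 * w ^ 2) * u ^ 2
        = 2 * ((A * u ^ 2) * (B * v ^ 2) * w ^ 2 * u ^ 2) := by ring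
      _ = _ := by rw [hA, hB]; ring
  have h3 := KerBd_young hv hw
  have h4 : u ^ 3 * (v * w ^ 2) ≤ u ^ 3 * (v ^ 3 + w ^ 3) :=
    mul_le_mul_of_nonneg_left h3 (by positivity)
  have h5 : 0 ≤ v ^ 3 * w ^ 3 := by positivity
  rw [h2] at h1
  nlinarith

theorem KerO_T1k : KerO T1k := by
  refine ⟨2, zero_le_two, fun a b => ?_⟩
  rw [KerBd_form]
  unfold T1k
  rw [norm_mul, norm_mul]
  exact KerBd_T _ _ _ ‖a‖ ‖b‖ ‖a + b‖ _ _ _ (norm_nonneg _) (KerBd_rho a b) (KerBd_cancel _)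
    (KerBd_cancel _) (by positivity) (by positivity) (by positivity) (KerBd_norm_NNk a b)
    (KerBd_norm_sq a)

theorem KerO_T2k : KerO T2k := by
  refine ⟨2, zero_le_two, fun a b => ?_⟩
  rw [KerBd_form]
  unfold T2k
  rw [norm_mul, norm_mul]
  have h := KerBd_T ‖rho a b‖ ‖NNk a b‖ ‖1 / (b * starRingEnd ℂ b)‖ ‖b‖ ‖a‖ ‖a + b‖
    (1 / ‖b‖) (1 / ‖a‖) (1 / ‖a + b‖) (norm_nonneg _)
    (by rw [mul_comm ‖b‖ ‖a‖]; exact KerBd_rho a b) (KerBd_cancel _)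
    (KerBd_cancel _) (by positivity) (by positivity) (by positivity)
    (by rw [KerBd_norm_NNk]; ring) (KerBd_norm_sq b)
  linarith

theorem KerO_T3k : KerO T3k := by
  refine ⟨2, zero_le_two, fun a b => ?_⟩
  rw [KerBd_form]
  unfold T3k
  rw [norm_mul, norm_mul]
  have h := KerBd_T ‖rho a b‖ ‖NNk a b‖ ‖1 / ((a + b) * starRingEnd ℂ (a + b))‖ ‖a + b‖ ‖a‖ ‖b‖
    (1 / ‖a + b‖) (1 / ‖a‖) (1 / ‖b‖) (norm_nonneg _)
    (by rw [mul_comm ‖a + b‖ ‖a‖]; exact KerBd_rho' a b) (KerBd_cancel _)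
    (KerBd_cancel _) (by positivity) (by positivity) (by positivity)
    (by rw [KerBd_norm_NNk]; ring) (KerBd_norm_sq _)
  linarith

private theorem KerBd_mul {k : ℂ → ℂ → ℂ} (hk : KerO k) {P : ℂ → ℂ → ℂ}
    (hP : ∀ a b, ‖P a b‖ ≤ 4) : KerO (fun a b => k a b * P a b) := by
  obtain ⟨C, hC, h⟩ := hk.bound
  refine ⟨C * 4, by positivity, fun a b => ?_⟩
  rw [norm_mul]
  have h0 := h a b
  have h1 := mul_le_mul h0 (hP a b) (norm_nonneg _) (by positivity)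
  refine h1.trans (le_of_eq ?_)
  ring

theorem KerO_H1k : KerO H1k := by
  have h := KerBd_mul KerO_T1k (P := fun a b => 2 * pk a + pk b + pk (a + b)) (fun a b => by
    have h1 := KerBd_pk a
    have h2 := KerBd_pk b
    have h3 := KerBd_pk (a + b)
    have h4 : ‖2 * pk a‖ ≤ 2 := by
      rw [norm_mul]
      have : ‖(2 : ℂ)‖ = 2 := by simp
      rw [this]
      linarith
    calc ‖2 * pk a + pk b + pk (a + b)‖ ≤ ‖2 * pk a‖ + ‖pk b‖ + ‖pk (a + b)‖ := norm_add₃_le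
      _ ≤ 2 + 1 + 1 := add_le_add (add_le_add h4 h2) h3
      _ = 4 := by norm_num)
  exact h

theorem KerO_H3k : KerO H3k := by
  have h := KerBd_mul KerO_T3k (P := fun a b => pk a + pk b + 2 * pk (a + b)) (fun a b => by
    have h1 := KerBd_pk a
    have h2 := KerBd_pk b
    have h3 := KerBd_pk (a + b)
    have h4 : ‖2 * pk (a + b)‖ ≤ 2 := by
      rw [norm_mul]
      have : ‖(2 : ℂ)‖ = 2 := by simp
      rw [this]
      linarith
    calc ‖pk a + pk b + 2 * pk (a + b)‖ ≤ ‖pk a‖ + ‖pk b‖ + ‖2 * pk (a + b)‖ := norm_add₃_le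
      _ ≤ 1 + 1 + 2 := add_le_add (add_le_add h1 h2) h4
      _ = 4 := by norm_num)
  exact h

private theorem KerBd_kk (p : ℤ × ℤ) : 0 ≤ kk p := by
  unfold kk
  positivity

private theorem KerBd_dom {k : ℂ → ℂ → ℂ} (hk : KerO k) :
    ∃ g : (ℤ × ℤ) × (ℤ × ℤ) → ℝ, Summable g ∧ ∀ q, ‖k (xx q.1) (xx q.2)‖ ≤ g q := by
  obtain ⟨C, hC, h⟩ := hk.bound
  obtain ⟨D, hD, hx⟩ := xx_kk
  refine ⟨fun q => C * (D ^ 2 * (kk q.1 * kk q.2 + kk q.1 * kk (q.1 + q.2)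
    + kk q.2 * kk (q.1 + q.2))), ?_, fun q => ?_⟩
  · exact (((summable_kk12.add summable_kk13).add summable_kk23).mul_left _).mul_left _
  · refine (h _ _).trans (mul_le_mul_of_nonneg_left ?_ hC)
    rw [← xx_add]
    have h1 := hx q.1
    have h2 := hx q.2
    have h3 := hx (q.1 + q.2)
    have k1 := KerBd_kk q.1
    have k2 := KerBd_kk q.2
    have k3 := KerBd_kk (q.1 + q.2)
    have m : ∀ x y x' y' : ℝ, 0 ≤ y → 0 ≤ x' → x ≤ D * x' → y ≤ D * y' →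
        x * y ≤ D ^ 2 * (x' * y') := by
      intro x y x' y' hy hx' hxx hyy
      calc x * y ≤ (D * x') * (D * y') := mul_le_mul hxx hyy hy (by positivity)
        _ = _ := by ring
    have m1 := m _ _ _ _ (by positivity) k1 h1 h2
    have m2 := m _ _ _ _ (by positivity) k1 h1 h3
    have m3 := m _ _ _ _ (by positivity) k2 h2 h3
    linarith

theorem KerO.summable {k : ℂ → ℂ → ℂ} (hk : KerO k) :
    Summable fun q : (ℤ × ℤ) × (ℤ × ℤ) => k (xx q.1) (xx q.2) := by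
  obtain ⟨g, hg, h⟩ := KerBd_dom hk
  exact Summable.of_norm_bounded hg h

theorem KerO.summable_weight {k : ℂ → ℂ → ℂ} (hk : KerO k) {ω : (ℤ × ℤ) × (ℤ × ℤ) → ℝ}
    (hω : ∃ B : ℝ, ∀ q, |ω q| ≤ B) :
    Summable fun q : (ℤ × ℤ) × (ℤ × ℤ) => (ω q : ℂ) * k (xx q.1) (xx q.2) := by
  obtain ⟨B, hB⟩ := hω
  obtain ⟨g, hg, h⟩ := KerBd_dom hk
  refine Summable.of_norm_bounded (hg.mul_left B) fun q => ?_
  rw [norm_mul, Complex.norm_real, Real.norm_eq_abs]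
  exact mul_le_mul (hB q) (h q) (norm_nonneg _) ((abs_nonneg _).trans (hB q))

end MM7
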