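import Pool.Agent.MM7.Defs4
import Pool.Agent.MM7.Summ
import Pool.Agent.MM7.Arith4
import Pool.Agent.MM7.KerBd

/-!
# MM7, Part 4, module Conv4

Change of coordinates: λ = m√-7 + n = 2 xx(a,b) with m = b, n = 2a+b (bijection between (a,b) ∈ ℤ² and pairs m ≡ n mod 2;
the weights of Aser vanish for other pairs). For m1 = b1, n1 = 2a1+b1: chi m1 * chi n1 = ap(a1,b1) - bp(a1,b1)
(b1 even: both 0; b1 odd: chi(b1) chi(2a1+b1) = (-1)^{a1}), ev m2 * ev n2 = ev b2.  Pf √7 (m,n) = 4 normSq (xx(a,b)),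
m1 n2 - m2 n1 = -(4/√7) Im (conj x1 * x2) (x_i = xx q.i), T1k x1 x2 = 2i Im(conj x1 x2)/(|x1|⁴|x2|²|x1+x2|²),
so Aser √7 = 49 * Σ wom * (-4/√7) Im(conj x1 x2) / (256 ...) = -(49/(128√7)) Im Σ wom T1k.
uf √7 (m,n) = -Re (pk x), H1k = T1k*(2pk x1 + pk x2 + pk(x1+x2)), Im H1k = 2 Im(conj x1 x2)/(...) * Re(2pk+pk+pk):
Bser √7 = -(49/(128√7)) Im Σ wom H1k.  (Take the tsum over the sublattice by Function.Injective.tsum_eq; the real sums may be
pushed through Complex.im with summability from KerBd or with tsum of real parts: Complex.hasSum_iff; if you need summability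
import Pool.Agent.MM7.KerBd.)
-/

open Real MeasureTheory Set Filter Topology

namespace MM7

/-- the change of coordinates on one point: `2 * xx p = m √-7 + n`, `m = p.2`, `n = 2 p.1 + p.2` -/
private def Conv4_phi (p : ℤ × ℤ) : ℤ × ℤ := (p.2, 2 * p.1 + p.2)

private theorem Conv4_phi_add (p r : ℤ × ℤ) : Conv4_phi p + Conv4_phi r = Conv4_phi (p + r) := by
  unfold Conv4_phi
  ext
  · simp
  · simp only [Prod.snd_add, Prod.fst_add]
    ring

/-- the change of coordinates on pairs -/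
private def Conv4_Phi (q : (ℤ × ℤ) × (ℤ × ℤ)) : (ℤ × ℤ) × (ℤ × ℤ) :=
  (Conv4_phi q.1, Conv4_phi q.2)

private theorem Conv4_inj : Function.Injective Conv4_Phi := by
  rintro ⟨⟨a, b⟩, ⟨c, d⟩⟩ ⟨⟨a', b'⟩, ⟨c', d'⟩⟩ h
  unfold Conv4_Phi Conv4_phi at h
  simp only [Prod.mk.injEq] at h ⊢
  obtain ⟨⟨h1, h2⟩, h3, h4⟩ := h
  refine ⟨⟨?_, h1⟩, ?_, h3⟩ <;> omega

private theorem Conv4_range {m n : ℤ} (h : (n - m) % 2 = 0) : ∃ p : ℤ × ℤ, Conv4_phi p = (m, n) := by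
  refine ⟨((n - m) / 2, m), ?_⟩
  unfold Conv4_phi
  simp only [Prod.mk.injEq, true_and]
  omega

private theorem Conv4_chi_val (n : ℤ) :
    chi n = if n % 2 = 0 then 0 else if n % 4 = 1 then 1 else -1 := by
  unfold chi
  rw [ZMod.χ₄_int_eq_if_mod_four]
  split_ifs <;> simp

private theorem Conv4_ev_val (n : ℤ) : ev n = if n % 2 = 0 then 1 else 0 := by
  unfold ev
  simp only [Int.even_iff]

private theorem Conv4_chi (a b : ℤ) : chi b * chi (2 * a + b) = ev a - ev (a + b) := by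
  rw [Conv4_chi_val, Conv4_chi_val, Conv4_ev_val, Conv4_ev_val]
  split_ifs <;> first | (exfalso; omega) | norm_num

private theorem Conv4_ev (a b : ℤ) : ev b * ev (2 * a + b) = ev b := by
  rw [Conv4_ev_val, Conv4_ev_val]
  split_ifs <;> first | (exfalso; omega) | norm_num

private theorem Conv4_chi_zero {m n : ℤ} (h : (n - m) % 2 ≠ 0) : chi m * chi n = 0 := by
  rw [Conv4_chi_val, Conv4_chi_val]
  split_ifs <;> first | (exfalso; omega) | norm_num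

private theorem Conv4_ev_zero {m n : ℤ} (h : (n - m) % 2 ≠ 0) : ev m * ev n = 0 := by
  rw [Conv4_ev_val, Conv4_ev_val]
  split_ifs <;> first | (exfalso; omega) | norm_num

/-- the general change of coordinates in the sum -/
private theorem Conv4_gen (g : (ℤ × ℤ) × (ℤ × ℤ) → ℝ) :
    ∑' q : (ℤ × ℤ) × (ℤ × ℤ), chi q.1.1 * chi q.1.2 * (ev q.2.1 * ev q.2.2) * g q
      = ∑' q : (ℤ × ℤ) × (ℤ × ℤ), wom q * g (Conv4_Phi q) := by
  have h := Conv4_inj.tsum_eq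
    (f := fun q : (ℤ × ℤ) × (ℤ × ℤ) => chi q.1.1 * chi q.1.2 * (ev q.2.1 * ev q.2.2) * g q) ?_
  · rw [← h]
    refine tsum_congr fun q => ?_
    show chi q.1.2 * chi (2 * q.1.1 + q.1.2) * (ev q.2.2 * ev (2 * q.2.1 + q.2.2)) * g (Conv4_Phi q)
      = (ev q.1.1 - ev (q.1.1 + q.1.2)) * ev q.2.2 * g (Conv4_Phi q)
    rw [Conv4_chi, Conv4_ev]
  · rintro ⟨⟨m, n⟩, ⟨k, l⟩⟩ hq
    rw [Function.mem_support] at hq
    by_cases h1 : (n - m) % 2 = 0
    · by_cases h2 : (l - k) % 2 = 0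
      · obtain ⟨p, hp⟩ := Conv4_range h1
        obtain ⟨r, hr⟩ := Conv4_range h2
        exact ⟨(p, r), by unfold Conv4_Phi; rw [hp, hr]⟩
      · exfalso
        apply hq
        simp only
        rw [Conv4_ev_zero h2]
        ring
    · exfalso
      apply hq
      simp only
      rw [Conv4_chi_zero h1]
      ring

private theorem Conv4_s7 : (√7 : ℝ) ^ 2 = 7 := Real.sq_sqrt (by norm_num)

private theorem Conv4_Pf (p : ℤ × ℤ) : Pf (√7) (Conv4_phi p) = 4 * Complex.normSq (xx p) := by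
  rw [normSq_xx]
  unfold Pf Conv4_phi
  simp only
  rw [Conv4_s7]
  push_cast
  ring

private theorem Conv4_re (p : ℤ × ℤ) : (xx p).re = p.1 + p.2 / 2 := by
  have h : xx p = ((p.1 + p.2 / 2 : ℝ) : ℂ) + ((p.2 * √7 / 2 : ℝ) : ℂ) * Complex.I := by
    unfold xx om rt
    push_cast
    ring
  rw [h, Complex.add_re, Complex.re_ofReal_mul]
  simp

private theorem Conv4_im (p : ℤ × ℤ) : (xx p).im = p.2 * √7 / 2 := by
  have h : xx p = ((p.1 + p.2 / 2 : ℝ) : ℂ) + ((p.2 * √7 / 2 : ℝ) : ℂ) * Complex.I := by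
    unfold xx om rt
    push_cast
    ring
  rw [h, Complex.add_im, Complex.im_ofReal_mul]
  simp

private theorem Conv4_det (p r : ℤ × ℤ) :
    (((Conv4_phi p).1 : ℝ) * (Conv4_phi r).2 - ((Conv4_phi r).1 : ℝ) * (Conv4_phi p).2)
      = -(4 / √7) * (starRingEnd ℂ (xx p) * xx r).im := by
  have h7 : √7 ≠ 0 := by positivity
  rw [Complex.mul_im, Complex.conj_re, Complex.conj_im, Conv4_re, Conv4_im, Conv4_re, Conv4_im]
  unfold Conv4_phi
  simp only
  push_cast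
  field_simp
  ring

private theorem Conv4_pk_re (z : ℂ) : (pk z).re = (z.re ^ 2 - z.im ^ 2) / Complex.normSq z := by
  unfold pk
  rw [Complex.div_re, Complex.conj_re, Complex.conj_im]
  ring

private theorem Conv4_uf (p : ℤ × ℤ) : uf (√7) (Conv4_phi p) = -(pk (xx p)).re := by
  unfold uf
  rw [Conv4_Pf, Conv4_pk_re, Conv4_re, Conv4_im]
  by_cases hN : Complex.normSq (xx p) = 0
  · rw [hN]
    simp
  · unfold Conv4_phi
    simp only
    rw [← neg_div, div_eq_div_iff (by positivity) hN]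
    push_cast
    ring

private theorem Conv4_T1 (a b : ℂ) : T1k a b =
    ((2 * (starRingEnd ℂ a * b).im /
      (Complex.normSq a ^ 2 * Complex.normSq b * Complex.normSq (a + b)) : ℝ) : ℂ) * Complex.I := by
  have h1 : rho a b = ((2 * (starRingEnd ℂ a * b).im : ℝ) : ℂ) * Complex.I := by
    unfold rho
    have h2 : a * starRingEnd ℂ b = starRingEnd ℂ (starRingEnd ℂ a * b) := by
      rw [map_mul, Complex.conj_conj]
    rw [h2, Complex.sub_conj]
  unfold T1k NNk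
  rw [h1, Complex.mul_conj, Complex.mul_conj, Complex.mul_conj]
  push_cast
  rw [div_eq_mul_inv, div_eq_mul_inv, div_eq_mul_inv]
  simp only [mul_inv, pow_two]
  ring

private theorem Conv4_T1_im (a b : ℂ) : (T1k a b).im =
    2 * (starRingEnd ℂ a * b).im /
      (Complex.normSq a ^ 2 * Complex.normSq b * Complex.normSq (a + b)) := by
  rw [Conv4_T1, Complex.im_ofReal_mul, Complex.I_im, mul_one]

private theorem Conv4_H1_im (a b : ℂ) : (H1k a b).im =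
    2 * (starRingEnd ℂ a * b).im /
      (Complex.normSq a ^ 2 * Complex.normSq b * Complex.normSq (a + b))
      * (2 * (pk a).re + (pk b).re + (pk (a + b)).re) := by
  unfold H1k
  rw [Conv4_T1, mul_assoc, Complex.im_ofReal_mul]
  congr 1
  simp [Complex.add_re, Complex.mul_re]

private theorem Conv4_wom_bd : ∃ B : ℝ, ∀ q, |wom q| ≤ B := by
  refine ⟨1, fun q => ?_⟩
  unfold wom ap bp
  rw [Conv4_ev_val, Conv4_ev_val, Conv4_ev_val]
  split_ifs <;> norm_num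

private theorem Conv4_WS {k : ℂ → ℂ → ℂ} (hk : KerO k) :
    (WS wom k).im = ∑' q : (ℤ × ℤ) × (ℤ × ℤ), wom q * (k (xx q.1) (xx q.2)).im := by
  unfold WS
  rw [Complex.im_tsum (hk.summable_weight Conv4_wom_bd)]
  refine tsum_congr fun q => ?_
  rw [Complex.im_ofReal_mul]

theorem Aser_conv : Aser (√7) = -(49 / (128 * √7)) * (WS wom T1k).im := by
  have h7 : √7 ≠ 0 := by positivity
  rw [Conv4_WS KerO_T1k]
  unfold Aser
  have h4 : (√7 : ℝ) ^ 4 = 49 := by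
    rw [show (√7 : ℝ) ^ 4 = ((√7 : ℝ) ^ 2) ^ 2 by ring, Conv4_s7]; norm_num
  rw [h4]
  have h := Conv4_gen (fun q => (((q.1.1 : ℝ) * q.2.2 - (q.2.1 : ℝ) * q.1.2)
      / (Pf (√7) q.1 ^ 2 * Pf (√7) q.2 * Pf (√7) (q.1 + q.2))))
  have h' : (∑' q : (ℤ × ℤ) × (ℤ × ℤ),
    chi q.1.1 * chi q.1.2 * ev q.2.1 * ev q.2.2 * ((q.1.1 : ℝ) * q.2.2 - (q.2.1 : ℝ) * q.1.2)
      / (Pf (√7) q.1 ^ 2 * Pf (√7) q.2 * Pf (√7) (q.1 + q.2))) =
      ∑' q : (ℤ × ℤ) × (ℤ × ℤ), chi q.1.1 * chi q.1.2 * (ev q.2.1 * ev q.2.2) *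
        (((q.1.1 : ℝ) * q.2.2 - (q.2.1 : ℝ) * q.1.2)
      / (Pf (√7) q.1 ^ 2 * Pf (√7) q.2 * Pf (√7) (q.1 + q.2))) := by
    refine tsum_congr fun q => ?_
    ring
  rw [h', h, ← tsum_mul_left, ← tsum_mul_left]
  refine tsum_congr fun q => ?_
  have e1 := Conv4_det q.1 q.2
  have e2 := Conv4_Pf q.1
  have e3 := Conv4_Pf q.2
  have e4 := Conv4_Pf (q.1 + q.2)
  rw [← Conv4_phi_add] at e4
  rw [Conv4_T1_im, ← xx_add]
  unfold Conv4_Phi
  simp only
  rw [e1, e2, e3, e4]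
  rw [show ((4 * Complex.normSq (xx q.1)) ^ 2 * (4 * Complex.normSq (xx q.2))
    * (4 * Complex.normSq (xx (q.1 + q.2)))) = 256 * (Complex.normSq (xx q.1) ^ 2
      * Complex.normSq (xx q.2) * Complex.normSq (xx (q.1 + q.2))) by ring]
  rw [div_eq_mul_inv, div_eq_mul_inv, mul_inv]
  field_simp
  ring

theorem Bser_conv : Bser (√7) = -(49 / (128 * √7)) * (WS wom H1k).im := by
  have h7 : √7 ≠ 0 := by positivity
  rw [Conv4_WS KerO_H1k]
  unfold Bser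
  have h4 : (√7 : ℝ) ^ 4 = 49 := by
    rw [show (√7 : ℝ) ^ 4 = ((√7 : ℝ) ^ 2) ^ 2 by ring, Conv4_s7]; norm_num
  rw [h4]
  have h := Conv4_gen (fun q => (((q.1.1 : ℝ) * q.2.2 - (q.2.1 : ℝ) * q.1.2)
      * (2 * uf (√7) q.1 + uf (√7) q.2 + uf (√7) (q.1 + q.2))
      / (Pf (√7) q.1 ^ 2 * Pf (√7) q.2 * Pf (√7) (q.1 + q.2))))
  have h' : (∑' q : (ℤ × ℤ) × (ℤ × ℤ),
    chi q.1.1 * chi q.1.2 * ev q.2.1 * ev q.2.2 * ((q.1.1 : ℝ) * q.2.2 - (q.2.1 : ℝ) * q.1.2)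
      * (2 * uf (√7) q.1 + uf (√7) q.2 + uf (√7) (q.1 + q.2))
      / (Pf (√7) q.1 ^ 2 * Pf (√7) q.2 * Pf (√7) (q.1 + q.2))) =
      ∑' q : (ℤ × ℤ) × (ℤ × ℤ), chi q.1.1 * chi q.1.2 * (ev q.2.1 * ev q.2.2) *
        (((q.1.1 : ℝ) * q.2.2 - (q.2.1 : ℝ) * q.1.2)
      * (2 * uf (√7) q.1 + uf (√7) q.2 + uf (√7) (q.1 + q.2))
      / (Pf (√7) q.1 ^ 2 * Pf (√7) q.2 * Pf (√7) (q.1 + q.2))) := by
    refine tsum_congr fun q => ?_
    ring
  rw [h', h, ← tsum_mul_left, ← tsum_mul_left, ← tsum_neg]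
  refine tsum_congr fun q => ?_
  have e1 := Conv4_det q.1 q.2
  have e2 := Conv4_Pf q.1
  have e3 := Conv4_Pf q.2
  have e4 := Conv4_Pf (q.1 + q.2)
  have u2 := Conv4_uf q.1
  have u3 := Conv4_uf q.2
  have u4 := Conv4_uf (q.1 + q.2)
  rw [← Conv4_phi_add] at e4 u4
  rw [Conv4_H1_im, ← xx_add]
  unfold Conv4_Phi
  simp only
  rw [e1, e2, e3, e4, u2, u3, u4]
  rw [show ((4 * Complex.normSq (xx q.1)) ^ 2 * (4 * Complex.normSq (xx q.2))
    * (4 * Complex.normSq (xx (q.1 + q.2)))) = 256 * (Complex.normSq (xx q.1) ^ 2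
      * Complex.normSq (xx q.2) * Complex.normSq (xx (q.1 + q.2))) by ring]
  rw [div_eq_mul_inv, div_eq_mul_inv, mul_inv]
  field_simp
  ring

end MM7
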