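import Pool.Agent.MM7.Defs

/-!
# MM7, Part 3: definitions for the double lattice sum and its differential equation
-/

open Real MeasureTheory Set Filter Topology

namespace MM7

noncomputable section

/-- euclidean norm squared on `ℤ²` -/
def nn (p : ℤ × ℤ) : ℝ := (p.1 : ℝ) ^ 2 + (p.2 : ℝ) ^ 2

/-- `|p|⁻³` (zero at the origin) -/
def kk (p : ℤ × ℤ) : ℝ := 1 / Real.sqrt (nn p) ^ 3

/-- the majorant of all double lattice sums -/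
def KK (q : (ℤ × ℤ) × (ℤ × ℤ)) : ℝ := kk q.1 * (kk q.2 + kk (q.1 + q.2))

/-- the summand of `Aser`, including `y ^ 4` -/
def Aterm (q : (ℤ × ℤ) × (ℤ × ℤ)) (y : ℝ) : ℝ :=
  y ^ 4 * (chi q.1.1 * chi q.1.2 * ev q.2.1 * ev q.2.2
    * ((q.1.1 : ℝ) * q.2.2 - (q.2.1 : ℝ) * q.1.2)
      / (Pf y q.1 ^ 2 * Pf y q.2 * Pf y (q.1 + q.2)))

/-- the summand of `Bser` -/
def Bterm (q : (ℤ × ℤ) × (ℤ × ℤ)) (y : ℝ) : ℝ :=
  -(Aterm q y * (2 * uf y q.1 + uf y q.2 + uf y (q.1 + q.2)))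

/-- the summand of `(θ²-1) Aser`, `θ = y d/dy` -/
def Sterm (q : (ℤ × ℤ) × (ℤ × ℤ)) (y : ℝ) : ℝ :=
  Aterm q y * ((2 * uf y q.1 + uf y q.2 + uf y (q.1 + q.2)) ^ 2
    + 2 * uf y q.1 ^ 2 + uf y q.2 ^ 2 + uf y (q.1 + q.2) ^ 2 - 5)

/-- `(θ²-1) Aser` as a series -/
def Sser (y : ℝ) : ℝ := ∑' q : (ℤ × ℤ) × (ℤ × ℤ), Sterm q y

/-- weight of the first lattice point (odd, odd) -/
def Xw (p : ℤ × ℤ) : ℝ := chi p.1 * chi p.2

/-- weight of the second lattice point: even, even, nonzero -/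
def wt (p : ℤ × ℤ) : ℝ := if p = 0 then 0 else ev p.1 * ev p.2

end

end MM7
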