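import Pool.Agent.MM7.Defs3

open Real MeasureTheory Set Filter Topology

namespace MM7

noncomputable section

/-- `f` is an even kernel of degree `-2` on `ℂ` with real structure -/
structure Ker2 (f : ℂ → ℂ) : Prop where
  zero : f 0 = 0
  bound : ∃ C : ℝ, 0 ≤ C ∧ ∀ z w : ℂ, ‖f z - f w‖ ≤ C * ‖z + w‖ * (1 / ‖z‖ ^ 3 + 1 / ‖w‖ ^ 3)
  conj : ∀ z : ℂ, f (starRingEnd ℂ z) = starRingEnd ℂ (f z)

/-- `F` is an odd kernel of degree `-3` on `ℂ` -/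
structure Ker3 (F : ℂ → ℂ) : Prop where
  odd : ∀ z : ℂ, F (-z) = -F z
  bound : ∃ C : ℝ, 0 ≤ C ∧ ∀ z : ℂ, ‖F z‖ ≤ C * (1 / ‖z‖ ^ 3)

/-- the separated form of the source term, `a = λ₁`, `b = λ₂`, `a + b = -λ₃` -/
def Zk (a b : ℂ) : ℂ :=
  let a' := starRingEnd ℂ a
  let b' := starRingEnd ℂ b
  let s := a + b
  let s' := starRingEnd ℂ s
  3 / 2 * (1 / a ^ 4 * (1 / (s * s') - 1 / (b * b')))
    - 1 / 2 * (1 / (a ^ 2 * a' ^ 2) * (s' / s ^ 3 - b' / b ^ 3))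
    - (1 / (a ^ 3 * a') + 1 / (a * a' ^ 3)) * (1 / s ^ 2 - 1 / b ^ 2)
    - 1 / 2 * (1 / (a ^ 2 * a') * (1 / s ^ 3))
    - 1 / 2 * (1 / (a ^ 2 * a') * (1 / b ^ 3))
    + 1 / 2 * (1 / a ^ 3 * (1 / (b ^ 2 * b')))
    + 1 / 2 * (1 / a ^ 3 * (1 / (s ^ 2 * s')))
    - 1 / 2 * (1 / (b ^ 2 * b') * (1 / s ^ 3))
    + 1 / 2 * (1 / b ^ 3 * (1 / (s ^ 2 * s')))
    - 1 / 2 * (1 / (a * a' ^ 2) * (1 / (b ^ 2 * b')))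
    - 1 / 2 * (1 / (a * a' ^ 2) * (1 / (s ^ 2 * s')))
    - 1 / 2 * (1 / (b * b' ^ 2) * (1 / (s ^ 2 * s')))

end

end MM7
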