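import Pool.Agent.MM7.Defs3b

/-!
# MM7, Part 4: kernels on `O = ℤ[(1+√-7)/2]`, three points `a`, `b`, `-(a+b)`
-/

open Real MeasureTheory Set Filter Topology

namespace MM7

noncomputable section

/-- `2 i Im (conj a * b)` -/
def rho (a b : ℂ) : ℂ := starRingEnd ℂ a * b - a * starRingEnd ℂ b

/-- `1 / |x₁ x₂ x₃|²`, `x₁ = a`, `x₂ = b`, `x₃ = -(a+b)` -/
def NNk (a b : ℂ) : ℂ :=
  1 / ((a * starRingEnd ℂ a) * (b * starRingEnd ℂ b) * ((a + b) * starRingEnd ℂ (a + b)))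

def T1k (a b : ℂ) : ℂ := rho a b * NNk a b * (1 / (a * starRingEnd ℂ a))
def T2k (a b : ℂ) : ℂ := rho a b * NNk a b * (1 / (b * starRingEnd ℂ b))
def T3k (a b : ℂ) : ℂ := rho a b * NNk a b * (1 / ((a + b) * starRingEnd ℂ (a + b)))

/-- `conj z / z` -/
def pk (z : ℂ) : ℂ := starRingEnd ℂ z / z

def H1k (a b : ℂ) : ℂ := T1k a b * (2 * pk a + pk b + pk (a + b))
def H3k (a b : ℂ) : ℂ := T3k a b * (pk a + pk b + 2 * pk (a + b))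

/-- the other prime above 2 -/
def omb : ℂ := 1 - om

/-- first relation of weight (3,3) -/
def F33a (x y : ℂ) : ℂ :=
  NNk x (-(x - y)) + 2 * rt / 7 * (T1k x (-(x - y)) + T2k x (-(x - y)))
    + rt / 7 * T3k x (-(x - y))
    - 4 * rt / 7 * (T1k x (-(x - om * y)) + T3k x (-(x - om * y)))
    + 4 * rt / 7 * (T1k (x - y) (-(x - om * y)) + T3k (x - y) (-(x - om * y)))
    - 16 * rt / 7 * (T1k (omb * x) (om * (x - y)) + T2k (omb * x) (om * (x - y)))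

/-- second relation of weight (3,3) -/
def F33b (x y : ℂ) : ℂ :=
  NNk x (-(x - om * y)) + rt / 14 * (T1k x (-(x - y)) + T3k x (-(x - y)))
    - rt / 7 * T1k x (-(x - om * y))
    - 2 * rt / 7 * (T2k x (-(x - om * y)) + T3k x (-(x - om * y)))
    + 2 * rt / 7 * (T2k (x - y) (-(x - om * y)) + T3k (x - y) (-(x - om * y)))
    - 4 * rt / 7 * (T1k (omb * x) (om * (x - y)) + T3k (omb * x) (om * (x - y)))

/-- the relation of weight (4,2) -/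
def F42 (x y : ℂ) : ℂ :=
  H1k (omb * x) (om * (x - y)) + (3 - rt) / 32 * H1k x (-(x - y))
    + (-1 - rt) / 32 * H3k x (-(x - y))
    + (-3 + rt) / 16 * H1k x (-(x - om * y)) + (-5 - rt) / 16 * H3k x (-(x - om * y))
    + (-1 + rt) / 8 * H3k (x - y) (-(x - om * y))

/-- `|z|⁻⁴` -/
def n4 (z : ℂ) : ℂ := 1 / (z * starRingEnd ℂ z) ^ 2

/-- the separated part of the relation of weight (4,2), lines `x` and the others -/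
def SepA (x y : ℂ) : ℂ :=
  n4 x * (rt / 16 * (1 / (x - y) ^ 2) + (7 - rt) / 16 * (1 / (x - om * y) ^ 2)
    + (7 - rt) / 32 * (1 / y ^ 2))
def SepB (x y : ℂ) : ℂ :=
  n4 y * ((7 + 3 * rt) / 64 * (1 / x ^ 2) - rt / 16 * (1 / (x - y) ^ 2)
    + (-7 + rt) / 64 * (1 / (x - om * y) ^ 2))

/-- multiplication by `om` and `omb` on coordinates: `xx (mulPi p) = om * xx p` etc. -/
def mulPi (p : ℤ × ℤ) : ℤ × ℤ := (-2 * p.2, p.1 + p.2)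
def mulPb (p : ℤ × ℤ) : ℤ × ℤ := (p.1 + 2 * p.2, -p.1)

/-- indicators of divisibility by `om` resp. `omb` -/
def ap (p : ℤ × ℤ) : ℝ := ev p.1
def bp (p : ℤ × ℤ) : ℝ := ev (p.1 + p.2)

/-- a kernel on pairs with the integrable bound -/
structure KerO (k : ℂ → ℂ → ℂ) : Prop where
  bound : ∃ C : ℝ, 0 ≤ C ∧ ∀ a b : ℂ, ‖k a b‖ ≤ C * (1 / ‖a‖ ^ 3 * (1 / ‖b‖ ^ 3)
    + 1 / ‖a‖ ^ 3 * (1 / ‖a + b‖ ^ 3) + 1 / ‖b‖ ^ 3 * (1 / ‖a + b‖ ^ 3))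

/-- weighted sum over pairs of points of `O` -/
def WS (ω : (ℤ × ℤ) × (ℤ × ℤ) → ℝ) (k : ℂ → ℂ → ℂ) : ℂ :=
  ∑' q : (ℤ × ℤ) × (ℤ × ℤ), (ω q : ℂ) * k (xx q.1) (xx q.2)

def w1 : (ℤ × ℤ) × (ℤ × ℤ) → ℝ := fun _ => 1
def wa2 : (ℤ × ℤ) × (ℤ × ℤ) → ℝ := fun q => ap q.2
def wa3 : (ℤ × ℤ) × (ℤ × ℤ) → ℝ := fun q => ap (q.1 + q.2)
def wb3 : (ℤ × ℤ) × (ℤ × ℤ) → ℝ := fun q => bp (q.1 + q.2)
def wba : (ℤ × ℤ) × (ℤ × ℤ) → ℝ := fun q => bp q.1 * ap q.2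
/-- the weight of Part 3 in the coordinates of `O`: `χ₄(m₁)χ₄(n₁)` and `x₂ ∈ ℤ[√-7]` -/
def wom : (ℤ × ℤ) × (ℤ × ℤ) → ℝ := fun q => (ap q.1 - bp q.1) * ev q.2.2

/-- lattice `ℤ(1/2+iy)+ℤ`, for Zagier's identity -/
def lx (y : ℝ) (p : ℤ × ℤ) : ℂ := (p.1 : ℂ) * (1 / 2 + y * Complex.I) + p.2

/-- real version of the sum of `1/|x₁x₂x₃|²` over the lattice `ℤ(1/2+iy)+ℤ` -/
def n0y (y : ℝ) : ℝ := ∑' q : (ℤ × ℤ) × (ℤ × ℤ),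
  1 / (Complex.normSq (lx y q.1) * Complex.normSq (lx y q.2) * Complex.normSq (lx y (q.1 + q.2)))

def e33y (y : ℝ) : ℝ := ∑' p : ℤ × ℤ, 1 / Complex.normSq (lx y p) ^ 3

/-- real part of `Σ' λ⁻⁴ λ̄⁻²` -/
def e42y (y : ℝ) : ℝ := (∑' p : ℤ × ℤ, 1 / (lx y p ^ 4 * (starRingEnd ℂ (lx y p)) ^ 2)).re

end

end MM7
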