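import Pool.Agent.MM7.Summ
import Pool.Agent.MM7.Bound3

/-!
# MM7, Part 3, module DerA

Aser_eq: tsum_mul_left.  With P = m²y²+n²: y dP/dy = 2 m² y², so y d/dy Aterm q = Aterm q *
(4 - 4 m1²y²/P1 - 2 m2²y²/P2 - 2 m3²y²/P3) = -Aterm q * (2u1+u2+u3) = Bterm q (u = 2m²y²/P - 1,
when the P's are nonzero; when one of them is 0 the term is identically 0: P = 0 for one y>0 iff p = 0).
Termwise differentiation: hasDerivAt_tsum_of_isPreconnected on the open interval (y/2, 2y) with the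
majorant C * KK q (Aterm_bound, abs_uf_le, |derivative| = |Bterm|/y ≤ 4 |Aterm| / (y/2)).
-/

open Real MeasureTheory Set Filter Topology

namespace MM7

theorem Aser_eq (y : ℝ) : Aser y = ∑' q, Aterm q y := by
  rw [Aser, ← tsum_mul_left]
  rfl

private lemma derA_Pf_zero (y : ℝ) : Pf y 0 = 0 := by
  simp [Pf]

private lemma derA_Pf_ne {y : ℝ} (hy : 0 < y) {p : ℤ × ℤ} (hp : p ≠ 0) : Pf y p ≠ 0 := by
  intro h
  unfold Pf at h
  have e1 : 0 ≤ ((p.1 : ℝ)) ^ 2 * y ^ 2 := by positivity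
  have e2 : 0 ≤ ((p.2 : ℝ)) ^ 2 := by positivity
  have h1 : ((p.1 : ℝ)) ^ 2 * y ^ 2 = 0 := by linarith
  have h2 : ((p.2 : ℝ)) ^ 2 = 0 := by linarith
  have h3 : (p.1 : ℝ) = 0 := by
    rcases mul_eq_zero.1 h1 with h3 | h3
    · exact pow_eq_zero_iff two_ne_zero |>.1 h3
    · exact absurd (pow_eq_zero_iff two_ne_zero |>.1 h3) hy.ne'
  have h4 : (p.2 : ℝ) = 0 := pow_eq_zero_iff two_ne_zero |>.1 h2
  apply hp
  ext
  · exact_mod_cast h3
  · exact_mod_cast h4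

private lemma derA_Pf_deriv (p : ℤ × ℤ) (y : ℝ) :
    HasDerivAt (fun z => Pf z p) ((p.1 : ℝ) ^ 2 * (2 * y)) y := by
  unfold Pf
  have h1 : HasDerivAt (fun z : ℝ => z ^ 2) (2 * y) y := by
    simpa using hasDerivAt_pow 2 y
  exact (h1.const_mul ((p.1 : ℝ) ^ 2)).add_const _

private lemma derA_term {y : ℝ} (hy : 0 < y) (q : (ℤ × ℤ) × (ℤ × ℤ)) :
    HasDerivAt (Aterm q) (Bterm q y / y) y := by
  by_cases h0 : q.1 = 0 ∨ q.2 = 0 ∨ q.1 + q.2 = 0
  · have h1 : ∀ z, Aterm q z = 0 := by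
      intro z
      unfold Aterm
      rcases h0 with h | h | h
      · rw [h, derA_Pf_zero]
        simp
      · rw [h, derA_Pf_zero]
        simp
      · rw [h, derA_Pf_zero]
        simp
    have h2 : Aterm q = fun _ => 0 := funext h1
    have h3 : Bterm q y = 0 := by
      unfold Bterm
      rw [h1 y]
      simp
    rw [h3, h2, zero_div]
    exact hasDerivAt_const y 0
  · push Not at h0
    obtain ⟨ha, hb, hc⟩ := h0
    have hP1 := derA_Pf_ne hy ha
    have hP2 := derA_Pf_ne hy hb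
    have hP3 := derA_Pf_ne hy hc
    have d1 := derA_Pf_deriv q.1 y
    have d2 := derA_Pf_deriv q.2 y
    have d3 := derA_Pf_deriv (q.1 + q.2) y
    have hD : HasDerivAt (fun z => Pf z q.1 ^ 2 * Pf z q.2 * Pf z (q.1 + q.2))
        ((2 * Pf y q.1 * ((q.1.1 : ℝ) ^ 2 * (2 * y)) * Pf y q.2
          + Pf y q.1 ^ 2 * ((q.2.1 : ℝ) ^ 2 * (2 * y))) * Pf y (q.1 + q.2)
          + Pf y q.1 ^ 2 * Pf y q.2 * ((((q.1 + q.2).1 : ℤ) : ℝ) ^ 2 * (2 * y))) y := by
      have e1 : HasDerivAt (fun z => Pf z q.1 ^ 2)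
          (2 * Pf y q.1 * ((q.1.1 : ℝ) ^ 2 * (2 * y))) y := by
        have := d1.fun_pow 2
        simpa using this
      exact (e1.mul d2).mul d3
    have hDne : Pf y q.1 ^ 2 * Pf y q.2 * Pf y (q.1 + q.2) ≠ 0 :=
      mul_ne_zero (mul_ne_zero (pow_ne_zero 2 hP1) hP2) hP3
    have hy4 : HasDerivAt (fun z : ℝ => z ^ 4) (4 * y ^ 3) y := by
      simpa using hasDerivAt_pow 4 y
    have hdiv := (hasDerivAt_const y (chi q.1.1 * chi q.1.2 * ev q.2.1 * ev q.2.2
      * ((q.1.1 : ℝ) * q.2.2 - (q.2.1 : ℝ) * q.1.2))).fun_div hD hDne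
    have hmain := hy4.fun_mul hdiv
    refine HasDerivAt.congr_deriv (f := Aterm q) hmain ?_
    unfold Bterm Aterm uf
    set c := chi q.1.1 * chi q.1.2 * ev q.2.1 * ev q.2.2
      * ((q.1.1 : ℝ) * q.2.2 - (q.2.1 : ℝ) * q.1.2) with hc'
    have hyne := hy.ne'
    have k1 : (q.1.2 : ℝ) ^ 2 = Pf y q.1 - (q.1.1 : ℝ) ^ 2 * y ^ 2 := by unfold Pf; ring
    have k2 : (q.2.2 : ℝ) ^ 2 = Pf y q.2 - (q.2.1 : ℝ) ^ 2 * y ^ 2 := by unfold Pf; ring
    have k3 : (((q.1 + q.2).2 : ℤ) : ℝ) ^ 2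
        = Pf y (q.1 + q.2) - (((q.1 + q.2).1 : ℤ) : ℝ) ^ 2 * y ^ 2 := by unfold Pf; ring
    rw [k1, k2, k3]
    set P1 := Pf y q.1
    set P2 := Pf y q.2
    set P3 := Pf y (q.1 + q.2)
    set a := (q.1.1 : ℝ)
    set b := (q.2.1 : ℝ)
    set d := (((q.1 + q.2).1 : ℤ) : ℝ)
    field_simp
    ring

private lemma derA_Bterm_le (q : (ℤ × ℤ) × (ℤ × ℤ)) (y : ℝ) : |Bterm q y| ≤ 4 * |Aterm q y| := by
  unfold Bterm
  rw [abs_neg, abs_mul]
  have h1 := abs_le.1 (abs_uf_le y q.1)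
  have h2 := abs_le.1 (abs_uf_le y q.2)
  have h3 := abs_le.1 (abs_uf_le y (q.1 + q.2))
  have h4 : |2 * uf y q.1 + uf y q.2 + uf y (q.1 + q.2)| ≤ 4 := by
    rw [abs_le]
    constructor <;> linarith [h1.1, h1.2, h2.1, h2.2, h3.1, h3.2]
  nlinarith [abs_nonneg (Aterm q y)]

private lemma derA_Bser (y : ℝ) : ∑' q, Bterm q y = Bser y := by
  unfold Bser
  rw [← tsum_mul_left, ← tsum_neg]
  refine tsum_congr fun q => ?_
  unfold Bterm Aterm
  ring

theorem Aser_hasDerivAt {y : ℝ} (hy : 0 < y) : HasDerivAt Aser (Bser y / y) y := by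
  obtain ⟨C, hC, hb⟩ := Aterm_bound (a := y / 2) (b := 2 * y) (by positivity)
  have hmem : y ∈ Set.Ioo (y / 2) (2 * y) := ⟨by linarith, by linarith⟩
  have hKK : Summable fun q => 4 * (C * KK q) / (y / 2) := by
    have := (summable_KK.mul_left C).mul_left 4
    exact this.div_const _
  have hsum : Summable fun q => Aterm q y := by
    refine Summable.of_norm_bounded (summable_KK.mul_left C) fun q => ?_
    rw [Real.norm_eq_abs]
    exact hb y hmem q
  have h1 := hasDerivAt_tsum_of_isPreconnected (g := Aterm) (g' := fun q z => Bterm q z / z)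
    hKK isOpen_Ioo isPreconnected_Ioo
    (fun q z hz => derA_term (lt_trans (by positivity) hz.1) q)
    (fun q z hz => by
      have hz0 : 0 < z := lt_trans (by positivity) hz.1
      rw [Real.norm_eq_abs, abs_div, abs_of_pos hz0]
      have h2 : |Bterm q z| ≤ 4 * (C * KK q) :=
        (derA_Bterm_le q z).trans (mul_le_mul_of_nonneg_left (hb z hz q) (by norm_num))
      have h3 : 0 ≤ 4 * (C * KK q) := (abs_nonneg _).trans h2
      exact div_le_div₀ h3 h2 (by positivity) hz.1.le)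
    hmem hsum hmem
  have h2 : (fun z => ∑' q, Aterm q z) = Aser := by
    funext z
    exact (Aser_eq z).symm
  rw [h2] at h1
  have h3 : ∑' q, Bterm q y / y = Bser y / y := by
    rw [tsum_div_const, derA_Bser]
  rwa [h3] at h1

end MM7
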