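import Pool.Agent.MM7.DerA

/-!
# MM7, Part 3, module DerB

As DerA. y du/dy = 1 - u² (p ≠ 0), so y d/dy Bterm = Aterm * [(2u1+u2+u3)² - 2(1-u1²) - (1-u2²) - (1-u3²)]
 = Aterm * [(2u1+u2+u3)² + 2u1² + u2² + u3² - 4] = Sterm + Aterm.  Sum over q:
y Bser' = Sser + Aser. Same majorant.
-/

open Real MeasureTheory Set Filter Topology

namespace MM7

theorem Bser_eq (y : ℝ) : Bser y = ∑' q, Bterm q y := by
  unfold Bser
  rw [← tsum_mul_left, ← tsum_neg]
  refine tsum_congr fun q => ?_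
  unfold Bterm Aterm
  ring

private lemma derB_Pf_zero (y : ℝ) : Pf y 0 = 0 := by
  simp [Pf]

private lemma derB_Pf_ne {y : ℝ} (hy : 0 < y) {p : ℤ × ℤ} (hp : p ≠ 0) : Pf y p ≠ 0 :=
  fun h => hp ((Bound3_Pf_zero hy p).mp h)

private lemma derB_Pf_deriv (p : ℤ × ℤ) (y : ℝ) :
    HasDerivAt (fun z => Pf z p) ((p.1 : ℝ) ^ 2 * (2 * y)) y := by
  unfold Pf
  have h1 : HasDerivAt (fun z : ℝ => z ^ 2) (2 * y) y := by
    simpa using hasDerivAt_pow 2 y
  exact (h1.const_mul ((p.1 : ℝ) ^ 2)).add_const _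

private lemma derB_uf_deriv {y : ℝ} (hy : 0 < y) {p : ℤ × ℤ} (hp : p ≠ 0) :
    HasDerivAt (fun z => uf z p) ((1 - uf y p ^ 2) / y) y := by
  have hP := derB_Pf_ne hy hp
  have d := derB_Pf_deriv p y
  have h1 : HasDerivAt (fun z : ℝ => z ^ 2) (2 * y) y := by
    simpa using hasDerivAt_pow 2 y
  have hN : HasDerivAt (fun z : ℝ => (p.1 : ℝ) ^ 2 * z ^ 2 - (p.2 : ℝ) ^ 2)
      ((p.1 : ℝ) ^ 2 * (2 * y)) y := (h1.const_mul ((p.1 : ℝ) ^ 2)).sub_const _
  have hdiv := hN.fun_div d hP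
  refine HasDerivAt.congr_deriv (f := fun z => uf z p) hdiv ?_
  unfold uf
  have k1 : (p.2 : ℝ) ^ 2 = Pf y p - (p.1 : ℝ) ^ 2 * y ^ 2 := by unfold Pf; ring
  rw [k1]
  have hyne := hy.ne'
  set P := Pf y p
  set a := (p.1 : ℝ)
  field_simp
  ring

private lemma derB_A {y : ℝ} (hy : 0 < y) {q : (ℤ × ℤ) × (ℤ × ℤ)}
    (ha : q.1 ≠ 0) (hb : q.2 ≠ 0) (hc : q.1 + q.2 ≠ 0) :
    HasDerivAt (Aterm q) (Bterm q y / y) y := by
  have hP1 := derB_Pf_ne hy ha
  have hP2 := derB_Pf_ne hy hb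
  have hP3 := derB_Pf_ne hy hc
  have d1 := derB_Pf_deriv q.1 y
  have d2 := derB_Pf_deriv q.2 y
  have d3 := derB_Pf_deriv (q.1 + q.2) y
  have hD : HasDerivAt (fun z => Pf z q.1 ^ 2 * Pf z q.2 * Pf z (q.1 + q.2))
      ((2 * Pf y q.1 * ((q.1.1 : ℝ) ^ 2 * (2 * y)) * Pf y q.2
        + Pf y q.1 ^ 2 * ((q.2.1 : ℝ) ^ 2 * (2 * y))) * Pf y (q.1 + q.2)
        + Pf y q.1 ^ 2 * Pf y q.2 * ((((q.1 + q.2).1 : ℤ) : ℝ) ^ 2 * (2 * y))) y := by
    have e1 : HasDerivAt (fun z => Pf z q.1 ^ 2)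
        (2 * Pf y q.1 * ((q.1.1 : ℝ) ^ 2 * (2 * y))) y := by
      have := d1.fun_pow 2
      simpa using this
    exact (e1.mul d2).mul d3
  have hDne : Pf y q.1 ^ 2 * Pf y q.2 * Pf y (q.1 + q.2) ≠ 0 :=
    mul_ne_zero (mul_ne_zero (pow_ne_zero 2 hP1) hP2) hP3
  have hy4 : HasDerivAt (fun z : ℝ => z ^ 4) (4 * y ^ 3) y := by
    simpa using hasDerivAt_pow 4 y
  have hdiv := (hasDerivAt_const y (chi q.1.1 * chi q.1.2 * ev q.2.1 * ev q.2.2
    * ((q.1.1 : ℝ) * q.2.2 - (q.2.1 : ℝ) * q.1.2))).fun_div hD hDne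
  have hmain := hy4.fun_mul hdiv
  refine HasDerivAt.congr_deriv (f := Aterm q) hmain ?_
  unfold Bterm Aterm uf
  set c := chi q.1.1 * chi q.1.2 * ev q.2.1 * ev q.2.2
    * ((q.1.1 : ℝ) * q.2.2 - (q.2.1 : ℝ) * q.1.2) with hc'
  have hyne := hy.ne'
  have k1 : (q.1.2 : ℝ) ^ 2 = Pf y q.1 - (q.1.1 : ℝ) ^ 2 * y ^ 2 := by unfold Pf; ring
  have k2 : (q.2.2 : ℝ) ^ 2 = Pf y q.2 - (q.2.1 : ℝ) ^ 2 * y ^ 2 := by unfold Pf; ring
  have k3 : (((q.1 + q.2).2 : ℤ) : ℝ) ^ 2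
      = Pf y (q.1 + q.2) - (((q.1 + q.2).1 : ℤ) : ℝ) ^ 2 * y ^ 2 := by unfold Pf; ring
  rw [k1, k2, k3]
  set P1 := Pf y q.1
  set P2 := Pf y q.2
  set P3 := Pf y (q.1 + q.2)
  set a := (q.1.1 : ℝ)
  set b := (q.2.1 : ℝ)
  set d := (((q.1 + q.2).1 : ℤ) : ℝ)
  field_simp
  ring

private lemma derB_term {y : ℝ} (hy : 0 < y) (q : (ℤ × ℤ) × (ℤ × ℤ)) :
    HasDerivAt (Bterm q) ((Aterm q y + Sterm q y) / y) y := by
  by_cases h0 : q.1 = 0 ∨ q.2 = 0 ∨ q.1 + q.2 = 0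
  · have h1 : ∀ z, Aterm q z = 0 := by
      intro z
      unfold Aterm
      rcases h0 with h | h | h
      · rw [h, derB_Pf_zero]
        simp
      · rw [h, derB_Pf_zero]
        simp
      · rw [h, derB_Pf_zero]
        simp
    have h2 : Bterm q = fun _ => 0 := by
      funext z
      unfold Bterm
      rw [h1 z]
      simp
    have h3 : Sterm q y = 0 := by
      unfold Sterm
      rw [h1 y]
      simp
    rw [h3, h1 y, h2, add_zero, zero_div]
    exact hasDerivAt_const y 0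
  · push Not at h0
    obtain ⟨ha, hb, hc⟩ := h0
    have dA := derB_A hy ha hb hc
    have u1 := derB_uf_deriv hy ha
    have u2 := derB_uf_deriv hy hb
    have u3 := derB_uf_deriv hy hc
    have hU : HasDerivAt (fun z => 2 * uf z q.1 + uf z q.2 + uf z (q.1 + q.2))
        (2 * ((1 - uf y q.1 ^ 2) / y) + (1 - uf y q.2 ^ 2) / y
          + (1 - uf y (q.1 + q.2) ^ 2) / y) y := ((u1.const_mul 2).add u2).add u3
    have hm := (dA.fun_mul hU).fun_neg
    refine HasDerivAt.congr_deriv (f := Bterm q) hm ?_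
    unfold Sterm Bterm
    set A := Aterm q y
    set v1 := uf y q.1
    set v2 := uf y q.2
    set v3 := uf y (q.1 + q.2)
    have hyne := hy.ne'
    field_simp
    ring

private lemma derB_sq (y : ℝ) (p : ℤ × ℤ) : uf y p ^ 2 ≤ 1 := by
  have h := abs_uf_le y p
  rw [← sq_abs]
  have h0 := abs_nonneg (uf y p)
  nlinarith

private lemma derB_Sterm_le (q : (ℤ × ℤ) × (ℤ × ℤ)) (y : ℝ) : |Sterm q y| ≤ 20 * |Aterm q y| := by
  unfold Sterm
  rw [abs_mul]
  have h1 := abs_le.1 (abs_uf_le y q.1)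
  have h2 := abs_le.1 (abs_uf_le y q.2)
  have h3 := abs_le.1 (abs_uf_le y (q.1 + q.2))
  have s1 := derB_sq y q.1
  have s2 := derB_sq y q.2
  have s3 := derB_sq y (q.1 + q.2)
  have t1 := sq_nonneg (uf y q.1)
  have t2 := sq_nonneg (uf y q.2)
  have t3 := sq_nonneg (uf y (q.1 + q.2))
  have hU : (2 * uf y q.1 + uf y q.2 + uf y (q.1 + q.2)) ^ 2 ≤ 16 := by
    have e1 : -4 ≤ 2 * uf y q.1 + uf y q.2 + uf y (q.1 + q.2) := by
      linarith [h1.1, h2.1, h3.1]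
    have e2 : 2 * uf y q.1 + uf y q.2 + uf y (q.1 + q.2) ≤ 4 := by
      linarith [h1.2, h2.2, h3.2]
    nlinarith
  have hU0 := sq_nonneg (2 * uf y q.1 + uf y q.2 + uf y (q.1 + q.2))
  have h4 : |(2 * uf y q.1 + uf y q.2 + uf y (q.1 + q.2)) ^ 2
      + 2 * uf y q.1 ^ 2 + uf y q.2 ^ 2 + uf y (q.1 + q.2) ^ 2 - 5| ≤ 20 := by
    rw [abs_le]
    constructor <;> linarith
  calc |Aterm q y| * |(2 * uf y q.1 + uf y q.2 + uf y (q.1 + q.2)) ^ 2
      + 2 * uf y q.1 ^ 2 + uf y q.2 ^ 2 + uf y (q.1 + q.2) ^ 2 - 5|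
      ≤ |Aterm q y| * 20 := mul_le_mul_of_nonneg_left h4 (abs_nonneg _)
    _ = 20 * |Aterm q y| := mul_comm _ _

private lemma derB_Bterm_le (q : (ℤ × ℤ) × (ℤ × ℤ)) (y : ℝ) : |Bterm q y| ≤ 4 * |Aterm q y| := by
  unfold Bterm
  rw [abs_neg, abs_mul]
  have h1 := abs_le.1 (abs_uf_le y q.1)
  have h2 := abs_le.1 (abs_uf_le y q.2)
  have h3 := abs_le.1 (abs_uf_le y (q.1 + q.2))
  have h4 : |2 * uf y q.1 + uf y q.2 + uf y (q.1 + q.2)| ≤ 4 := by
    rw [abs_le]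
    constructor <;> linarith [h1.1, h1.2, h2.1, h2.2, h3.1, h3.2]
  nlinarith [abs_nonneg (Aterm q y)]

theorem Bser_hasDerivAt {y : ℝ} (hy : 0 < y) : HasDerivAt Bser ((Aser y + Sser y) / y) y := by
  obtain ⟨C, hC, hb⟩ := Aterm_bound (a := y / 2) (b := 2 * y) (by positivity)
  have hmem : y ∈ Set.Ioo (y / 2) (2 * y) := ⟨by linarith, by linarith⟩
  have hKK : Summable fun q => 21 * (C * KK q) / (y / 2) := by
    have := (summable_KK.mul_left C).mul_left 21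
    exact this.div_const _
  have hsumA : Summable fun q => Aterm q y := by
    refine Summable.of_norm_bounded (summable_KK.mul_left C) fun q => ?_
    rw [Real.norm_eq_abs]
    exact hb y hmem q
  have hsumS : Summable fun q => Sterm q y := by
    refine Summable.of_norm_bounded ((summable_KK.mul_left C).mul_left 20) fun q => ?_
    rw [Real.norm_eq_abs]
    exact (derB_Sterm_le q y).trans (mul_le_mul_of_nonneg_left (hb y hmem q) (by norm_num))
  have hsum : Summable fun q => Bterm q y := by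
    refine Summable.of_norm_bounded ((summable_KK.mul_left C).mul_left 4) fun q => ?_
    rw [Real.norm_eq_abs]
    exact (derB_Bterm_le q y).trans (mul_le_mul_of_nonneg_left (hb y hmem q) (by norm_num))
  have h1 := hasDerivAt_tsum_of_isPreconnected (g := Bterm)
    (g' := fun q z => (Aterm q z + Sterm q z) / z)
    hKK isOpen_Ioo isPreconnected_Ioo
    (fun q z hz => derB_term (lt_trans (by positivity) hz.1) q)
    (fun q z hz => by
      have hz0 : 0 < z := lt_trans (by positivity) hz.1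
      rw [Real.norm_eq_abs, abs_div, abs_of_pos hz0]
      have h2 : |Aterm q z + Sterm q z| ≤ 21 * (C * KK q) := by
        have e1 := abs_add_le (Aterm q z) (Sterm q z)
        have e2 := derB_Sterm_le q z
        have e3 := hb z hz q
        linarith
      have h3 : 0 ≤ 21 * (C * KK q) := (abs_nonneg _).trans h2
      exact div_le_div₀ h3 h2 (by positivity) hz.1.le)
    hmem hsum hmem
  have h2 : (fun z => ∑' q, Bterm q z) = Bser := by
    funext z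
    exact (Bser_eq z).symm
  rw [h2] at h1
  have h3 : ∑' q, (Aterm q y + Sterm q y) / y = (Aser y + Sser y) / y := by
    rw [tsum_div_const, hsumA.tsum_add hsumS, ← Aser_eq]
    rfl
  rwa [h3] at h1

end MM7
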