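import Pool.Agent.MM7.Summ
import Pool.Agent.MM7.Bound3

/-!
# MM7, Part 3, module DiffSum

Fubini over q.2 for fixed q.1: the double sum is absolutely convergent since
|K(λ1)| |f(λ1+λ2) - f(λ2)| ≤ C |λ1|^-4 * |λ1| (|λ1+λ2|^-3 + |λ2|^-3)  (Ker2.bound with z = λ1+λ2, w = -λ2, f even)
≤ C' KK q.  The inner sum over q.2 is Xw p * K(λ p) * (-(c + f(λ p))) for odd-odd p by hc, and both sides are 0 if
p is not odd-odd (Xw p = 0).  HasSum.prod_fiberwise / Summable.hasSum.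
-/

open Real MeasureTheory Set Filter Topology

namespace MM7

private theorem DiffSum_chi (n : ℤ) : |chi n| ≤ 1 := by
  unfold chi
  rw [ZMod.χ₄_int_eq_if_mod_four]
  split_ifs <;> simp

private theorem DiffSum_chi_even {n : ℤ} (h : ¬ Odd n) : chi n = 0 := by
  unfold chi
  rw [ZMod.χ₄_int_eq_if_mod_four]
  rw [Int.not_odd_iff_even, Int.even_iff] at h
  simp [h]

private theorem DiffSum_Xw (p : ℤ × ℤ) : |Xw p| ≤ 1 := by
  unfold Xw
  rw [abs_mul]
  exact mul_le_one₀ (DiffSum_chi _) (abs_nonneg _) (DiffSum_chi _)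

private theorem DiffSum_wt (p : ℤ × ℤ) : |wt p| ≤ 1 := by
  unfold wt ev
  split_ifs <;> simp

private theorem DiffSum_even {f : ℂ → ℂ} (hf : Ker2 f) (z : ℂ) : f (-z) = f z := by
  obtain ⟨C, hC, h⟩ := hf.bound
  have h1 := h (-z) z
  rw [neg_add_cancel, norm_zero, mul_zero, zero_mul] at h1
  exact sub_eq_zero.1 (norm_le_zero_iff.1 h1)

private theorem DiffSum_kk (p : ℤ × ℤ) : 0 ≤ kk p := by
  unfold kk
  positivity

theorem diff_sum {f K : ℂ → ℂ} {y : ℝ} (hy : 0 < y) (hf : Ker2 f)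
    (hK : ∃ C : ℝ, 0 ≤ C ∧ ∀ z, ‖K z‖ ≤ C * (1 / ‖z‖ ^ 4)) {c : ℝ}
    (hc : ∀ p : ℤ × ℤ, Odd p.1 → Odd p.2 →
      HasSum (fun r : ℤ × ℤ => (wt r : ℂ) * (f (lam y (p + r)) - f (lam y r)))
        (-((c : ℂ) + f (lam y p)))) :
    HasSum (fun q : (ℤ × ℤ) × (ℤ × ℤ) => ((Xw q.1 * wt q.2 : ℝ) : ℂ) *
        (K (lam y q.1) * (f (lam y q.1 + lam y q.2) - f (lam y q.2))))
      (-(∑' p : ℤ × ℤ, (Xw p : ℂ) * (K (lam y p) * ((c : ℂ) + f (lam y p))))) := by
  obtain ⟨C1, hC1, hb⟩ := hf.bound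
  obtain ⟨C2, hC2, hK⟩ := hK
  obtain ⟨C3, hC3, hl⟩ := lam_kk hy
  have hbound : ∀ q : (ℤ × ℤ) × (ℤ × ℤ), ‖((Xw q.1 * wt q.2 : ℝ) : ℂ) *
      (K (lam y q.1) * (f (lam y q.1 + lam y q.2) - f (lam y q.2)))‖ ≤
      (C2 * C1 * C3 ^ 2) * KK q := by
    intro q
    have h1 : ‖((Xw q.1 * wt q.2 : ℝ) : ℂ)‖ ≤ 1 := by
      rw [Complex.norm_real, Real.norm_eq_abs, abs_mul]
      exact mul_le_one₀ (DiffSum_Xw _) (abs_nonneg _) (DiffSum_wt _)
    have h2 : ‖f (lam y q.1 + lam y q.2) - f (lam y q.2)‖ ≤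
        C1 * ‖lam y q.1‖ * (C3 * kk (q.1 + q.2) + C3 * kk q.2) := by
      have h3 := hb (lam y q.1 + lam y q.2) (-lam y q.2)
      rw [DiffSum_even hf, norm_neg, add_neg_cancel_right, ← lam_add] at h3
      rw [← lam_add]
      refine h3.trans ?_
      exact mul_le_mul_of_nonneg_left (add_le_add (hl _) (hl _)) (by positivity)
    have h4 := hK (lam y q.1)
    have h5 : 0 ≤ C3 * kk (q.1 + q.2) + C3 * kk q.2 := by
      have := DiffSum_kk (q.1 + q.2)
      have := DiffSum_kk q.2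
      positivity
    have h6 : 1 / ‖lam y q.1‖ ^ 4 * ‖lam y q.1‖ = 1 / ‖lam y q.1‖ ^ 3 := by
      by_cases h0 : ‖lam y q.1‖ = 0
      · rw [h0]; norm_num
      · field_simp
    rw [norm_mul, norm_mul]
    calc ‖((Xw q.1 * wt q.2 : ℝ) : ℂ)‖ *
          (‖K (lam y q.1)‖ * ‖f (lam y q.1 + lam y q.2) - f (lam y q.2)‖)
        ≤ 1 * ((C2 * (1 / ‖lam y q.1‖ ^ 4)) *
            (C1 * ‖lam y q.1‖ * (C3 * kk (q.1 + q.2) + C3 * kk q.2))) := by
          refine mul_le_mul h1 ?_ (by positivity) zero_le_one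
          exact mul_le_mul h4 h2 (norm_nonneg _) (by positivity)
      _ = C2 * C1 * (1 / ‖lam y q.1‖ ^ 4 * ‖lam y q.1‖) *
            (C3 * kk (q.1 + q.2) + C3 * kk q.2) := by ring
      _ = C2 * C1 * (1 / ‖lam y q.1‖ ^ 3) * (C3 * kk (q.1 + q.2) + C3 * kk q.2) := by rw [h6]
      _ ≤ C2 * C1 * (C3 * kk q.1) * (C3 * kk (q.1 + q.2) + C3 * kk q.2) := by
          refine mul_le_mul_of_nonneg_right ?_ h5
          exact mul_le_mul_of_nonneg_left (hl _) (by positivity)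
      _ = (C2 * C1 * C3 ^ 2) * KK q := by unfold KK; ring
  have hs : Summable (fun q : (ℤ × ℤ) × (ℤ × ℤ) => ((Xw q.1 * wt q.2 : ℝ) : ℂ) *
      (K (lam y q.1) * (f (lam y q.1 + lam y q.2) - f (lam y q.2)))) :=
    Summable.of_norm_bounded (summable_KK.mul_left _) hbound
  have hin : ∀ p : ℤ × ℤ, HasSum (fun r : ℤ × ℤ => ((Xw p * wt r : ℝ) : ℂ) *
      (K (lam y p) * (f (lam y p + lam y r) - f (lam y r))))
      (-((Xw p : ℂ) * (K (lam y p) * ((c : ℂ) + f (lam y p))))) := by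
    intro p
    by_cases h : Odd p.1 ∧ Odd p.2
    · have h1 := (hc p h.1 h.2).mul_left ((Xw p : ℂ) * K (lam y p))
      have e1 : (fun r : ℤ × ℤ => ((Xw p * wt r : ℝ) : ℂ) *
          (K (lam y p) * (f (lam y p + lam y r) - f (lam y r)))) =
          fun r : ℤ × ℤ => (Xw p : ℂ) * K (lam y p) *
            ((wt r : ℂ) * (f (lam y (p + r)) - f (lam y r))) := by
        funext r
        rw [lam_add]
        push_cast
        ring
      have e2 : -((Xw p : ℂ) * (K (lam y p) * ((c : ℂ) + f (lam y p)))) =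
          (Xw p : ℂ) * K (lam y p) * (-((c : ℂ) + f (lam y p))) := by ring
      rw [e1, e2]
      exact h1
    · have h0 : Xw p = 0 := by
        unfold Xw
        rcases not_and_or.1 h with h | h
        · rw [DiffSum_chi_even h, zero_mul]
        · rw [DiffSum_chi_even h, mul_zero]
      simp only [h0]
      simp
  have h2 := hs.hasSum.prod_fiberwise hin
  have h3 := h2.tsum_eq
  rw [tsum_neg] at h3
  rw [h3]
  exact hs.hasSum

end MM7
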