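import Pool.Agent.MM7.Comps
import Pool.Agent.MM7.Sym33
import Pool.Agent.MM7.Sym42

/-!
# MM7, Part 4, module Indic

Let k = T1k (c = 1/8) or k = H1k (c = om-multiple factor, see below). Properties: k(a,-(a+b)) = -k(a,b);
k(conj a, conj b) = conj k(a,b) (both kernels are rational functions with real coefficients of a,b,conj a,conj b);
k(omb a, omb b) = c k(a,b) with c = 1/8 for T1k and c = omb⁻⁴ om⁻² = (-3+rt)/32 for H1k.
Indicators ai = ap(q.i), bi = bp(q.i) (q.3 = -(q.1+q.2)); a1+a2+a3 = 1+2a0, a0 = ai aj for i≠j; same for b.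
[q.2.2 even] = a2 b2 + (1-a2)(1-b2) (xx q.2 in ℤ[√-7] iff divisible by both or by none of om, omb).
Pointwise identity of weights:
 wom = (a1-b1)(1-a2-b2+2a2b2) = a1 b3 - a3 b1 + a0(b1+b2-b3) - b0(a1+a2-a3).
Then, by the antisymmetry 2<->3: Σ a0 b1 k = 0 = Σ b0 a1 k, Σ a0(b2-b3)k = 2Σ a0 b2 k, Σ b0 (a2-a3) k = 2 Σ b0 a2 k,
Σ a1 b3 k = -Σ a1 b2 k, Σ a3 b1 k = -Σ a2 b1 k.  So Σ wom k = 2Σ a0b2 k - 2Σ b0a2 k - Σ a1b2 k + Σ a2 b1 k.
Conjugation exchanges a and b: Σ a0 b2 k = conj Σ b0 a2 k, Σ a1 b2 k = conj Σ b1 a2 k.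
Σ b0 a2 k = c Σ a2 k (q = mulPb r, ap (mulPb r) = ap r).
With R = WS wba k = Σ b1 a2 k, Q = WS wa2 k: Σ wom k = (R - conj R) - 2 (c Q - conj (c Q)), so
 Im Σ wom k = 2 Im (R - 2 c Q). (2c = 1/4 resp. (-3+rt)/16.)
-/

open Real MeasureTheory Set Filter Topology

namespace MM7

/-- the exchange of the second and third point -/
def Indic_s (q : (ℤ × ℤ) × (ℤ × ℤ)) : (ℤ × ℤ) × (ℤ × ℤ) := (q.1, -(q.1 + q.2))

/-- complex conjugation on coordinates -/
def Indic_c (p : ℤ × ℤ) : ℤ × ℤ := (p.1 + p.2, -p.2)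

/-- complex conjugation on pairs -/
def Indic_t (q : (ℤ × ℤ) × (ℤ × ℤ)) : (ℤ × ℤ) × (ℤ × ℤ) := (Indic_c q.1, Indic_c q.2)

theorem Indic_s_s (q : (ℤ × ℤ) × (ℤ × ℤ)) : Indic_s (Indic_s q) = q := by
  obtain ⟨⟨a, b⟩, ⟨c, d⟩⟩ := q
  unfold Indic_s
  ext <;> simp

theorem Indic_c_c (p : ℤ × ℤ) : Indic_c (Indic_c p) = p := by
  obtain ⟨a, b⟩ := p
  unfold Indic_c
  ext <;> simp

theorem Indic_t_t (q : (ℤ × ℤ) × (ℤ × ℤ)) : Indic_t (Indic_t q) = q := by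
  unfold Indic_t
  rw [Indic_c_c, Indic_c_c]

/-- `Indic_s` as an equivalence -/
def Indic_es : (ℤ × ℤ) × (ℤ × ℤ) ≃ (ℤ × ℤ) × (ℤ × ℤ) where
  toFun := Indic_s
  invFun := Indic_s
  left_inv := Indic_s_s
  right_inv := Indic_s_s

/-- `Indic_t` as an equivalence -/
def Indic_et : (ℤ × ℤ) × (ℤ × ℤ) ≃ (ℤ × ℤ) × (ℤ × ℤ) where
  toFun := Indic_t
  invFun := Indic_t
  left_inv := Indic_t_t
  right_inv := Indic_t_t

theorem Indic_anti {k : ℂ → ℂ → ℂ} (hk : ∀ a b, k a (-(a + b)) = -k a b)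
    (ω : (ℤ × ℤ) × (ℤ × ℤ) → ℝ) : WS ω k = -WS (fun q => ω (Indic_s q)) k := by
  unfold WS
  rw [← Indic_es.tsum_eq (fun q : (ℤ × ℤ) × (ℤ × ℤ) => (ω q : ℂ) * k (xx q.1) (xx q.2)),
    ← tsum_neg]
  refine tsum_congr fun q => ?_
  change (ω (Indic_s q) : ℂ) * k (xx q.1) (xx (-(q.1 + q.2))) = _
  rw [xx_neg, xx_add, hk]
  ring

theorem Indic_zero {k : ℂ → ℂ → ℂ} (hk : ∀ a b, k a (-(a + b)) = -k a b)
    {ω : (ℤ × ℤ) × (ℤ × ℤ) → ℝ} (hω : ∀ q, ω (Indic_s q) = ω q) : WS ω k = 0 := by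
  have h := Indic_anti hk ω
  have h2 : (fun q => ω (Indic_s q)) = ω := funext hω
  rw [h2] at h
  exact self_eq_neg.mp h

theorem Indic_conj {k : ℂ → ℂ → ℂ}
    (hk : ∀ a b, k (starRingEnd ℂ a) (starRingEnd ℂ b) = starRingEnd ℂ (k a b))
    (ω : (ℤ × ℤ) × (ℤ × ℤ) → ℝ) :
    WS (fun q => ω (Indic_t q)) k = starRingEnd ℂ (WS ω k) := by
  unfold WS
  rw [Complex.conj_tsum, ← Indic_et.tsum_eq]
  refine tsum_congr fun q => ?_
  change (ω (Indic_t (Indic_t q)) : ℂ) * k (xx (Indic_c q.1)) (xx (Indic_c q.2)) = _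
  rw [Indic_t_t, map_mul, Complex.conj_ofReal, ← hk, xx_conj, xx_conj]
  rfl

theorem Indic_abs_ev (n : ℤ) : |ev n| ≤ 1 := Comps_ev_abs n

theorem Indic_sum {k : ℂ → ℂ → ℂ} (hk : KerO k) {ω : (ℤ × ℤ) × (ℤ × ℤ) → ℝ}
    (hω : ∃ B : ℝ, ∀ q, |ω q| ≤ B) :
    HasSum (fun q : (ℤ × ℤ) × (ℤ × ℤ) => (ω q : ℂ) * k (xx q.1) (xx q.2)) (WS ω k) :=
  (hk.summable_weight hω).hasSum

/-- the weight of both primes -/
def Indic_w0 : (ℤ × ℤ) × (ℤ × ℤ) → ℝ := fun q => bp q.1 * bp q.2 * ap q.2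

/-- the weight `b1 a2 - 2 b0 a2` -/
def Indic_eta : (ℤ × ℤ) × (ℤ × ℤ) → ℝ := fun q => wba q - 2 * Indic_w0 q

/-- the invariant part of the weight -/
def Indic_D : (ℤ × ℤ) × (ℤ × ℤ) → ℝ := fun q => wom q - (Indic_eta q - Indic_eta (Indic_t q))

theorem Indic_wba_abs (q : (ℤ × ℤ) × (ℤ × ℤ)) : |wba q| ≤ 1 := by
  unfold wba bp ap
  rw [abs_mul]
  exact mul_le_one₀ (Comps_ev_abs _) (abs_nonneg _) (Comps_ev_abs _)

theorem Indic_w0_abs (q : (ℤ × ℤ) × (ℤ × ℤ)) : |Indic_w0 q| ≤ 1 := by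
  unfold Indic_w0 bp ap
  rw [abs_mul, abs_mul]
  exact mul_le_one₀ (mul_le_one₀ (Comps_ev_abs _) (abs_nonneg _) (Comps_ev_abs _))
    (abs_nonneg _) (Comps_ev_abs _)

theorem Indic_eta_abs (q : (ℤ × ℤ) × (ℤ × ℤ)) : |Indic_eta q| ≤ 3 := by
  have h1 := abs_le.mp (Indic_wba_abs q)
  have h2 := abs_le.mp (Indic_w0_abs q)
  unfold Indic_eta
  rw [abs_le]
  constructor <;> linarith [h1.1, h1.2, h2.1, h2.2]

theorem Indic_wom_abs (q : (ℤ × ℤ) × (ℤ × ℤ)) : |wom q| ≤ 2 := by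
  unfold wom bp ap
  rw [abs_mul]
  have h1 : |ev q.1.1 - ev (q.1.1 + q.1.2)| ≤ 2 := by
    have h1 := abs_le.mp (Comps_ev_abs q.1.1)
    have h2 := abs_le.mp (Comps_ev_abs (q.1.1 + q.1.2))
    rw [abs_le]
    constructor <;> linarith [h1.1, h1.2, h2.1, h2.2]
  have h2 := Comps_ev_abs q.2.2
  have h3 := mul_le_mul h1 h2 (abs_nonneg _) (by norm_num)
  linarith

theorem Indic_D_abs (q : (ℤ × ℤ) × (ℤ × ℤ)) : |Indic_D q| ≤ 8 := by
  have h1 := abs_le.mp (Indic_wom_abs q)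
  have h2 := abs_le.mp (Indic_eta_abs q)
  have h3 := abs_le.mp (Indic_eta_abs (Indic_t q))
  unfold Indic_D
  rw [abs_le]
  constructor <;> linarith [h1.1, h1.2, h2.1, h2.2, h3.1, h3.2]

theorem Indic_D_inv (q : (ℤ × ℤ) × (ℤ × ℤ)) : Indic_D (Indic_s q) = Indic_D q := by
  obtain ⟨⟨a, b⟩, ⟨c, d⟩⟩ := q
  unfold Indic_D Indic_eta wom wba Indic_w0 ap bp Indic_t Indic_c Indic_s ev
  simp only [Prod.fst_add, Prod.snd_add, Prod.fst_neg, Prod.snd_neg, Int.even_add, even_neg]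
  by_cases ha : Even a <;> by_cases hb : Even b <;> by_cases hc : Even c <;>
    by_cases hd : Even d <;> simp [ha, hb, hc, hd] <;> norm_num

theorem Indic_w0_sum {k : ℂ → ℂ → ℂ} {c : ℂ} (hk : KerO k)
    (hc : ∀ a b, k (omb * a) (omb * b) = c * k a b) : WS Indic_w0 k = c * WS wa2 k := by
  have h1 : HasSum (fun q : (ℤ × ℤ) × (ℤ × ℤ) => (Indic_w0 q : ℂ) * k (xx q.1) (xx q.2))
      (WS Indic_w0 k) := Indic_sum hk ⟨1, Indic_w0_abs⟩
  have h2 : HasSum (fun q : (ℤ × ℤ) × (ℤ × ℤ) => (wa2 q : ℂ) * k (xx q.1) (xx q.2))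
      (WS wa2 k) := Indic_sum hk ⟨1, fun q => Comps_ev_abs _⟩
  have hj : Function.Injective
      (fun v : (ℤ × ℤ) × (ℤ × ℤ) => ((mulPb v.1, mulPb v.2) : (ℤ × ℤ) × (ℤ × ℤ))) := by
    rintro ⟨a, b⟩ ⟨c, d⟩ h
    simp only [Prod.mk.injEq] at h
    rw [mulPb_injective h.1, mulPb_injective h.2]
  have h3 := (hj.hasSum_iff (f := fun q : (ℤ × ℤ) × (ℤ × ℤ) =>
    (Indic_w0 q : ℂ) * k (xx q.1) (xx q.2)) (a := WS Indic_w0 k) (by
      intro q hq
      by_contra hne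
      have hw : Indic_w0 q ≠ 0 := by
        intro h0
        exact hne (by simp [h0])
      have ha : Even (q.1.1 + q.1.2) := by
        by_contra ha
        exact hw (by simp [Indic_w0, bp, Comps_ev_zero ha])
      have hb : Even (q.2.1 + q.2.2) := by
        by_contra hb
        exact hw (by simp [Indic_w0, bp, Comps_ev_zero hb])
      obtain ⟨r, hr⟩ := (mem_range_mulPb _).mpr ha
      obtain ⟨s, hs⟩ := (mem_range_mulPb _).mpr hb
      exact hq ⟨(r, s), by simp only [hr, hs]⟩)).mpr h1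
  have h4 : ((fun q : (ℤ × ℤ) × (ℤ × ℤ) => (Indic_w0 q : ℂ) * k (xx q.1) (xx q.2)) ∘
      (fun v : (ℤ × ℤ) × (ℤ × ℤ) => ((mulPb v.1, mulPb v.2) : (ℤ × ℤ) × (ℤ × ℤ))))
      = fun v => c * ((wa2 v : ℂ) * k (xx v.1) (xx v.2)) := by
    funext v
    have hw : Indic_w0 (mulPb v.1, mulPb v.2) = wa2 v := by
      have e1 : Even (v.2.1 + 2 * v.2.2) ↔ Even v.2.1 := by
        simp [Int.even_add]
      have e2 : ap (mulPb v.2) = ap v.2 := by
        unfold ap mulPb ev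
        simp only [e1]
      simp only [Indic_w0, wa2, bp, Comps_ev_one (Comps_even_mulPb _), e2, one_mul]
    simp only [Function.comp, hw, xx_mulPb, hc]
    ring
  rw [h4] at h3
  exact h3.unique (h2.mul_left c)

theorem Indic_main {k : ℂ → ℂ → ℂ} {c : ℂ} (hk : KerO k)
    (ha : ∀ a b, k a (-(a + b)) = -k a b)
    (hj : ∀ a b, k (starRingEnd ℂ a) (starRingEnd ℂ b) = starRingEnd ℂ (k a b))
    (hc : ∀ a b, k (omb * a) (omb * b) = c * k a b) :
    (WS wom k).im = 2 * (WS wba k - 2 * c * WS wa2 k).im := by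
  have e1 : WS Indic_eta k = WS wba k - 2 * c * WS wa2 k := by
    have h1 := Indic_sum hk (ω := wba) ⟨1, Indic_wba_abs⟩
    have h2 := Indic_sum hk (ω := Indic_w0) ⟨1, Indic_w0_abs⟩
    have h3 := Indic_sum hk (ω := Indic_eta) ⟨3, Indic_eta_abs⟩
    rw [Indic_w0_sum hk hc] at h2
    have h4 := h1.sub (h2.mul_left 2)
    refine h3.unique ?_
    have h5 : (fun q : (ℤ × ℤ) × (ℤ × ℤ) => (Indic_eta q : ℂ) * k (xx q.1) (xx q.2)) =
        fun q => (wba q : ℂ) * k (xx q.1) (xx q.2) -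
          2 * ((Indic_w0 q : ℂ) * k (xx q.1) (xx q.2)) := by
      funext q
      unfold Indic_eta
      push_cast
      ring
    rw [h5]
    have h6 : WS wba k - 2 * c * WS wa2 k = WS wba k - 2 * (c * WS wa2 k) := by ring
    rw [h6]
    exact h4
  have e2 : WS wom k = WS Indic_eta k - starRingEnd ℂ (WS Indic_eta k) := by
    have h1 := Indic_sum hk (ω := wom) ⟨2, Indic_wom_abs⟩
    have h2 := Indic_sum hk (ω := Indic_eta) ⟨3, Indic_eta_abs⟩
    have h3 := Indic_sum hk (ω := fun q => Indic_eta (Indic_t q)) ⟨3, fun q => Indic_eta_abs _⟩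
    have h4 := Indic_sum hk (ω := Indic_D) ⟨8, Indic_D_abs⟩
    rw [Indic_conj hj] at h3
    rw [Indic_zero ha Indic_D_inv] at h4
    have h5 := h4.add (h2.sub h3)
    rw [zero_add] at h5
    refine h1.unique ?_
    have h6 : (fun q : (ℤ × ℤ) × (ℤ × ℤ) => (wom q : ℂ) * k (xx q.1) (xx q.2)) =
        fun q => (Indic_D q : ℂ) * k (xx q.1) (xx q.2) +
          ((Indic_eta q : ℂ) * k (xx q.1) (xx q.2) -
            (Indic_eta (Indic_t q) : ℂ) * k (xx q.1) (xx q.2)) := by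
      funext q
      unfold Indic_D
      push_cast
      ring
    rw [h6]
    exact h5
  rw [e2, ← e1, Complex.sub_im, Complex.conj_im]
  ring

theorem Indic_rho_anti (a b : ℂ) : rho a (-(a + b)) = -rho a b := by
  unfold rho
  rw [map_neg, map_add]
  ring

theorem Indic_NN_anti (a b : ℂ) : NNk a (-(a + b)) = NNk a b := by
  unfold NNk
  have h : a + -(a + b) = -b := by ring
  rw [h, map_neg, map_neg]
  congr 1
  ring

theorem Indic_pk_neg (z : ℂ) : pk (-z) = pk z := by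
  unfold pk
  rw [map_neg, neg_div_neg_eq]

theorem Indic_T1_anti (a b : ℂ) : T1k a (-(a + b)) = -T1k a b := by
  unfold T1k
  rw [Indic_rho_anti, Indic_NN_anti]
  ring

theorem Indic_H1_anti (a b : ℂ) : H1k a (-(a + b)) = -H1k a b := by
  unfold H1k
  have h : a + -(a + b) = -b := by ring
  rw [Indic_T1_anti, h, Indic_pk_neg, Indic_pk_neg]
  ring

theorem Indic_T1_conj (a b : ℂ) :
    T1k (starRingEnd ℂ a) (starRingEnd ℂ b) = starRingEnd ℂ (T1k a b) := by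
  unfold T1k rho NNk
  simp only [map_mul, map_div₀, map_one, map_sub, map_add]

theorem Indic_pk_conj (a : ℂ) : pk (starRingEnd ℂ a) = starRingEnd ℂ (pk a) := by
  unfold pk
  rw [map_div₀]

theorem Indic_H1_conj (a b : ℂ) :
    H1k (starRingEnd ℂ a) (starRingEnd ℂ b) = starRingEnd ℂ (H1k a b) := by
  unfold H1k
  rw [Indic_T1_conj, Indic_pk_conj, Indic_pk_conj, ← map_add, Indic_pk_conj]
  simp only [map_mul, map_add, map_ofNat]

theorem Indic_conj_omb : starRingEnd ℂ omb = om := by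
  rw [← conj_om, Complex.conj_conj]

theorem Indic_omb_ne : omb ≠ 0 := by
  intro h
  have := om_mul_omb
  rw [h, mul_zero] at this
  norm_num at this

theorem Indic_om_ne : om ≠ 0 := by
  intro h
  have := om_mul_omb
  rw [h, zero_mul] at this
  norm_num at this

theorem Indic_T1_mul (a b : ℂ) : T1k (omb * a) (omb * b) = 1 / 8 * T1k a b := by
  have h2 : omb * om = 2 := by rw [mul_comm]; exact om_mul_omb
  unfold T1k rho NNk
  rw [← mul_add]
  simp only [map_mul, Indic_conj_omb]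
  have e1 : om * starRingEnd ℂ a * (omb * b) - omb * a * (om * starRingEnd ℂ b) =
      2 * (starRingEnd ℂ a * b - a * starRingEnd ℂ b) := by
    linear_combination (starRingEnd ℂ a * b - a * starRingEnd ℂ b) * h2
  have e2 : ∀ z w : ℂ, omb * z * (om * w) = 2 * (z * w) := by
    intro z w
    linear_combination (z * w) * h2
  rw [e1, e2, e2, e2]
  simp only [one_div, mul_inv]
  ring

theorem Indic_pk_mul (z : ℂ) : pk (omb * z) = om / omb * pk z := by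
  unfold pk
  rw [map_mul, Indic_conj_omb, mul_div_mul_comm]

theorem Indic_H1_mul (a b : ℂ) :
    H1k (omb * a) (omb * b) = 1 / 8 * (om / omb) * H1k a b := by
  unfold H1k
  rw [← mul_add, Indic_T1_mul, Indic_pk_mul, Indic_pk_mul, Indic_pk_mul]
  ring

theorem Indic_cst : 1 / 8 * (om / omb) = (-3 + rt) / 32 := by
  have h := rt_sq
  have h1 := Indic_omb_ne
  rw [← mul_div_assoc, div_eq_div_iff h1 (by norm_num)]
  unfold omb om
  linear_combination (1 / 2) * h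

theorem wom33 : (WS wom T1k).im = 2 * (WS wba T1k - 1 / 4 * WS wa2 T1k).im := by
  have h := Indic_main KerO_T1k Indic_T1_anti Indic_T1_conj Indic_T1_mul
  rw [h]
  norm_num
theorem wom42 : (WS wom H1k).im = 2 * (WS wba H1k - (-3 + rt) / 16 * WS wa2 H1k).im := by
  have h := Indic_main KerO_H1k Indic_H1_anti Indic_H1_conj Indic_H1_mul
  rw [h, Indic_cst]
  have e : 2 * ((-3 + rt) / 32) = (-3 + rt) / 16 := by ring
  rw [e]

end MM7
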