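import Pool.Agent.MM7.Defs4
import Pool.Agent.MM7.Summ

/-!
# MM7, Part 4, module ZagLim

Limit y → ∞ of y³ n0y - y³ e33y, by dominated convergence (Tannery), classes of triples (m1,m2,m3), m1+m2+m3 = 0:
(i) all mi = 0: y³ [Σ_{n1+n2+n3=0, ni≠0} 1/(n1n2n3)² - Σ_{n≠0} n⁻⁶] = 0: exact identity (Tornheim/Mordell:
 Σ_{r,s≥1} 1/(r²s²(r+s)²) = ζ(6)/3; six sign patterns give 2ζ(6)). Elementary proof: 1/(n1n2n3)² summed with
 1/(r s) = (1/(r+s))(1/r+1/s), or from ζ values; e.g. r,s: (1/(rs))² (1/(r+s))² ... any proof.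
(ii) exactly one mi = 0 (three equal contributions): y³ Σ_{k≠0} 1/k² Σ_{m≠0} Σ_n 1/(|λ|²|λ+k|²), λ = m(1/2+iy)+n.
 Inner sum ≤ Σ_n |λ|⁻⁴ ≤ C/(|m|³y³) for y ≥ 1 (AM-GM), uniformly in k; limit y³ Σ_n 1/(|λ|²|λ+k|²) → ∫ dt/(t²+m²)²-type =
 π/(2|m|³) (Riemann sum: |Σ_n f(n) - ∫ f| ≤ total variation ≤ C y⁻⁴ ; ∫ dt/((t²+Y²)((t+k)²+Y²)) = 2π/(Y(k²+4Y²))).
 Total: 3 * (π²/3) * 2ζ(3) * π/2 = π³ ζ(3).
(iii) all mi ≠ 0: y³ Σ 1/(|λ1λ2λ3|²) ≤ y³ C y⁻⁴ Σ ... → 0 (use |λi| ≥ (|mi|y)^{7/12}|..|^{5/12}-type bounds, e.g.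
 1/(|λ1|²|λ2|²|λ3|²) ≤ Σ_{i<j} |λi|⁻³|λj|⁻³ and Σ_{m≠0}Σ_n |λ|⁻³ ≤ C y⁻²).
(iv) e33y terms with m ≠ 0: y³ Σ |λ|⁻⁶ ≤ C y³ y⁻⁵ → 0.
-/

open Real MeasureTheory Set Filter Topology

namespace MM7

/-- `|lx y (m,n)|²` -/
noncomputable def ZagLim_Q (y : ℝ) (p : ℤ × ℤ) : ℝ := ((p.2:ℝ) + (p.1:ℝ)/2)^2 + ((p.1:ℝ)*y)^2

theorem ZagLim_normSq (y : ℝ) (p : ℤ × ℤ) : Complex.normSq (lx y p) = ZagLim_Q y p := by
  unfold lx ZagLim_Q
  rw [Complex.normSq_apply]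
  simp
  ring

theorem ZagLim_tele (F : ℝ → ℝ) (hF : Monotone F) (a L1 L2 : ℝ)
    (h1 : Tendsto F atTop (𝓝 L1)) (h2 : Tendsto F atBot (𝓝 L2)) :
    HasSum (fun n : ℤ => F ((n:ℝ) + a + 1) - F ((n:ℝ) + a)) (L1 - L2) := by
  have hpos : ∀ t : ℝ, 0 ≤ F (t + 1) - F t := by
    intro t
    have := hF (show t ≤ t + 1 by linarith)
    linarith
  have hp : HasSum (fun n : ℕ => F (((n:ℤ):ℝ) + a + 1) - F (((n:ℤ):ℝ) + a)) (L1 - F a) := by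
    rw [hasSum_iff_tendsto_nat_of_nonneg (fun n => hpos _)]
    have h3 : ∀ N : ℕ, ∑ i ∈ Finset.range N, (F (((i:ℤ):ℝ) + a + 1) - F (((i:ℤ):ℝ) + a))
        = F ((N:ℝ) + a) - F a := by
      intro N
      have h4 := Finset.sum_range_sub (fun i : ℕ => F ((i:ℝ) + a)) N
      simp only [Nat.cast_zero, zero_add] at h4
      rw [← h4]
      apply Finset.sum_congr rfl
      intro i _
      push_cast
      rw [show (i:ℝ) + a + 1 = (i:ℝ) + 1 + a by ring]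
    simp_rw [h3]
    apply Tendsto.sub_const
    exact h1.comp (tendsto_atTop_add_const_right _ _ tendsto_natCast_atTop_atTop)
  have hn : HasSum (fun n : ℕ => F (((-((n:ℤ)+1) : ℤ):ℝ) + a + 1) - F (((-((n:ℤ)+1):ℤ):ℝ) + a))
      (F a - L2) := by
    rw [hasSum_iff_tendsto_nat_of_nonneg (fun n => hpos _)]
    have h3 : ∀ N : ℕ, ∑ i ∈ Finset.range N,
        (F (((-((i:ℤ)+1) : ℤ):ℝ) + a + 1) - F (((-((i:ℤ)+1):ℤ):ℝ) + a))
        = F a - F (-(N:ℝ) + a) := by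
      intro N
      have h4 := Finset.sum_range_sub' (fun i : ℕ => F (-(i:ℝ) + a)) N
      simp only [Nat.cast_zero, zero_add, neg_zero] at h4
      rw [← h4]
      apply Finset.sum_congr rfl
      intro i _
      push_cast
      rw [show -((i:ℝ) + 1) + a + 1 = -(i:ℝ) + a by ring]
    simp_rw [h3]
    apply Tendsto.const_sub
    refine h2.comp ?_
    exact tendsto_atBot_add_const_right _ _ (tendsto_neg_atTop_atBot.comp tendsto_natCast_atTop_atTop)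
  have := HasSum.of_nat_of_neg_add_one (f := fun n : ℤ => F ((n:ℝ) + a + 1) - F ((n:ℝ) + a)) hp hn
  convert this using 1
  ring

theorem ZagLim_comp (f F : ℝ → ℝ) (a L1 L2 c : ℝ) (hder : ∀ t, HasDerivAt F (f t) t)
    (hf : ∀ t, 0 ≤ f t) (hc : ∀ x z : ℝ, |x - z| ≤ 1 → f x ≤ c * f z)
    (h1 : Tendsto F atTop (𝓝 L1)) (h2 : Tendsto F atBot (𝓝 L2)) :
    Summable (fun n : ℤ => f ((n:ℝ) + a)) ∧ ∑' n : ℤ, f ((n:ℝ) + a) ≤ c * (L1 - L2) ∧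
      L1 - L2 ≤ c * ∑' n : ℤ, f ((n:ℝ) + a) := by
  have hmono : Monotone F := monotone_of_deriv_nonneg (fun t => (hder t).differentiableAt)
    (fun t => by rw [(hder t).deriv]; exact hf t)
  have hS := ZagLim_tele F hmono a L1 L2 h1 h2
  have hmvt : ∀ n : ℤ, ∃ z : ℝ, |((n:ℝ)+a) - z| ≤ 1 ∧
      F ((n:ℝ) + a + 1) - F ((n:ℝ) + a) = f z := by
    intro n
    obtain ⟨z, hz, hz2⟩ := exists_hasDerivAt_eq_slope F f
      (show (n:ℝ)+a < (n:ℝ)+a+1 by linarith)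
      (fun t _ => (hder t).continuousAt.continuousWithinAt) (fun t _ => hder t)
    refine ⟨z, ?_, ?_⟩
    · rw [abs_le]
      constructor <;> linarith [hz.1, hz.2]
    · rw [hz2, show (n:ℝ) + a + 1 - ((n:ℝ) + a) = 1 by ring, div_one]
  have hle : ∀ n : ℤ, f ((n:ℝ) + a) ≤ c * (F ((n:ℝ) + a + 1) - F ((n:ℝ) + a)) := by
    intro n
    obtain ⟨z, hz, hz2⟩ := hmvt n
    rw [hz2]
    exact hc _ _ hz
  have hge : ∀ n : ℤ, F ((n:ℝ) + a + 1) - F ((n:ℝ) + a) ≤ c * f ((n:ℝ) + a) := by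
    intro n
    obtain ⟨z, hz, hz2⟩ := hmvt n
    rw [hz2]
    apply hc
    rw [abs_sub_comm]
    exact hz
  have hsum : Summable (fun n : ℤ => f ((n:ℝ) + a)) :=
    Summable.of_nonneg_of_le (fun n => hf _) hle (hS.summable.mul_left c)
  refine ⟨hsum, ?_, ?_⟩
  · calc ∑' n : ℤ, f ((n:ℝ) + a) ≤ ∑' n : ℤ, c * (F ((n:ℝ) + a + 1) - F ((n:ℝ) + a)) :=
        hsum.tsum_le_tsum hle (hS.summable.mul_left c)
      _ = c * (L1 - L2) := by rw [tsum_mul_left, hS.tsum_eq]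
  · calc L1 - L2 = ∑' n : ℤ, (F ((n:ℝ) + a + 1) - F ((n:ℝ) + a)) := hS.tsum_eq.symm
      _ ≤ ∑' n : ℤ, c * f ((n:ℝ) + a) := hS.summable.tsum_le_tsum hge (hsum.mul_left c)
      _ = c * ∑' n : ℤ, f ((n:ℝ) + a) := tsum_mul_left

/-- comparison constant -/
noncomputable def ZagLim_kap (d Y : ℝ) : ℝ := 1 + d / Y + d ^ 2 / Y ^ 2

theorem ZagLim_kap_bd {d Y : ℝ} (hd : 0 ≤ d) (hY : 0 < Y) (x z : ℝ) (h : |x - z| ≤ d) :
    z ^ 2 + Y ^ 2 ≤ ZagLim_kap d Y * (x ^ 2 + Y ^ 2) := by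
  unfold ZagLim_kap
  have h1 : |z| ≤ |x| + d := by
    have : |z| ≤ |x| + |x - z| := by
      have := abs_sub_abs_le_abs_sub z x
      rw [abs_sub_comm z x] at this
      linarith
    linarith
  have h2 : z ^ 2 ≤ (|x| + d) ^ 2 := by
    rw [← sq_abs z]
    gcongr
  have h3 : 2 * |x| * d ≤ d / Y * (x ^ 2 + Y ^ 2) := by
    rw [div_mul_eq_mul_div, le_div_iff₀ hY]
    have : 2 * |x| * Y ≤ x ^ 2 + Y ^ 2 := by
      rw [← sq_abs x]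
      nlinarith [sq_nonneg (|x| - Y)]
    nlinarith
  have h4 : d ^ 2 ≤ d ^ 2 / Y ^ 2 * (x ^ 2 + Y ^ 2) := by
    rw [div_mul_eq_mul_div, le_div_iff₀ (by positivity)]
    nlinarith [mul_nonneg (sq_nonneg d) (sq_nonneg x)]
  have h5 : (|x| + d) ^ 2 = x ^ 2 + 2 * |x| * d + d ^ 2 := by
    rw [← sq_abs x]
    ring
  nlinarith

theorem ZagLim_kap_pos {d Y : ℝ} (hd : 0 ≤ d) (hY : 0 < Y) : 1 ≤ ZagLim_kap d Y := by
  unfold ZagLim_kap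
  have h1 : 0 ≤ d / Y := by positivity
  have h2 : 0 ≤ d ^ 2 / Y ^ 2 := by positivity
  linarith

theorem ZagLim_kap_inv {d Y : ℝ} (hd : 0 ≤ d) (hY : 0 < Y) (x z : ℝ) (h : |x - z| ≤ d) :
    1 / (x ^ 2 + Y ^ 2) ≤ ZagLim_kap d Y * (1 / (z ^ 2 + Y ^ 2)) := by
  have h1 := ZagLim_kap_bd hd hY x z h
  have h2 : 0 < x ^ 2 + Y ^ 2 := by positivity
  have h3 : 0 < z ^ 2 + Y ^ 2 := by positivity
  rw [mul_one_div, div_le_div_iff₀ h2 h3]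
  linarith

theorem ZagLim_atan_top {Y : ℝ} (hY : 0 < Y) : Tendsto (fun t => Real.arctan (t / Y)) atTop (𝓝 (π / 2)) :=
  (tendsto_nhds_of_tendsto_nhdsWithin tendsto_arctan_atTop).comp
    (tendsto_id.atTop_div_const hY)

theorem ZagLim_atan_bot {Y : ℝ} (hY : 0 < Y) : Tendsto (fun t => Real.arctan (t / Y)) atBot (𝓝 (-(π / 2))) :=
  (tendsto_nhds_of_tendsto_nhdsWithin tendsto_arctan_atBot).comp
    (tendsto_id.atBot_div_const hY)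

theorem ZagLim_S1 (a : ℝ) {Y : ℝ} (hY : 0 < Y) :
    Summable (fun n : ℤ => 1 / (((n:ℝ) + a) ^ 2 + Y ^ 2)) ∧
    ∑' n : ℤ, 1 / (((n:ℝ) + a) ^ 2 + Y ^ 2) ≤ ZagLim_kap 1 Y * (π / Y) := by
  have h := ZagLim_comp (fun t => 1 / (t ^ 2 + Y ^ 2)) (fun t => Real.arctan (t / Y) / Y) a
    ((π / 2) / Y) ((-(π / 2)) / Y) (ZagLim_kap 1 Y) ?_ ?_ ?_ ?_ ?_
  · refine ⟨h.1, h.2.1.trans (le_of_eq ?_)⟩
    ring
  · intro t
    have h1 : HasDerivAt (fun t : ℝ => t / Y) (1 / Y) t := (hasDerivAt_id t).div_const Y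
    have h2 := (h1.arctan).div_const Y
    have h3 : 1 / (t ^ 2 + Y ^ 2) = 1 / (1 + (t / Y) ^ 2) * (1 / Y) / Y := by
      field_simp
      ring
    show HasDerivAt _ (1 / (t ^ 2 + Y ^ 2)) t
    rw [h3]
    exact h2
  · intro t
    positivity
  · intro x z hxz
    exact ZagLim_kap_inv zero_le_one hY x z hxz
  · exact (ZagLim_atan_top hY).div_const Y
  · exact (ZagLim_atan_bot hY).div_const Y


theorem ZagLim_S2 (a : ℝ) {Y : ℝ} (hY : 0 < Y) :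
    Summable (fun n : ℤ => 1 / (((n:ℝ) + a) ^ 2 + Y ^ 2) ^ 2) ∧
    ∑' n : ℤ, 1 / (((n:ℝ) + a) ^ 2 + Y ^ 2) ^ 2 ≤ ZagLim_kap 1 Y ^ 2 * (π / (2 * Y ^ 3)) ∧
    π / (2 * Y ^ 3) ≤ ZagLim_kap 1 Y ^ 2 * ∑' n : ℤ, 1 / (((n:ℝ) + a) ^ 2 + Y ^ 2) ^ 2 := by
  have hbig : ∀ (l : Filter ℝ), Tendsto (fun t : ℝ => |t|) l atTop →
      Tendsto (fun t : ℝ => (t / Y) / (1 + (t / Y) ^ 2)) l (𝓝 0) := by
    intro l hl
    have h1 : Tendsto (fun t : ℝ => Y / |t|) l (𝓝 0) := hl.const_div_atTop Y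
    refine squeeze_zero_norm' ?_ h1
    filter_upwards [hl.eventually_gt_atTop 0] with t ht
    have ht2 : t ≠ 0 := abs_pos.mp ht
    rw [Real.norm_eq_abs, abs_div, abs_div, abs_of_pos hY, abs_of_pos (show (0:ℝ) < 1 + (t / Y) ^ 2 by positivity)]
    rw [div_le_div_iff₀ (by positivity) ht]
    rw [div_mul_eq_mul_div, abs_mul_abs_self]
    have : Y * (1 + (t / Y) ^ 2) = Y + t * t / Y := by field_simp
    rw [this]
    linarith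
  have h := ZagLim_comp (fun t => 1 / (t ^ 2 + Y ^ 2) ^ 2)
    (fun t => (Real.arctan (t / Y) + (t / Y) / (1 + (t / Y) ^ 2)) / (2 * Y ^ 3)) a
    ((π / 2 + 0) / (2 * Y ^ 3)) ((-(π / 2) + 0) / (2 * Y ^ 3)) (ZagLim_kap 1 Y ^ 2) ?_ ?_ ?_ ?_ ?_
  · have e : (π / 2 + 0) / (2 * Y ^ 3) - (-(π / 2) + 0) / (2 * Y ^ 3) = π / (2 * Y ^ 3) := by ring
    rw [e] at h
    exact h
  · intro t
    have h1 : HasDerivAt (fun t : ℝ => t / Y) (1 / Y) t := (hasDerivAt_id t).div_const Y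
    have h4 : HasDerivAt (fun t : ℝ => 1 + (t / Y) ^ 2) (2 * (t / Y) * (1 / Y)) t := by
      have := (h1.pow 2).const_add 1
      simpa using this
    have h5 : (1 + (t / Y) ^ 2) ≠ 0 := by positivity
    have h2 := ((h1.arctan).add (h1.div h4 h5)).div_const (2 * Y ^ 3)
    have h3 : 1 / (t ^ 2 + Y ^ 2) ^ 2 = (1 / (1 + (t / Y) ^ 2) * (1 / Y)
        + (1 / Y * (1 + (t / Y) ^ 2) - t / Y * (2 * (t / Y) * (1 / Y))) / (1 + (t / Y) ^ 2) ^ 2) / (2 * Y ^ 3) := by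
      field_simp
      ring
    show HasDerivAt _ (1 / (t ^ 2 + Y ^ 2) ^ 2) t
    rw [h3]
    exact h2
  · intro t
    positivity
  · intro x z hxz
    have := ZagLim_kap_inv zero_le_one hY x z hxz
    have h2 : (1 / (x ^ 2 + Y ^ 2)) ^ 2 ≤ (ZagLim_kap 1 Y * (1 / (z ^ 2 + Y ^ 2))) ^ 2 := by
      gcongr
    rw [mul_pow, one_div_pow, one_div_pow] at h2
    exact h2
  · exact ((ZagLim_atan_top hY).add (hbig _ tendsto_abs_atTop_atTop)).div_const _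
  · exact ((ZagLim_atan_bot hY).add (hbig _ tendsto_abs_atBot_atTop)).div_const _

theorem ZagLim_kap_le {d Y : ℝ} (hd : 0 ≤ d) (hY : 1 ≤ Y) : ZagLim_kap d Y ≤ 1 + d + d ^ 2 := by
  unfold ZagLim_kap
  have h1 : d / Y ≤ d := div_le_self hd hY
  have h2 : d ^ 2 / Y ^ 2 ≤ d ^ 2 := div_le_self (sq_nonneg d) (one_le_pow₀ hY)
  linarith

theorem ZagLim_Q_eq (y : ℝ) (m n : ℤ) :
    ZagLim_Q y (m, n) = ((n:ℝ) + (m:ℝ) / 2) ^ 2 + (|(m:ℝ)| * y) ^ 2 := by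
  unfold ZagLim_Q
  simp only
  rw [mul_pow, mul_pow, sq_abs]

theorem ZagLim_abs_one {m : ℤ} (hm : m ≠ 0) : 1 ≤ |(m:ℝ)| := by
  rw [← Int.cast_abs]
  exact_mod_cast Int.one_le_abs hm

theorem ZagLim_row {y : ℝ} (hy : 1 ≤ y) {m : ℤ} (hm : m ≠ 0) :
    Summable (fun n : ℤ => 1 / ZagLim_Q y (m, n)) ∧
    ∑' n : ℤ, 1 / ZagLim_Q y (m, n) ≤ 3 * π / (|(m:ℝ)| * y) := by
  have h1 := ZagLim_abs_one hm
  have hY : 1 ≤ |(m:ℝ)| * y := by nlinarith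
  have hY0 : 0 < |(m:ℝ)| * y := by linarith
  have h := ZagLim_S1 ((m:ℝ) / 2) hY0
  simp_rw [ZagLim_Q_eq]
  refine ⟨h.1, h.2.trans ?_⟩
  have h2 := ZagLim_kap_le zero_le_one hY
  have h3 : 0 ≤ π / (|(m:ℝ)| * y) := by positivity
  have h4 : ZagLim_kap 1 (|(m:ℝ)| * y) ≤ 3 := by linarith
  calc _ ≤ 3 * (π / (|(m:ℝ)| * y)) := by gcongr
    _ = _ := by ring

theorem ZagLim_Q_nonneg (y : ℝ) (p : ℤ × ℤ) : 0 ≤ ZagLim_Q y p := by
  unfold ZagLim_Q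
  positivity

theorem ZagLim_W (w : ℤ → ℝ) (hw0 : w 0 = 0) (hw : ∀ m, 0 ≤ w m)
    (hs : Summable (fun m : ℤ => w m / |(m:ℝ)|)) {y : ℝ} (hy : 1 ≤ y) :
    Summable (fun p : ℤ × ℤ => w p.1 * (1 / ZagLim_Q y p)) ∧
    ∑' p : ℤ × ℤ, w p.1 * (1 / ZagLim_Q y p) ≤ 3 * π / y * ∑' m : ℤ, w m / |(m:ℝ)| := by
  have hrow : ∀ m : ℤ, Summable (fun n : ℤ => w m * (1 / ZagLim_Q y (m, n))) ∧
      ∑' n : ℤ, w m * (1 / ZagLim_Q y (m, n)) ≤ 3 * π / y * (w m / |(m:ℝ)|) := by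
    intro m
    by_cases hm : m = 0
    · subst hm
      rw [hw0]
      simp
    · have h := ZagLim_row hy hm
      refine ⟨h.1.mul_left _, ?_⟩
      rw [tsum_mul_left]
      calc w m * ∑' n : ℤ, 1 / ZagLim_Q y (m, n) ≤ w m * (3 * π / (|(m:ℝ)| * y)) := by
            gcongr
            · exact hw m
            · exact h.2
        _ = _ := by
          have h1 := ZagLim_abs_one hm
          field_simp
  have hnn : ∀ p : ℤ × ℤ, 0 ≤ w p.1 * (1 / ZagLim_Q y p) := by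
    intro p
    have := ZagLim_Q_nonneg y p
    have := hw p.1
    positivity
  have hsum : Summable (fun p : ℤ × ℤ => w p.1 * (1 / ZagLim_Q y p)) := by
    rw [summable_prod_of_nonneg hnn]
    refine ⟨fun m => (hrow m).1, ?_⟩
    exact Summable.of_nonneg_of_le (fun m => tsum_nonneg (fun n => hnn (m, n)))
      (fun m => (hrow m).2) (hs.mul_left _)
  refine ⟨hsum, ?_⟩
  rw [hsum.tsum_prod, ← tsum_mul_left]
  refine Summable.tsum_le_tsum (fun m => (hrow m).2) ?_ (hs.mul_left _)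
  exact Summable.of_nonneg_of_le (fun m => tsum_nonneg (fun n => hnn (m, n)))
      (fun m => (hrow m).2) (hs.mul_left _)


/-- the summand of `n0y` -/
noncomputable def ZagLim_g (y : ℝ) (q : (ℤ × ℤ) × (ℤ × ℤ)) : ℝ :=
  1 / (ZagLim_Q y q.1 * ZagLim_Q y q.2 * ZagLim_Q y (q.1 + q.2))

theorem ZagLim_g_nonneg (y : ℝ) (q : (ℤ × ℤ) × (ℤ × ℤ)) : 0 ≤ ZagLim_g y q := by
  unfold ZagLim_g
  have h1 := ZagLim_Q_nonneg y q.1
  have h2 := ZagLim_Q_nonneg y q.2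
  have h3 := ZagLim_Q_nonneg y (q.1 + q.2)
  positivity

/-- `R = 1 / (|m| y Q)` -/
noncomputable def ZagLim_R (y : ℝ) (p : ℤ × ℤ) : ℝ := (1 / (|(p.1:ℝ)| * y)) * (1 / ZagLim_Q y p)

theorem ZagLim_R_nonneg {y : ℝ} (hy : 0 ≤ y) (p : ℤ × ℤ) : 0 ≤ ZagLim_R y p := by
  unfold ZagLim_R
  have h1 := ZagLim_Q_nonneg y p
  positivity

theorem ZagLim_sq_summable : Summable (fun m : ℤ => 1 / (m:ℝ) ^ 2) := by
  have := Real.summable_one_div_int_pow (p := 2)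
  exact this.mpr (by norm_num)

theorem ZagLim_cube_summable : Summable (fun m : ℤ => 1 / |(m:ℝ)| ^ 3) := by
  have := Real.summable_one_div_int_pow (p := 3)
  have h := (this.mpr (by norm_num)).abs
  refine h.congr ?_
  intro m
  rw [abs_div, abs_pow, abs_one]

theorem ZagLim_Rsum {y : ℝ} (hy : 1 ≤ y) :
    Summable (ZagLim_R y) ∧ ∑' p, ZagLim_R y p ≤ 3 * π / y * (1 / y * ∑' m : ℤ, 1 / (m:ℝ) ^ 2) := by
  have hy0 : 0 < y := by linarith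
  have e : ∀ m : ℤ, (1 / (|(m:ℝ)| * y)) / |(m:ℝ)| = 1 / y * (1 / (m:ℝ) ^ 2) := by
    intro m
    rw [← sq_abs (m:ℝ)]
    by_cases hm : |(m:ℝ)| = 0
    · rw [hm]; simp
    · field_simp
  have h := ZagLim_W (fun m => 1 / (|(m:ℝ)| * y)) (by simp) (fun m => by positivity)
    (by simp_rw [e]; exact ZagLim_sq_summable.mul_left _) hy
  refine ⟨h.1, h.2.trans (le_of_eq ?_)⟩
  simp_rw [e]
  rw [tsum_mul_left]

theorem ZagLim_Q_ge (y : ℝ) (p : ℤ × ℤ) : (|(p.1:ℝ)| * y) ^ 2 ≤ ZagLim_Q y p := by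
  have := ZagLim_Q_eq y p.1 p.2
  rw [show (p.1, p.2) = p from rfl] at this
  rw [this]
  nlinarith [sq_nonneg ((p.2:ℝ) + (p.1:ℝ) / 2)]

/-- product bound, third factor large -/
theorem ZagLim_prod_bd {y : ℝ} (hy : 1 ≤ y) (a b c : ℤ × ℤ) (ha : a.1 ≠ 0) (hb : b.1 ≠ 0)
    (h1 : |(a.1:ℝ)| ≤ |(c.1:ℝ)|) (h2 : |(b.1:ℝ)| ≤ |(c.1:ℝ)|) :
    1 / (ZagLim_Q y a * ZagLim_Q y b * ZagLim_Q y c) ≤ ZagLim_R y a * ZagLim_R y b := by
  have hy0 : 0 < y := by linarith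
  have ha1 := ZagLim_abs_one ha
  have hb1 := ZagLim_abs_one hb
  have hc1 : 1 ≤ |(c.1:ℝ)| := le_trans ha1 h1
  have hqa := ZagLim_Q_ge y a
  have hqb := ZagLim_Q_ge y b
  have hqc := ZagLim_Q_ge y c
  have pa : 0 < (|(a.1:ℝ)| * y) ^ 2 := by positivity
  have pb : 0 < (|(b.1:ℝ)| * y) ^ 2 := by positivity
  have pa' : 0 < ZagLim_Q y a := by linarith
  have pb' : 0 < ZagLim_Q y b := by linarith
  have hc : (|(a.1:ℝ)| * y) * (|(b.1:ℝ)| * y) ≤ ZagLim_Q y c := by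
    calc (|(a.1:ℝ)| * y) * (|(b.1:ℝ)| * y) ≤ (|(c.1:ℝ)| * y) * (|(c.1:ℝ)| * y) := by gcongr
      _ = (|(c.1:ℝ)| * y) ^ 2 := by ring
      _ ≤ _ := hqc
  have hab : 0 < (|(a.1:ℝ)| * y) * (|(b.1:ℝ)| * y) := by positivity
  unfold ZagLim_R
  have e : 1 / (|(a.1:ℝ)| * y) * (1 / ZagLim_Q y a) * (1 / (|(b.1:ℝ)| * y) * (1 / ZagLim_Q y b))
      = 1 / (ZagLim_Q y a * ZagLim_Q y b * ((|(a.1:ℝ)| * y) * (|(b.1:ℝ)| * y))) := by
    field_simp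
  rw [e]
  apply one_div_le_one_div_of_le (by positivity)
  gcongr

/-- the part with all three `m` nonzero -/
noncomputable def ZagLim_D (y : ℝ) (q : (ℤ × ℤ) × (ℤ × ℤ)) : ℝ :=
  if q.1.1 ≠ 0 ∧ q.2.1 ≠ 0 ∧ q.1.1 + q.2.1 ≠ 0 then ZagLim_g y q else 0

theorem ZagLim_D_le {y : ℝ} (hy : 1 ≤ y) (q : (ℤ × ℤ) × (ℤ × ℤ)) :
    ZagLim_D y q ≤ ZagLim_R y q.1 * ZagLim_R y q.2 + ZagLim_R y q.1 * ZagLim_R y (q.1 + q.2)
      + ZagLim_R y q.2 * ZagLim_R y (q.1 + q.2) := by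
  have hy0 : 0 ≤ y := by linarith
  have n1 := ZagLim_R_nonneg hy0 q.1
  have n2 := ZagLim_R_nonneg hy0 q.2
  have n3 := ZagLim_R_nonneg hy0 (q.1 + q.2)
  unfold ZagLim_D
  split_ifs with h
  · obtain ⟨h1, h2, h3⟩ := h
    have h3' : (q.1 + q.2).1 ≠ 0 := h3
    unfold ZagLim_g
    rcases le_total |(q.1.1:ℝ)| |(q.2.1:ℝ)| with h12 | h12
    · rcases le_total |(q.2.1:ℝ)| |((q.1 + q.2).1:ℝ)| with h23 | h23
      · have := ZagLim_prod_bd hy q.1 q.2 (q.1 + q.2) h1 h2 (h12.trans h23) h23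
        nlinarith [mul_nonneg n1 n3, mul_nonneg n2 n3]
      · have := ZagLim_prod_bd hy q.1 (q.1 + q.2) q.2 h1 h3' h12 h23
        rw [show ZagLim_Q y q.1 * ZagLim_Q y q.2 * ZagLim_Q y (q.1 + q.2)
          = ZagLim_Q y q.1 * ZagLim_Q y (q.1 + q.2) * ZagLim_Q y q.2 by ring]
        nlinarith [mul_nonneg n1 n2, mul_nonneg n2 n3]
    · rcases le_total |(q.1.1:ℝ)| |((q.1 + q.2).1:ℝ)| with h13 | h13
      · have := ZagLim_prod_bd hy q.1 q.2 (q.1 + q.2) h1 h2 h13 (h12.trans h13)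
        nlinarith [mul_nonneg n1 n3, mul_nonneg n2 n3]
      · have := ZagLim_prod_bd hy q.2 (q.1 + q.2) q.1 h2 h3' h12 h13
        rw [show ZagLim_Q y q.1 * ZagLim_Q y q.2 * ZagLim_Q y (q.1 + q.2)
          = ZagLim_Q y q.2 * ZagLim_Q y (q.1 + q.2) * ZagLim_Q y q.1 by ring]
        nlinarith [mul_nonneg n1 n2, mul_nonneg n1 n3]
  · positivity

theorem ZagLim_D_nonneg (y : ℝ) (q : (ℤ × ℤ) × (ℤ × ℤ)) : 0 ≤ ZagLim_D y q := by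
  unfold ZagLim_D
  split_ifs
  · exact ZagLim_g_nonneg y q
  · exact le_rfl

theorem ZagLim_Dsum {y : ℝ} (hy : 1 ≤ y) :
    Summable (ZagLim_D y) ∧ ∑' q, ZagLim_D y q
      ≤ 3 * (3 * π / y * (1 / y * ∑' m : ℤ, 1 / (m:ℝ) ^ 2)) ^ 2 := by
  have hy0 : 0 ≤ y := by linarith
  have hR := ZagLim_Rsum hy
  have s12 : Summable (fun q : (ℤ × ℤ) × (ℤ × ℤ) => ZagLim_R y q.1 * ZagLim_R y q.2) :=
    hR.1.mul_of_nonneg hR.1 (ZagLim_R_nonneg hy0) (ZagLim_R_nonneg hy0)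
  have s13 : Summable (fun q : (ℤ × ℤ) × (ℤ × ℤ) => ZagLim_R y q.1 * ZagLim_R y (q.1 + q.2)) :=
    (Summ_e1.summable_iff
      (f := fun q : (ℤ × ℤ) × (ℤ × ℤ) => ZagLim_R y q.1 * ZagLim_R y q.2)).mpr s12
  have s23 : Summable (fun q : (ℤ × ℤ) × (ℤ × ℤ) => ZagLim_R y q.2 * ZagLim_R y (q.1 + q.2)) :=
    (Summ_e2.summable_iff
      (f := fun q : (ℤ × ℤ) × (ℤ × ℤ) => ZagLim_R y q.1 * ZagLim_R y q.2)).mpr s12
  have t12 : ∑' q : (ℤ × ℤ) × (ℤ × ℤ), ZagLim_R y q.1 * ZagLim_R y q.2 = (∑' p, ZagLim_R y p) ^ 2 := by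
    rw [sq, hR.1.tsum_mul_tsum hR.1 s12]
  have t13 : ∑' q : (ℤ × ℤ) × (ℤ × ℤ), ZagLim_R y q.1 * ZagLim_R y (q.1 + q.2)
      = (∑' p, ZagLim_R y p) ^ 2 := by
    rw [← t12]
    exact Summ_e1.tsum_eq (fun q : (ℤ × ℤ) × (ℤ × ℤ) => ZagLim_R y q.1 * ZagLim_R y q.2)
  have t23 : ∑' q : (ℤ × ℤ) × (ℤ × ℤ), ZagLim_R y q.2 * ZagLim_R y (q.1 + q.2)
      = (∑' p, ZagLim_R y p) ^ 2 := by
    rw [← t12]
    exact Summ_e2.tsum_eq (fun q : (ℤ × ℤ) × (ℤ × ℤ) => ZagLim_R y q.1 * ZagLim_R y q.2)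
  have sS := (s12.add s13).add s23
  have hD : Summable (ZagLim_D y) :=
    Summable.of_nonneg_of_le (ZagLim_D_nonneg y) (ZagLim_D_le hy) sS
  refine ⟨hD, ?_⟩
  have h1 := hD.tsum_le_tsum (ZagLim_D_le hy) sS
  rw [(s12.add s13).tsum_add s23, s12.tsum_add s13, t12, t13, t23] at h1
  have h2 : 0 ≤ ∑' p, ZagLim_R y p := tsum_nonneg (ZagLim_R_nonneg hy0)
  have h3 : (∑' p, ZagLim_R y p) ^ 2 ≤ (3 * π / y * (1 / y * ∑' m : ℤ, 1 / (m:ℝ) ^ 2)) ^ 2 := by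
    gcongr
    exact hR.2
  linarith


/-! class A -/

/-- shears of `ℤ²` -/
def ZagLim_sh1 : ℤ × ℤ ≃ ℤ × ℤ where
  toFun q := (q.1, q.1 + q.2)
  invFun q := (q.1, q.2 - q.1)
  left_inv q := by simp
  right_inv q := by simp

def ZagLim_sh2 : ℤ × ℤ ≃ ℤ × ℤ where
  toFun q := (q.2, q.1 + q.2)
  invFun q := (q.2 - q.1, q.1)
  left_inv q := by simp
  right_inv q := by simp

theorem ZagLim_c3 : Summable (fun n : ℤ => 1 / (n:ℝ) ^ 3) ∧ Summable (fun n : ℤ => ‖1 / (n:ℝ) ^ 3‖)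
    ∧ ∑' n : ℤ, 1 / (n:ℝ) ^ 3 = 0 := by
  have h := (Real.summable_one_div_int_pow (p := 3)).mpr (by norm_num)
  refine ⟨h, h.norm, ?_⟩
  have h1 : ∑' n : ℤ, 1 / (n:ℝ) ^ 3 = ∑' n : ℤ, 1 / ((-n : ℤ):ℝ) ^ 3 :=
    ((Equiv.neg ℤ).tsum_eq (fun n : ℤ => 1 / (n:ℝ) ^ 3)).symm
  have h2 : ∀ n : ℤ, 1 / ((-n : ℤ):ℝ) ^ 3 = - (1 / (n:ℝ) ^ 3) := by
    intro n
    push_cast
    rw [Odd.neg_pow (by decide), one_div_neg_eq_neg_one_div]
  simp_rw [h2] at h1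
  rw [tsum_neg] at h1
  linarith

theorem ZagLim_A0 : HasSum (fun p : ℤ × ℤ => 1 / ((p.1:ℝ) ^ 2 * (p.2:ℝ) ^ 2 * ((p.1:ℝ) + p.2) ^ 2))
    (∑' n : ℤ, 1 / (n:ℝ) ^ 6) := by
  obtain ⟨c1, c2, c3⟩ := ZagLim_c3
  have hz6 : Summable (fun n : ℤ => 1 / (n:ℝ) ^ 6) :=
    (Real.summable_one_div_int_pow (p := 6)).mpr (by norm_num)
  have s1 : Summable (fun p : ℤ × ℤ => 1 / (p.1:ℝ) ^ 3 * (1 / (p.2:ℝ) ^ 3)) :=
    summable_mul_of_summable_norm (f := fun n : ℤ => 1 / (n:ℝ) ^ 3)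
      (g := fun n : ℤ => 1 / (n:ℝ) ^ 3) c2 c2
  have h1 : HasSum (fun p : ℤ × ℤ => 1 / (p.1:ℝ) ^ 3 * (1 / (p.2:ℝ) ^ 3)) 0 := by
    have := s1.hasSum
    rw [← c1.tsum_mul_tsum c1 s1, c3, zero_mul] at this
    exact this
  have h2 : HasSum (fun p : ℤ × ℤ => 1 / (p.1:ℝ) ^ 3 * (1 / ((p.1 + p.2 : ℤ):ℝ) ^ 3)) 0 :=
    (ZagLim_sh1.hasSum_iff (f := fun p : ℤ × ℤ => 1 / (p.1:ℝ) ^ 3 * (1 / (p.2:ℝ) ^ 3))).mpr h1
  have h3 : HasSum (fun p : ℤ × ℤ => 1 / (p.2:ℝ) ^ 3 * (1 / ((p.1 + p.2 : ℤ):ℝ) ^ 3)) 0 :=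
    (ZagLim_sh2.hasSum_iff (f := fun p : ℤ × ℤ => 1 / (p.1:ℝ) ^ 3 * (1 / (p.2:ℝ) ^ 3))).mpr h1
  have i1 : Function.Injective (fun a : ℤ => ((a, -a) : ℤ × ℤ)) := by
    intro a b h
    exact congrArg Prod.fst h
  have i2 : Function.Injective (fun a : ℤ => ((0, a) : ℤ × ℤ)) := by
    intro a b h
    exact congrArg Prod.snd h
  have i3 : Function.Injective (fun a : ℤ => ((a, 0) : ℤ × ℤ)) := by
    intro a b h
    exact congrArg Prod.fst h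
  have h4 : HasSum (fun p : ℤ × ℤ => if p.1 + p.2 = 0 then 1 / (p.1:ℝ) ^ 6 else 0)
      (∑' n : ℤ, 1 / (n:ℝ) ^ 6) := by
    rw [← i1.hasSum_iff]
    · refine hz6.hasSum.congr_fun ?_
      intro n
      simp
    · intro x hx
      rw [if_neg]
      intro h
      apply hx
      exact ⟨x.1, by ext <;> simp; omega⟩
  have h5 : HasSum (fun p : ℤ × ℤ => if p.1 = 0 then 1 / (p.2:ℝ) ^ 6 else 0)
      (∑' n : ℤ, 1 / (n:ℝ) ^ 6) := by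
    rw [← i2.hasSum_iff]
    · refine hz6.hasSum.congr_fun ?_
      intro n
      simp
    · intro x hx
      rw [if_neg]
      intro h
      apply hx
      exact ⟨x.2, by ext <;> simp [h]⟩
  have h6 : HasSum (fun p : ℤ × ℤ => if p.2 = 0 then 1 / (p.1:ℝ) ^ 6 else 0)
      (∑' n : ℤ, 1 / (n:ℝ) ^ 6) := by
    rw [← i3.hasSum_iff]
    · refine hz6.hasSum.congr_fun ?_
      intro n
      simp
    · intro x hx
      rw [if_neg]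
      intro h
      apply hx
      exact ⟨x.1, by ext <;> simp [h]⟩
  have hall := (((((h1.sub h2).sub h3).add h4).add h5).add h6).mul_left (1/3 : ℝ)
  have e : (1/3 : ℝ) * (0 - 0 - 0 + ∑' n : ℤ, 1 / (n:ℝ) ^ 6 + ∑' n : ℤ, 1 / (n:ℝ) ^ 6
      + ∑' n : ℤ, 1 / (n:ℝ) ^ 6) = ∑' n : ℤ, 1 / (n:ℝ) ^ 6 := by ring
  rw [e] at hall
  refine hall.congr_fun ?_
  rintro ⟨a, b⟩
  simp only
  by_cases ha : a = 0
  · subst ha
    by_cases hb : b = 0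
    · subst hb
      simp
    · have hb' : (b:ℝ) ≠ 0 := by exact_mod_cast hb
      simp [hb]
      field_simp
      norm_num
  · have ha' : (a:ℝ) ≠ 0 := by exact_mod_cast ha
    by_cases hb : b = 0
    · subst hb
      simp [ha]
      field_simp
      norm_num
    · have hb' : (b:ℝ) ≠ 0 := by exact_mod_cast hb
      by_cases hab : a + b = 0
      · have hb2 : b = -a := by omega
        subst hb2
        simp [ha]
        field_simp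
        norm_num
      · have hab' : (a:ℝ) + b ≠ 0 := by exact_mod_cast hab
        rw [if_neg ha, if_neg hb, if_neg hab]
        push_cast
        field_simp
        ring

/-- class A: all `m` zero -/
noncomputable def ZagLim_A (y : ℝ) (q : (ℤ × ℤ) × (ℤ × ℤ)) : ℝ :=
  if q.1.1 = 0 ∧ q.2.1 = 0 then ZagLim_g y q else 0

theorem ZagLim_Q0 (y : ℝ) (n : ℤ) : ZagLim_Q y (0, n) = (n:ℝ) ^ 2 := by
  unfold ZagLim_Q
  simp

theorem ZagLim_Asum (y : ℝ) : HasSum (ZagLim_A y) (∑' n : ℤ, 1 / (n:ℝ) ^ 6) := by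
  have i1 : Function.Injective (fun p : ℤ × ℤ => (((0, p.1), (0, p.2)) : (ℤ × ℤ) × (ℤ × ℤ))) := by
    rintro ⟨a, b⟩ ⟨c, d⟩ h
    simp only [Prod.mk.injEq, true_and] at h
    exact Prod.ext h.1 h.2
  rw [← i1.hasSum_iff]
  · refine ZagLim_A0.congr_fun ?_
    rintro ⟨a, b⟩
    simp [ZagLim_A, ZagLim_g, ZagLim_Q0]
  · rintro ⟨⟨a, b⟩, ⟨c, d⟩⟩ hx
    unfold ZagLim_A
    rw [if_neg]
    rintro ⟨h1, h2⟩
    simp only at h1 h2
    subst h1 h2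
    exact hx ⟨(b, d), rfl⟩

/-! e33 -/

theorem ZagLim_e33 {y : ℝ} (hy : 1 ≤ y) :
    ∃ E : ℝ, e33y y = (∑' n : ℤ, 1 / (n:ℝ) ^ 6) + E ∧ 0 ≤ E ∧
      E ≤ 3 * π / y * (1 / y ^ 4 * ∑' m : ℤ, 1 / (m:ℝ) ^ 2) := by
  have hy0 : 0 < y := by linarith
  have hw : ∀ m : ℤ, (1 / (|(m:ℝ)| * y) ^ 4) / |(m:ℝ)| ≤ 1 / y ^ 4 * (1 / (m:ℝ) ^ 2) := by
    intro m
    by_cases hm : m = 0
    · subst hm
      simp
    · have h1 := ZagLim_abs_one hm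
      rw [← sq_abs (m:ℝ), div_div, ← one_div_mul_one_div_rev, mul_pow]
      rw [one_div_mul_one_div_rev, one_div_mul_one_div_rev]
      apply one_div_le_one_div_of_le (by positivity)
      have : |(m:ℝ)| ^ 2 ≤ |(m:ℝ)| ^ 5 := pow_le_pow_right₀ h1 (by norm_num)
      nlinarith [mul_le_mul_of_nonneg_right this (show 0 ≤ y ^ 4 by positivity)]
  have hws : Summable (fun m : ℤ => (1 / (|(m:ℝ)| * y) ^ 4) / |(m:ℝ)|) :=
    Summable.of_nonneg_of_le (fun m => by positivity) hw (ZagLim_sq_summable.mul_left _)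
  have hW := ZagLim_W (fun m => 1 / (|(m:ℝ)| * y) ^ 4) (by simp) (fun m => by positivity) hws hy
  have hle : ∀ p : ℤ × ℤ, (if p.1 = 0 then 0 else 1 / ZagLim_Q y p ^ 3)
      ≤ (1 / (|(p.1:ℝ)| * y) ^ 4) * (1 / ZagLim_Q y p) := by
    intro p
    split_ifs with h
    · have := ZagLim_Q_nonneg y p
      positivity
    · have h1 := ZagLim_abs_one h
      have h2 := ZagLim_Q_ge y p
      have h3 : 0 < (|(p.1:ℝ)| * y) ^ 2 := by positivity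
      have h4 : 0 < ZagLim_Q y p := by linarith
      rw [one_div_mul_one_div_rev]
      apply one_div_le_one_div_of_le (by positivity)
      calc ZagLim_Q y p * (|(p.1:ℝ)| * y) ^ 4
          = ZagLim_Q y p * ((|(p.1:ℝ)| * y) ^ 2 * (|(p.1:ℝ)| * y) ^ 2) := by ring
        _ ≤ ZagLim_Q y p * (ZagLim_Q y p * ZagLim_Q y p) := by gcongr
        _ = _ := by ring
  have hnn : ∀ p : ℤ × ℤ, 0 ≤ (if p.1 = 0 then 0 else 1 / ZagLim_Q y p ^ 3) := by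
    intro p
    have := ZagLim_Q_nonneg y p
    split_ifs <;> positivity
  have hs := Summable.of_nonneg_of_le hnn hle hW.1
  have i2 : Function.Injective (fun a : ℤ => ((0, a) : ℤ × ℤ)) := by
    intro a b h
    exact congrArg Prod.snd h
  have hz6 : Summable (fun n : ℤ => 1 / (n:ℝ) ^ 6) :=
    (Real.summable_one_div_int_pow (p := 6)).mpr (by norm_num)
  have h5 : HasSum (fun p : ℤ × ℤ => if p.1 = 0 then 1 / ZagLim_Q y p ^ 3 else 0)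
      (∑' n : ℤ, 1 / (n:ℝ) ^ 6) := by
    rw [← i2.hasSum_iff]
    · refine hz6.hasSum.congr_fun ?_
      intro n
      simp only [Function.comp, if_true, ZagLim_Q0]
      ring
    · intro x hx
      rw [if_neg]
      intro h
      apply hx
      exact ⟨x.2, by ext <;> simp [h]⟩
  refine ⟨∑' p : ℤ × ℤ, (if p.1 = 0 then 0 else 1 / ZagLim_Q y p ^ 3), ?_, tsum_nonneg hnn, ?_⟩
  · have := h5.add hs.hasSum
    rw [← this.tsum_eq]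
    unfold e33y
    apply tsum_congr
    intro p
    rw [ZagLim_normSq]
    split_ifs <;> simp
  · refine (hs.tsum_le_tsum hle hW.1).trans (hW.2.trans ?_)
    gcongr
    rw [← tsum_mul_left]
    exact hws.tsum_le_tsum hw (ZagLim_sq_summable.mul_left _)


/-! class B -/

/-- one line: `m ≠ 0` -/
theorem ZagLim_G {y : ℝ} (hy : 1 ≤ y) {m : ℤ} (hm : m ≠ 0) (k : ℤ) :
    Summable (fun n : ℤ => 1 / (ZagLim_Q y (m, n) * ZagLim_Q y (m, k + n))) ∧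
    y ^ 3 * ∑' n : ℤ, 1 / (ZagLim_Q y (m, n) * ZagLim_Q y (m, k + n))
      ≤ ZagLim_kap |(k:ℝ)| (|(m:ℝ)| * y) * ZagLim_kap 1 (|(m:ℝ)| * y) ^ 2 * (π / (2 * |(m:ℝ)| ^ 3)) ∧
    π / (2 * |(m:ℝ)| ^ 3) ≤ ZagLim_kap |(k:ℝ)| (|(m:ℝ)| * y) * ZagLim_kap 1 (|(m:ℝ)| * y) ^ 2 *
      (y ^ 3 * ∑' n : ℤ, 1 / (ZagLim_Q y (m, n) * ZagLim_Q y (m, k + n))) ∧
    y ^ 3 * ∑' n : ℤ, 1 / (ZagLim_Q y (m, n) * ZagLim_Q y (m, k + n)) ≤ 3 * π / |(m:ℝ)| ^ 3 := by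
  have h1 := ZagLim_abs_one hm
  have hy0 : 0 < y := by linarith
  have hY : 1 ≤ |(m:ℝ)| * y := by nlinarith
  have hY0 : 0 < |(m:ℝ)| * y := by linarith
  obtain ⟨s1, s2, s3⟩ := ZagLim_S2 ((m:ℝ) / 2) hY0
  have hk0 : 0 ≤ |(k:ℝ)| := abs_nonneg _
  have hkp := ZagLim_kap_pos hk0 hY0
  have hqp : ∀ n : ℤ, 0 < ZagLim_Q y (m, n) := by
    intro n
    have := ZagLim_Q_ge y (m, n)
    have h3 : 0 < (|(m:ℝ)| * y) ^ 2 := by positivity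
    exact lt_of_lt_of_le h3 this
  have hinv1 : ∀ n : ℤ, 1 / ZagLim_Q y (m, k + n)
      ≤ ZagLim_kap |(k:ℝ)| (|(m:ℝ)| * y) * (1 / ZagLim_Q y (m, n)) := by
    intro n
    rw [ZagLim_Q_eq, ZagLim_Q_eq]
    apply ZagLim_kap_inv hk0 hY0
    push_cast
    rw [show (k:ℝ) + n + m / 2 - (n + m / 2) = k by ring]
  have hinv2 : ∀ n : ℤ, 1 / ZagLim_Q y (m, n)
      ≤ ZagLim_kap |(k:ℝ)| (|(m:ℝ)| * y) * (1 / ZagLim_Q y (m, k + n)) := by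
    intro n
    rw [ZagLim_Q_eq, ZagLim_Q_eq]
    apply ZagLim_kap_inv hk0 hY0
    push_cast
    rw [show (n:ℝ) + m / 2 - (k + n + m / 2) = -k by ring, abs_neg]
  have e2 : ∀ n : ℤ, 1 / (((n:ℝ) + (m:ℝ)/2) ^ 2 + (|(m:ℝ)| * y) ^ 2) ^ 2
      = 1 / ZagLim_Q y (m, n) * (1 / ZagLim_Q y (m, n)) := by
    intro n
    rw [ZagLim_Q_eq]
    field_simp
  simp_rw [e2] at s1 s2 s3
  have e3 : ∀ n : ℤ, 1 / (ZagLim_Q y (m, n) * ZagLim_Q y (m, k + n))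
      = 1 / ZagLim_Q y (m, n) * (1 / ZagLim_Q y (m, k + n)) := by
    intro n
    rw [one_div_mul_one_div]
  simp_rw [e3]
  have hle : ∀ n : ℤ, 1 / ZagLim_Q y (m, n) * (1 / ZagLim_Q y (m, k + n))
      ≤ ZagLim_kap |(k:ℝ)| (|(m:ℝ)| * y) * (1 / ZagLim_Q y (m, n) * (1 / ZagLim_Q y (m, n))) := by
    intro n
    have h2 := hinv1 n
    have h3 : 0 ≤ 1 / ZagLim_Q y (m, n) := by
      have := hqp n
      positivity
    nlinarith [mul_le_mul_of_nonneg_left h2 h3]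
  have hge : ∀ n : ℤ, 1 / ZagLim_Q y (m, n) * (1 / ZagLim_Q y (m, n))
      ≤ ZagLim_kap |(k:ℝ)| (|(m:ℝ)| * y) * (1 / ZagLim_Q y (m, n) * (1 / ZagLim_Q y (m, k + n))) := by
    intro n
    have h2 := hinv2 n
    have h3 : 0 ≤ 1 / ZagLim_Q y (m, n) := by
      have := hqp n
      positivity
    nlinarith [mul_le_mul_of_nonneg_left h2 h3]
  have hnn : ∀ n : ℤ, 0 ≤ 1 / ZagLim_Q y (m, n) * (1 / ZagLim_Q y (m, k + n)) := by
    intro n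
    have := hqp n
    have := hqp (k + n)
    positivity
  have hs := Summable.of_nonneg_of_le hnn hle (s1.mul_left _)
  have hc : (0:ℝ) ≤ ZagLim_kap 1 (|(m:ℝ)| * y) := by
    have := ZagLim_kap_pos zero_le_one hY0
    linarith
  have hy3 : y ^ 3 * (π / (2 * (|(m:ℝ)| * y) ^ 3)) = π / (2 * |(m:ℝ)| ^ 3) := by
    field_simp
  refine ⟨hs, ?_, ?_, ?_⟩
  · have h4 := hs.tsum_le_tsum hle (s1.mul_left _)
    rw [tsum_mul_left] at h4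
    calc y ^ 3 * ∑' n : ℤ, 1 / ZagLim_Q y (m, n) * (1 / ZagLim_Q y (m, k + n))
        ≤ y ^ 3 * (ZagLim_kap |(k:ℝ)| (|(m:ℝ)| * y) *
          (ZagLim_kap 1 (|(m:ℝ)| * y) ^ 2 * (π / (2 * (|(m:ℝ)| * y) ^ 3)))) := by
          gcongr
          exact h4.trans (by gcongr)
      _ = ZagLim_kap |(k:ℝ)| (|(m:ℝ)| * y) * ZagLim_kap 1 (|(m:ℝ)| * y) ^ 2
          * (y ^ 3 * (π / (2 * (|(m:ℝ)| * y) ^ 3))) := by ring
      _ = _ := by rw [hy3]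
  · have h4 := s1.tsum_le_tsum hge (hs.mul_left _)
    rw [tsum_mul_left] at h4
    rw [← hy3]
    calc y ^ 3 * (π / (2 * (|(m:ℝ)| * y) ^ 3))
        ≤ y ^ 3 * (ZagLim_kap 1 (|(m:ℝ)| * y) ^ 2 * (ZagLim_kap |(k:ℝ)| (|(m:ℝ)| * y) *
          ∑' n : ℤ, 1 / ZagLim_Q y (m, n) * (1 / ZagLim_Q y (m, k + n)))) := by
          gcongr
          exact s3.trans (by gcongr)
      _ = _ := by ring
  · have hrow := ZagLim_row hy hm
    have hle2 : ∀ n : ℤ, 1 / ZagLim_Q y (m, n) * (1 / ZagLim_Q y (m, k + n))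
        ≤ 1 / (|(m:ℝ)| * y) ^ 2 * (1 / ZagLim_Q y (m, n)) := by
      intro n
      have h2 := hqp n
      have h3 := ZagLim_Q_ge y (m, k + n)
      simp only at h3
      rw [mul_comm]
      gcongr
    have h4 := hs.tsum_le_tsum hle2 (hrow.1.mul_left _)
    rw [tsum_mul_left] at h4
    calc y ^ 3 * ∑' n : ℤ, 1 / ZagLim_Q y (m, n) * (1 / ZagLim_Q y (m, k + n))
        ≤ y ^ 3 * (1 / (|(m:ℝ)| * y) ^ 2 * (3 * π / (|(m:ℝ)| * y))) := by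
          gcongr
          exact h4.trans (by gcongr; exact hrow.2)
      _ = _ := by field_simp

theorem ZagLim_kap_tendsto (d : ℝ) {c : ℝ} (hc : 0 < c) :
    Tendsto (fun y : ℝ => ZagLim_kap d (c * y)) atTop (𝓝 1) := by
  unfold ZagLim_kap
  have h1 : Tendsto (fun y : ℝ => c * y) atTop atTop := tendsto_id.const_mul_atTop hc
  have h2 : Tendsto (fun y : ℝ => d / (c * y)) atTop (𝓝 0) := h1.const_div_atTop d
  have h3 : Tendsto (fun y : ℝ => d ^ 2 / (c * y) ^ 2) atTop (𝓝 0) := by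
    have := h2.pow 2
    simp_rw [div_pow] at this
    simpa using this
  have := (h2.const_add 1).add h3
  simpa using this

theorem ZagLim_Glim {m : ℤ} (hm : m ≠ 0) (k : ℤ) :
    Tendsto (fun y : ℝ => y ^ 3 * ∑' n : ℤ, 1 / (ZagLim_Q y (m, n) * ZagLim_Q y (m, k + n))) atTop
      (𝓝 (π / (2 * |(m:ℝ)| ^ 3))) := by
  have h1 := ZagLim_abs_one hm
  have hm0 : 0 < |(m:ℝ)| := by linarith
  have hK : Tendsto (fun y : ℝ => ZagLim_kap |(k:ℝ)| (|(m:ℝ)| * y) * ZagLim_kap 1 (|(m:ℝ)| * y) ^ 2)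
      atTop (𝓝 1) := by
    have := (ZagLim_kap_tendsto |(k:ℝ)| hm0).mul ((ZagLim_kap_tendsto 1 hm0).pow 2)
    simpa using this
  have hup : Tendsto (fun y : ℝ => ZagLim_kap |(k:ℝ)| (|(m:ℝ)| * y) * ZagLim_kap 1 (|(m:ℝ)| * y) ^ 2
      * (π / (2 * |(m:ℝ)| ^ 3))) atTop (𝓝 (π / (2 * |(m:ℝ)| ^ 3))) := by
    have := hK.mul_const (π / (2 * |(m:ℝ)| ^ 3))
    simpa using this
  have hlo : Tendsto (fun y : ℝ => (π / (2 * |(m:ℝ)| ^ 3)) /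
      (ZagLim_kap |(k:ℝ)| (|(m:ℝ)| * y) * ZagLim_kap 1 (|(m:ℝ)| * y) ^ 2)) atTop
      (𝓝 (π / (2 * |(m:ℝ)| ^ 3))) := by
    have := (tendsto_const_nhds (x := π / (2 * |(m:ℝ)| ^ 3))).div hK (by norm_num)
    rw [div_one] at this
    exact this
  refine tendsto_of_tendsto_of_tendsto_of_le_of_le' hlo hup ?_ ?_
  · filter_upwards [eventually_ge_atTop (1:ℝ)] with y hy
    have hY0 : 0 < |(m:ℝ)| * y := by nlinarith
    have h2 := (ZagLim_G hy hm k).2.2.1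
    have k1 := ZagLim_kap_pos (abs_nonneg (k:ℝ)) hY0
    have k2 := ZagLim_kap_pos zero_le_one hY0
    rw [div_le_iff₀ (by positivity)]
    linarith
  · filter_upwards [eventually_ge_atTop (1:ℝ)] with y hy
    exact (ZagLim_G hy hm k).2.1

/-- class B: first `m` zero, second nonzero -/
noncomputable def ZagLim_B (y : ℝ) (q : (ℤ × ℤ) × (ℤ × ℤ)) : ℝ :=
  if q.1.1 = 0 ∧ q.2.1 ≠ 0 then ZagLim_g y q else 0

/-- the same with indices `((k,m),n)` -/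
noncomputable def ZagLim_b (y : ℝ) (r : (ℤ × ℤ) × ℤ) : ℝ :=
  if r.1.2 = 0 then 0 else 1 / (r.1.1:ℝ) ^ 2 *
    (1 / (ZagLim_Q y (r.1.2, r.2) * ZagLim_Q y (r.1.2, r.1.1 + r.2)))

theorem ZagLim_b_nonneg (y : ℝ) (r : (ℤ × ℤ) × ℤ) : 0 ≤ ZagLim_b y r := by
  unfold ZagLim_b
  have h1 := ZagLim_Q_nonneg y (r.1.2, r.2)
  have h2 := ZagLim_Q_nonneg y (r.1.2, r.1.1 + r.2)
  split_ifs <;> positivity

theorem ZagLim_b_row {y : ℝ} (hy : 1 ≤ y) (p : ℤ × ℤ) :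
    Summable (fun n : ℤ => ZagLim_b y (p, n)) ∧
    y ^ 3 * ∑' n : ℤ, ZagLim_b y (p, n) ≤ 1 / (p.1:ℝ) ^ 2 * (3 * π * (1 / |(p.2:ℝ)| ^ 3)) := by
  unfold ZagLim_b
  simp only
  by_cases hm : p.2 = 0
  · simp [hm]
  · simp only [hm, if_false]
    have h := ZagLim_G hy hm p.1
    refine ⟨h.1.mul_left _, ?_⟩
    rw [tsum_mul_left]
    calc y ^ 3 * (1 / (p.1:ℝ) ^ 2 * ∑' n : ℤ, 1 / (ZagLim_Q y (p.2, n) * ZagLim_Q y (p.2, p.1 + n)))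
        = 1 / (p.1:ℝ) ^ 2 * (y ^ 3 * ∑' n : ℤ, 1 / (ZagLim_Q y (p.2, n) * ZagLim_Q y (p.2, p.1 + n))) := by
          ring
      _ ≤ 1 / (p.1:ℝ) ^ 2 * (3 * π / |(p.2:ℝ)| ^ 3) := by
          gcongr
          exact h.2.2.2
      _ = _ := by ring

theorem ZagLim_bd_summable : Summable (fun p : ℤ × ℤ => 1 / (p.1:ℝ) ^ 2 * (3 * π * (1 / |(p.2:ℝ)| ^ 3))) :=
  Summable.mul_of_nonneg (f := fun k : ℤ => 1 / (k:ℝ) ^ 2)
    (g := fun k : ℤ => 3 * π * (1 / |(k:ℝ)| ^ 3)) ZagLim_sq_summable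
    (ZagLim_cube_summable.mul_left (3 * π))
    (fun m => by positivity) (fun m => by positivity)

theorem ZagLim_b_summable {y : ℝ} (hy : 1 ≤ y) : Summable (ZagLim_b y) := by
  have hy0 : 0 < y := by linarith
  rw [summable_prod_of_nonneg (ZagLim_b_nonneg y)]
  refine ⟨fun p => (ZagLim_b_row hy p).1, ?_⟩
  refine Summable.of_nonneg_of_le (fun p => tsum_nonneg (fun n => ZagLim_b_nonneg y _)) ?_
    ZagLim_bd_summable
  intro p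
  have h := (ZagLim_b_row hy p).2
  have h2 : 0 ≤ ∑' n : ℤ, ZagLim_b y (p, n) := tsum_nonneg (fun n => ZagLim_b_nonneg y _)
  have h3 : 1 ≤ y ^ 3 := one_le_pow₀ hy
  nlinarith

theorem ZagLim_Bsum {y : ℝ} (hy : 1 ≤ y) :
    HasSum (ZagLim_B y) (∑' p : ℤ × ℤ, ∑' n : ℤ, ZagLim_b y (p, n)) := by
  have i1 : Function.Injective
      (fun r : (ℤ × ℤ) × ℤ => (((0, r.1.1), (r.1.2, r.2)) : (ℤ × ℤ) × (ℤ × ℤ))) := by
    rintro ⟨⟨a, b⟩, c⟩ ⟨⟨a', b'⟩, c'⟩ h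
    simp only [Prod.mk.injEq, true_and] at h
    obtain ⟨h1, h2, h3⟩ := h
    subst h1 h2 h3
    rfl
  rw [← i1.hasSum_iff]
  · have h := (ZagLim_b_summable hy).hasSum
    rw [(ZagLim_b_summable hy).tsum_prod] at h
    refine h.congr_fun ?_
    rintro ⟨⟨k, m⟩, n⟩
    by_cases hm : m = 0
    · simp [ZagLim_B, ZagLim_b, hm]
    · simp only [ZagLim_B, ZagLim_b, ZagLim_g, Function.comp, hm, if_false, ne_eq, not_false_eq_true,
        and_self, if_true, ZagLim_Q0]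
      rw [Prod.mk_add_mk, zero_add, mul_assoc, one_div_mul_one_div]
  · rintro ⟨⟨a, b⟩, ⟨c, d⟩⟩ hx
    unfold ZagLim_B
    rw [if_neg]
    rintro ⟨h1, h2⟩
    simp only at h1 h2
    subst h1
    exact hx ⟨((b, c), d), rfl⟩

theorem ZagLim_Blim : Tendsto (fun y : ℝ => y ^ 3 * ∑' p : ℤ × ℤ, ∑' n : ℤ, ZagLim_b y (p, n)) atTop
    (𝓝 (∑' p : ℤ × ℤ, 1 / (p.1:ℝ) ^ 2 * (π / 2 * (1 / |(p.2:ℝ)| ^ 3)))) := by
  have e : (fun y : ℝ => y ^ 3 * ∑' p : ℤ × ℤ, ∑' n : ℤ, ZagLim_b y (p, n))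
      = fun y : ℝ => ∑' p : ℤ × ℤ, (y ^ 3 * ∑' n : ℤ, ZagLim_b y (p, n)) := by
    funext y
    rw [tsum_mul_left]
  rw [e]
  refine tendsto_tsum_of_dominated_convergence ZagLim_bd_summable ?_ ?_
  · intro p
    by_cases hm : p.2 = 0
    · simp [ZagLim_b, hm]
    · have h := (ZagLim_Glim hm p.1).const_mul (1 / (p.1:ℝ) ^ 2)
      rw [show 1 / (p.1:ℝ) ^ 2 * (π / (2 * |(p.2:ℝ)| ^ 3)) = 1 / (p.1:ℝ) ^ 2 * (π / 2 * (1 / |(p.2:ℝ)| ^ 3)) by ring] at h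
      refine h.congr ?_
      intro y
      have e2 : ∀ n : ℤ, ZagLim_b y (p, n) = 1 / (p.1:ℝ) ^ 2 *
          (1 / (ZagLim_Q y (p.2, n) * ZagLim_Q y (p.2, p.1 + n))) := by
        intro n
        unfold ZagLim_b
        simp only [hm, if_false]
      simp_rw [e2]
      rw [tsum_mul_left]
      ring
  · filter_upwards [eventually_ge_atTop (1:ℝ)] with y hy
    intro p
    have h2 : 0 ≤ ∑' n : ℤ, ZagLim_b y (p, n) := tsum_nonneg (fun n => ZagLim_b_nonneg y _)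
    have hy0 : 0 < y := by linarith
    rw [Real.norm_eq_abs, abs_of_nonneg (by positivity)]
    exact (ZagLim_b_row hy p).2

theorem ZagLim_zeta2 : ∑' k : ℤ, 1 / (k:ℝ) ^ 2 = π ^ 2 / 3 := by
  have h1 := hasSum_zeta_two
  have h2 : HasSum (fun n : ℕ => 1 / (((-((n:ℤ)+1) : ℤ)):ℝ) ^ 2) (π ^ 2 / 6) := by
    have h3 := (hasSum_nat_add_iff' 1).mpr h1
    simp only [Finset.range_one, Finset.sum_singleton, Nat.cast_zero] at h3
    have e : π ^ 2 / 6 - 1 / (0:ℝ) ^ 2 = π ^ 2 / 6 := by norm_num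
    rw [e] at h3
    refine h3.congr_fun ?_
    intro n
    push_cast
    rw [neg_sq]
  have h4 := HasSum.of_nat_of_neg_add_one (f := fun k : ℤ => 1 / (k:ℝ) ^ 2) (m := π ^ 2 / 6) (by
    simpa using h1) h2
  rw [h4.tsum_eq]
  ring

theorem ZagLim_zeta3 : ∑' k : ℤ, 1 / |(k:ℝ)| ^ 3 = 2 * ∑' n : ℕ, 1 / ((n : ℝ) + 1) ^ 3 := by
  have hs : Summable (fun n : ℕ => 1 / ((n : ℝ) + 1) ^ 3) := by
    have := (Real.summable_one_div_nat_pow (p := 3)).mpr (by norm_num)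
    have h := (summable_nat_add_iff 1).mpr this
    refine h.congr ?_
    intro n
    push_cast
    rfl
  have h2 : HasSum (fun n : ℕ => 1 / |(((-((n:ℤ)+1) : ℤ)):ℝ)| ^ 3) (∑' n : ℕ, 1 / ((n : ℝ) + 1) ^ 3) := by
    refine hs.hasSum.congr_fun ?_
    intro n
    push_cast
    rw [abs_neg, abs_of_nonneg (by positivity)]
  have h1 : HasSum (fun n : ℕ => 1 / |(((n:ℤ)):ℝ)| ^ 3) (∑' n : ℕ, 1 / ((n : ℝ) + 1) ^ 3) := by
    rw [← hasSum_nat_add_iff' 1]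
    simp only [Finset.range_one, Finset.sum_singleton, Nat.cast_zero, Int.cast_zero, abs_zero]
    rw [show ∑' n : ℕ, 1 / ((n : ℝ) + 1) ^ 3 - 1 / (0:ℝ) ^ 3 = ∑' n : ℕ, 1 / ((n : ℝ) + 1) ^ 3 by norm_num]
    refine hs.hasSum.congr_fun ?_
    intro n
    push_cast
    rw [abs_of_nonneg (by positivity)]
  have h4 := HasSum.of_nat_of_neg_add_one (f := fun k : ℤ => 1 / |(k:ℝ)| ^ 3) h1 h2
  rw [h4.tsum_eq]
  ring

theorem ZagLim_Bval : ∑' p : ℤ × ℤ, 1 / (p.1:ℝ) ^ 2 * (π / 2 * (1 / |(p.2:ℝ)| ^ 3))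
    = π ^ 3 * (∑' n : ℕ, 1 / ((n : ℝ) + 1) ^ 3) / 3 := by
  have hs : Summable (fun p : ℤ × ℤ => 1 / (p.1:ℝ) ^ 2 * (π / 2 * (1 / |(p.2:ℝ)| ^ 3))) :=
    Summable.mul_of_nonneg (f := fun k : ℤ => 1 / (k:ℝ) ^ 2)
      (g := fun k : ℤ => π / 2 * (1 / |(k:ℝ)| ^ 3)) ZagLim_sq_summable
      (ZagLim_cube_summable.mul_left (π / 2))
      (fun m => by positivity) (fun m => by positivity)
  rw [← ZagLim_sq_summable.tsum_mul_tsum (ZagLim_cube_summable.mul_left (π / 2)) hs, tsum_mul_left,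
    ZagLim_zeta2, ZagLim_zeta3]
  ring

/-- `(a, b) ↦ (a + b, -b)` -/
def ZagLim_e3 : (ℤ × ℤ) × (ℤ × ℤ) ≃ (ℤ × ℤ) × (ℤ × ℤ) where
  toFun q := (q.1 + q.2, -q.2)
  invFun q := (q.1 + q.2, -q.2)
  left_inv q := by simp
  right_inv q := by simp

theorem ZagLim_Q_neg (y : ℝ) (p : ℤ × ℤ) : ZagLim_Q y (-p) = ZagLim_Q y p := by
  unfold ZagLim_Q
  simp only [Prod.fst_neg, Prod.snd_neg]
  push_cast
  ring

theorem ZagLim_split (y : ℝ) (q : (ℤ × ℤ) × (ℤ × ℤ)) :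
    ZagLim_g y q = ZagLim_A y q + ZagLim_B y q + ZagLim_B y (q.2, q.1)
      + ZagLim_B y (ZagLim_e3 q) + ZagLim_D y q := by
  have h1 : ZagLim_g y (q.2, q.1) = ZagLim_g y q := by
    unfold ZagLim_g
    rw [add_comm q.2 q.1]
    ring
  have h2 : ZagLim_g y (ZagLim_e3 q) = ZagLim_g y q := by
    unfold ZagLim_g ZagLim_e3
    simp only [Equiv.coe_fn_mk]
    rw [ZagLim_Q_neg, add_neg_cancel_right]
    ring
  unfold ZagLim_A ZagLim_B ZagLim_D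
  rw [h1, h2]
  simp only [ZagLim_e3, Equiv.coe_fn_mk, Prod.fst_add, Prod.fst_neg]
  by_cases ha : q.1.1 = 0
  · by_cases hb : q.2.1 = 0
    · simp [ha, hb]
    · simp [ha, hb]
  · by_cases hb : q.2.1 = 0
    · simp [ha, hb]
    · by_cases hc : q.1.1 + q.2.1 = 0
      · simp [ha, hb, hc]
      · simp [ha, hb, hc]

theorem ZagLim_n0 {y : ℝ} (hy : 1 ≤ y) :
    n0y y = (∑' n : ℤ, 1 / (n:ℝ) ^ 6) + 3 * (∑' p : ℤ × ℤ, ∑' n : ℤ, ZagLim_b y (p, n))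
      + ∑' q, ZagLim_D y q := by
  have hA := ZagLim_Asum y
  have hB := ZagLim_Bsum hy
  have hB2 : HasSum (fun q : (ℤ × ℤ) × (ℤ × ℤ) => ZagLim_B y (q.2, q.1))
      (∑' p : ℤ × ℤ, ∑' n : ℤ, ZagLim_b y (p, n)) :=
    ((Equiv.prodComm (ℤ × ℤ) (ℤ × ℤ)).hasSum_iff (f := ZagLim_B y)).mpr hB
  have hB3 : HasSum (fun q : (ℤ × ℤ) × (ℤ × ℤ) => ZagLim_B y (ZagLim_e3 q))
      (∑' p : ℤ × ℤ, ∑' n : ℤ, ZagLim_b y (p, n)) :=
    (ZagLim_e3.hasSum_iff (f := ZagLim_B y)).mpr hB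
  have hD := (ZagLim_Dsum hy).1.hasSum
  have hall := ((((hA.add hB).add hB2).add hB3).add hD)
  have h := hall.tsum_eq
  unfold n0y
  have e : ∀ q : (ℤ × ℤ) × (ℤ × ℤ),
      1 / (Complex.normSq (lx y q.1) * Complex.normSq (lx y q.2) * Complex.normSq (lx y (q.1 + q.2)))
      = ZagLim_A y q + ZagLim_B y q + ZagLim_B y (q.2, q.1)
      + ZagLim_B y (ZagLim_e3 q) + ZagLim_D y q := by
    intro q
    rw [← ZagLim_split]
    unfold ZagLim_g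
    rw [ZagLim_normSq, ZagLim_normSq, ZagLim_normSq]
  simp_rw [e]
  rw [h]
  ring

theorem zag_lim : Tendsto (fun y : ℝ => y ^ 3 * (n0y y - e33y y)) atTop
    (𝓝 (π ^ 3 * ∑' n : ℕ, 1 / ((n : ℝ) + 1) ^ 3)) := by
  have hB := ZagLim_Blim
  rw [ZagLim_Bval] at hB
  have hB3 := hB.const_mul 3
  rw [show 3 * (π ^ 3 * (∑' n : ℕ, 1 / ((n : ℝ) + 1) ^ 3) / 3)
    = π ^ 3 * ∑' n : ℕ, 1 / ((n : ℝ) + 1) ^ 3 by ring] at hB3
  set Z := ∑' m : ℤ, 1 / (m:ℝ) ^ 2 with hZ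
  have hZ0 : 0 ≤ Z := tsum_nonneg (fun m => by positivity)
  have hdiff : Tendsto (fun y : ℝ => y ^ 3 * (n0y y - e33y y)
      - 3 * (y ^ 3 * ∑' p : ℤ × ℤ, ∑' n : ℤ, ZagLim_b y (p, n))) atTop (𝓝 0) := by
    have hz : Tendsto (fun y : ℝ => (27 * π ^ 2 * Z ^ 2 + 3 * π * Z) / y) atTop (𝓝 0) :=
      tendsto_id.const_div_atTop _
    refine squeeze_zero_norm' ?_ hz
    filter_upwards [eventually_ge_atTop (1:ℝ)] with y hy
    have hy0 : 0 < y := by linarith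
    obtain ⟨E, hE1, hE2, hE3⟩ := ZagLim_e33 hy
    have hD := (ZagLim_Dsum hy).2
    have hD0 : 0 ≤ ∑' q, ZagLim_D y q := tsum_nonneg (ZagLim_D_nonneg y)
    rw [ZagLim_n0 hy, hE1]
    rw [show y ^ 3 * ((∑' n : ℤ, 1 / (n:ℝ) ^ 6) + 3 * (∑' p : ℤ × ℤ, ∑' n : ℤ, ZagLim_b y (p, n))
      + ∑' q, ZagLim_D y q - ((∑' n : ℤ, 1 / (n:ℝ) ^ 6) + E))
      - 3 * (y ^ 3 * ∑' p : ℤ × ℤ, ∑' n : ℤ, ZagLim_b y (p, n))
      = y ^ 3 * (∑' q, ZagLim_D y q) - y ^ 3 * E by ring]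
    rw [Real.norm_eq_abs]
    have a1 : 0 ≤ y ^ 3 * (∑' q, ZagLim_D y q) := by positivity
    have a2 : 0 ≤ y ^ 3 * E := by positivity
    have b1 : y ^ 3 * (∑' q, ZagLim_D y q) ≤ 27 * π ^ 2 * Z ^ 2 / y := by
      calc y ^ 3 * (∑' q, ZagLim_D y q) ≤ y ^ 3 * (3 * (3 * π / y * (1 / y * Z)) ^ 2) := by gcongr
        _ = _ := by field_simp; ring
    have b2 : y ^ 3 * E ≤ 3 * π * Z / y := by
      calc y ^ 3 * E ≤ y ^ 3 * (3 * π / y * (1 / y ^ 4 * Z)) := by gcongr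
        _ = (3 * π * Z) / y ^ 2 := by field_simp
        _ ≤ 3 * π * Z / y := by
          apply div_le_div_of_nonneg_left (by positivity) hy0
          nlinarith
    rw [add_div]
    rw [abs_le]
    constructor
    · have : 0 ≤ 27 * π ^ 2 * Z ^ 2 / y := by positivity
      linarith
    · have : 0 ≤ 3 * π * Z / y := by positivity
      linarith
  have := hdiff.add hB3
  rw [zero_add] at this
  refine this.congr ?_
  intro y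
  ring

end MM7
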