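import Pool.Agent.MM7.ZagDer
import Pool.Agent.MM7.ZagLim
import Pool.Agent.MM7.Arith4

/-!
# MM7, Part 4, module Zagier

y³(n0y - e33y) has derivative 0 on (0,∞), so it is constant, equal to its limit π³ ζ(3). At y = √7/2: lx (√7/2) (m,n) = xx (n,m),
so n0y = WS w1 NNk and e33y = E33 (reindex by swapping coordinates): WS w1 NNk - E33 = π³ζ(3) / (√7/2)³ = 8π³ζ(3)/(7√7).
-/

open Real MeasureTheory Set Filter Topology

namespace MM7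

theorem lx_eq_xx (p : ℤ × ℤ) : lx (√7 / 2) p = xx p.swap := by
  unfold lx xx om rt
  simp only [Prod.fst_swap, Prod.snd_swap]
  push_cast
  ring

theorem NNk_eq_ofReal (a b : ℂ) : NNk a b =
    ((1 / (Complex.normSq a * Complex.normSq b * Complex.normSq (a + b)) : ℝ) : ℂ) := by
  unfold NNk
  rw [Complex.mul_conj, Complex.mul_conj, Complex.mul_conj]
  push_cast
  rfl

theorem n0y_sqrt : ((n0y (√7 / 2) : ℝ) : ℂ) = WS w1 NNk := by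
  unfold n0y WS w1
  rw [Complex.ofReal_tsum]
  rw [← Equiv.tsum_eq (Equiv.prodCongr (Equiv.prodComm ℤ ℤ) (Equiv.prodComm ℤ ℤ))
    (fun q : (ℤ × ℤ) × (ℤ × ℤ) => ((1 : ℝ) : ℂ) * NNk (xx q.1) (xx q.2))]
  refine tsum_congr fun q => ?_
  rw [NNk_eq_ofReal, lx_eq_xx, lx_eq_xx, lx_eq_xx]
  have h1 : (Equiv.prodCongr (Equiv.prodComm ℤ ℤ) (Equiv.prodComm ℤ ℤ)) q = (q.1.swap, q.2.swap) := rfl
  have h2 : (q.1 + q.2).swap = q.1.swap + q.2.swap := rfl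
  rw [h1, h2, xx_add]
  simp

theorem e33y_sqrt : e33y (√7 / 2) = E33 := by
  unfold e33y E33
  rw [← Equiv.tsum_eq (Equiv.prodComm ℤ ℤ) (fun p : ℤ × ℤ => 1 / Complex.normSq (xx p) ^ 3)]
  refine tsum_congr fun p => ?_
  rw [lx_eq_xx]
  rfl

theorem zag_const : (√7 / 2) ^ 3 * (n0y (√7 / 2) - e33y (√7 / 2)) =
    π ^ 3 * ∑' n : ℕ, 1 / ((n : ℝ) + 1) ^ 3 := by
  have hd : ∀ y ∈ Ioi (0 : ℝ), HasDerivAt (fun y : ℝ => y ^ 3 * (n0y y - e33y y)) 0 y := by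
    intro y hy
    have h := (n0y_hasDerivAt (mem_Ioi.1 hy)).sub (e33y_hasDerivAt (mem_Ioi.1 hy))
    rw [sub_self] at h
    refine h.congr_of_eventuallyEq (Eventually.of_forall fun z => ?_)
    simp only [Pi.sub_apply]
    ring
  have h7 : (√7 / 2 : ℝ) ∈ Ioi (0 : ℝ) := by
    rw [mem_Ioi]; positivity
  have hc : ∀ y ∈ Ioi (0 : ℝ), y ^ 3 * (n0y y - e33y y) =
      (√7 / 2) ^ 3 * (n0y (√7 / 2) - e33y (√7 / 2)) := by
    intro y hy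
    exact isOpen_Ioi.is_const_of_deriv_eq_zero isPreconnected_Ioi
      (fun z hz => (hd z hz).differentiableAt.differentiableWithinAt)
      (fun z hz => (hd z hz).deriv) hy h7
  refine tendsto_nhds_unique ?_ zag_lim
  refine tendsto_const_nhds.congr' ?_
  filter_upwards [eventually_gt_atTop (0 : ℝ)] with y hy
  exact (hc y hy).symm

theorem zagier : WS w1 NNk = (E33 : ℂ) +
    ((8 * π ^ 3 / (7 * √7) * ∑' n : ℕ, 1 / ((n : ℝ) + 1) ^ 3 : ℝ) : ℂ) := by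
  have h := zag_const
  rw [e33y_sqrt] at h
  rw [← n0y_sqrt, ← Complex.ofReal_add]
  congr 1
  have h3 : (√7 / 2 : ℝ) ^ 3 = 7 * √7 / 8 := by
    have h1 : √7 ^ 2 = (7 : ℝ) := Real.sq_sqrt (by norm_num)
    calc (√7 / 2 : ℝ) ^ 3 = √7 ^ 2 * √7 / 8 := by ring
      _ = 7 * √7 / 8 := by rw [h1]
  have h4 : (7 * √7 / 8 : ℝ) ≠ 0 := by positivity
  rw [h3] at h
  have h5 : n0y (√7 / 2) - E33 = (π ^ 3 * ∑' n : ℕ, 1 / ((n : ℝ) + 1) ^ 3) / (7 * √7 / 8) := by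
    rw [eq_div_iff h4, mul_comm]; exact h
  have h6 : (8 * π ^ 3 / (7 * √7) * ∑' n : ℕ, 1 / ((n : ℝ) + 1) ^ 3 : ℝ) =
      (π ^ 3 * ∑' n : ℕ, 1 / ((n : ℝ) + 1) ^ 3) / (7 * √7 / 8) := by
    field_simp
  rw [h6, ← h5]
  ring

end MM7
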