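import Pool.Agent.MM7.Asm33
import Pool.Agent.MM7.Asm42
import Pool.Agent.MM7.Indic
import Pool.Agent.MM7.Conv4
import Pool.Agent.MM7.Zagier

/-!
# MM7, Part 4, module Part4

part4A: Aser √7 = -(49/(128√7)) * 2 Im(R - Q/4) = -(49/(64√7)) (7√7/256) E33 = -(343/16384) E33.
part4B: Bser √7 = -(49/(64√7)) * (-(7√7/64) E42.re) = 343/4096 E42.re.
part4Z: 57/8 E33 = E33 + 8π³ζ(3)/(7√7), so E33 = (8/49) * 8π³ζ(3)/(7√7) = 64π³ζ(3)/(343√7).
-/

open Real MeasureTheory Set Filter Topology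

namespace MM7

theorem Part4_im : (7 * rt / 256 * (E33 : ℂ)).im = 7 * √7 / 256 * E33 := by
  have h : (7 * rt / 256 * (E33 : ℂ)) = ((7 * √7 / 256 * E33 : ℝ) : ℂ) * Complex.I := by
    unfold rt
    push_cast
    ring
  rw [h, Complex.mul_im]
  simp

theorem part4A : Aser (√7) = -(343 / 16384) * E33 := by
  have h7 : √7 ≠ 0 := by positivity
  rw [Aser_conv, wom33, asm33.2, Part4_im]
  field_simp
  ring

theorem part4B : Bser (√7) = 343 / 4096 * E42.re := by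
  have h7 : √7 ≠ 0 := by positivity
  rw [Bser_conv, wom42, asm42]
  field_simp
  ring

theorem part4Z : E33 = 64 * π ^ 3 / (343 * √7) * ∑' n : ℕ, 1 / ((n : ℝ) + 1) ^ 3 := by
  have h7 : √7 ≠ 0 := by positivity
  have h := zagier
  rw [asm33.1] at h
  generalize (∑' n : ℕ, 1 / ((n : ℝ) + 1) ^ 3) = ζ at h ⊢
  have h2 : 57 / 8 * E33 = E33 + 8 * π ^ 3 / (7 * √7) * ζ := by
    have h3 : ((57 / 8 * E33 : ℝ) : ℂ) = ((E33 + 8 * π ^ 3 / (7 * √7) * ζ : ℝ) : ℂ) := by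
      rw [Complex.ofReal_add, ← h]
      push_cast
      ring
    exact Complex.ofReal_injective h3
  have h3 : E33 = 8 / 49 * (8 * π ^ 3 / (7 * √7) * ζ) := by linarith
  rw [h3]
  field_simp
  ring

end MM7
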