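import Pool.Agent.MM7.Part3
import Pool.Agent.MM7.Part4
import Pool.Agent.MM7T.Main
import Pool.Agent.MM7L.Main

/-!
# MM7: final computation, with the Mahler measure side (Part A) as hypotheses
-/

open Real MeasureTheory Set Filter Topology

namespace MM7

/-- the integral against `y² - 7` -/
theorem int_minus
    (hc : ContinuousOn (fun t => Real.log (ww t) * Psi t) (Ioi 0))
    (hi : IntegrableOn (fun t => t ^ 2 * (Real.log (ww t) * Psi t)) (Ioi 1))
    (h0 : ∫ t in Ioi (1:ℝ), (t ^ 2 - 1) * (Real.log (ww t) * Psi t) = 0) :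
    ∫ t in Ioi (√7), (t ^ 2 - 7) * (Real.log (ww t) * Psi t)
      = -6 * (∑' n : ℕ, 1 / ((n : ℝ) + 1) ^ 3) / π ^ 2 := by
  have h3 := (part3 (fun y hy => Eser_eq hy) (fun y hy => Gser_im hy) hc hi h0).1
  have h7 : (0:ℝ) < √7 := by positivity
  have hpi : (0:ℝ) < π := Real.pi_pos
  have hsq : √7 ^ 2 = (7:ℝ) := Real.sq_sqrt (by norm_num)
  rw [part4A, part4Z] at h3
  set I := ∫ t in Ioi (√7), (t ^ 2 - 7) * (Real.log (ww t) * Psi t)
  set Z := ∑' n : ℕ, 1 / ((n : ℝ) + 1) ^ 3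
  have h : I = -(343 / 16384) * (64 * π ^ 3 / (343 * √7) * Z) * (1536 * √7 / π ^ 5) := by
    rw [h3]; field_simp
  rw [h]; field_simp; ring

/-- the integral against `y² + 7` -/
theorem int_plus
    (hc : ContinuousOn (fun t => Real.log (ww t) * Psi t) (Ioi 0))
    (hi : IntegrableOn (fun t => t ^ 2 * (Real.log (ww t) * Psi t)) (Ioi 1))
    (h0 : ∫ t in Ioi (1:ℝ), (t ^ 2 - 1) * (Real.log (ww t) * Psi t) = 0) :
    ∫ t in Ioi (√7), (t ^ 2 + 7) * (Real.log (ww t) * Psi t)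
      = -(1029 * √7 / (8 * π ^ 5)) * E42.re := by
  have h3 := (part3 (fun y hy => Eser_eq hy) (fun y hy => Gser_im hy) hc hi h0).2
  have h7 : (0:ℝ) < √7 := by positivity
  have hpi : (0:ℝ) < π := Real.pi_pos
  rw [part4B] at h3
  set I := ∫ t in Ioi (√7), (t ^ 2 + 7) * (Real.log (ww t) * Psi t)
  have h : I = -(343 / 4096 * E42.re) * (1536 * √7 / π ^ 5) := by
    rw [h3]; field_simp
  rw [h]; field_simp; ring

theorem zeta_three_tsum : (riemannZeta 3) = ((∑' n : ℕ, 1 / ((n : ℝ) + 1) ^ 3 : ℝ) : ℂ) := by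
  have h := zeta_eq_tsum_one_div_nat_add_one_cpow (s := 3) (by norm_num)
  rw [h]
  push_cast
  refine tsum_congr fun n => ?_
  rw [show (3:ℂ) = ((3:ℕ):ℂ) by norm_num, Complex.cpow_natCast]

theorem deriv_eq {L : ℂ → ℂ} (hL : Differentiable ℂ L)
    (h : ∀ s : ℂ, 2 < s.re → L s = Lser s) :
    deriv L (-1) = -(((147 * √7 / (32 * π ^ 5)) * E42.re : ℝ) : ℂ) := by
  rw [L_deriv L hL h]
  have hE : E42 = (E42.re : ℂ) := by
    apply Complex.ext <;> simp [E42_real]
  have h1 : (3 * (7:ℝ) ^ (5/2:ℝ) * (2 * π) ^ (-5:ℤ)) = 147 * √7 / (32 * π ^ 5) := by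
    have h7 : (7:ℝ) ^ (5/2:ℝ) = 49 * √7 := by
      rw [show (5/2:ℝ) = 2 + 1/2 by norm_num, Real.rpow_add (by norm_num), ← Real.sqrt_eq_rpow]
      norm_num
    rw [h7]
    have hpi : π ≠ 0 := Real.pi_ne_zero
    rw [zpow_neg]
    field_simp
    norm_num
  rw [h1]
  conv_lhs => rw [hE]
  push_cast
  ring

theorem final_of
    (hA : mahler = -(1 / 2) * ∫ y in Ioi (√7), (y ^ 2 - 1) * Real.log (ww y) * Psi y)
    (hc : ContinuousOn (fun t => Real.log (ww t) * Psi t) (Ioi 0))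
    (hi : IntegrableOn (fun t => t ^ 2 * (Real.log (ww t) * Psi t)) (Ioi 1))
    (h0 : ∫ t in Ioi (1:ℝ), (t ^ 2 - 1) * (Real.log (ww t) * Psi t) = 0)
    {L : ℂ → ℂ} (hL : Differentiable ℂ L) (h : ∀ s : ℂ, 2 < s.re → L s = Lser s) :
    (mahler : ℂ) = -6 * deriv L (-1) - 48 / 7 * deriv riemannZeta (-2) := by
  have hpi : (0:ℝ) < π := Real.pi_pos
  have h17 : (1:ℝ) ≤ √7 := by
    rw [show (1:ℝ) = √1 by simp]; exact Real.sqrt_le_sqrt (by norm_num)
  have hi7 : IntegrableOn (fun t => t ^ 2 * (Real.log (ww t) * Psi t)) (Ioi (√7)) :=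
    hi.mono_set (Ioi_subset_Ioi h17)
  have hs7 : IntegrableOn (fun t => Real.log (ww t) * Psi t) (Ioi (√7)) := by
    refine Integrable.mono hi7 ?_ ?_
    · refine ContinuousOn.aestronglyMeasurable (hc.mono ?_) measurableSet_Ioi
      intro t ht; exact lt_trans (by positivity) (mem_Ioi.mp ht)
    · refine (ae_restrict_iff' measurableSet_Ioi).mpr (Eventually.of_forall fun t ht => ?_)
      have ht1 : (1:ℝ) ≤ t := le_trans h17 (le_of_lt (mem_Ioi.mp ht))
      rw [norm_mul (t ^ 2)]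
      have : (1:ℝ) ≤ ‖t ^ 2‖ := by
        rw [Real.norm_of_nonneg (by positivity)]; nlinarith
      nlinarith [norm_nonneg (Real.log (ww t) * Psi t)]
  have e1 : ∫ y in Ioi (√7), (y ^ 2 - 1) * Real.log (ww y) * Psi y
      = 4 / 7 * (∫ t in Ioi (√7), (t ^ 2 - 7) * (Real.log (ww t) * Psi t))
        + 3 / 7 * (∫ t in Ioi (√7), (t ^ 2 + 7) * (Real.log (ww t) * Psi t)) := by
    rw [← integral_const_mul, ← integral_const_mul, ← integral_add]
    · refine setIntegral_congr_fun measurableSet_Ioi fun t _ => ?_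
      ring
    · refine Integrable.const_mul ?_ _
      have : (fun t => (t ^ 2 - 7) * (Real.log (ww t) * Psi t))
          = fun t => t ^ 2 * (Real.log (ww t) * Psi t) - 7 * (Real.log (ww t) * Psi t) := by
        funext t; ring
      rw [this]; exact hi7.sub (hs7.const_mul 7)
    · refine Integrable.const_mul ?_ _
      have : (fun t => (t ^ 2 + 7) * (Real.log (ww t) * Psi t))
          = fun t => t ^ 2 * (Real.log (ww t) * Psi t) + 7 * (Real.log (ww t) * Psi t) := by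
        funext t; ring
      rw [this]; exact hi7.add (hs7.const_mul 7)
  rw [int_minus hc hi h0, int_plus hc hi h0] at e1
  rw [hA, e1, deriv_eq hL h, zeta_deriv, zeta_three_tsum]
  push_cast
  have hpc : (π : ℂ) ≠ 0 := by exact_mod_cast Real.pi_ne_zero
  field_simp
  ring

end MM7
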