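import Pool.Agent.MM7.Summ
import Pool.Agent.MM7.Bound3
import Pool.Agent.MM7.DerA

/-!
# MM7, Part 3, module Growth

Tannery / dominated convergence (tendsto_tsum_of_dominated_convergence) for Aterm q y / y, y ≥ 1 (Aterm q = 0 unless
m1,n1 odd, m2,n2 even, (m2,n2) ≠ 0, so m1,n1,m3,n3 are odd, hence nonzero).
Here: |Aterm q y| ≤ κ(q1) (κ(q2) + κ(q3)) for y ≥ 1, κ(m, n) = (max(|m|,1) max(|n|,1))^(-3/2), so Aser is
bounded on [1, ∞). With h(n)² = max(|n|,1), L_i² = P_i, Y² = y: L_i ≥ h(m_i) h(n_i) Y if m_i ≠ 0, L_i ≥ |m_i| Y².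
Case m2 ≠ 0: |Aterm| ≤ y³ / (L1³ L2² L3) ≤ y³ L1^(-3) (L2^(-3) + L3^(-3)).
Case m2 = 0: |Aterm| = y⁴ |m1| / (L1⁴ |n2| L3²), L1⁴ ≥ (h(m1) h(n1) Y)³ |m1| Y², L3² ≥ h(m1) h(n3) Y |m1| Y².
-/

open Real MeasureTheory Set Filter Topology

namespace MM7

private noncomputable def growH (n : ℤ) : ℝ := √(max |(n : ℝ)| 1)

private noncomputable def growK (p : ℤ × ℤ) : ℝ := 1 / (growH p.1 ^ 3) * (1 / (growH p.2 ^ 3))

private theorem growH_one (n : ℤ) : 1 ≤ growH n := by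
  unfold growH
  rw [Real.one_le_sqrt]
  exact le_max_right _ _

private theorem growH_sq (n : ℤ) : growH n ^ 2 = max |(n : ℝ)| 1 := by
  unfold growH
  exact Real.sq_sqrt (le_trans zero_le_one (le_max_right _ _))

private theorem grow_abs {n : ℤ} (h : n ≠ 0) : 1 ≤ |(n : ℝ)| := by
  have := Int.one_le_abs h
  exact_mod_cast this

private theorem growH_sq' {n : ℤ} (h : n ≠ 0) : growH n ^ 2 = |(n : ℝ)| := by
  rw [growH_sq, max_eq_left (grow_abs h)]

private theorem growK_nonneg (p : ℤ × ℤ) : 0 ≤ growK p := by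
  have h1 := growH_one p.1
  have h2 := growH_one p.2
  unfold growK
  positivity

private theorem grow_summ1 : Summable fun n : ℤ => 1 / (growH n ^ 3) := by
  have h1 : Summable fun n : ℤ => |(n : ℝ)| ^ (-(3 / 2) : ℝ) :=
    Real.summable_abs_int_rpow (by norm_num)
  have h2 : Summable fun n : ℤ => if n = 0 then (1 : ℝ) else 0 := (hasSum_ite_eq (0 : ℤ) (1 : ℝ)).summable
  refine Summable.of_nonneg_of_le (fun n => ?_) (fun n => ?_) (h1.add h2)
  · have := growH_one n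
    positivity
  · by_cases hn : n = 0
    · subst hn
      have : growH 0 = 1 := by
        unfold growH
        norm_num
      rw [this]
      simp
    · simp only [hn, if_false, add_zero]
      unfold growH
      rw [max_eq_left (grow_abs hn), Real.sqrt_eq_rpow, ← Real.rpow_natCast, ← Real.rpow_mul (abs_nonneg _),
        Real.rpow_neg (abs_nonneg _), one_div]
      norm_num

private theorem grow_summ2 : Summable growK := by
  have h0 : ∀ n : ℤ, 0 ≤ 1 / (growH n ^ 3) := fun n => by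
    have := growH_one n
    positivity
  exact Summable.mul_of_nonneg (f := fun n : ℤ => 1 / (growH n ^ 3))
    (g := fun n : ℤ => 1 / (growH n ^ 3)) grow_summ1 grow_summ1 h0 h0

private theorem grow_summ12 : Summable fun q : (ℤ × ℤ) × (ℤ × ℤ) => growK q.1 * growK q.2 :=
  Summable.mul_of_nonneg (f := growK) (g := growK) grow_summ2 grow_summ2 growK_nonneg growK_nonneg

private theorem grow_summ13 :
    Summable fun q : (ℤ × ℤ) × (ℤ × ℤ) => growK q.1 * growK (q.1 + q.2) := by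
  exact (Summ_e1.summable_iff
    (f := fun q : (ℤ × ℤ) × (ℤ × ℤ) => growK q.1 * growK q.2)).mpr grow_summ12

private theorem grow_low1 {y : ℝ} (_hy : 1 ≤ y) (p : ℤ × ℤ) : |(p.1 : ℝ)| * y ≤ √(Pf y p) := by
  apply Real.le_sqrt_of_sq_le
  unfold Pf
  rw [mul_pow, sq_abs]
  nlinarith [sq_nonneg (p.2 : ℝ)]

private theorem grow_low2 {y : ℝ} (hy : 1 ≤ y) (p : ℤ × ℤ) (hp : p.1 ≠ 0) :
    growH p.1 * growH p.2 * √y ≤ √(Pf y p) := by
  apply Real.le_sqrt_of_sq_le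
  rw [mul_pow, mul_pow, growH_sq' hp, growH_sq, Real.sq_sqrt (by linarith)]
  unfold Pf
  have h1 := grow_abs hp
  have h2 : (p.1 : ℝ) ^ 2 = |(p.1 : ℝ)| ^ 2 := (sq_abs _).symm
  have h3 : (p.2 : ℝ) ^ 2 = |(p.2 : ℝ)| ^ 2 := (sq_abs _).symm
  rw [h2, h3]
  rcases le_total |(p.2 : ℝ)| 1 with h | h
  · rw [max_eq_right h]
    have h4 : 1 ≤ |(p.1 : ℝ)| * y := one_le_mul_of_one_le_of_one_le h1 hy
    nlinarith [sq_nonneg |(p.2 : ℝ)|, sq_nonneg (|(p.1 : ℝ)| * y - 1)]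
  · rw [max_eq_left h]
    nlinarith [sq_nonneg (|(p.1 : ℝ)| * y - |(p.2 : ℝ)|),
      mul_nonneg (mul_nonneg (abs_nonneg (p.1 : ℝ)) (by linarith : (0 : ℝ) ≤ y)) (abs_nonneg (p.2 : ℝ))]

private theorem grow_chi (n : ℤ) : |chi n| ≤ 1 := by
  unfold chi
  rw [ZMod.χ₄_int_eq_if_mod_four]
  split_ifs <;> norm_num

private theorem grow_chi0 {n : ℤ} (h : chi n ≠ 0) : n ≠ 0 ∧ Odd n := by
  unfold chi at h
  rw [ZMod.χ₄_int_eq_if_mod_four] at h
  have h1 : n % 2 ≠ 0 := by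
    intro h0
    rw [if_pos h0] at h
    simp at h
  have h2 : Odd n := Int.odd_iff.2 (by omega)
  refine ⟨?_, h2⟩
  rintro rfl
  simp at h1

private theorem grow_ev (n : ℤ) : |ev n| ≤ 1 := by
  unfold ev
  split_ifs <;> norm_num

private theorem grow_ev0 {n : ℤ} (h : ev n ≠ 0) : Even n := by
  by_contra hn
  apply h
  unfold ev
  rw [if_neg hn]

private theorem grow_young {a b : ℝ} (ha : 0 < a) (hb : 0 < b) :
    1 / (a ^ 2 * b) ≤ 1 / a ^ 3 + 1 / b ^ 3 := by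
  rcases le_total a b with h | h
  · have h1 : 1 / (a ^ 2 * b) ≤ 1 / a ^ 3 := by
      apply one_div_le_one_div_of_le (by positivity)
      nlinarith [mul_le_mul_of_nonneg_left h (by positivity : (0:ℝ) ≤ a ^ 2)]
    have h2 : 0 ≤ 1 / b ^ 3 := by positivity
    linarith
  · have h1 : 1 / (a ^ 2 * b) ≤ 1 / b ^ 3 := by
      apply one_div_le_one_div_of_le (by positivity)
      have : b ^ 2 ≤ a ^ 2 := pow_le_pow_left₀ hb.le h 2
      nlinarith [mul_le_mul_of_nonneg_right this hb.le]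
    have h2 : 0 ≤ 1 / a ^ 3 := by positivity
    linarith

private theorem grow_main {y : ℝ} (hy : 1 ≤ y) (q : (ℤ × ℤ) × (ℤ × ℤ)) :
    |Aterm q y| ≤ growK q.1 * growK q.2 + growK q.1 * growK (q.1 + q.2) := by
  have hRnn : 0 ≤ growK q.1 * growK q.2 + growK q.1 * growK (q.1 + q.2) :=
    add_nonneg (mul_nonneg (growK_nonneg _) (growK_nonneg _)) (mul_nonneg (growK_nonneg _) (growK_nonneg _))
  by_cases h0 : Aterm q y = 0
  · rw [h0, abs_zero]
    exact hRnn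
  have hy0 : 0 < y := by linarith
  obtain ⟨⟨m1, n1⟩, ⟨m2, n2⟩⟩ := q
  unfold Aterm at h0 ⊢
  simp only at h0 ⊢ hRnn
  have hc1 : chi m1 ≠ 0 := fun h => h0 (by rw [h]; simp)
  have hc2 : chi n1 ≠ 0 := fun h => h0 (by rw [h]; simp)
  have he1 : ev m2 ≠ 0 := fun h => h0 (by rw [h]; simp)
  have he2 : ev n2 ≠ 0 := fun h => h0 (by rw [h]; simp)
  obtain ⟨hm1, om1⟩ := grow_chi0 hc1
  obtain ⟨hn1, on1⟩ := grow_chi0 hc2
  have em2 := grow_ev0 he1
  have en2 := grow_ev0 he2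
  have hm3 : m1 + m2 ≠ 0 := by
    have h := om1.add_even em2
    intro h'
    rw [h'] at h
    simp at h
  have hn3 : n1 + n2 ≠ 0 := by
    have h := on1.add_even en2
    intro h'
    rw [h'] at h
    simp at h
  set P1 := Pf y (m1, n1) with hP1
  set P2 := Pf y (m2, n2) with hP2
  set P3 := Pf y ((m1, n1) + (m2, n2)) with hP3
  have hP2' : P2 ≠ 0 := fun h => h0 (by rw [h]; simp)
  have hP1nn : 0 ≤ P1 := by
    rw [hP1]; unfold Pf; positivity
  have hP2nn : 0 ≤ P2 := by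
    rw [hP2]; unfold Pf; positivity
  have hP3nn : 0 ≤ P3 := by
    rw [hP3]; unfold Pf; positivity
  have hP2pos : 0 < P2 := lt_of_le_of_ne hP2nn (Ne.symm hP2')
  set Y := √y with hY
  have hYsq : Y ^ 2 = y := Real.sq_sqrt hy0.le
  have hY1 : 1 ≤ Y := by rw [hY, Real.one_le_sqrt]; exact hy
  have hYpos : 0 < Y := by linarith
  set L1 := √P1 with hL1
  set L2 := √P2 with hL2
  set L3 := √P3 with hL3
  have hL1sq : L1 ^ 2 = P1 := Real.sq_sqrt hP1nn
  have hL2sq : L2 ^ 2 = P2 := Real.sq_sqrt hP2nn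
  have hL3sq : L3 ^ 2 = P3 := Real.sq_sqrt hP3nn
  have hA := growH_one m1
  have hB1 := growH_one n1
  have hA2 := growH_one m2
  have hB2 := growH_one n2
  have hA3 := growH_one (m1 + m2)
  have hB3 := growH_one (n1 + n2)
  have l1 : growH m1 * growH n1 * Y ≤ L1 := grow_low2 hy (m1, n1) hm1
  have l1' : |(m1 : ℝ)| * y ≤ L1 := grow_low1 hy (m1, n1)
  have l3 : growH (m1 + m2) * growH (n1 + n2) * Y ≤ L3 := grow_low2 hy ((m1, n1) + (m2, n2)) hm3
  have l3' : |((m1 + m2 : ℤ) : ℝ)| * y ≤ L3 := grow_low1 hy ((m1, n1) + (m2, n2))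
  have hL1pos : 0 < L1 := lt_of_lt_of_le (by positivity) l1
  have hL3pos : 0 < L3 := lt_of_lt_of_le (by positivity) l3
  have hL2pos : 0 < L2 := Real.sqrt_pos.2 hP2pos
  set N : ℝ := (m1 : ℝ) * n2 - (m2 : ℝ) * n1 with hN
  -- the absolute value
  have habs : |y ^ 4 * (chi m1 * chi n1 * ev m2 * ev n2 * N / (P1 ^ 2 * P2 * P3))| ≤
      y ^ 4 * |N| / (L1 ^ 4 * L2 ^ 2 * L3 ^ 2) := by
    rw [hL2sq, hL3sq, show L1 ^ 4 = P1 ^ 2 by rw [← hL1sq]; ring]
    rw [abs_mul, abs_div, abs_mul, abs_mul, abs_mul, abs_mul,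
      abs_of_pos (by positivity : 0 < y ^ 4), abs_of_nonneg (by positivity : 0 ≤ P1 ^ 2 * P2 * P3)]
    have h1 := grow_chi m1
    have h2 := grow_chi n1
    have h3 := grow_ev m2
    have h4 := grow_ev n2
    have h5 : |chi m1| * |chi n1| * |ev m2| * |ev n2| ≤ 1 := by
      have a1 : |chi m1| * |chi n1| ≤ 1 := mul_le_one₀ h1 (abs_nonneg _) h2
      have a2 : |chi m1| * |chi n1| * |ev m2| ≤ 1 := mul_le_one₀ a1 (abs_nonneg _) h3
      exact mul_le_one₀ a2 (abs_nonneg _) h4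
    rw [mul_div_assoc (y ^ 4) |N|]
    apply mul_le_mul_of_nonneg_left _ (by positivity)
    apply div_le_div_of_nonneg_right _ (by positivity)
    calc |chi m1| * |chi n1| * |ev m2| * |ev n2| * |N| ≤ 1 * |N| :=
          mul_le_mul_of_nonneg_right h5 (abs_nonneg _)
      _ = |N| := one_mul _
  refine habs.trans ?_
  show _ ≤ 1 / (growH m1 ^ 3) * (1 / (growH n1 ^ 3)) * (1 / (growH m2 ^ 3) * (1 / (growH n2 ^ 3))) +
    1 / (growH m1 ^ 3) * (1 / (growH n1 ^ 3)) *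
      (1 / (growH (m1 + m2) ^ 3) * (1 / (growH (n1 + n2) ^ 3)))
  by_cases hm2 : m2 = 0
  · -- case m2 = 0
    subst hm2
    have hn2 : n2 ≠ 0 := by
      rintro rfl
      apply hP2'
      rw [hP2]
      unfold Pf
      simp
    have hP2v : L2 ^ 2 = |(n2 : ℝ)| ^ 2 := by
      rw [hL2sq, hP2]
      unfold Pf
      simp
    have hNv : |N| = |(m1 : ℝ)| * |(n2 : ℝ)| := by
      rw [hN]
      simp [abs_mul]
    rw [hP2v, hNv]
    simp only [add_zero] at l3 l3' hA3 ⊢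
    set A := growH m1 with hAdef
    set B1 := growH n1 with hB1def
    set B2 := growH n2 with hB2def
    set B3 := growH (n1 + n2) with hB3def
    have hH0 : growH 0 = 1 := by
      unfold growH
      norm_num
    rw [hH0]
    have hAm : A ^ 2 = |(m1 : ℝ)| := growH_sq' hm1
    have hBn : B2 ^ 2 = |(n2 : ℝ)| := growH_sq' hn2
    rw [← hAm, ← hYsq] at l1' l3'
    rw [← hAm, ← hBn, ← hYsq]
    have e1 : (A * B1 * Y) ^ 3 * (A ^ 2 * Y ^ 2) ≤ L1 ^ 4 := by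
      calc (A * B1 * Y) ^ 3 * (A ^ 2 * Y ^ 2) ≤ L1 ^ 3 * L1 :=
            mul_le_mul (pow_le_pow_left₀ (by positivity) l1 3) l1' (by positivity) (by positivity)
        _ = L1 ^ 4 := by ring
    have e3 : (A * B3 * Y) * (A ^ 2 * Y ^ 2) ≤ L3 ^ 2 := by
      calc (A * B3 * Y) * (A ^ 2 * Y ^ 2) ≤ L3 * L3 :=
            mul_le_mul l3 l3' (by positivity) (by positivity)
        _ = L3 ^ 2 := by ring
    have hApos : 0 < A := by linarith
    have hB1pos : 0 < B1 := by linarith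
    have hB2pos : 0 < B2 := by linarith
    have hB3pos : 0 < B3 := by linarith
    have e4 : (Y ^ 2) ^ 4 * (A ^ 2 * B2 ^ 2) / (L1 ^ 4 * (B2 ^ 2) ^ 2 * L3 ^ 2) ≤
        (Y ^ 2) ^ 4 * (A ^ 2 * B2 ^ 2) /
          ((A * B1 * Y) ^ 3 * (A ^ 2 * Y ^ 2) * (B2 ^ 2) ^ 2 * ((A * B3 * Y) * (A ^ 2 * Y ^ 2))) := by
      apply div_le_div_of_nonneg_left (by positivity) (by positivity)
      apply mul_le_mul _ e3 (by positivity) (by positivity)
      exact mul_le_mul_of_nonneg_right e1 (by positivity)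
    have e5 : (Y ^ 2) ^ 4 * (A ^ 2 * B2 ^ 2) /
          ((A * B1 * Y) ^ 3 * (A ^ 2 * Y ^ 2) * (B2 ^ 2) ^ 2 * ((A * B3 * Y) * (A ^ 2 * Y ^ 2))) =
        1 / (A ^ 6 * B1 ^ 3) * (1 / (B2 ^ 2 * B3)) := by
      field_simp
    have e6 := grow_young hB2pos hB3pos
    have e7 : 1 / (A ^ 6 * B1 ^ 3) * (1 / (B2 ^ 2 * B3)) ≤
        1 / (A ^ 6 * B1 ^ 3) * (1 / B2 ^ 3 + 1 / B3 ^ 3) :=
      mul_le_mul_of_nonneg_left e6 (by positivity)
    have e8 : 1 / A ^ 6 ≤ 1 / A ^ 3 := by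
      apply one_div_le_one_div_of_le (by positivity)
      exact pow_le_pow_right₀ hA (by norm_num)
    have e9 : 1 / (A ^ 6 * B1 ^ 3) * (1 / B2 ^ 3 + 1 / B3 ^ 3) =
        1 / A ^ 6 * (1 / B1 ^ 3) * (1 / B2 ^ 3) + 1 / A ^ 3 * (1 / B1 ^ 3) * (1 / A ^ 3 * (1 / B3 ^ 3)) := by
      field_simp
    have e10 : 1 / A ^ 6 * (1 / B1 ^ 3) * (1 / B2 ^ 3) ≤ 1 / A ^ 3 * (1 / B1 ^ 3) * (1 / B2 ^ 3) := by
      apply mul_le_mul_of_nonneg_right _ (by positivity)
      exact mul_le_mul_of_nonneg_right e8 (by positivity)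
    calc (Y ^ 2) ^ 4 * (A ^ 2 * B2 ^ 2) / (L1 ^ 4 * (B2 ^ 2) ^ 2 * L3 ^ 2)
        ≤ 1 / (A ^ 6 * B1 ^ 3) * (1 / B2 ^ 3 + 1 / B3 ^ 3) := by
          rw [e5] at e4
          exact e4.trans e7
      _ ≤ 1 / A ^ 3 * (1 / B1 ^ 3) * (1 / B2 ^ 3) +
          1 / A ^ 3 * (1 / B1 ^ 3) * (1 / A ^ 3 * (1 / B3 ^ 3)) := by
          rw [e9]
          linarith
      _ = 1 / A ^ 3 * (1 / B1 ^ 3) * (1 / 1 ^ 3 * (1 / B2 ^ 3)) +
          1 / A ^ 3 * (1 / B1 ^ 3) * (1 / A ^ 3 * (1 / B3 ^ 3)) := by norm_num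
  · -- case m2 ≠ 0
    have l2 : growH m2 * growH n2 * Y ≤ L2 := grow_low2 hy (m2, n2) hm2
    have hdet : y * |N| ≤ L1 * L3 := by
      have h1 : (y * |N|) ^ 2 ≤ (L1 * L3) ^ 2 := by
        rw [mul_pow, mul_pow, sq_abs, hL1sq, hL3sq, hP1, hP3, hN]
        unfold Pf
        simp only [Prod.mk_add_mk, Int.cast_add]
        nlinarith [sq_nonneg ((m1 : ℝ) * (m1 + m2) * y ^ 2 + (n1 : ℝ) * (n1 + n2))]
      exact le_of_sq_le_sq h1 (by positivity)
    have f1 : y ^ 4 * |N| / (L1 ^ 4 * L2 ^ 2 * L3 ^ 2) ≤ y ^ 3 * (1 / L1 ^ 3) * (1 / (L2 ^ 2 * L3)) := by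
      have : y ^ 4 * |N| ≤ y ^ 3 * (L1 * L3) := by
        calc y ^ 4 * |N| = y ^ 3 * (y * |N|) := by ring
          _ ≤ y ^ 3 * (L1 * L3) := mul_le_mul_of_nonneg_left hdet (by positivity)
      calc y ^ 4 * |N| / (L1 ^ 4 * L2 ^ 2 * L3 ^ 2) ≤ y ^ 3 * (L1 * L3) / (L1 ^ 4 * L2 ^ 2 * L3 ^ 2) :=
            div_le_div_of_nonneg_right this (by positivity)
        _ = y ^ 3 * (1 / L1 ^ 3) * (1 / (L2 ^ 2 * L3)) := by
            field_simp
    have f2 := grow_young hL2pos hL3pos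
    set A := growH m1 with hAdef
    set B1 := growH n1 with hB1def
    set A2 := growH m2 with hA2def
    set B2 := growH n2 with hB2def
    set A3 := growH (m1 + m2) with hA3def
    set B3 := growH (n1 + n2) with hB3def
    have hApos : 0 < A := by linarith
    have hB1pos : 0 < B1 := by linarith
    have hA2pos : 0 < A2 := by linarith
    have hB2pos : 0 < B2 := by linarith
    have hA3pos : 0 < A3 := by linarith
    have hB3pos : 0 < B3 := by linarith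
    have g1 : 1 / L1 ^ 3 ≤ 1 / (A * B1 * Y) ^ 3 :=
      one_div_le_one_div_of_le (by positivity) (pow_le_pow_left₀ (by positivity) l1 3)
    have g2 : 1 / L2 ^ 3 ≤ 1 / (A2 * B2 * Y) ^ 3 :=
      one_div_le_one_div_of_le (by positivity) (pow_le_pow_left₀ (by positivity) l2 3)
    have g3 : 1 / L3 ^ 3 ≤ 1 / (A3 * B3 * Y) ^ 3 :=
      one_div_le_one_div_of_le (by positivity) (pow_le_pow_left₀ (by positivity) l3 3)
    have g4 : 1 / (L2 ^ 2 * L3) ≤ 1 / (A2 * B2 * Y) ^ 3 + 1 / (A3 * B3 * Y) ^ 3 := by linarith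
    have g5 : y ^ 3 * (1 / L1 ^ 3) * (1 / (L2 ^ 2 * L3)) ≤
        y ^ 3 * (1 / (A * B1 * Y) ^ 3) * (1 / (A2 * B2 * Y) ^ 3 + 1 / (A3 * B3 * Y) ^ 3) := by
      apply mul_le_mul _ g4 (by positivity) (by positivity)
      exact mul_le_mul_of_nonneg_left g1 (by positivity)
    refine (f1.trans g5).trans (le_of_eq ?_)
    rw [← hYsq]
    field_simp

theorem Aser_growth : Tendsto (fun y => Aser y / y) atTop (𝓝 0) := by
  have hs : Summable fun q : (ℤ × ℤ) × (ℤ × ℤ) =>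
      growK q.1 * growK q.2 + growK q.1 * growK (q.1 + q.2) := grow_summ12.add grow_summ13
  set C := ∑' q : (ℤ × ℤ) × (ℤ × ℤ),
      (growK q.1 * growK q.2 + growK q.1 * growK (q.1 + q.2)) with hC
  have hb : ∀ y : ℝ, 1 ≤ y → ‖Aser y‖ ≤ C := by
    intro y hy
    rw [Aser_eq]
    exact tsum_of_norm_bounded hs.hasSum fun q => by
      rw [Real.norm_eq_abs]
      exact grow_main hy q
  have h1 : Tendsto (fun y : ℝ => C / y) atTop (𝓝 0) := tendsto_const_nhds.div_atTop tendsto_id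
  refine squeeze_zero_norm' ?_ h1
  filter_upwards [eventually_ge_atTop (1 : ℝ)] with y hy
  rw [norm_div, Real.norm_of_nonneg (by linarith : (0 : ℝ) ≤ y)]
  exact div_le_div_of_nonneg_right (hb y hy) (by linarith)

end MM7
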