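import Pool.Agent.MM7.Summ
import Pool.Agent.MM7.Bound3
import Pool.Agent.MM7.Shift

/-!
# MM7, Part 3, module Inner

For odd-odd p put D_p(r) = ev r.1 * ev r.2 * (f(λ(p+r)) - f(λ r)) (with f 0 = 0), so that
wt r * (f(λ(p+r)) - f(λ r)) = D_p(r) - [r=0] f(λ p).  By Ker2.bound with (z,w) = (λ(p+r), -λ r) and evenness
(the bound with w = -z gives f(-z) = f z): |D_p(r)| ≤ C |λ p| (1/|λ(p+r)|³ + 1/|λ r|³): summable (kk).
The sum S(p) of D_p over r (over even-even r, i.e. r = 2 r') does not depend on the odd-odd p: for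
e ∈ {(2,0),(0,2)}, S(p+e) - S(p) = Σ_{r'} (f(λ(p+e+2r')) - f(λ(p+2r'))) = 0 by hasSum_shift for
g(r') = f(λ(p+2r')). Put c = -S(1,1) ; conj: S(-m,n) = conj S(m,n) because λ(-m,n) = conj λ(m,n) and r ↦ (-r.1, r.2),
so S((1,1)) = S((-1,1)) = conj S((1,1)) is real.
-/

open Real MeasureTheory Set Filter Topology

namespace MM7

private lemma inner_even {f : ℂ → ℂ} (hf : Ker2 f) (z : ℂ) : f (-z) = f z := by
  obtain ⟨C, -, hC⟩ := hf.bound
  have h := hC (-z) z
  simp only [neg_add_cancel, norm_zero, mul_zero, zero_mul] at h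
  have h2 : ‖f (-z) - f z‖ = 0 := le_antisymm h (norm_nonneg _)
  exact sub_eq_zero.1 (norm_eq_zero.1 h2)

private lemma inner_diff {f : ℂ → ℂ} (hf : Ker2 f) {y : ℝ} (hy : 0 < y) :
    ∃ C : ℝ, 0 ≤ C ∧ ∀ a b : ℤ × ℤ, ‖f (lam y a) - f (lam y b)‖ ≤
      C * ‖lam y (a - b)‖ * (kk a + kk b) := by
  obtain ⟨C, hC0, hC⟩ := hf.bound
  obtain ⟨C', hC'0, hC'⟩ := lam_kk hy
  refine ⟨C * C', mul_nonneg hC0 hC'0, fun a b => ?_⟩
  have h1 := hC (lam y a) (-lam y b)
  rw [inner_even hf] at h1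
  have h2 : lam y a + -lam y b = lam y (a - b) := by
    have h3 := lam_add y (a - b) b
    rw [sub_add_cancel] at h3
    rw [h3]
    ring
  rw [h2, norm_neg] at h1
  refine h1.trans ?_
  have h4 : 1 / ‖lam y a‖ ^ 3 + 1 / ‖lam y b‖ ^ 3 ≤ C' * (kk a + kk b) := by
    rw [mul_add]
    exact add_le_add (hC' a) (hC' b)
  calc C * ‖lam y (a - b)‖ * (1 / ‖lam y a‖ ^ 3 + 1 / ‖lam y b‖ ^ 3)
      ≤ C * ‖lam y (a - b)‖ * (C' * (kk a + kk b)) :=
        mul_le_mul_of_nonneg_left h4 (mul_nonneg hC0 (norm_nonneg _))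
    _ = C * C' * ‖lam y (a - b)‖ * (kk a + kk b) := by ring

private lemma inner_summ {f : ℂ → ℂ} (hf : Ker2 f) {y : ℝ} (hy : 0 < y) {φ ψ : ℤ × ℤ → ℤ × ℤ}
    (hφ : Function.Injective φ) (hψ : Function.Injective ψ) (e : ℤ × ℤ)
    (he : ∀ r, φ r - ψ r = e) (w : ℤ × ℤ → ℝ) (hw : ∀ r, |w r| ≤ 1) :
    Summable fun r => (w r : ℂ) * (f (lam y (φ r)) - f (lam y (ψ r))) := by
  obtain ⟨C, hC0, hC⟩ := inner_diff hf hy
  have h1 : Summable fun r => C * ‖lam y e‖ * (kk (φ r) + kk (ψ r)) :=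
    ((summable_kk.comp_injective hφ).add (summable_kk.comp_injective hψ)).mul_left _
  refine Summable.of_norm_bounded h1 fun r => ?_
  rw [norm_mul]
  have h2 := hC (φ r) (ψ r)
  rw [he r] at h2
  have h3 : ‖(w r : ℂ)‖ ≤ 1 := by
    rw [Complex.norm_real, Real.norm_eq_abs]
    exact hw r
  calc ‖(w r : ℂ)‖ * ‖f (lam y (φ r)) - f (lam y (ψ r))‖
      ≤ 1 * ‖f (lam y (φ r)) - f (lam y (ψ r))‖ :=
        mul_le_mul_of_nonneg_right h3 (norm_nonneg _)
    _ ≤ _ := by rw [one_mul]; exact h2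

private lemma inner_two_inj (a : ℤ × ℤ) :
    Function.Injective fun r : ℤ × ℤ => a + ((2 * r.1, 2 * r.2) : ℤ × ℤ) := by
  intro r s h
  have h1 : ((2 * r.1, 2 * r.2) : ℤ × ℤ) = (2 * s.1, 2 * s.2) := add_left_cancel h
  rw [Prod.mk.injEq] at h1
  ext <;> omega

private lemma inner_tend {f : ℂ → ℂ} (hf : Ker2 f) {y : ℝ} (hy : 0 < y) {φ : ℤ × ℤ → ℤ × ℤ}
    (hφ : Function.Injective φ) : Tendsto (fun r => f (lam y (φ r))) cofinite (𝓝 0) := by
  obtain ⟨C, hC0, hC⟩ := hf.bound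
  obtain ⟨C', hC'0, hC'⟩ := lam_kk hy
  have h1 : Tendsto (fun r => C' * kk (φ r)) cofinite (𝓝 0) := by
    have := ((summable_kk.comp_injective hφ).mul_left C').tendsto_cofinite_zero
    exact this
  have h2 : ∀ z : ℂ, ‖f z‖ ≤ C * (1 / ‖z‖) ^ 2 := by
    intro z
    have h3 := hC z 0
    rw [hf.zero, sub_zero, add_zero, norm_zero] at h3
    refine h3.trans (le_of_eq ?_)
    by_cases hz : ‖z‖ = 0
    · simp [hz]
    · field_simp
      simp
  have h4 : Tendsto (fun r => 1 / ‖lam y (φ r)‖) cofinite (𝓝 0) := by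
    rw [Metric.tendsto_nhds]
    intro ε hε
    have h5 := (Metric.tendsto_nhds.1 h1) (ε ^ 3) (by positivity)
    filter_upwards [h5] with r hr
    rw [Real.dist_eq, sub_zero] at hr ⊢
    have h6 : (1 / ‖lam y (φ r)‖) ^ 3 < ε ^ 3 := by
      have h7 := hC' (φ r)
      have h8 := le_abs_self (C' * kk (φ r))
      have h9 : (1 / ‖lam y (φ r)‖) ^ 3 = 1 / ‖lam y (φ r)‖ ^ 3 := by
        rw [div_pow, one_pow]
      rw [h9]
      linarith
    have h10 := lt_of_pow_lt_pow_left₀ 3 hε.le h6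
    rwa [abs_of_nonneg (by positivity)]
  have h5 : Tendsto (fun r => C * (1 / ‖lam y (φ r)‖) ^ 2) cofinite (𝓝 0) := by
    have := (h4.pow 2).const_mul C
    simpa using this
  exact squeeze_zero_norm (fun r => h2 _) h5

private lemma inner_evw (r : ℤ × ℤ) : |ev r.1 * ev r.2| ≤ 1 := by
  unfold ev
  split_ifs <;> simp

theorem inner_const {f : ℂ → ℂ} (hf : Ker2 f) {y : ℝ} (hy : 0 < y) :
    ∃ c : ℝ, ∀ p : ℤ × ℤ, Odd p.1 → Odd p.2 →
      HasSum (fun r : ℤ × ℤ => (wt r : ℂ) * (f (lam y (p + r)) - f (lam y r)))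
        (-((c : ℂ) + f (lam y p))) := by
  classical
  -- the full series
  set Df : ℤ × ℤ → ℤ × ℤ → ℂ := fun p r =>
    ((ev r.1 * ev r.2 : ℝ) : ℂ) * (f (lam y (p + r)) - f (lam y r)) with hDf
  have hsum : ∀ p, Summable (Df p) := fun p =>
    inner_summ hf hy (φ := fun r => p + r) (ψ := fun r => r) (add_right_injective p)
      Function.injective_id p (fun r => by simp) (fun r => ev r.1 * ev r.2) inner_evw
  -- the sum is independent of `p`
  have hconst : ∀ p : ℤ × ℤ, Odd p.1 → Odd p.2 → ∑' r, Df p r = ∑' r, Df (1, 1) r := by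
    intro p hp1 hp2
    obtain ⟨a, ha⟩ := hp1
    obtain ⟨b, hb⟩ := hp2
    set g : ℤ × ℤ → ℂ := fun r => f (lam y ((1, 1) + ((2 * r.1, 2 * r.2) : ℤ × ℤ))) with hg
    have hgt : Tendsto g cofinite (𝓝 0) := inner_tend hf hy (inner_two_inj (1, 1))
    have hs : ∀ e : ℤ × ℤ, Summable fun r : ℤ × ℤ => g (r + e) - g r := by
      intro e
      have h1 := inner_summ hf hy
        (φ := fun r : ℤ × ℤ => ((1, 1) + (2 * e.1, 2 * e.2) : ℤ × ℤ) + ((2 * r.1, 2 * r.2) : ℤ × ℤ))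
        (ψ := fun r : ℤ × ℤ => (1, 1) + ((2 * r.1, 2 * r.2) : ℤ × ℤ))
        (inner_two_inj _) (inner_two_inj _) (2 * e.1, 2 * e.2)
        (fun r => by ext <;> simp) (fun _ => 1) (fun _ => by simp)
      refine h1.congr fun r => ?_
      simp only [hg, Complex.ofReal_one, one_mul]
      congr 3
      ext <;> simp <;> ring
    have hz := hasSum_shift hgt (hs _) (hs _) (a, b)
    have hinj : Function.Injective fun r : ℤ × ℤ => ((2 * r.1, 2 * r.2) : ℤ × ℤ) := by
      intro r s h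
      rw [Prod.mk.injEq] at h
      ext <;> omega
    have hsub : HasSum (fun r => Df p r - Df (1, 1) r) 0 := by
      have h2 : ∀ r, r ∉ Set.range (fun r : ℤ × ℤ => ((2 * r.1, 2 * r.2) : ℤ × ℤ)) →
          Df p r - Df (1, 1) r = 0 := by
        intro r hr
        have h3 : ev r.1 * ev r.2 = 0 := by
          by_contra hne
          have h4 : Even r.1 := by
            by_contra h
            exact hne (by simp [ev, h])
          have h5 : Even r.2 := by
            by_contra h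
            exact hne (by simp [ev, h])
          obtain ⟨s, hs⟩ := h4
          obtain ⟨t, ht⟩ := h5
          exact hr ⟨(s, t), by ext <;> simp <;> omega⟩
        have h10 : Df p r - Df (1, 1) r = ((ev r.1 * ev r.2 : ℝ) : ℂ) *
            (f (lam y (p + r)) - f (lam y ((1, 1) + r))) := by
          simp only [hDf]
          ring
        rw [h10, h3]
        simp
      rw [← hinj.hasSum_iff h2]
      refine hz.congr_fun ?_
      intro r
      simp only [hDf, Function.comp_apply, hg]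
      have h6 : ev (2 * r.1) = 1 := by simp [ev]
      have h7 : ev (2 * r.2) = 1 := by simp [ev]
      rw [h6, h7]
      have h8 : p + ((2 * r.1, 2 * r.2) : ℤ × ℤ) =
          (1, 1) + ((2 * (r + (a, b)).1, 2 * (r + (a, b)).2) : ℤ × ℤ) := by
        ext <;> simp [ha, hb] <;> ring
      rw [h8]
      simp
    have h9 := hsub.unique ((hsum p).hasSum.sub (hsum (1, 1)).hasSum)
    exact (sub_eq_zero.1 h9.symm)
  -- reality
  have hreal : (starRingEnd ℂ) (∑' r, Df (1, 1) r) = ∑' r, Df (1, 1) r := by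
    have h1 : ∑' r, Df (-1, 1) r = (starRingEnd ℂ) (∑' r, Df (1, 1) r) := by
      rw [Complex.conj_tsum]
      let σ : ℤ × ℤ ≃ ℤ × ℤ := (Equiv.neg ℤ).prodCongr (Equiv.refl ℤ)
      rw [← σ.tsum_eq]
      refine tsum_congr fun r => ?_
      have hlam : ∀ q : ℤ × ℤ, lam y (-q.1, q.2) = (starRingEnd ℂ) (lam y q) := by
        intro q
        simp [lam]
      have hσ : σ r = (-r.1, r.2) := rfl
      rw [hσ]
      simp only [hDf]
      have h2 : ((-1, 1) : ℤ × ℤ) + (-r.1, r.2) = (-((1, 1) + r : ℤ × ℤ).1, ((1, 1) + r : ℤ × ℤ).2) := by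
        ext <;> simp <;> ring
      rw [h2, hlam, hlam, hf.conj, hf.conj]
      have h3 : ev (-r.1) = ev r.1 := by simp [ev]
      rw [h3]
      simp
    rw [← h1, hconst (-1, 1) (by decide) (by decide)]
  obtain ⟨s, hs⟩ := Complex.conj_eq_iff_real.1 hreal
  refine ⟨-s, fun p hp1 hp2 => ?_⟩
  have h1 := (hsum p).hasSum
  rw [hconst p hp1 hp2, hs] at h1
  have h2 : HasSum (fun r : ℤ × ℤ => if r = 0 then f (lam y p) else 0) (f (lam y p)) :=
    hasSum_ite_eq 0 _
  have h3 := h1.sub h2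
  have h4 : -(((-s : ℝ) : ℂ) + f (lam y p)) = (s : ℂ) - f (lam y p) := by
    push_cast
    ring
  rw [h4]
  refine h3.congr_fun ?_
  intro r
  by_cases hr : r = 0
  · subst hr
    have h5 : lam y (0 : ℤ × ℤ) = 0 := by simp [lam]
    simp [hDf, wt, h5, hf.zero, ev]
  · simp [hDf, wt, hr]

end MM7
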