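import Pool.Agent.MM7.Summ
import Pool.Agent.MM7.Bound3
import Pool.Agent.MM7.Inner

/-!
# MM7, Part 3, module InnerAbs

f(z) = 1/|z|² is a Ker2 kernel (||w|²-|z|²| ≤ |z+w| (|z|+|w|)), so by inner_const it suffices to compute the constant
for p = (1,1):   S = Σ_{r even-even} (1/Pf(p+r) - [r≠0]/Pf r) = -Eser y / y.
Rows: for m ≠ 0, Σ_{n even} 1/(m²y²+n²) = π/(2|m|y) coth(π|m|y/2), Σ_{n odd} 1/(m²y²+n²) = π/(2|m|y) tanh(π|m|y/2)
(Mathlib: cotangent Mittag-Leffler series `cot_series_rep` / `pi_mul_cot_pi_q_exp`, or any proof),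
Σ_{n even ≠ 0} 1/n² = π²/12.  coth x = 1 + 2/(e^{2x}-1), tanh x = 1 - 2/(e^{2x}+1).
S = Σ_{m2 even} (ρo(m2+1) - ρe(m2)), ρe(0) = π²/12; with m2 = ±2k:
-S = π²/12 - ρo(1) + Σ_{k≥1} [ρe(2k) - ρo(2k+1)] + Σ_{k≥1} [ρe(2k) - ρo(2k-1)],
main terms: π/(2y) * (-1 + (1 - log 2) - log 2) = -(π/y) log 2, exponential terms
π/(2y) * 2 * [Σ_{k≥1} 2/(2k (e^{2πky}-1)) + Σ_{k≥0} 2/((2k+1)(e^{π(2k+1)y}+1))]: equals Eser y / y.
-/

open Real MeasureTheory Set Filter Topology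

namespace MM7

/-! ### Rows -/

theorem ia_term {a : ℝ} (ha : 0 < a) (n : ℕ) :
    (1 / ((a : ℂ) * Complex.I - ((n : ℂ) + 1)) +
      1 / ((a : ℂ) * Complex.I + ((n : ℂ) + 1))) * (Complex.I / (2 * a)) =
    ((1 / (a ^ 2 + ((n : ℝ) + 1) ^ 2) : ℝ) : ℂ) := by
  have hac : (a : ℂ) ≠ 0 := Complex.ofReal_ne_zero.mpr ha.ne'
  have hd : ((a : ℂ) ^ 2 + ((n : ℂ) + 1) ^ 2) ≠ 0 := by
    have : (a ^ 2 + ((n : ℝ) + 1) ^ 2 : ℝ) ≠ 0 := by positivity
    intro h0
    apply this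
    exact_mod_cast h0
  have hf : ((a : ℂ) * Complex.I - ((n : ℂ) + 1)) * ((a : ℂ) * Complex.I + ((n : ℂ) + 1)) =
      -((a : ℂ) ^ 2 + ((n : ℂ) + 1) ^ 2) := by
    linear_combination (a : ℂ) ^ 2 * Complex.I_sq
  have hn1 : ((a : ℂ) * Complex.I - ((n : ℂ) + 1)) ≠ 0 := by
    intro h0
    rw [h0, zero_mul] at hf
    exact hd (by linear_combination hf)
  have hn2 : ((a : ℂ) * Complex.I + ((n : ℂ) + 1)) ≠ 0 := by
    intro h0
    rw [h0, mul_zero] at hf
    exact hd (by linear_combination hf)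
  push_cast
  rw [div_add_div _ _ hn1 hn2, hf, div_mul_div_comm, div_eq_div_iff (by
    exact mul_ne_zero (neg_ne_zero.mpr hd) (mul_ne_zero two_ne_zero hac)) hd]
  linear_combination (2 * (a : ℂ) * ((a : ℂ) ^ 2 + ((n : ℂ) + 1) ^ 2)) * Complex.I_sq

theorem ia_cot {a : ℝ} (ha : 0 < a) :
    (π * Complex.cot (π * ((a : ℂ) * Complex.I)) - 1 / ((a : ℂ) * Complex.I)) *
      (Complex.I / (2 * a)) =
      ((π / (2 * a) * (1 + 2 / (Real.exp (2 * π * a) - 1)) - 1 / (2 * a ^ 2) : ℝ) : ℂ) := by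
  have hac : (a : ℂ) ≠ 0 := Complex.ofReal_ne_zero.mpr ha.ne'
  have hE : 1 < Real.exp (2 * π * a) := Real.one_lt_exp_iff.mpr (by positivity)
  have h4 := Complex.cot_pi_eq_exp_ratio ((a : ℂ) * Complex.I)
  have h5 : Complex.exp (2 * π * Complex.I * ((a : ℂ) * Complex.I)) =
      (((Real.exp (2 * π * a))⁻¹ : ℝ) : ℂ) := by
    rw [← Real.exp_neg, Complex.ofReal_exp]
    congr 1
    push_cast
    linear_combination (2 * (π : ℂ) * a) * Complex.I_sq
  rw [h4, h5]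
  generalize Real.exp (2 * π * a) = E at hE ⊢
  have hEr : E ≠ 0 := by linarith
  have hE0 : (E : ℂ) ≠ 0 := Complex.ofReal_ne_zero.mpr hEr
  have hE1 : (E : ℂ) - 1 ≠ 0 := by
    intro h0
    have : E = 1 := by
      have : (E : ℂ) = 1 := by linear_combination h0
      exact_mod_cast this
    linarith
  push_cast
  have h7 : (1 : ℂ) - (E : ℂ)⁻¹ = ((E : ℂ) - 1) / E := by field_simp
  have h8 : (E : ℂ)⁻¹ + 1 = ((E : ℂ) + 1) / E := by field_simp; ring
  rw [h7, h8]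
  have h9 : ((E : ℂ) + 1) / E / (Complex.I * (((E : ℂ) - 1) / E)) =
      -Complex.I * (((E : ℂ) + 1) / ((E : ℂ) - 1)) := by
    rw [div_div, div_eq_iff (by
      exact mul_ne_zero hE0 (mul_ne_zero Complex.I_ne_zero (div_ne_zero hE1 hE0)))]
    field_simp
    linear_combination ((E : ℂ) + 1) * Complex.I_sq
  have h10 : (1 : ℂ) / ((a : ℂ) * Complex.I) = -Complex.I / a := by
    rw [div_eq_div_iff (mul_ne_zero hac Complex.I_ne_zero) hac]
    linear_combination (a : ℂ) * Complex.I_sq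
  rw [h9, h10]
  have h11 : (π * (-Complex.I * (((E : ℂ) + 1) / ((E : ℂ) - 1))) - -Complex.I / a) *
      (Complex.I / (2 * a)) = -(Complex.I ^ 2) *
      (π * (((E : ℂ) + 1) / ((E : ℂ) - 1)) / (2 * a) - 1 / (2 * a ^ 2)) := by
    field_simp
    ring
  rw [h11, Complex.I_sq]
  have h12 : ((E : ℂ) + 1) / ((E : ℂ) - 1) = 1 + 2 / ((E : ℂ) - 1) := by
    field_simp
    ring
  rw [h12]
  ring

theorem ia_nat1 {a : ℝ} (ha : 0 < a) : HasSum (fun n : ℕ => 1 / (a ^ 2 + ((n : ℝ) + 1) ^ 2))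
    (π / (2 * a) * (1 + 2 / (Real.exp (2 * π * a) - 1)) - 1 / (2 * a ^ 2)) := by
  have hmem : ((a : ℂ) * Complex.I) ∈ Complex.integerComplement :=
    UpperHalfPlane.coe_mem_integerComplement ⟨(a : ℂ) * Complex.I, by simpa using ha⟩
  have hs := summable_cotTerm hmem
  have h1 := cot_series_rep' hmem
  have h2 : HasSum (fun n : ℕ => 1 / ((a : ℂ) * Complex.I - ((n : ℂ) + 1)) +
      1 / ((a : ℂ) * Complex.I + ((n : ℂ) + 1)))
      (π * Complex.cot (π * ((a : ℂ) * Complex.I)) - 1 / ((a : ℂ) * Complex.I)) := by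
    rw [h1]
    exact hs.hasSum
  have h3 := h2.mul_right (Complex.I / (2 * a))
  rw [ia_cot ha, funext (ia_term ha)] at h3
  exact Complex.hasSum_ofReal.mp h3

theorem ia_nat {a : ℝ} (ha : 0 < a) : HasSum (fun n : ℕ => 1 / (a ^ 2 + (n : ℝ) ^ 2))
    (π / (2 * a) * (1 + 2 / (Real.exp (2 * π * a) - 1)) + 1 / (2 * a ^ 2)) := by
  have h1 := ia_nat1 ha
  have e1 : (fun n : ℕ => 1 / (a ^ 2 + ((n : ℝ) + 1) ^ 2)) =
      fun n : ℕ => (fun n : ℕ => 1 / (a ^ 2 + (n : ℝ) ^ 2)) (n + 1) := by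
    funext n
    push_cast
    rfl
  rw [e1] at h1
  have h3 := HasSum.zero_add (f := fun n : ℕ => 1 / (a ^ 2 + (n : ℝ) ^ 2)) h1
  have e2 : π / (2 * a) * (1 + 2 / (Real.exp (2 * π * a) - 1)) + 1 / (2 * a ^ 2) =
      1 / (a ^ 2 + ((0 : ℕ) : ℝ) ^ 2) +
      (π / (2 * a) * (1 + 2 / (Real.exp (2 * π * a) - 1)) - 1 / (2 * a ^ 2)) := by
    have : (1 : ℝ) / (a ^ 2 + ((0 : ℕ) : ℝ) ^ 2) = 1 / (2 * a ^ 2) + 1 / (2 * a ^ 2) := by
      rw [Nat.cast_zero]
      field_simp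
      norm_num
    rw [this]
    ring
  rw [e2]
  exact h3

theorem ia_quarter {t x : ℝ} : 1 / (t ^ 2 + (2 * x) ^ 2) = 1 / 4 * (1 / ((t / 2) ^ 2 + x ^ 2)) := by
  rw [one_div_mul_one_div]
  congr 1
  ring

theorem ia_odd_nat {t : ℝ} (ht : 0 < t) :
    HasSum (fun n : ℕ => 1 / (t ^ 2 + (2 * (n : ℝ) + 1) ^ 2))
      (π / (4 * t) * (1 - 2 / (Real.exp (π * t) + 1))) := by
  have h1 := ia_nat ht
  have h2 := (ia_nat (by linarith : 0 < t / 2)).mul_left (1 / 4)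
  have e1 : (fun k : ℕ => 1 / 4 * (1 / ((t / 2) ^ 2 + (k : ℝ) ^ 2))) =
      fun k : ℕ => (fun n : ℕ => 1 / (t ^ 2 + (n : ℝ) ^ 2)) (2 * k) := by
    funext k
    simp only
    rw [← ia_quarter]
    push_cast
    rfl
  rw [e1] at h2
  have e2 : (fun k : ℕ => 1 / (t ^ 2 + (2 * (k : ℝ) + 1) ^ 2)) =
      fun k : ℕ => (fun n : ℕ => 1 / (t ^ 2 + (n : ℝ) ^ 2)) (2 * k + 1) := by
    funext k
    simp only
    push_cast
    rfl
  have hs : Summable (fun k : ℕ => (fun n : ℕ => 1 / (t ^ 2 + (n : ℝ) ^ 2)) (2 * k + 1)) :=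
    h1.summable.comp_injective (i := fun k : ℕ => 2 * k + 1) (fun a b h => by
      simp only at h
      omega)
  have h3 := HasSum.even_add_odd (f := fun n : ℕ => 1 / (t ^ 2 + (n : ℝ) ^ 2)) h2 hs.hasSum
  have h4 := h1.unique h3
  have h5 := hs.hasSum
  have hE : 1 < Real.exp (π * t) := Real.one_lt_exp_iff.mpr (by positivity)
  have e3 : Real.exp (2 * π * t) = Real.exp (π * t) ^ 2 := by
    rw [← Real.exp_nat_mul]; congr 1; push_cast; ring
  have e4 : Real.exp (2 * π * (t / 2)) = Real.exp (π * t) := by congr 1; ring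
  rw [e3, e4] at h4
  have h7 : ∑' k : ℕ, (fun n : ℕ => 1 / (t ^ 2 + (n : ℝ) ^ 2)) (2 * k + 1) =
      π / (4 * t) * (1 - 2 / (Real.exp (π * t) + 1)) := by
    have h8 : ∑' k : ℕ, (fun n : ℕ => 1 / (t ^ 2 + (n : ℝ) ^ 2)) (2 * k + 1) =
      π / (2 * t) * (1 + 2 / (Real.exp (π * t) ^ 2 - 1)) + 1 / (2 * t ^ 2) -
      1 / 4 * (π / (2 * (t / 2)) * (1 + 2 / (Real.exp (π * t) - 1)) + 1 / (2 * (t / 2) ^ 2)) := by
      linarith
    rw [h8]
    generalize Real.exp (π * t) = E at hE ⊢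
    have hm : E - 1 ≠ 0 := by linarith
    have hp : E + 1 ≠ 0 := by linarith
    have hq : E ^ 2 - 1 = (E - 1) * (E + 1) := by ring
    rw [hq]
    field_simp
    ring
  rw [h7] at h5
  rw [e2]
  exact h5

/-- an even row -/
theorem ia_even {t : ℝ} (ht : 0 < t) :
    HasSum (fun n : ℤ => 1 / (t ^ 2 + (2 * (n : ℝ)) ^ 2))
      (π / (2 * t) * (1 + 2 / (Real.exp (π * t) - 1))) := by
  have ht2 : 0 < t / 2 := by linarith
  have h1 := (ia_nat ht2).mul_left (1 / 4)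
  have h2 := (ia_nat1 ht2).mul_left (1 / 4)
  have e2 : Real.exp (2 * π * (t / 2)) = Real.exp (π * t) := by congr 1; ring
  rw [e2] at h1 h2
  have e3 : (fun k : ℕ => 1 / 4 * (1 / ((t / 2) ^ 2 + (k : ℝ) ^ 2))) =
      fun n : ℕ => (fun n : ℤ => 1 / (t ^ 2 + (2 * (n : ℝ)) ^ 2)) (n : ℤ) := by
    funext k
    simp only
    rw [← ia_quarter]
    push_cast
    rfl
  have e4 : (fun k : ℕ => 1 / 4 * (1 / ((t / 2) ^ 2 + ((k : ℝ) + 1) ^ 2))) =
      fun n : ℕ => (fun n : ℤ => 1 / (t ^ 2 + (2 * (n : ℝ)) ^ 2)) (-((n : ℤ) + 1)) := by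
    funext k
    simp only
    rw [← ia_quarter]
    push_cast
    congr 2
    ring
  rw [e3] at h1
  rw [e4] at h2
  have h5 := HasSum.of_nat_of_neg_add_one (f := fun n : ℤ => 1 / (t ^ 2 + (2 * (n : ℝ)) ^ 2)) h1 h2
  have e5 : π / (2 * t) * (1 + 2 / (Real.exp (π * t) - 1)) =
      1 / 4 * (π / (2 * (t / 2)) * (1 + 2 / (Real.exp (π * t) - 1)) + 1 / (2 * (t / 2) ^ 2)) +
      1 / 4 * (π / (2 * (t / 2)) * (1 + 2 / (Real.exp (π * t) - 1)) - 1 / (2 * (t / 2) ^ 2)) := by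
    generalize 2 / (Real.exp (π * t) - 1) = X
    field_simp
    ring
  rw [e5]
  exact h5

/-- an odd row -/
theorem ia_odd {t : ℝ} (ht : 0 < t) :
    HasSum (fun n : ℤ => 1 / (t ^ 2 + (2 * (n : ℝ) + 1) ^ 2))
      (π / (2 * t) * (1 - 2 / (Real.exp (π * t) + 1))) := by
  have h1 := ia_odd_nat ht
  have h2 := ia_odd_nat ht
  have e3 : (fun k : ℕ => 1 / (t ^ 2 + (2 * (k : ℝ) + 1) ^ 2)) =
      fun n : ℕ => (fun n : ℤ => 1 / (t ^ 2 + (2 * (n : ℝ) + 1) ^ 2)) (n : ℤ) := by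
    funext k
    simp only
    push_cast
    rfl
  have e4 : (fun k : ℕ => 1 / (t ^ 2 + (2 * (k : ℝ) + 1) ^ 2)) =
      fun n : ℕ => (fun n : ℤ => 1 / (t ^ 2 + (2 * (n : ℝ) + 1) ^ 2)) (-((n : ℤ) + 1)) := by
    funext k
    simp only
    push_cast
    congr 2
    ring
  rw [e3] at h1
  rw [e4] at h2
  have h5 := HasSum.of_nat_of_neg_add_one (f := fun n : ℤ => 1 / (t ^ 2 + (2 * (n : ℝ) + 1) ^ 2))
    h1 h2
  have e5 : π / (2 * t) * (1 - 2 / (Real.exp (π * t) + 1)) =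
      π / (4 * t) * (1 - 2 / (Real.exp (π * t) + 1)) +
      π / (4 * t) * (1 - 2 / (Real.exp (π * t) + 1)) := by
    generalize 2 / (Real.exp (π * t) + 1) = X
    field_simp
    ring
  rw [e5]
  exact h5

/-- the central even row -/
theorem ia_zero : HasSum (fun n : ℤ => 1 / ((2 * (n : ℝ)) ^ 2)) (π ^ 2 / 12) := by
  have h1 := hasSum_zeta_two.mul_left (1 / 4)
  have e2 : (fun n : ℕ => 1 / 4 * ((1 : ℝ) / (n : ℝ) ^ 2)) =
      fun n : ℕ => (fun n : ℤ => 1 / ((2 * (n : ℝ)) ^ 2)) (n : ℤ) := by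
    funext k
    simp only
    rw [one_div_mul_one_div]
    push_cast
    congr 1
    ring
  have e3 : (fun n : ℕ => 1 / 4 * ((1 : ℝ) / (n : ℝ) ^ 2)) =
      fun n : ℕ => (fun n : ℤ => 1 / ((2 * (n : ℝ)) ^ 2)) (-(n : ℤ)) := by
    funext k
    simp only
    rw [one_div_mul_one_div]
    push_cast
    congr 1
    ring
  have h2 := h1
  rw [e2] at h1
  rw [e3] at h2
  have h4 := HasSum.of_nat_of_neg (f := fun n : ℤ => 1 / ((2 * (n : ℝ)) ^ 2)) h1 h2
  have e5 : π ^ 2 / 12 = 1 / 4 * (π ^ 2 / 6) + 1 / 4 * (π ^ 2 / 6) -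
      (fun n : ℤ => 1 / ((2 * (n : ℝ)) ^ 2)) 0 := by
    simp
    ring
  rw [e5]
  exact h4

/-! ### Logarithms -/

theorem ia_harm (N : ℕ) :
    ∑ i ∈ Finset.range N, (1 / (2 * (i : ℝ) + 1) - 1 / (2 * (i : ℝ) + 2)) =
        ((harmonic (2 * N) : ℚ) : ℝ) - ((harmonic N : ℚ) : ℝ) := by
  induction N with
  | zero => simp
  | succ N ih =>
    have e1 : ((harmonic (2 * (N + 1)) : ℚ) : ℝ) =
        ((harmonic (2 * N) : ℚ) : ℝ) + 1 / (2 * (N : ℝ) + 1) + 1 / (2 * (N : ℝ) + 2) := by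
      rw [show 2 * (N + 1) = 2 * N + 1 + 1 by ring, harmonic_succ, harmonic_succ]
      push_cast
      rw [one_div, one_div]
      congr 2
      ring
    have e2 : ((harmonic (N + 1) : ℚ) : ℝ) = ((harmonic N : ℚ) : ℝ) + 2 * (1 / (2 * (N : ℝ) + 2)) := by
      rw [harmonic_succ]
      push_cast
      congr 1
      field_simp
    rw [Finset.sum_range_succ, ih, e1, e2]
    ring

theorem ia_log : HasSum (fun n : ℕ => 1 / (2 * (n : ℝ) + 1) - 1 / (2 * (n : ℝ) + 2))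
    (Real.log 2) := by
  rw [hasSum_iff_tendsto_nat_of_nonneg]
  · simp only [ia_harm]
    have h1 := Real.tendsto_harmonic_sub_log
    have h0 : Tendsto (fun n : ℕ => 2 * n) atTop atTop :=
      tendsto_atTop_mono (fun n => by simp only [id]; omega) tendsto_id
    have h2 := h1.comp h0
    have h3 := h2.sub h1
    rw [sub_self] at h3
    have h4 := h3.add_const (Real.log 2)
    rw [zero_add] at h4
    refine h4.congr' ?_
    filter_upwards [eventually_gt_atTop 0] with n hn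
    have hn' : (n : ℝ) ≠ 0 := by exact_mod_cast hn.ne'
    simp only [Function.comp]
    push_cast
    rw [Real.log_mul (by norm_num) hn']
    ring
  · intro i
    have : 1 / (2 * (i : ℝ) + 2) ≤ 1 / (2 * (i : ℝ) + 1) :=
      one_div_le_one_div_of_le (by positivity) (by linarith)
    linarith

theorem ia_tel (N : ℕ) :
    ∑ i ∈ Finset.range N, (1 / (2 * (i : ℝ) + 1) - 1 / (2 * (i : ℝ) + 3)) =
      1 - 1 / (2 * (N : ℝ) + 1) := by
  induction N with
  | zero => simp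
  | succ N ih =>
    rw [Finset.sum_range_succ, ih]
    push_cast
    have : 2 * ((N : ℝ) + 1) + 1 = 2 * (N : ℝ) + 3 := by ring
    rw [this]
    ring

theorem ia_log' : HasSum (fun n : ℕ => 1 / (2 * (n : ℝ) + 3) - 1 / (2 * (n : ℝ) + 2))
    (Real.log 2 - 1) := by
  have h1 : HasSum (fun n : ℕ => 1 / (2 * (n : ℝ) + 1) - 1 / (2 * (n : ℝ) + 3)) 1 := by
    rw [hasSum_iff_tendsto_nat_of_nonneg]
    · simp only [ia_tel]
      have h2 : Tendsto (fun N : ℕ => 2 * (N : ℝ) + 1) atTop atTop :=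
        tendsto_atTop_add_const_right _ _
          (tendsto_natCast_atTop_atTop.const_mul_atTop (by norm_num : (0 : ℝ) < 2))
      have h3 := (tendsto_inv_atTop_zero.comp h2).const_sub 1
      rw [sub_zero] at h3
      refine h3.congr ?_
      intro N
      rw [one_div]
      rfl
    · intro i
      have : 1 / (2 * (i : ℝ) + 3) ≤ 1 / (2 * (i : ℝ) + 1) :=
        one_div_le_one_div_of_le (by positivity) (by linarith)
      linarith
  have h2 := ia_log.sub h1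
  have e : (fun n : ℕ => 1 / (2 * (n : ℝ) + 3) - 1 / (2 * (n : ℝ) + 2)) =
      fun n : ℕ => 1 / (2 * (n : ℝ) + 1) - 1 / (2 * (n : ℝ) + 2) -
        (1 / (2 * (n : ℝ) + 1) - 1 / (2 * (n : ℝ) + 3)) := by
    funext n
    ring
  rw [e]
  exact h2

/-! ### Exponential sums -/

theorem ia_sq : Summable (fun k : ℕ => 1 / ((k : ℝ) + 1) ^ 2) := by
  have h1 := (Real.summable_one_div_nat_pow (p := 2)).mpr (by norm_num)
  have h2 := (summable_nat_add_iff 1).mpr h1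
  refine h2.congr fun k => ?_
  push_cast
  rfl

theorem ia_sumE {y : ℝ} (hy : 0 < y) :
    Summable (fun k : ℕ => 1 / (2 * (k : ℝ) + 2) / (Real.exp (π * (2 * (k : ℝ) + 2) * y) - 1)) := by
  refine Summable.of_nonneg_of_le (fun k => ?_) (fun k => ?_) (ia_sq.mul_left (1 / (π * y)))
  · have : 1 < Real.exp (π * (2 * (k : ℝ) + 2) * y) := Real.one_lt_exp_iff.mpr (by positivity)
    have h2 : 0 < Real.exp (π * (2 * (k : ℝ) + 2) * y) - 1 := by linarith
    positivity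
  · have h1 := Real.add_one_le_exp (π * (2 * (k : ℝ) + 2) * y)
    have h2 : π * (2 * (k : ℝ) + 2) * y ≤ Real.exp (π * (2 * (k : ℝ) + 2) * y) - 1 := by linarith
    have h3 : 0 < π * (2 * (k : ℝ) + 2) * y := by positivity
    calc 1 / (2 * (k : ℝ) + 2) / (Real.exp (π * (2 * (k : ℝ) + 2) * y) - 1)
        ≤ 1 / (2 * (k : ℝ) + 2) / (π * (2 * (k : ℝ) + 2) * y) :=
          div_le_div_of_nonneg_left (by positivity) h3 h2
      _ = 1 / (π * y) * (1 / ((k : ℝ) + 1) ^ 2) * (1 / 4) := by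
          have : 2 * (k : ℝ) + 2 = 2 * ((k : ℝ) + 1) := by ring
          rw [this]
          field_simp
          norm_num
      _ ≤ 1 / (π * y) * (1 / ((k : ℝ) + 1) ^ 2) := by
          have : 0 ≤ 1 / (π * y) * (1 / ((k : ℝ) + 1) ^ 2) := by positivity
          linarith

theorem ia_sumO {y : ℝ} (hy : 0 < y) :
    Summable (fun k : ℕ => 1 / (2 * (k : ℝ) + 1) / (Real.exp (π * (2 * (k : ℝ) + 1) * y) + 1)) := by
  refine Summable.of_nonneg_of_le (fun k => by positivity) (fun k => ?_)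
    (ia_sq.mul_left (1 / (π * y)))
  have h1 := Real.add_one_le_exp (π * (2 * (k : ℝ) + 1) * y)
  have h2 : π * (2 * (k : ℝ) + 1) * y ≤ Real.exp (π * (2 * (k : ℝ) + 1) * y) + 1 := by linarith
  have h3 : 0 < π * (2 * (k : ℝ) + 1) * y := by positivity
  calc 1 / (2 * (k : ℝ) + 1) / (Real.exp (π * (2 * (k : ℝ) + 1) * y) + 1)
      ≤ 1 / (2 * (k : ℝ) + 1) / (π * (2 * (k : ℝ) + 1) * y) :=
        div_le_div_of_nonneg_left (by positivity) h3 h2
    _ = 1 / (π * y) * (1 / (2 * (k : ℝ) + 1) ^ 2) := by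
        field_simp
    _ ≤ 1 / (π * y) * (1 / ((k : ℝ) + 1) ^ 2) := by
        apply mul_le_mul_of_nonneg_left _ (by positivity)
        apply one_div_le_one_div_of_le (by positivity)
        apply pow_le_pow_left₀ (by positivity)
        linarith [(Nat.cast_nonneg k : (0 : ℝ) ≤ k)]


/-! ### Rows of the regularised sum -/

theorem ia_ro {y m : ℝ} (hy : 0 < y) (hm : 0 < m) (x : ℤ) (hx : (x : ℝ) ^ 2 = m ^ 2) :
    HasSum (fun b : ℤ => 1 / Pf y (x, 1 + 2 * b))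
      (π / (2 * y) * (1 / m - 2 * (1 / m / (Real.exp (π * m * y) + 1)))) := by
  have h := ia_odd (mul_pos hm hy)
  have e1 : (fun n : ℤ => 1 / ((m * y) ^ 2 + (2 * (n : ℝ) + 1) ^ 2)) =
      fun b : ℤ => 1 / Pf y (x, 1 + 2 * b) := by
    funext b
    unfold Pf
    simp only
    rw [hx, mul_pow]
    push_cast
    congr 2
    ring
  have e2 : π / (2 * (m * y)) * (1 - 2 / (Real.exp (π * (m * y)) + 1)) =
      π / (2 * y) * (1 / m - 2 * (1 / m / (Real.exp (π * m * y) + 1))) := by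
    rw [← mul_assoc π m y]
    have hE : Real.exp (π * m * y) + 1 ≠ 0 := by positivity
    field_simp
  rw [e1, e2] at h
  exact h

theorem ia_re {y m : ℝ} (hy : 0 < y) (hm : 0 < m) (x : ℤ) (hx : (x : ℝ) ^ 2 = m ^ 2) :
    HasSum (fun b : ℤ => 1 / Pf y (x, 2 * b))
      (π / (2 * y) * (1 / m + 2 * (1 / m / (Real.exp (π * m * y) - 1)))) := by
  have h := ia_even (mul_pos hm hy)
  have e1 : (fun n : ℤ => 1 / ((m * y) ^ 2 + (2 * (n : ℝ)) ^ 2)) =
      fun b : ℤ => 1 / Pf y (x, 2 * b) := by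
    funext b
    unfold Pf
    simp only
    rw [hx, mul_pow]
    push_cast
    rfl
  have e2 : π / (2 * (m * y)) * (1 + 2 / (Real.exp (π * (m * y)) - 1)) =
      π / (2 * y) * (1 / m + 2 * (1 / m / (Real.exp (π * m * y) - 1))) := by
    rw [← mul_assoc π m y]
    have hE : 1 < Real.exp (π * m * y) := Real.one_lt_exp_iff.mpr (by positivity)
    have hE' : Real.exp (π * m * y) - 1 ≠ 0 := by linarith
    field_simp
  rw [e1, e2] at h
  exact h

/-- `2n+1` odd terms -/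
noncomputable def ia_o (y : ℝ) (n : ℕ) : ℝ :=
  1 / (2 * (n : ℝ) + 1) / (Real.exp (π * (2 * (n : ℝ) + 1) * y) + 1)

/-- `2n+2` even terms -/
noncomputable def ia_e (y : ℝ) (n : ℕ) : ℝ :=
  1 / (2 * (n : ℝ) + 2) / (Real.exp (π * (2 * (n : ℝ) + 2) * y) - 1)

/-- the row function -/
noncomputable def ia_D (y : ℝ) (q : ℤ × ℤ) : ℝ :=
  1 / Pf y (1 + 2 * q.1, 1 + 2 * q.2) - 1 / Pf y (2 * q.1, 2 * q.2)

theorem ia_row_neg {y : ℝ} (hy : 0 < y) (n : ℕ) :
    HasSum (fun b : ℤ => ia_D y (-((n : ℤ) + 1), b))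
      (π / (2 * y) * ((1 / (2 * (n : ℝ) + 1) - 1 / (2 * (n : ℝ) + 2)) -
        2 * ia_o y n - 2 * ia_e y n)) := by
  have h1 := ia_ro hy (by positivity : 0 < 2 * (n : ℝ) + 1) (1 + 2 * (-((n : ℤ) + 1)))
    (by push_cast; ring)
  have h2 := ia_re hy (by positivity : 0 < 2 * (n : ℝ) + 2) (2 * (-((n : ℤ) + 1)))
    (by push_cast; ring)
  have h3 := h1.sub h2
  have e : π / (2 * y) * ((1 / (2 * (n : ℝ) + 1) - 1 / (2 * (n : ℝ) + 2)) -
        2 * ia_o y n - 2 * ia_e y n) =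
      π / (2 * y) * (1 / (2 * (n : ℝ) + 1) - 2 * ia_o y n) -
      π / (2 * y) * (1 / (2 * (n : ℝ) + 2) + 2 * ia_e y n) := by ring
  rw [e]
  exact h3

theorem ia_row_pos {y : ℝ} (hy : 0 < y) (n : ℕ) :
    HasSum (fun b : ℤ => ia_D y (((n + 1 : ℕ) : ℤ), b))
      (π / (2 * y) * ((1 / (2 * (n : ℝ) + 3) - 1 / (2 * (n : ℝ) + 2)) -
        2 * ia_o y (n + 1) - 2 * ia_e y n)) := by
  have h1 := ia_ro hy (by positivity : 0 < 2 * ((n + 1 : ℕ) : ℝ) + 1) (1 + 2 * (((n + 1 : ℕ) : ℤ)))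
    (by push_cast; ring)
  have h2 := ia_re hy (by positivity : 0 < 2 * (n : ℝ) + 2) (2 * (((n + 1 : ℕ) : ℤ)))
    (by push_cast; ring)
  have h3 := h1.sub h2
  have e0 : 2 * (n : ℝ) + 3 = 2 * ((n + 1 : ℕ) : ℝ) + 1 := by push_cast; ring
  have e : π / (2 * y) * ((1 / (2 * (n : ℝ) + 3) - 1 / (2 * (n : ℝ) + 2)) -
        2 * ia_o y (n + 1) - 2 * ia_e y n) =
      π / (2 * y) * (1 / (2 * ((n + 1 : ℕ) : ℝ) + 1) - 2 * ia_o y (n + 1)) -
      π / (2 * y) * (1 / (2 * (n : ℝ) + 2) + 2 * ia_e y n) := by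
    rw [e0]
    ring
  rw [e]
  exact h3

theorem ia_row_zero {y : ℝ} (hy : 0 < y) :
    HasSum (fun b : ℤ => ia_D y (((0 : ℕ) : ℤ), b))
      (π / (2 * y) * (1 - 2 * ia_o y 0) - π ^ 2 / 12) := by
  have h1 := ia_ro hy one_pos (1 + 2 * (((0 : ℕ) : ℤ))) (by push_cast; ring)
  have h2 := ia_zero
  have e2 : (fun n : ℤ => 1 / ((2 * (n : ℝ)) ^ 2)) =
      fun b : ℤ => 1 / Pf y (2 * ((0 : ℕ) : ℤ), 2 * b) := by
    funext b
    unfold Pf
    simp only
    push_cast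
    congr 1
    ring
  rw [e2] at h2
  have h3 := h1.sub h2
  have e : π / (2 * y) * (1 / 1 - 2 * (1 / 1 / (Real.exp (π * 1 * y) + 1))) =
      π / (2 * y) * (1 - 2 * ia_o y 0) := by
    unfold ia_o
    norm_num
  rw [e] at h3
  exact h3

theorem ia_total {y : ℝ} (hy : 0 < y) (R : ℤ → ℝ) (hR : ∀ a, HasSum (fun b : ℤ => ia_D y (a, b)) (R a)) :
    HasSum R (-(Eser y / y)) := by
  have hO := (ia_sumO hy).hasSum
  have hE := (ia_sumE hy).hasSum
  set SO := ∑' k : ℕ, 1 / (2 * (k : ℝ) + 1) / (Real.exp (π * (2 * (k : ℝ) + 1) * y) + 1) with hSO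
  set SE := ∑' k : ℕ, 1 / (2 * (k : ℝ) + 2) / (Real.exp (π * (2 * (k : ℝ) + 2) * y) - 1) with hSE
  have hO' : HasSum (ia_o y) SO := hO
  have hE' : HasSum (ia_e y) SE := hE
  have hO1 : HasSum (fun n : ℕ => ia_o y (n + 1)) (SO - ia_o y 0) := by
    rw [hasSum_nat_add_iff 1]
    simpa using hO'
  have hneg : HasSum (fun n : ℕ => R (-((n : ℤ) + 1)))
      (π / (2 * y) * (Real.log 2 - 2 * SO - 2 * SE)) := by
    have e : (fun n : ℕ => R (-((n : ℤ) + 1))) = fun n : ℕ =>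
        π / (2 * y) * ((1 / (2 * (n : ℝ) + 1) - 1 / (2 * (n : ℝ) + 2)) -
        2 * ia_o y n - 2 * ia_e y n) := by
      funext n
      exact (hR _).unique (ia_row_neg hy n)
    rw [e]
    exact ((ia_log.sub (hO'.mul_left 2)).sub (hE'.mul_left 2)).mul_left _
  have hpos : HasSum (fun n : ℕ => R (((n + 1 : ℕ) : ℤ)))
      (π / (2 * y) * (Real.log 2 - 1 - 2 * (SO - ia_o y 0) - 2 * SE)) := by
    have e : (fun n : ℕ => R (((n + 1 : ℕ) : ℤ))) = fun n : ℕ =>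
        π / (2 * y) * ((1 / (2 * (n : ℝ) + 3) - 1 / (2 * (n : ℝ) + 2)) -
        2 * ia_o y (n + 1) - 2 * ia_e y n) := by
      funext n
      exact (hR _).unique (ia_row_pos hy n)
    rw [e]
    exact ((ia_log'.sub (hO1.mul_left 2)).sub (hE'.mul_left 2)).mul_left _
  have h0 : R ((0 : ℕ) : ℤ) = π / (2 * y) * (1 - 2 * ia_o y 0) - π ^ 2 / 12 :=
    (hR _).unique (ia_row_zero hy)
  have hnn := HasSum.zero_add (f := fun n : ℕ => R (n : ℤ)) hpos
  have hall := HasSum.of_nat_of_neg_add_one (f := R) hnn hneg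
  have e : -(Eser y / y) = R ((0 : ℕ) : ℤ) +
      π / (2 * y) * (Real.log 2 - 1 - 2 * (SO - ia_o y 0) - 2 * SE) +
      π / (2 * y) * (Real.log 2 - 2 * SO - 2 * SE) := by
    rw [h0]
    unfold Eser
    rw [← hSE, ← hSO]
    field_simp
    ring
  rw [e]
  exact hall

/-! ### The kernel -/

/-- the kernel `1/|z|²` -/
noncomputable def ia_f (z : ℂ) : ℂ := ((1 / Complex.normSq z : ℝ) : ℂ)

theorem ia_kernel_real {A B S : ℝ} (hA : 0 ≤ A) (hB : 0 ≤ B) (h1 : |A - B| ≤ S) :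
    |1 / A ^ 2 - 1 / B ^ 2| ≤ S * (1 / A ^ 3 + 1 / B ^ 3) := by
  have hS : 0 ≤ S := (abs_nonneg _).trans h1
  rcases hA.eq_or_lt with hA0 | hA0
  · rw [← hA0] at h1 ⊢
    rcases hB.eq_or_lt with hB0 | hB0
    · rw [← hB0]
      simp
    · rw [zero_sub, abs_neg, abs_of_pos hB0] at h1
      have e1 : |1 / (0 : ℝ) ^ 2 - 1 / B ^ 2| = B * (1 / B ^ 3) := by
        rw [zero_pow two_ne_zero, div_zero, zero_sub, abs_neg, abs_of_pos (by positivity)]
        field_simp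
      rw [e1, zero_pow three_ne_zero, div_zero, zero_add]
      exact mul_le_mul_of_nonneg_right h1 (by positivity)
  · rcases hB.eq_or_lt with hB0 | hB0
    · rw [← hB0] at h1 ⊢
      rw [sub_zero, abs_of_pos hA0] at h1
      have e1 : |1 / A ^ 2 - 1 / (0 : ℝ) ^ 2| = A * (1 / A ^ 3) := by
        rw [zero_pow two_ne_zero, div_zero, sub_zero, abs_of_pos (by positivity)]
        field_simp
      rw [e1, zero_pow three_ne_zero, div_zero, add_zero]
      exact mul_le_mul_of_nonneg_right h1 (by positivity)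
    · have e1 : 1 / A ^ 2 - 1 / B ^ 2 = -((A - B) * ((A + B) / (A ^ 2 * B ^ 2))) := by
        field_simp
        ring
      have e2 : 0 ≤ (A + B) / (A ^ 2 * B ^ 2) := by positivity
      rw [e1, abs_neg, abs_mul, abs_of_nonneg e2]
      have e3 : (A + B) / (A ^ 2 * B ^ 2) ≤ 1 / A ^ 3 + 1 / B ^ 3 := by
        have e4 : 1 / A ^ 3 + 1 / B ^ 3 - (A + B) / (A ^ 2 * B ^ 2) =
            (A - B) ^ 2 * (A + B) / (A ^ 3 * B ^ 3) := by
          field_simp
          ring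
        have e5 : 0 ≤ (A - B) ^ 2 * (A + B) / (A ^ 3 * B ^ 3) := by positivity
        linarith
      exact mul_le_mul h1 e3 e2 hS

theorem ia_ker : Ker2 ia_f where
  zero := by unfold ia_f; simp
  bound := by
    refine ⟨1, zero_le_one, fun z w => ?_⟩
    have h1 : |‖z‖ - ‖w‖| ≤ ‖z + w‖ := by
      have := abs_norm_sub_norm_le z (-w)
      rwa [norm_neg, sub_neg_eq_add] at this
    have h2 := ia_kernel_real (norm_nonneg z) (norm_nonneg w) h1
    unfold ia_f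
    rw [one_mul, ← Complex.ofReal_sub, Complex.norm_real, Real.norm_eq_abs,
      Complex.normSq_eq_norm_sq, Complex.normSq_eq_norm_sq]
    exact h2
  conj := by
    intro z
    unfold ia_f
    rw [Complex.normSq_conj, Complex.conj_ofReal]

theorem inner_abs {y : ℝ} (hy : 0 < y) (p : ℤ × ℤ) (h1 : Odd p.1) (h2 : Odd p.2) :
    HasSum (fun r : ℤ × ℤ => wt r * (1 / Pf y (p + r) - 1 / Pf y r))
      (-(Eser y / y + 1 / Pf y p)) := by
  obtain ⟨c, hc⟩ := inner_const ia_ker hy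
  have hre : ∀ p : ℤ × ℤ, Odd p.1 → Odd p.2 →
      HasSum (fun r : ℤ × ℤ => wt r * (1 / Pf y (p + r) - 1 / Pf y r)) (-(c + 1 / Pf y p)) := by
    intro p h1 h2
    have h := Complex.hasSum_re (hc p h1 h2)
    have e1 : (fun r : ℤ × ℤ => ((wt r : ℂ) * (ia_f (lam y (p + r)) - ia_f (lam y r))).re) =
        fun r : ℤ × ℤ => wt r * (1 / Pf y (p + r) - 1 / Pf y r) := by
      funext r
      unfold ia_f
      rw [normSq_lam, normSq_lam, ← Complex.ofReal_sub, ← Complex.ofReal_mul, Complex.ofReal_re]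
    have e2 : (-((c : ℂ) + ia_f (lam y p))).re = -(c + 1 / Pf y p) := by
      unfold ia_f
      rw [normSq_lam, ← Complex.ofReal_add, ← Complex.ofReal_neg, Complex.ofReal_re]
    rw [e1, e2] at h
    exact h
  have h11 := hre (1, 1) (by decide) (by decide)
  -- add the term at the origin
  set F : ℤ × ℤ → ℝ := fun r => ev r.1 * ev r.2 * (1 / Pf y ((1, 1) + r) - 1 / Pf y r) with hF
  have hPf0 : Pf y 0 = 0 := by unfold Pf; simp
  have hFs : HasSum F (-c) := by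
    have h3 := h11.add (hasSum_ite_eq (0 : ℤ × ℤ) (1 / Pf y (1, 1)))
    have e1 : (fun r : ℤ × ℤ => wt r * (1 / Pf y ((1, 1) + r) - 1 / Pf y r) +
        if r = 0 then 1 / Pf y (1, 1) else 0) = F := by
      funext r
      simp only [hF]
      unfold wt
      by_cases hr : r = 0
      · rw [if_pos hr, if_pos hr, hr, hPf0]
        simp [ev]
      · rw [if_neg hr, if_neg hr, add_zero]
    have e2 : -(c + 1 / Pf y (1, 1)) + 1 / Pf y (1, 1) = -c := by ring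
    rw [e1, e2] at h3
    exact h3
  -- restrict to the even points
  have hinj : Function.Injective (fun q : ℤ × ℤ => ((2 * q.1, 2 * q.2) : ℤ × ℤ)) := by
    rintro ⟨a, b⟩ ⟨a', b'⟩ h
    simp only [Prod.mk.injEq] at h
    ext <;> simp only <;> omega
  have hout : ∀ x ∉ Set.range (fun q : ℤ × ℤ => ((2 * q.1, 2 * q.2) : ℤ × ℤ)), F x = 0 := by
    rintro ⟨a, b⟩ hx
    simp only [hF]
    unfold ev
    by_cases ha : Even a
    · by_cases hb : Even b
      · exfalso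
        obtain ⟨a', rfl⟩ := ha
        obtain ⟨b', rfl⟩ := hb
        exact hx ⟨(a', b'), by simp only [Prod.mk.injEq]; omega⟩
      · rw [if_neg hb]; ring
    · rw [if_neg ha]; ring
  have hD := (hinj.hasSum_iff hout).mpr hFs
  have e3 : F ∘ (fun q : ℤ × ℤ => ((2 * q.1, 2 * q.2) : ℤ × ℤ)) = ia_D y := by
    funext q
    simp only [hF, Function.comp, ia_D]
    have h4 : ev (2 * q.1) = 1 := by unfold ev; rw [if_pos (even_two_mul _)]
    have h5 : ev (2 * q.2) = 1 := by unfold ev; rw [if_pos (even_two_mul _)]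
    rw [h4, h5]
    have h6 : ((1, 1) : ℤ × ℤ) + (2 * q.1, 2 * q.2) = (1 + 2 * q.1, 1 + 2 * q.2) := rfl
    rw [h6]
    ring
  rw [e3] at hD
  have hrow : ∀ a : ℤ, HasSum (fun b : ℤ => ia_D y (a, b)) (∑' b : ℤ, ia_D y (a, b)) := fun a =>
    (hD.summable.prod_factor a).hasSum
  have h5 := hD.prod_fiberwise hrow
  have h6 := ia_total hy _ hrow
  have h7 : c = Eser y / y := by
    have := h5.unique h6
    linarith
  have h8 := hre p h1 h2
  rw [h7] at h8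
  exact h8

end MM7
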