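import Pool.Agent.MM7.Summ
import Pool.Agent.MM7.Bound3

/-!
# MM7, Part 3, module OddProd

All sums are absolutely convergent (Ker3.bound, lam_kk, summable_kk12/13/23).
sum12: product of Σ_p Xw p F(λ p) and Σ_r wt r G(λ r); both are 0 (oddness, Xw(-p) = Xw p, wt(-r) = wt r).
sum13: for fixed p odd-odd: Σ_r wt r G(λ(p+r)) = Σ_{s odd-odd} G(λ s) - G(λ p) = -G(λ p) (s = p + r, r even-even; the sum
over odd-odd s vanishes by oddness).
sum23: with s = q.1+q.2 (odd-odd iff q.1 odd-odd, for q.2 even-even) one has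
Xw (s - r) = Xw s * (-1)^{(r.1+r.2)/2} for r even-even (χ₄(m - m') = χ₄(m) (-1)^{m'/2} for even m'), so the sum is
the product of Σ_r wt r (-1)^{(r.1+r.2)/2} F(λ r) = 0 and Σ_s Xw s G(λ s) = 0.
-/

open Real MeasureTheory Set Filter Topology

namespace MM7

theorem OddProd_abs_chi (n : ℤ) : |chi n| ≤ 1 := by
  unfold chi
  have h : ∀ a : ZMod 4, |(ZMod.χ₄ a : ℤ)| ≤ 1 := by decide
  have := h (n : ZMod 4)
  exact_mod_cast this

theorem OddProd_chi_neg (n : ℤ) : chi (-n) = -chi n := by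
  unfold chi
  have h : ∀ a : ZMod 4, (ZMod.χ₄ (-a) : ℤ) = -(ZMod.χ₄ a : ℤ) := by decide
  have := h (n : ZMod 4)
  push_cast
  exact_mod_cast this

theorem OddProd_even_cast {m : ℤ} (hm : Even m) : (m : ZMod 4) = 0 ∨ (m : ZMod 4) = 2 := by
  obtain ⟨k, rfl⟩ := hm
  have h : ∀ a : ZMod 4, a + a = 0 ∨ a + a = 2 := by decide
  push_cast
  exact h k

theorem OddProd_chi_even {m : ℤ} (hm : Even m) : chi m = 0 := by
  unfold chi
  rcases OddProd_even_cast hm with h | h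
  · rw [h]
    have : (ZMod.χ₄ (0 : ZMod 4) : ℤ) = 0 := by decide
    exact_mod_cast this
  · rw [h]
    have : (ZMod.χ₄ (2 : ZMod 4) : ℤ) = 0 := by decide
    exact_mod_cast this

theorem OddProd_chi_sub (n : ℤ) {m : ℤ} (hm : Even m) : chi (n - m) = chi n * chi (1 - m) := by
  unfold chi
  have h0 : ∀ a : ZMod 4, (ZMod.χ₄ (a - 0) : ℤ) = (ZMod.χ₄ a : ℤ) * (ZMod.χ₄ (1 - 0) : ℤ) := by
    decide
  have h2 : ∀ a : ZMod 4, (ZMod.χ₄ (a - 2) : ℤ) = (ZMod.χ₄ a : ℤ) * (ZMod.χ₄ (1 - 2) : ℤ) := by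
    decide
  push_cast
  rcases OddProd_even_cast hm with h | h
  · rw [h]; exact_mod_cast h0 n
  · rw [h]; exact_mod_cast h2 n

theorem OddProd_chi_one_add {m : ℤ} (hm : Even m) : chi (1 + m) = chi (1 - m) := by
  unfold chi
  push_cast
  rcases OddProd_even_cast hm with h | h
  · rw [h]; simp
  · rw [h]
    have : (ZMod.χ₄ (1 + 2 : ZMod 4) : ℤ) = (ZMod.χ₄ (1 - 2 : ZMod 4) : ℤ) := by decide
    exact_mod_cast this

theorem OddProd_ev_neg (n : ℤ) : ev (-n) = ev n := by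
  unfold ev
  simp

theorem OddProd_abs_ev (n : ℤ) : |ev n| ≤ 1 := by
  unfold ev
  split_ifs <;> simp

theorem OddProd_Xw_neg (p : ℤ × ℤ) : Xw (-p) = Xw p := by
  unfold Xw
  rw [Prod.fst_neg, Prod.snd_neg, OddProd_chi_neg, OddProd_chi_neg]
  ring

theorem OddProd_wt_neg (p : ℤ × ℤ) : wt (-p) = wt p := by
  unfold wt
  rw [Prod.fst_neg, Prod.snd_neg, OddProd_ev_neg, OddProd_ev_neg]
  simp

theorem OddProd_abs_mul {a b : ℝ} (ha : |a| ≤ 1) (hb : |b| ≤ 1) : |a * b| ≤ 1 := by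
  rw [abs_mul]
  exact mul_le_one₀ ha (abs_nonneg _) hb

theorem OddProd_abs_Xw (p : ℤ × ℤ) : |Xw p| ≤ 1 :=
  OddProd_abs_mul (OddProd_abs_chi _) (OddProd_abs_chi _)

theorem OddProd_abs_wt (p : ℤ × ℤ) : |wt p| ≤ 1 := by
  unfold wt
  split_ifs
  · simp
  · exact OddProd_abs_mul (OddProd_abs_ev _) (OddProd_abs_ev _)

theorem OddProd_bound {F : ℂ → ℂ} (hF : Ker3 F) {y : ℝ} (hy : 0 < y) :
    ∃ C : ℝ, 0 ≤ C ∧ ∀ p : ℤ × ℤ, ‖F (lam y p)‖ ≤ C * kk p := by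
  obtain ⟨C, hC, h1⟩ := hF.bound
  obtain ⟨C', hC', h2⟩ := lam_kk hy
  refine ⟨C * C', mul_nonneg hC hC', fun p => ?_⟩
  calc ‖F (lam y p)‖ ≤ C * (1 / ‖lam y p‖ ^ 3) := h1 _
    _ ≤ C * (C' * kk p) := mul_le_mul_of_nonneg_left (h2 p) hC
    _ = C * C' * kk p := by ring

theorem OddProd_summable {F : ℂ → ℂ} (hF : Ker3 F) {y : ℝ} (hy : 0 < y) (w : ℤ × ℤ → ℝ)
    (hw : ∀ p, |w p| ≤ 1) : Summable fun p : ℤ × ℤ => ‖((w p : ℝ) : ℂ) * F (lam y p)‖ := by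
  obtain ⟨C, hC, h⟩ := OddProd_bound hF hy
  refine Summable.of_nonneg_of_le (fun p => norm_nonneg _) (fun p => ?_) (summable_kk.mul_left C)
  rw [norm_mul, Complex.norm_real, Real.norm_eq_abs]
  calc |w p| * ‖F (lam y p)‖ ≤ 1 * (C * kk p) :=
        mul_le_mul (hw p) (h p) (norm_nonneg _) zero_le_one
    _ = C * kk p := one_mul _

theorem OddProd_lam_neg (y : ℝ) (p : ℤ × ℤ) : lam y (-p) = -lam y p := by
  unfold lam
  push_cast [Prod.fst_neg, Prod.snd_neg]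
  ring

theorem OddProd_tsum_zero {F : ℂ → ℂ} (hF : Ker3 F) (y : ℝ) (w : ℤ × ℤ → ℝ)
    (hw : ∀ p, w (-p) = w p) : ∑' p : ℤ × ℤ, ((w p : ℝ) : ℂ) * F (lam y p) = 0 := by
  have h : ∑' p : ℤ × ℤ, ((w p : ℝ) : ℂ) * F (lam y p) =
      -∑' p : ℤ × ℤ, ((w p : ℝ) : ℂ) * F (lam y p) := by
    rw [← tsum_neg, ← (Equiv.neg (ℤ × ℤ)).tsum_eq]
    refine tsum_congr fun p => ?_
    rw [Equiv.neg_apply, hw, OddProd_lam_neg, hF.odd]
    ring
  have h2 : (2 : ℂ) * ∑' p : ℤ × ℤ, ((w p : ℝ) : ℂ) * F (lam y p) = 0 := by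
    linear_combination h
  exact (mul_eq_zero.mp h2).resolve_left two_ne_zero

theorem OddProd_prod {F G : ℂ → ℂ} (hF : Ker3 F) (hG : Ker3 G) {y : ℝ} (hy : 0 < y)
    (w v : ℤ × ℤ → ℝ) (hw : ∀ p, |w p| ≤ 1) (hv : ∀ p, |v p| ≤ 1) (hwn : ∀ p, w (-p) = w p) :
    HasSum (fun q : (ℤ × ℤ) × (ℤ × ℤ) => (((w q.1 : ℝ) : ℂ) * F (lam y q.1)) *
      (((v q.2 : ℝ) : ℂ) * G (lam y q.2))) 0 := by
  have h1 := OddProd_summable hF hy w hw
  have h2 := OddProd_summable hG hy v hv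
  have h3 := (summable_mul_of_summable_norm h1 h2).hasSum
  have h4 := tsum_mul_tsum_of_summable_norm h1 h2
  rw [← h4, OddProd_tsum_zero hF y w hwn, zero_mul] at h3
  exact h3

theorem sum12 {F G : ℂ → ℂ} (hF : Ker3 F) (hG : Ker3 G) {y : ℝ} (hy : 0 < y) :
    HasSum (fun q : (ℤ × ℤ) × (ℤ × ℤ) => ((Xw q.1 * wt q.2 : ℝ) : ℂ) *
      (F (lam y q.1) * G (lam y q.2))) 0 := by
  have h := OddProd_prod hF hG hy Xw wt OddProd_abs_Xw OddProd_abs_wt OddProd_Xw_neg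
  have e : (fun q : (ℤ × ℤ) × (ℤ × ℤ) => ((Xw q.1 * wt q.2 : ℝ) : ℂ) *
      (F (lam y q.1) * G (lam y q.2))) = fun q : (ℤ × ℤ) × (ℤ × ℤ) =>
      (((Xw q.1 : ℝ) : ℂ) * F (lam y q.1)) * (((wt q.2 : ℝ) : ℂ) * G (lam y q.2)) := by
    funext q
    push_cast
    ring
  rw [e]
  exact h

theorem OddProd_oo {p : ℤ × ℤ} (hp : Xw p ≠ 0) : ¬ Even p.1 ∧ ¬ Even p.2 := by
  unfold Xw at hp
  constructor
  · intro h
    exact hp (by rw [OddProd_chi_even h, zero_mul])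
  · intro h
    exact hp (by rw [OddProd_chi_even h, mul_zero])

theorem OddProd_inner {G : ℂ → ℂ} (hG : Ker3 G) {y : ℝ} (hy : 0 < y) {p : ℤ × ℤ}
    (hp : ¬ Even p.1 ∧ ¬ Even p.2) :
    ∑' r : ℤ × ℤ, ((wt r : ℝ) : ℂ) * G (lam y (p + r)) = -G (lam y p) := by
  set o : ℤ × ℤ → ℝ := fun s => if ¬ Even s.1 ∧ ¬ Even s.2 then 1 else 0 with ho
  have hoa : ∀ s, |o s| ≤ 1 := by
    intro s
    simp only [ho]
    split_ifs <;> simp
  have hon : ∀ s, o (-s) = o s := by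
    intro s
    simp only [ho, Prod.fst_neg, Prod.snd_neg, even_neg]
  have h0 : ∑' s : ℤ × ℤ, ((o s : ℝ) : ℂ) * G (lam y s) = 0 := OddProd_tsum_zero hG y o hon
  have hsum : Summable fun s : ℤ × ℤ => ((o s : ℝ) : ℂ) * G (lam y s) :=
    (OddProd_summable hG hy o hoa).of_norm
  have hshift : ∑' r : ℤ × ℤ, ((o (p + r) : ℝ) : ℂ) * G (lam y (p + r)) = 0 := by
    rw [← h0]
    exact (Equiv.addLeft p).tsum_eq fun s => ((o s : ℝ) : ℂ) * G (lam y s)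
  have hsshift : Summable fun r : ℤ × ℤ => ((o (p + r) : ℝ) : ℂ) * G (lam y (p + r)) :=
    (Equiv.addLeft p).summable_iff.mpr hsum
  have hsingle : HasSum (fun r : ℤ × ℤ => if r = 0 then -G (lam y p) else 0) (-G (lam y p)) := by
    have := hasSum_ite_eq (0 : ℤ × ℤ) (-G (lam y p))
    simpa using this
  have hadd := hsshift.hasSum.add hsingle
  rw [hshift, zero_add] at hadd
  have e : (fun r : ℤ × ℤ => ((wt r : ℝ) : ℂ) * G (lam y (p + r))) = fun r : ℤ × ℤ =>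
      ((o (p + r) : ℝ) : ℂ) * G (lam y (p + r)) + (if r = 0 then -G (lam y p) else 0) := by
    funext r
    have hev : o (p + r) = ev r.1 * ev r.2 := by
      simp only [ho, Prod.fst_add, Prod.snd_add, Int.even_add, ev]
      by_cases h1 : Even r.1 <;> by_cases h2 : Even r.2 <;> simp [hp.1, hp.2, h1, h2]
    rw [hev]
    unfold wt
    by_cases hr : r = 0
    · subst hr
      simp [ev]
    · simp [hr]
  rw [e]
  exact hadd.tsum_eq

theorem sum13 {F G : ℂ → ℂ} (hF : Ker3 F) (hG : Ker3 G) {y : ℝ} (hy : 0 < y) :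
    HasSum (fun q : (ℤ × ℤ) × (ℤ × ℤ) => ((Xw q.1 * wt q.2 : ℝ) : ℂ) *
      (F (lam y q.1) * G (lam y q.1 + lam y q.2)))
      (-(∑' p : ℤ × ℤ, (Xw p : ℂ) * (F (lam y p) * G (lam y p)))) := by
  obtain ⟨C, hC, hbF⟩ := OddProd_bound hF hy
  obtain ⟨C', hC', hbG⟩ := OddProd_bound hG hy
  have hs : Summable (fun q : (ℤ × ℤ) × (ℤ × ℤ) => ((Xw q.1 * wt q.2 : ℝ) : ℂ) *
      (F (lam y q.1) * G (lam y q.1 + lam y q.2))) := by
    refine Summable.of_norm_bounded (summable_kk13.mul_left (C * C')) fun q => ?_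
    rw [norm_mul, Complex.norm_real, Real.norm_eq_abs, norm_mul, ← lam_add]
    calc |Xw q.1 * wt q.2| * (‖F (lam y q.1)‖ * ‖G (lam y (q.1 + q.2))‖)
        ≤ 1 * ((C * kk q.1) * (C' * kk (q.1 + q.2))) := by
          refine mul_le_mul (OddProd_abs_mul (OddProd_abs_Xw _) (OddProd_abs_wt _)) ?_
            (by positivity) zero_le_one
          exact mul_le_mul (hbF _) (hbG _) (norm_nonneg _) ((norm_nonneg _).trans (hbF _))
      _ = C * C' * (kk q.1 * kk (q.1 + q.2)) := by ring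
  have h1 := hs.hasSum
  rw [hs.tsum_prod] at h1
  convert h1 using 1
  rw [← tsum_neg]
  refine tsum_congr fun p => ?_
  have e : ∀ r : ℤ × ℤ, ((Xw p * wt r : ℝ) : ℂ) * (F (lam y p) * G (lam y p + lam y r)) =
      (((Xw p : ℝ) : ℂ) * F (lam y p)) * (((wt r : ℝ) : ℂ) * G (lam y (p + r))) := by
    intro r
    rw [lam_add]
    push_cast
    ring
  simp only [e]
  rw [tsum_mul_left]
  by_cases hp : Xw p = 0
  · rw [hp]; simp
  · rw [OddProd_inner hG hy (OddProd_oo hp)]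
    ring

theorem sum23 {F G : ℂ → ℂ} (hF : Ker3 F) (hG : Ker3 G) {y : ℝ} (hy : 0 < y) :
    HasSum (fun q : (ℤ × ℤ) × (ℤ × ℤ) => ((Xw q.1 * wt q.2 : ℝ) : ℂ) *
      (F (lam y q.2) * G (lam y q.1 + lam y q.2))) 0 := by
  set v : ℤ × ℤ → ℝ := fun r => chi (1 - r.1) * chi (1 - r.2) * wt r with hv
  have hva : ∀ r, |v r| ≤ 1 := fun r =>
    OddProd_abs_mul (OddProd_abs_mul (OddProd_abs_chi _) (OddProd_abs_chi _)) (OddProd_abs_wt _)
  have h := OddProd_prod hG hF hy Xw v OddProd_abs_Xw hva OddProd_Xw_neg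
  let E : (ℤ × ℤ) × (ℤ × ℤ) ≃ (ℤ × ℤ) × (ℤ × ℤ) :=
    { toFun := fun q => (q.1 + q.2, q.2)
      invFun := fun q => (q.1 - q.2, q.2)
      left_inv := fun q => by simp
      right_inv := fun q => by simp }
  have h2 := E.hasSum_iff.mpr h
  convert h2 using 1
  funext q
  change _ = (((Xw (q.1 + q.2) : ℝ) : ℂ) * G (lam y (q.1 + q.2))) *
      (((v q.2 : ℝ) : ℂ) * F (lam y q.2))
  rw [lam_add]
  have key : Xw q.1 * wt q.2 = Xw (q.1 + q.2) * v q.2 := by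
    simp only [hv]
    by_cases hw : wt q.2 = 0
    · rw [hw]; ring
    · have hev : Even q.2.1 ∧ Even q.2.2 := by
        unfold wt ev at hw
        by_cases h1 : Even q.2.1 <;> by_cases h2 : Even q.2.2 <;> simp_all
      have e1 : chi q.1.1 = chi (q.1.1 + q.2.1) * chi (1 - q.2.1) := by
        rw [← OddProd_chi_sub _ hev.1]
        congr 1
        ring
      have e2 : chi q.1.2 = chi (q.1.2 + q.2.2) * chi (1 - q.2.2) := by
        rw [← OddProd_chi_sub _ hev.2]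
        congr 1
        ring
      unfold Xw
      rw [e1, e2, Prod.fst_add, Prod.snd_add]
      ring
  have key' : ((Xw q.1 * wt q.2 : ℝ) : ℂ) = ((Xw (q.1 + q.2) : ℝ) : ℂ) * ((v q.2 : ℝ) : ℂ) := by
    rw [key]
    push_cast
    rfl
  rw [key']
  ring

end MM7
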