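import Pool.Agent.MM7.Defs3b

/-!
# MM7, Part 3, module Ode

I0(y) = ∫_y^∞ σ, I2(y) = ∫_y^∞ t²σ.  Ap = (I2 - y² I0)/(2y), Bp = -(I2 + y² I0)/(2y) satisfy for y > 1 (and one-sided
or on all of (0,∞), since σ is continuous there): y Ap' = Bp, y Bp' = Ap + y² σ.
a = A - Ap, b = B - Bp: ((a+b)/y)' = 0, ((a-b) y)' = 0, so a = c1 y + c2/y. a/y → 0 (A/y → 0, Ap/y → 0) so c1 = 0;
a(1) = A 1 - Ap 1 = 0 - (1/2)∫_1^∞ (t²-1)σ = 0 so c2 = 0. Hence a = b = 0 on [1,∞).
-/

open Real MeasureTheory Set Filter Topology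

namespace MM7

private lemma ode_deriv {σ : ℝ → ℝ} (hσ : ContinuousOn σ (Ioi 0)) {y : ℝ} (hy : 0 < y) :
    HasDerivAt (fun y => ∫ t in (1:ℝ)..y, σ t) (σ y) y := by
  refine intervalIntegral.integral_hasDerivAt_right ?_ ?_ (hσ.continuousAt (Ioi_mem_nhds hy))
  · refine ContinuousOn.intervalIntegrable (hσ.mono fun t ht => ?_)
    rw [mem_uIcc] at ht
    rw [mem_Ioi]
    rcases ht with h | h
    · linarith [h.1]
    · linarith [h.1]
  · exact ContinuousOn.stronglyMeasurableAtFilter isOpen_Ioi hσ y hy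

private lemma ode_const {f : ℝ → ℝ} (hf : ∀ y, 0 < y → HasDerivAt f 0 y) {x y : ℝ} (hx : 0 < x)
    (hy : 0 < y) : f x = f y :=
  isOpen_Ioi.is_const_of_deriv_eq_zero (isPreconnected_Ioi (a := (0:ℝ)))
    (fun z hz => (hf z hz).differentiableAt.differentiableWithinAt)
    (fun z hz => (hf z hz).deriv) hx hy

theorem ode_solve {A B σ : ℝ → ℝ} (hA : ∀ y, 0 < y → HasDerivAt A (B y / y) y)
    (hB : ∀ y, 0 < y → HasDerivAt B ((A y + y ^ 2 * σ y) / y) y)
    (hσ : ContinuousOn σ (Ioi 0)) (hint : IntegrableOn (fun t => t ^ 2 * σ t) (Ioi 1))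
    (hgrow : Tendsto (fun y => A y / y) atTop (𝓝 0)) (hA1 : A 1 = 0)
    (h0 : ∫ t in Ioi (1:ℝ), (t ^ 2 - 1) * σ t = 0) {y : ℝ} (hy : 1 ≤ y) :
    A y = 1 / (2 * y) * ∫ t in Ioi y, (t ^ 2 - y ^ 2) * σ t ∧
    B y = -(1 / (2 * y)) * ∫ t in Ioi y, (t ^ 2 + y ^ 2) * σ t := by
  have hσ1 : ContinuousOn σ (Ioi 1) := hσ.mono (Ioi_subset_Ioi zero_le_one)
  have hint0 : IntegrableOn σ (Ioi 1) := by
    refine Integrable.mono hint (hσ1.aestronglyMeasurable measurableSet_Ioi) ?_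
    refine (ae_restrict_iff' measurableSet_Ioi).2 (Eventually.of_forall fun t ht => ?_)
    rw [norm_mul]
    have ht1 : (1:ℝ) < t := ht
    have h1 : (1:ℝ) ≤ ‖t ^ 2‖ := by
      rw [Real.norm_of_nonneg (by positivity)]
      nlinarith
    nlinarith [norm_nonneg (σ t)]
  have hσ2 : ContinuousOn (fun t => t ^ 2 * σ t) (Ioi 0) := (continuousOn_id.pow 2).mul hσ
  set c0 : ℝ := ∫ t in Ioi (1:ℝ), σ t with hc0
  set c2 : ℝ := ∫ t in Ioi (1:ℝ), t ^ 2 * σ t with hc2
  set J0 : ℝ → ℝ := fun y => c0 - ∫ t in (1:ℝ)..y, σ t with hJ0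
  set J2 : ℝ → ℝ := fun y => c2 - ∫ t in (1:ℝ)..y, t ^ 2 * σ t with hJ2
  have dJ0 : ∀ y, 0 < y → HasDerivAt J0 (-σ y) y := fun y hy => by
    simpa using (ode_deriv hσ hy).const_sub c0
  have dJ2 : ∀ y, 0 < y → HasDerivAt J2 (-(y ^ 2 * σ y)) y := fun y hy => by
    simpa using (ode_deriv hσ2 hy).const_sub c2
  have tJ0 : Tendsto J0 atTop (𝓝 0) := by
    have h1 := intervalIntegral_tendsto_integral_Ioi 1 hint0 tendsto_id
    have h2 := h1.const_sub c0
    rw [← hc0, sub_self] at h2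
    exact h2
  have tJ2 : Tendsto J2 atTop (𝓝 0) := by
    have h1 := intervalIntegral_tendsto_integral_Ioi 1 hint tendsto_id
    have h2 := h1.const_sub c2
    rw [← hc2, sub_self] at h2
    exact h2
  have du : ∀ y, 0 < y → HasDerivAt (fun y => (A y + B y) / y + J0 y) 0 y := by
    intro y hy
    have h1 := (((hA y hy).add (hB y hy)).div (hasDerivAt_id y) hy.ne').add (dJ0 y hy)
    refine HasDerivAt.congr_deriv (f := fun y => (A y + B y) / y + J0 y) h1 ?_
    simp only [id, Pi.add_apply]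
    field_simp
    ring
  have dv : ∀ y, 0 < y → HasDerivAt (fun y => (A y - B y) * y - J2 y) 0 y := by
    intro y hy
    have h1 := (((hA y hy).sub (hB y hy)).mul (hasDerivAt_id y)).sub (dJ2 y hy)
    refine HasDerivAt.congr_deriv (f := fun y => (A y - B y) * y - J2 y) h1 ?_
    simp only [id, Pi.sub_apply]
    field_simp
    ring
  set c : ℝ := (A 1 + B 1) / 1 + J0 1 with hc
  set c' : ℝ := (A 1 - B 1) * 1 - J2 1 with hc'
  have hu : ∀ y, 0 < y → (A y + B y) / y + J0 y = c := fun y hy => ode_const du hy one_pos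
  have hv : ∀ y, 0 < y → (A y - B y) * y - J2 y = c' := fun y hy => ode_const dv hy one_pos
  have hAB : ∀ y, 0 < y → A y + B y = y * (c - J0 y) := by
    intro y hy
    have := hu y hy
    field_simp at this
    linarith
  have hAB' : ∀ y, 0 < y → A y - B y = (c' + J2 y) / y := by
    intro y hy
    have := hv y hy
    rw [eq_div_iff hy.ne']
    linarith
  have hc_zero : c = 0 := by
    have h1 : Tendsto (fun y => ((c - J0 y) + (c' + J2 y) * (1 / y ^ 2)) / 2) atTop
        (𝓝 (((c - 0) + (c' + 0) * 0) / 2)) := by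
      have h2 : Tendsto (fun y : ℝ => 1 / y ^ 2) atTop (𝓝 0) :=
        tendsto_const_nhds.div_atTop (tendsto_pow_atTop two_ne_zero)
      exact ((tJ0.const_sub c).add ((tJ2.const_add c').mul h2)).div_const 2
    have h3 : (fun y => A y / y) =ᶠ[atTop] fun y => ((c - J0 y) + (c' + J2 y) * (1 / y ^ 2)) / 2 := by
      filter_upwards [eventually_gt_atTop (0:ℝ)] with y hy
      have h4 := hAB y hy
      have h5 := hAB' y hy
      have h6 : A y = (y * (c - J0 y) + (c' + J2 y) / y) / 2 := by linarith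
      rw [h6]
      field_simp
    have h7 := tendsto_nhds_unique (hgrow.congr' h3) h1
    linarith
  have hJ01 : J0 1 = c0 := by simp [hJ0]
  have hJ21 : J2 1 = c2 := by simp [hJ2]
  have hc20 : c2 - c0 = 0 := by
    rw [← h0, hc2, hc0, ← integral_sub hint hint0]
    refine setIntegral_congr_fun measurableSet_Ioi fun t _ => ?_
    ring
  have hc'_zero : c' = 0 := by
    have h4 := hAB 1 one_pos
    have h5 := hAB' 1 one_pos
    rw [hJ01, hc_zero, hA1] at h4
    rw [hJ21, hA1, div_one] at h5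
    linarith
  have hy0 : 0 < y := by linarith
  have hsub : Ioi y ⊆ Ioi (1:ℝ) := Ioi_subset_Ioi hy
  have i0 : IntegrableOn σ (Ioi y) := hint0.mono_set hsub
  have i2 : IntegrableOn (fun t => t ^ 2 * σ t) (Ioi y) := hint.mono_set hsub
  have eJ0 : J0 y = ∫ t in Ioi y, σ t := by
    have := intervalIntegral.integral_Ioi_sub_Ioi hint0 hy
    simp only [hJ0]
    linarith
  have eJ2 : J2 y = ∫ t in Ioi y, t ^ 2 * σ t := by
    have := intervalIntegral.integral_Ioi_sub_Ioi hint hy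
    simp only [hJ2]
    linarith
  have e1 : ∫ t in Ioi y, (t ^ 2 - y ^ 2) * σ t = J2 y - y ^ 2 * J0 y := by
    rw [eJ0, eJ2, ← integral_const_mul, ← integral_sub i2 (i0.const_mul _)]
    refine setIntegral_congr_fun measurableSet_Ioi fun t _ => ?_
    ring
  have e2 : ∫ t in Ioi y, (t ^ 2 + y ^ 2) * σ t = J2 y + y ^ 2 * J0 y := by
    rw [eJ0, eJ2, ← integral_const_mul, ← integral_add i2 (i0.const_mul _)]
    refine setIntegral_congr_fun measurableSet_Ioi fun t _ => ?_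
    ring
  have h4 := hAB y hy0
  have h5 := hAB' y hy0
  rw [hc_zero] at h4
  rw [hc'_zero] at h5
  rw [e1, e2]
  constructor
  · have h6 : A y = (y * (0 - J0 y) + (0 + J2 y) / y) / 2 := by linarith
    rw [h6]
    field_simp
    ring
  · have h6 : B y = (y * (0 - J0 y) - (0 + J2 y) / y) / 2 := by linarith
    rw [h6]
    field_simp
    ring

end MM7
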