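import Pool.Agent.MM7.Pt3
import Pool.Agent.MM7.Inner
import Pool.Agent.MM7.InnerAbs
import Pool.Agent.MM7.DiffSum
import Pool.Agent.MM7.OddProd
import Pool.Agent.MM7.Summ
import Pool.Agent.MM7.Bound3

/-!
# MM7, Part 3, module SserEq

Assembly. By Sterm_eq, Sser y = y³ Im Σ_q Xw wt Zk(λ1,λ2). Zk is a sum of 12 kernels:
(a1) 3/2 K=1/z⁴, f=1/(z z̄), constant c1 = Eser y / y (inner_abs); (a2) -1/2, K=1/(z² z̄²), f = z̄/z³ ; (a3) -1,
K = 1/(z³ z̄)+1/(z z̄³), f = 1/z²: diff_sum with the real constants c2, c3 of inner_const.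
Products of odd kernels of degree -3 (Ker3): sum12, sum13, sum23.
With M := Σ_p Xw p λ^-5 λ̄^-1 , and Σ_p Xw p R(λ p) = 0 for every R with R(conj z) = R(z) (p ↦ (-p.1,p.2) changes the
sign of Xw): the diagonal terms are: (a1) -3/2 (c1 Gser + M); (a2) +1/2 (0 + M); (a3) + (0 + M + 0) up to terms
whose imaginary part vanishes [Σ Xw (λ^-3 λ̄^-1 + λ^-1 λ̄^-3) = 0 and Σ Xw λ^-3 λ̄^-3 = 0];
sum13 terms: -1/2 * F=1/(z²z̄), G=1/z³: +1/2 M; +1/2 * F = 1/z³, G = 1/(z² z̄): -1/2 M;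
-1/2 * F = 1/(z z̄²), G = 1/(z² z̄): + 1/2 Σ Xw λ^-3 λ̄^-3 = 0; all sum12, sum23 terms are 0.
Total: -(3/2) c1 Gser + (-3/2 + 1/2 + 1 + 1/2 - 1/2) M = -(3/2) (Eser y / y) Gser. Taking y³ Im gives the claim.
-/

open Real MeasureTheory Set Filter Topology

namespace MM7

theorem SserEq_alg {a b : ℝ} (ha : 0 ≤ a) (hb : 0 ≤ b) :
    a ^ 2 * b + a * b ^ 2 ≤ a ^ 3 + b ^ 3 := by
  nlinarith [mul_nonneg (add_nonneg ha hb) (sq_nonneg (a - b))]

theorem SserEq_ker2_abs : Ker2 (fun z : ℂ => 1 / (z * starRingEnd ℂ z)) := by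
  refine ⟨by simp, ⟨1, zero_le_one, ?_⟩, ?_⟩
  · intro z w
    have h : ∀ z : ℂ, 1 / (z * starRingEnd ℂ z) = (((1 / ‖z‖) ^ 2 : ℝ) : ℂ) := by
      intro z
      rw [Complex.mul_conj, Complex.normSq_eq_norm_sq]
      push_cast
      rw [one_div_pow]
    simp only [h]
    rw [← Complex.ofReal_sub, Complex.norm_real, Real.norm_eq_abs]
    have hD : |‖z‖ - ‖w‖| ≤ ‖z + w‖ := by
      have := abs_norm_sub_norm_le z (-w)
      rwa [norm_neg, sub_neg_eq_add] at this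
    rcases eq_or_ne z 0 with hz | hz
    · rcases eq_or_ne w 0 with hw | hw
      · subst hz; subst hw; simp
      · subst hz
        have hw' : 0 < ‖w‖ := norm_pos_iff.2 hw
        simp only [norm_zero, div_zero, zero_add, one_mul]
        rw [show (0:ℝ) ^ 3 = 0 by norm_num, div_zero, zero_add,
          show (0:ℝ) ^ 2 = 0 by norm_num, zero_sub, abs_neg, abs_of_nonneg (by positivity)]
        apply le_of_eq
        field_simp
    · rcases eq_or_ne w 0 with hw | hw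
      · subst hw
        have hz' : 0 < ‖z‖ := norm_pos_iff.2 hz
        simp only [norm_zero, div_zero, add_zero, one_mul]
        rw [show (0:ℝ) ^ 3 = 0 by norm_num, div_zero, add_zero,
          show (0:ℝ) ^ 2 = 0 by norm_num, sub_zero, abs_of_nonneg (by positivity)]
        apply le_of_eq
        field_simp
      · have hz' : 0 < ‖z‖ := norm_pos_iff.2 hz
        have hw' : 0 < ‖w‖ := norm_pos_iff.2 hw
        set a := 1 / ‖z‖ with ha
        set b := 1 / ‖w‖ with hb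
        have ha0 : 0 < a := by positivity
        have hb0 : 0 < b := by positivity
        have e1 : a ^ 2 - b ^ 2 = -((‖z‖ - ‖w‖) * (a ^ 2 * b + a * b ^ 2)) := by
          rw [ha, hb]; field_simp; ring
        rw [e1, abs_neg, abs_mul, abs_of_nonneg (by positivity : 0 ≤ a ^ 2 * b + a * b ^ 2)]
        rw [← one_div_pow, ← one_div_pow, ← ha, ← hb, one_mul]
        exact mul_le_mul hD (SserEq_alg ha0.le hb0.le) (by positivity) (norm_nonneg _)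
  · intro z
    simp [mul_comm]

theorem SserEq_ker2_sq : Ker2 (fun z : ℂ => 1 / z ^ 2) := by
  refine ⟨by simp, ⟨1, zero_le_one, ?_⟩, ?_⟩
  · intro z w
    rcases eq_or_ne z 0 with hz | hz
    · rcases eq_or_ne w 0 with hw | hw
      · subst hz; subst hw; simp
      · subst hz
        have hw' : 0 < ‖w‖ := norm_pos_iff.2 hw
        simp only [norm_zero, zero_add, one_mul]
        rw [show (0:ℝ) ^ 3 = 0 by norm_num, div_zero, zero_add,
          show (0:ℂ) ^ 2 = 0 by norm_num, div_zero, zero_sub, norm_neg, norm_div, norm_one, norm_pow]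
        apply le_of_eq
        field_simp
    · rcases eq_or_ne w 0 with hw | hw
      · subst hw
        have hz' : 0 < ‖z‖ := norm_pos_iff.2 hz
        simp only [norm_zero, add_zero, one_mul]
        rw [show (0:ℝ) ^ 3 = 0 by norm_num, div_zero, add_zero,
          show (0:ℂ) ^ 2 = 0 by norm_num, div_zero, sub_zero, norm_div, norm_one, norm_pow]
        apply le_of_eq
        field_simp
      · have hz' : 0 < ‖z‖ := norm_pos_iff.2 hz
        have hw' : 0 < ‖w‖ := norm_pos_iff.2 hw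
        have e1 : 1 / z ^ 2 - 1 / w ^ 2 = (w - z) * (z + w) * (1 / (z ^ 2 * w ^ 2)) := by
          field_simp; ring
        simp only [e1]
        rw [norm_mul, norm_mul, norm_div, norm_one, norm_mul, norm_pow, norm_pow]
        have h1 : ‖w - z‖ ≤ ‖w‖ + ‖z‖ := norm_sub_le _ _
        set a := 1 / ‖z‖ with ha
        set b := 1 / ‖w‖ with hb
        have ha0 : 0 < a := by positivity
        have hb0 : 0 < b := by positivity
        have e2 : 1 / (‖z‖ ^ 2 * ‖w‖ ^ 2) = a ^ 2 * b ^ 2 := by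
          rw [ha, hb]; field_simp
        have e3 : (‖w‖ + ‖z‖) * (a ^ 2 * b ^ 2) = a ^ 2 * b + a * b ^ 2 := by
          rw [ha, hb]; field_simp
        rw [e2, ← one_div_pow, ← one_div_pow, ← ha, ← hb, one_mul]
        calc ‖w - z‖ * ‖z + w‖ * (a ^ 2 * b ^ 2)
            ≤ (‖w‖ + ‖z‖) * ‖z + w‖ * (a ^ 2 * b ^ 2) := by gcongr
          _ = ‖z + w‖ * ((‖w‖ + ‖z‖) * (a ^ 2 * b ^ 2)) := by ring
          _ ≤ ‖z + w‖ * (a ^ 3 + b ^ 3) := by
              rw [e3]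
              exact mul_le_mul_of_nonneg_left (SserEq_alg ha0.le hb0.le) (norm_nonneg _)
  · intro z
    simp

theorem SserEq_ker2_b : Ker2 (fun z : ℂ => starRingEnd ℂ z / z ^ 3) := by
  refine ⟨by simp, ⟨3, by norm_num, ?_⟩, ?_⟩
  · intro z w
    rcases eq_or_ne z 0 with hz | hz
    · rcases eq_or_ne w 0 with hw | hw
      · subst hz; subst hw; simp
      · subst hz
        have hw' : 0 < ‖w‖ := norm_pos_iff.2 hw
        simp only [norm_zero, zero_add]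
        rw [show (0:ℝ) ^ 3 = 0 by norm_num, div_zero, zero_add,
          show (0:ℂ) ^ 3 = 0 by norm_num, div_zero, zero_sub, norm_neg, norm_div, norm_pow,
          Complex.norm_conj]
        have : ‖w‖ / ‖w‖ ^ 3 = ‖w‖ * (1 / ‖w‖ ^ 3) := by ring
        rw [this]
        have h0 : 0 ≤ ‖w‖ * (1 / ‖w‖ ^ 3) := by positivity
        linarith
    · rcases eq_or_ne w 0 with hw | hw
      · subst hw
        have hz' : 0 < ‖z‖ := norm_pos_iff.2 hz
        simp only [norm_zero, add_zero]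
        rw [show (0:ℝ) ^ 3 = 0 by norm_num, div_zero, add_zero,
          show (0:ℂ) ^ 3 = 0 by norm_num, div_zero, sub_zero, norm_div, norm_pow,
          Complex.norm_conj]
        have : ‖z‖ / ‖z‖ ^ 3 = ‖z‖ * (1 / ‖z‖ ^ 3) := by ring
        rw [this]
        have h0 : 0 ≤ ‖z‖ * (1 / ‖z‖ ^ 3) := by positivity
        linarith
      · have hz' : 0 < ‖z‖ := norm_pos_iff.2 hz
        have hw' : 0 < ‖w‖ := norm_pos_iff.2 hw
        have e1 : starRingEnd ℂ z / z ^ 3 - starRingEnd ℂ w / w ^ 3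
            = starRingEnd ℂ (z + w) * (1 / z ^ 3)
              - starRingEnd ℂ w * (z + w) * (z ^ 2 - z * w + w ^ 2) * (1 / (z ^ 3 * w ^ 3)) := by
          rw [map_add]
          field_simp; ring
        simp only [e1]
        set a := 1 / ‖z‖ with ha
        set b := 1 / ‖w‖ with hb
        have ha0 : 0 < a := by positivity
        have hb0 : 0 < b := by positivity
        have h2 : ‖z ^ 2 - z * w + w ^ 2‖ ≤ ‖z‖ ^ 2 + ‖z‖ * ‖w‖ + ‖w‖ ^ 2 := by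
          calc ‖z ^ 2 - z * w + w ^ 2‖ ≤ ‖z ^ 2 - z * w‖ + ‖w ^ 2‖ := norm_add_le _ _
            _ ≤ ‖z ^ 2‖ + ‖z * w‖ + ‖w ^ 2‖ := by
                have := norm_sub_le (z ^ 2) (z * w)
                linarith
            _ = _ := by rw [norm_pow, norm_mul, norm_pow]
        have e2 : ‖w‖ * (‖z‖ ^ 2 + ‖z‖ * ‖w‖ + ‖w‖ ^ 2) * (1 / (‖z‖ ^ 3 * ‖w‖ ^ 3))
            = a * b ^ 2 + a ^ 2 * b + a ^ 3 := by
          rw [ha, hb]; field_simp
        have e3 : 1 / ‖z‖ ^ 3 = a ^ 3 := by rw [ha, one_div_pow]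
        have e4 : 1 / ‖w‖ ^ 3 = b ^ 3 := by rw [hb, one_div_pow]
        have hA := SserEq_alg ha0.le hb0.le
        calc ‖starRingEnd ℂ (z + w) * (1 / z ^ 3)
              - starRingEnd ℂ w * (z + w) * (z ^ 2 - z * w + w ^ 2) * (1 / (z ^ 3 * w ^ 3))‖
            ≤ ‖starRingEnd ℂ (z + w) * (1 / z ^ 3)‖
              + ‖starRingEnd ℂ w * (z + w) * (z ^ 2 - z * w + w ^ 2) * (1 / (z ^ 3 * w ^ 3))‖ :=
              norm_sub_le _ _
          _ = ‖z + w‖ * (1 / ‖z‖ ^ 3)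
              + ‖w‖ * ‖z + w‖ * ‖z ^ 2 - z * w + w ^ 2‖ * (1 / (‖z‖ ^ 3 * ‖w‖ ^ 3)) := by
              simp only [norm_mul, norm_div, norm_one, norm_pow, Complex.norm_conj]
          _ ≤ ‖z + w‖ * (1 / ‖z‖ ^ 3)
              + ‖w‖ * ‖z + w‖ * (‖z‖ ^ 2 + ‖z‖ * ‖w‖ + ‖w‖ ^ 2) * (1 / (‖z‖ ^ 3 * ‖w‖ ^ 3)) := by
              gcongr
          _ = ‖z + w‖ * (1 / ‖z‖ ^ 3)
              + ‖z + w‖ * (‖w‖ * (‖z‖ ^ 2 + ‖z‖ * ‖w‖ + ‖w‖ ^ 2) * (1 / (‖z‖ ^ 3 * ‖w‖ ^ 3))) := by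
              ring
          _ = ‖z + w‖ * (a ^ 3 + (a * b ^ 2 + a ^ 2 * b + a ^ 3)) := by
              rw [e2, e3]; ring
          _ ≤ ‖z + w‖ * (3 * (a ^ 3 + b ^ 3)) := by
              apply mul_le_mul_of_nonneg_left _ (norm_nonneg _)
              have : 0 ≤ b ^ 3 := by positivity
              linarith
          _ = 3 * ‖z + w‖ * (1 / ‖z‖ ^ 3 + 1 / ‖w‖ ^ 3) := by rw [e3, e4]; ring
  · intro z
    simp

theorem SserEq_ker3_30 : Ker3 (fun z : ℂ => 1 / z ^ 3) := by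
  refine ⟨?_, ⟨1, zero_le_one, ?_⟩⟩
  · intro z
    rw [Odd.neg_pow (by decide), div_neg]
  · intro z
    simp

theorem SserEq_ker3_21 : Ker3 (fun z : ℂ => 1 / (z ^ 2 * starRingEnd ℂ z)) := by
  refine ⟨?_, ⟨1, zero_le_one, ?_⟩⟩
  · intro z
    rw [map_neg, mul_neg, neg_sq, div_neg]
  · intro z
    rw [one_mul, norm_div, norm_one, norm_mul, norm_pow, Complex.norm_conj]
    apply le_of_eq; ring

theorem SserEq_ker3_12 : Ker3 (fun z : ℂ => 1 / (z * starRingEnd ℂ z ^ 2)) := by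
  refine ⟨?_, ⟨1, zero_le_one, ?_⟩⟩
  · intro z
    rw [map_neg, neg_mul, neg_sq, div_neg]
  · intro z
    rw [one_mul, norm_div, norm_one, norm_mul, norm_pow, Complex.norm_conj]
    apply le_of_eq; ring


theorem SserEq_chi_abs (n : ℤ) : |chi n| ≤ 1 := by
  have h : ∀ x : ZMod 4, |ZMod.χ₄ x| ≤ 1 := by decide
  unfold chi
  have := h (n : ZMod 4)
  exact_mod_cast this

theorem SserEq_chi_neg (n : ℤ) : chi (-n) = -chi n := by
  have h : ∀ x : ZMod 4, ZMod.χ₄ (-x) = -ZMod.χ₄ x := by decide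
  unfold chi
  have := h (n : ZMod 4)
  push_cast
  rw [this]
  push_cast
  ring

theorem SserEq_Xw_norm (p : ℤ × ℤ) : ‖((Xw p : ℝ) : ℂ)‖ ≤ 1 := by
  rw [Complex.norm_real, Real.norm_eq_abs, Xw, abs_mul]
  have h1 := SserEq_chi_abs p.1
  have h2 := SserEq_chi_abs p.2
  calc |chi p.1| * |chi p.2| ≤ 1 * 1 := mul_le_mul h1 h2 (abs_nonneg _) zero_le_one
    _ = 1 := one_mul 1

theorem SserEq_kk_le (p : ℤ × ℤ) : kk p ≤ 1 := by
  unfold kk
  rcases eq_or_ne p 0 with hp | hp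
  · subst hp
    simp [nn]
  · have h1 : (1:ℝ) ≤ nn p := by
      have h0 : (1:ℤ) ≤ p.1 ^ 2 + p.2 ^ 2 := by
        rcases eq_or_ne p.1 0 with h1 | h1
        · rcases eq_or_ne p.2 0 with h2 | h2
          · exact absurd (Prod.ext h1 h2) hp
          · have : 0 < p.2 ^ 2 := by positivity
            nlinarith [sq_nonneg p.1]
        · have : 0 < p.1 ^ 2 := by positivity
          nlinarith [sq_nonneg p.2]
      unfold nn
      exact_mod_cast h0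
    have h2 : (1:ℝ) ≤ Real.sqrt (nn p) := Real.one_le_sqrt.2 h1
    have h3 : (1:ℝ) ≤ Real.sqrt (nn p) ^ 3 := one_le_pow₀ h2
    rw [div_le_one (by positivity)]
    exact h3

theorem SserEq_kk_nonneg (p : ℤ × ℤ) : 0 ≤ kk p := by
  unfold kk; positivity

theorem SserEq_summ {R : ℂ → ℂ} {y : ℝ} (hy : 0 < y) (i : ℕ)
    (hR : ∃ C : ℝ, 0 ≤ C ∧ ∀ z, ‖R z‖ ≤ C * (1 / ‖z‖) ^ (3 + i)) :
    Summable (fun p : ℤ × ℤ => ((Xw p : ℝ) : ℂ) * R (lam y p)) := by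
  obtain ⟨C, hC, hC'⟩ := lam_kk hy
  obtain ⟨D, hD, hD'⟩ := hR
  refine Summable.of_norm_bounded (g := fun p => (D * ((1 + C) ^ i * C)) * kk p)
    (summable_kk.mul_left _) ?_
  intro p
  have h1 := hC' p
  set x := 1 / ‖lam y p‖ with hx
  have hx0 : 0 ≤ x := by positivity
  have h2 : x ^ 3 ≤ C * kk p := by rw [hx, one_div_pow]; exact h1
  have h3 : x ^ 3 ≤ C := by
    have := mul_le_mul_of_nonneg_left (SserEq_kk_le p) hC
    linarith
  have h4 : x ≤ 1 + C := by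
    by_contra h
    push Not at h
    have hx1 : 1 ≤ x := by linarith
    have : x ≤ x ^ 3 := by
      calc x = x ^ 1 := (pow_one x).symm
        _ ≤ x ^ 3 := pow_le_pow_right₀ hx1 (by norm_num)
    linarith
  rw [norm_mul]
  calc ‖((Xw p : ℝ) : ℂ)‖ * ‖R (lam y p)‖ ≤ 1 * (D * x ^ (3 + i)) :=
        mul_le_mul (SserEq_Xw_norm p) (hD' _) (norm_nonneg _) zero_le_one
    _ = D * (x ^ i * x ^ 3) := by rw [one_mul, pow_add]; ring
    _ ≤ D * ((1 + C) ^ i * (C * kk p)) := by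
        apply mul_le_mul_of_nonneg_left _ hD
        exact mul_le_mul (pow_le_pow_left₀ hx0 h4 i) h2 (by positivity) (by positivity)
    _ = (D * ((1 + C) ^ i * C)) * kk p := by ring

theorem SserEq_sym {R : ℂ → ℂ} (y : ℝ) (hR : ∀ z, R (starRingEnd ℂ z) = R z) :
    ∑' p : ℤ × ℤ, ((Xw p : ℝ) : ℂ) * R (lam y p) = 0 := by
  have h := Equiv.tsum_eq ((Equiv.neg ℤ).prodCongr (Equiv.refl ℤ))
    (fun p : ℤ × ℤ => ((Xw p : ℝ) : ℂ) * R (lam y p))
  have h2 : ∀ p : ℤ × ℤ,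
      (fun p : ℤ × ℤ => ((Xw p : ℝ) : ℂ) * R (lam y p))
        (((Equiv.neg ℤ).prodCongr (Equiv.refl ℤ)) p)
        = -(((Xw p : ℝ) : ℂ) * R (lam y p)) := by
    intro p
    have e1 : lam y (((Equiv.neg ℤ).prodCongr (Equiv.refl ℤ)) p) = starRingEnd ℂ (lam y p) := by
      simp [lam]
    have e2 : Xw (((Equiv.neg ℤ).prodCongr (Equiv.refl ℤ)) p) = -Xw p := by
      simp [Xw, SserEq_chi_neg]
    simp only [e1, e2, hR]
    push_cast
    ring
  rw [tsum_congr h2, tsum_neg] at h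
  have h3 : (2:ℂ) * ∑' p : ℤ × ℤ, ((Xw p : ℝ) : ℂ) * R (lam y p) = 0 := by
    linear_combination -h
  simpa using h3

theorem SserEq_split {K f : ℂ → ℂ} {y : ℝ} (c : ℝ) (i j : ℕ)
    (hy : 0 < y)
    (hK : ∃ C : ℝ, 0 ≤ C ∧ ∀ z, ‖K z‖ ≤ C * (1 / ‖z‖) ^ (3 + i))
    (hKf : ∃ C : ℝ, 0 ≤ C ∧ ∀ z, ‖K z * f z‖ ≤ C * (1 / ‖z‖) ^ (3 + j)) :
    ∑' p : ℤ × ℤ, ((Xw p : ℝ) : ℂ) * (K (lam y p) * ((c : ℂ) + f (lam y p)))
      = (c : ℂ) * (∑' p : ℤ × ℤ, ((Xw p : ℝ) : ℂ) * K (lam y p))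
        + ∑' p : ℤ × ℤ, ((Xw p : ℝ) : ℂ) * (K (lam y p) * f (lam y p)) := by
  have h1 := SserEq_summ hy i hK
  have h2 := SserEq_summ (R := fun z => K z * f z) hy j hKf
  rw [← tsum_mul_left, ← (h1.mul_left (c : ℂ)).tsum_add h2]
  apply tsum_congr
  intro p
  ring


theorem SserEq_Kf1 (z : ℂ) :
    1 / z ^ 4 * (1 / (z * starRingEnd ℂ z)) = 1 / (z ^ 5 * starRingEnd ℂ z) := by
  ring

theorem SserEq_Kf2 (z : ℂ) :
    1 / (z ^ 2 * starRingEnd ℂ z ^ 2) * (starRingEnd ℂ z / z ^ 3) = 1 / (z ^ 5 * starRingEnd ℂ z) := by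
  rcases eq_or_ne z 0 with hz | hz
  · subst hz; simp
  · have hz' : starRingEnd ℂ z ≠ 0 := by simpa using hz
    field_simp

theorem SserEq_Kf3 (z : ℂ) :
    (1 / (z ^ 3 * starRingEnd ℂ z) + 1 / (z * starRingEnd ℂ z ^ 3)) * (1 / z ^ 2)
      = 1 / (z ^ 5 * starRingEnd ℂ z) + 1 / (z ^ 3 * starRingEnd ℂ z ^ 3) := by
  ring

theorem SserEq_b4 : ∃ C : ℝ, 0 ≤ C ∧ ∀ z : ℂ, ‖(1 / z ^ 4 : ℂ)‖ ≤ C * (1 / ‖z‖ ^ 4) := by
  refine ⟨1, zero_le_one, fun z => ?_⟩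
  simp

theorem SserEq_b22 : ∃ C : ℝ, 0 ≤ C ∧
    ∀ z : ℂ, ‖(1 / (z ^ 2 * starRingEnd ℂ z ^ 2) : ℂ)‖ ≤ C * (1 / ‖z‖ ^ 4) := by
  refine ⟨1, zero_le_one, fun z => ?_⟩
  rw [one_mul, norm_div, norm_one, norm_mul, norm_pow, norm_pow, Complex.norm_conj]
  apply le_of_eq; ring

theorem SserEq_b31 : ∃ C : ℝ, 0 ≤ C ∧
    ∀ z : ℂ, ‖(1 / (z ^ 3 * starRingEnd ℂ z) + 1 / (z * starRingEnd ℂ z ^ 3) : ℂ)‖
      ≤ C * (1 / ‖z‖ ^ 4) := by
  refine ⟨2, by norm_num, fun z => ?_⟩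
  calc ‖(1 / (z ^ 3 * starRingEnd ℂ z) + 1 / (z * starRingEnd ℂ z ^ 3) : ℂ)‖
      ≤ ‖(1 / (z ^ 3 * starRingEnd ℂ z) : ℂ)‖ + ‖(1 / (z * starRingEnd ℂ z ^ 3) : ℂ)‖ :=
        norm_add_le _ _
    _ = 2 * (1 / ‖z‖ ^ 4) := by
        rw [norm_div, norm_div, norm_one, norm_mul, norm_mul, norm_pow, norm_pow,
          Complex.norm_conj]
        ring

theorem SserEq_cv {K : ℂ → ℂ} (h : ∃ C : ℝ, 0 ≤ C ∧ ∀ z, ‖K z‖ ≤ C * (1 / ‖z‖ ^ 4)) :
    ∃ C : ℝ, 0 ≤ C ∧ ∀ z, ‖K z‖ ≤ C * (1 / ‖z‖) ^ (3 + 1) := by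
  obtain ⟨C, hC, h⟩ := h
  refine ⟨C, hC, fun z => ?_⟩
  rw [one_div_pow]
  exact h z

theorem SserEq_b51 : ∃ C : ℝ, 0 ≤ C ∧
    ∀ z : ℂ, ‖(1 / (z ^ 5 * starRingEnd ℂ z) : ℂ)‖ ≤ C * (1 / ‖z‖) ^ (3 + 3) := by
  refine ⟨1, zero_le_one, fun z => ?_⟩
  rw [one_mul, norm_div, norm_one, norm_mul, norm_pow, Complex.norm_conj]
  apply le_of_eq; ring

theorem SserEq_b33 : ∃ C : ℝ, 0 ≤ C ∧
    ∀ z : ℂ, ‖(1 / (z ^ 3 * starRingEnd ℂ z ^ 3) : ℂ)‖ ≤ C * (1 / ‖z‖) ^ (3 + 3) := by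
  refine ⟨1, zero_le_one, fun z => ?_⟩
  rw [one_mul, norm_div, norm_one, norm_mul, norm_pow, norm_pow, Complex.norm_conj]
  apply le_of_eq; ring

theorem SserEq_b5133 : ∃ C : ℝ, 0 ≤ C ∧
    ∀ z : ℂ, ‖(1 / (z ^ 5 * starRingEnd ℂ z) + 1 / (z ^ 3 * starRingEnd ℂ z ^ 3) : ℂ)‖
      ≤ C * (1 / ‖z‖) ^ (3 + 3) := by
  obtain ⟨C, hC, h⟩ := SserEq_b51
  obtain ⟨D, hD, h'⟩ := SserEq_b33
  refine ⟨C + D, by positivity, fun z => ?_⟩
  rw [add_mul]
  exact (norm_add_le _ _).trans (add_le_add (h z) (h' z))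

theorem SserEq_abs_const {y : ℝ} (hy : 0 < y) (p : ℤ × ℤ) (h1 : Odd p.1) (h2 : Odd p.2) :
    HasSum (fun r : ℤ × ℤ => (wt r : ℂ) *
        ((fun z : ℂ => 1 / (z * starRingEnd ℂ z)) (lam y (p + r))
          - (fun z : ℂ => 1 / (z * starRingEnd ℂ z)) (lam y r)))
      (-(((Eser y / y : ℝ) : ℂ) + (fun z : ℂ => 1 / (z * starRingEnd ℂ z)) (lam y p))) := by
  have h := inner_abs hy p h1 h2
  have h' := (Complex.hasSum_ofReal).2 h
  have e : ∀ r : ℤ × ℤ, 1 / (lam y r * starRingEnd ℂ (lam y r)) = ((1 / Pf y r : ℝ) : ℂ) := by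
    intro r
    rw [Complex.mul_conj, normSq_lam]
    push_cast
    rfl
  simp only [e]
  convert h' using 1
  · funext r
    push_cast
    ring
  · push_cast
    ring

theorem SserEq_congr {ι : Type*} {f g : ι → ℂ} {a b : ℂ} (h : HasSum g b) (h1 : ∀ q, f q = g q)
    (h2 : a = b) : HasSum f a := by
  rw [h2, funext h1]; exact h

theorem Sser_eq {y : ℝ} (hy : 0 < y) : Sser y = -(3 / 2) * y ^ 2 * Eser y * (Gser y).im := by
  obtain ⟨c2, hc2⟩ := inner_const SserEq_ker2_b hy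
  obtain ⟨c3, hc3⟩ := inner_const SserEq_ker2_sq hy
  have H1 := diff_sum hy SserEq_ker2_abs SserEq_b4 (SserEq_abs_const hy)
  have H2 := diff_sum hy SserEq_ker2_b SserEq_b22 hc2
  have H3 := diff_sum hy SserEq_ker2_sq SserEq_b31 hc3
  have A1 := sum13 SserEq_ker3_21 SserEq_ker3_30 hy
  have A2 := sum12 SserEq_ker3_21 SserEq_ker3_30 hy
  have A3 := sum12 SserEq_ker3_30 SserEq_ker3_21 hy
  have A4 := sum13 SserEq_ker3_30 SserEq_ker3_21 hy
  have A5 := sum23 SserEq_ker3_21 SserEq_ker3_30 hy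
  have A6 := sum23 SserEq_ker3_30 SserEq_ker3_21 hy
  have A7 := sum12 SserEq_ker3_12 SserEq_ker3_21 hy
  have A8 := sum13 SserEq_ker3_12 SserEq_ker3_21 hy
  have A9 := sum23 SserEq_ker3_12 SserEq_ker3_21 hy
  have H := (((((((((((H1.mul_left (3 / 2)).sub (H2.mul_left (1 / 2))).sub H3).sub
    (A1.mul_left (1 / 2))).sub (A2.mul_left (1 / 2))).add (A3.mul_left (1 / 2))).add
    (A4.mul_left (1 / 2))).sub (A5.mul_left (1 / 2))).add (A6.mul_left (1 / 2))).sub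
    (A7.mul_left (1 / 2))).sub (A8.mul_left (1 / 2))).sub (A9.mul_left (1 / 2))
  -- the four sums over the first lattice point
  have S1 := SserEq_split (K := fun z : ℂ => 1 / z ^ 4)
    (f := fun z : ℂ => 1 / (z * starRingEnd ℂ z)) (Eser y / y) 1 3 hy
    (SserEq_cv SserEq_b4) (by simpa only [SserEq_Kf1] using SserEq_b51)
  have S2 := SserEq_split (K := fun z : ℂ => 1 / (z ^ 2 * starRingEnd ℂ z ^ 2))
    (f := fun z : ℂ => starRingEnd ℂ z / z ^ 3) c2 1 3 hy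
    (SserEq_cv SserEq_b22) (by simpa only [SserEq_Kf2] using SserEq_b51)
  have S3 := SserEq_split
    (K := fun z : ℂ => 1 / (z ^ 3 * starRingEnd ℂ z) + 1 / (z * starRingEnd ℂ z ^ 3))
    (f := fun z : ℂ => 1 / z ^ 2) c3 1 3 hy
    (SserEq_cv SserEq_b31) (by simpa only [SserEq_Kf3] using SserEq_b5133)
  have Z2 := SserEq_sym (R := fun z : ℂ => 1 / (z ^ 2 * starRingEnd ℂ z ^ 2)) y
    (fun z => by simp [mul_comm])
  have Z3 := SserEq_sym
    (R := fun z : ℂ => 1 / (z ^ 3 * starRingEnd ℂ z) + 1 / (z * starRingEnd ℂ z ^ 3)) y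
    (fun z => by simp only [Complex.conj_conj]; ring)
  have Z4 := SserEq_sym (R := fun z : ℂ => 1 / (z ^ 3 * starRingEnd ℂ z ^ 3)) y
    (fun z => by simp [mul_comm])
  simp only [SserEq_Kf1, SserEq_Kf2, SserEq_Kf3] at S1 S2 S3
  have E3 : ∑' p : ℤ × ℤ, ((Xw p : ℝ) : ℂ) * (1 / (lam y p ^ 5 * starRingEnd ℂ (lam y p))
        + 1 / (lam y p ^ 3 * starRingEnd ℂ (lam y p) ^ 3))
      = ∑' p : ℤ × ℤ, ((Xw p : ℝ) : ℂ) * (1 / (lam y p ^ 5 * starRingEnd ℂ (lam y p))) := by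
    have h1 := SserEq_summ (R := fun z => 1 / (z ^ 5 * starRingEnd ℂ z)) hy 3 SserEq_b51
    have h2 := SserEq_summ (R := fun z => 1 / (z ^ 3 * starRingEnd ℂ z ^ 3)) hy 3 SserEq_b33
    have h3 := h1.tsum_add h2
    rw [Z4, add_zero] at h3
    rw [← h3]
    apply tsum_congr
    intro p
    ring
  have G1 : ∑' p : ℤ × ℤ, ((Xw p : ℝ) : ℂ) * (1 / lam y p ^ 4) = Gser y := by
    unfold Gser
    apply tsum_congr
    intro p
    rw [Xw]
    ring
  set M := ∑' p : ℤ × ℤ, ((Xw p : ℝ) : ℂ) * (1 / (lam y p ^ 5 * starRingEnd ℂ (lam y p))) with hM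
  have T1 : ∑' p : ℤ × ℤ, ((Xw p : ℝ) : ℂ) *
      (1 / (lam y p ^ 2 * starRingEnd ℂ (lam y p)) * (1 / lam y p ^ 3)) = M := by
    rw [hM]; apply tsum_congr; intro p; ring
  have T2 : ∑' p : ℤ × ℤ, ((Xw p : ℝ) : ℂ) *
      (1 / lam y p ^ 3 * (1 / (lam y p ^ 2 * starRingEnd ℂ (lam y p)))) = M := by
    rw [hM]; apply tsum_congr; intro p; ring
  have T3 : ∑' p : ℤ × ℤ, ((Xw p : ℝ) : ℂ) *
      (1 / (lam y p * starRingEnd ℂ (lam y p) ^ 2) *
        (1 / (lam y p ^ 2 * starRingEnd ℂ (lam y p)))) = 0 := by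
    rw [← Z4]; apply tsum_congr; intro p; ring
  rw [G1] at S1
  rw [Z2] at S2
  rw [Z3, E3] at S3
  have H' : HasSum (fun q : (ℤ × ℤ) × (ℤ × ℤ) => ((Xw q.1 * wt q.2 : ℝ) : ℂ) *
      Zk (lam y q.1) (lam y q.2)) (-(3 / 2) * ((Eser y / y : ℝ) : ℂ) * Gser y) := by
    refine SserEq_congr H (fun q => ?_) ?_
    · simp only [Zk]
      ring
    · rw [S1, S2, S3, T1, T2, T3]
      ring
  have H2 := (Complex.hasSum_iff _ _).1 H'
  have H3 := H2.2.mul_left (y ^ 3)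
  have e1 : Sser y = ∑' q : (ℤ × ℤ) × (ℤ × ℤ),
      y ^ 3 * (((Xw q.1 * wt q.2 : ℝ) : ℂ) * Zk (lam y q.1) (lam y q.2)).im := by
    unfold Sser
    apply tsum_congr
    intro q
    rw [Sterm_eq hy, Complex.im_ofReal_mul]
  rw [e1, H3.tsum_eq]
  have e2 : (-(3 / 2) * ((Eser y / y : ℝ) : ℂ) * Gser y).im
      = -(3 / 2) * (Eser y / y) * (Gser y).im := by
    have : (-(3 / 2) * ((Eser y / y : ℝ) : ℂ) * Gser y)
        = ((-(3 / 2) * (Eser y / y) : ℝ) : ℂ) * Gser y := by push_cast; ring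
    rw [this]
    simp [Complex.mul_im]
  rw [e2]
  field_simp

end MM7
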