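import Pool.Agent.MM7.DerA
import Pool.Agent.MM7.DerB
import Pool.Agent.MM7.SserEq
import Pool.Agent.MM7.Growth
import Pool.Agent.MM7.AOne
import Pool.Agent.MM7.Ode

/-!
# MM7, Part 3, module Part3

Apply ode_solve with A = Aser, B = Bser, σ t = π^5/768 * (log (ww t) * Psi t): by Sser_eq, hE, hG
Sser y = -(3/2) y² (-(π/12) log ww) (π⁴/96 Psi) = y² σ y. At y = √7: 1/(2√7) * π^5/768 = π^5/(1536 √7).
-/

open Real MeasureTheory Set Filter Topology

namespace MM7

theorem part3 (hE : ∀ y, 0 < y → Eser y = -(π / 12) * Real.log (ww y))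
    (hG : ∀ y, 0 < y → (Gser y).im = π ^ 4 / 96 * Psi y)
    (hc : ContinuousOn (fun t => Real.log (ww t) * Psi t) (Ioi 0))
    (hi : IntegrableOn (fun t => t ^ 2 * (Real.log (ww t) * Psi t)) (Ioi 1))
    (h0 : ∫ t in Ioi (1:ℝ), (t ^ 2 - 1) * (Real.log (ww t) * Psi t) = 0) :
    Aser (√7) = π ^ 5 / (1536 * √7) * ∫ t in Ioi (√7), (t ^ 2 - 7) * (Real.log (ww t) * Psi t) ∧
    Bser (√7) = -(π ^ 5 / (1536 * √7)) *
      ∫ t in Ioi (√7), (t ^ 2 + 7) * (Real.log (ww t) * Psi t) := by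
  have h7 : (√7 : ℝ) ^ 2 = 7 := Real.sq_sqrt (by norm_num)
  have h71 : (1 : ℝ) ≤ √7 := by
    rw [Real.one_le_sqrt]
    norm_num
  have h70 : (√7 : ℝ) ≠ 0 := by positivity
  have hB : ∀ y, 0 < y → HasDerivAt Bser
      ((Aser y + y ^ 2 * (π ^ 5 / 768 * (Real.log (ww y) * Psi y))) / y) y := by
    intro y hy
    have h := Bser_hasDerivAt hy
    rw [Sser_eq hy, hE y hy, hG y hy] at h
    convert h using 2
    ring
  have hint : IntegrableOn
      (fun t => t ^ 2 * (π ^ 5 / 768 * (Real.log (ww t) * Psi t))) (Ioi 1) := by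
    have h := hi.const_mul (π ^ 5 / 768)
    refine h.congr (Filter.Eventually.of_forall fun t => ?_)
    simp only
    ring
  have h00 : ∫ t in Ioi (1:ℝ), (t ^ 2 - 1) * (π ^ 5 / 768 * (Real.log (ww t) * Psi t)) = 0 := by
    have e : (fun t : ℝ => (t ^ 2 - 1) * (π ^ 5 / 768 * (Real.log (ww t) * Psi t))) =
        fun t => π ^ 5 / 768 * ((t ^ 2 - 1) * (Real.log (ww t) * Psi t)) := by
      funext t
      ring
    rw [e, integral_const_mul, h0, mul_zero]
  obtain ⟨hA1, hB1⟩ := ode_solve (A := Aser) (B := Bser)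
    (σ := fun t => π ^ 5 / 768 * (Real.log (ww t) * Psi t))
    (fun y hy => Aser_hasDerivAt hy) hB (hc.const_mul _) hint Aser_growth Aser_one h00 h71
  refine ⟨?_, ?_⟩
  · rw [hA1, h7]
    have e : (fun t : ℝ => (t ^ 2 - 7) * (π ^ 5 / 768 * (Real.log (ww t) * Psi t))) =
        fun t => π ^ 5 / 768 * ((t ^ 2 - 7) * (Real.log (ww t) * Psi t)) := by
      funext t
      ring
    rw [e, integral_const_mul]
    field_simp
    ring
  · rw [hB1, h7]
    have e : (fun t : ℝ => (t ^ 2 + 7) * (π ^ 5 / 768 * (Real.log (ww t) * Psi t))) =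
        fun t => π ^ 5 / 768 * ((t ^ 2 + 7) * (Real.log (ww t) * Psi t)) := by
      funext t
      ring
    rw [e, integral_const_mul]
    field_simp
    ring

end MM7
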