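import Pool.Agent.MM7.Bound3

/-!
# MM7, Part 3, module Pt3

Pointwise algebraic identity. If Xw q.1 = 0 (q.1 not odd-odd), or wt q.2 = 0, both sides vanish
(q.2 = 0: the numerator m1*0 - 0*n1 = 0). Otherwise λ1, λ2, λ1+λ2 are all nonzero (λ1, λ1+λ2 odd-odd).
Put a = λ1, b = λ2, s = a+b, a' = conj a, ... :  y*(m1 n2 - m2 n1) = -(a' b - a b')/(2i),  P = λ λ',
u(λ) = -(λ² + λ'²)/(2 λ λ').  After inserting this, the claim (without y³ and the weights) is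
 -(a' b - a b')/(2i) * [(2u1+u2+u3)²+2u1²+u2²+u3²-5] / ((a a')² b b' s s') = (Zk a b - conj (Zk a b))/(2i),
a rational identity in a, b, a', b' (independent variables) with s = a+b, s' = a'+b'; bihomogeneous, so after
clearing denominators `field_simp; ring` has few monomials.
-/

open Real MeasureTheory Set Filter Topology

namespace MM7

noncomputable section

/-- `Zk` with independent variables `a' = c`, `b' = d` -/
def Pt3_ZZ (a b c d : ℂ) : ℂ :=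
  3 / 2 * (1 / a ^ 4 * (1 / ((a + b) * (c + d)) - 1 / (b * d)))
    - 1 / 2 * (1 / (a ^ 2 * c ^ 2) * ((c + d) / (a + b) ^ 3 - d / b ^ 3))
    - (1 / (a ^ 3 * c) + 1 / (a * c ^ 3)) * (1 / (a + b) ^ 2 - 1 / b ^ 2)
    - 1 / 2 * (1 / (a ^ 2 * c) * (1 / (a + b) ^ 3))
    - 1 / 2 * (1 / (a ^ 2 * c) * (1 / b ^ 3))
    + 1 / 2 * (1 / a ^ 3 * (1 / (b ^ 2 * d)))
    + 1 / 2 * (1 / a ^ 3 * (1 / ((a + b) ^ 2 * (c + d))))
    - 1 / 2 * (1 / (b ^ 2 * d) * (1 / (a + b) ^ 3))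
    + 1 / 2 * (1 / b ^ 3 * (1 / ((a + b) ^ 2 * (c + d))))
    - 1 / 2 * (1 / (a * c ^ 2) * (1 / (b ^ 2 * d)))
    - 1 / 2 * (1 / (a * c ^ 2) * (1 / ((a + b) ^ 2 * (c + d))))
    - 1 / 2 * (1 / (b * d ^ 2) * (1 / ((a + b) ^ 2 * (c + d))))

end

theorem Pt3_key {a b c d : ℂ} (ha : a ≠ 0) (hb : b ≠ 0) (hc : c ≠ 0) (hd : d ≠ 0)
    (hs : a + b ≠ 0) (ht : c + d ≠ 0) :
    -(c * b - a * d) * ((2 * (-(a ^ 2 + c ^ 2) / (2 * (a * c))) + (-(b ^ 2 + d ^ 2) / (2 * (b * d)))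
      + (-((a + b) ^ 2 + (c + d) ^ 2) / (2 * ((a + b) * (c + d))))) ^ 2
      + 2 * (-(a ^ 2 + c ^ 2) / (2 * (a * c))) ^ 2 + (-(b ^ 2 + d ^ 2) / (2 * (b * d))) ^ 2
      + (-((a + b) ^ 2 + (c + d) ^ 2) / (2 * ((a + b) * (c + d)))) ^ 2 - 5)
      / ((a * c) ^ 2 * (b * d) * ((a + b) * (c + d))) = Pt3_ZZ a b c d - Pt3_ZZ c d a b := by
  unfold Pt3_ZZ
  field_simp
  ring

theorem Pt3_Zk (a b : ℂ) :
    Zk a b = Pt3_ZZ a b (starRingEnd ℂ a) (starRingEnd ℂ b) := by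
  unfold Zk Pt3_ZZ
  simp only [map_add]

theorem Pt3_Zk_conj (a b : ℂ) :
    starRingEnd ℂ (Zk a b) = Pt3_ZZ (starRingEnd ℂ a) (starRingEnd ℂ b) a b := by
  unfold Zk Pt3_ZZ
  simp only [map_add, map_sub, map_mul, map_div₀, map_pow, map_one, Complex.conj_conj,
    map_ofNat]

theorem Pt3_uf (y : ℝ) (p : ℤ × ℤ) :
    ((uf y p : ℝ) : ℂ) = -((lam y p) ^ 2 + (starRingEnd ℂ (lam y p)) ^ 2) /
      (2 * (lam y p * starRingEnd ℂ (lam y p))) := by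
  have hP : lam y p * starRingEnd ℂ (lam y p) = ((Pf y p : ℝ) : ℂ) := by
    rw [Complex.mul_conj, normSq_lam]
  rw [hP]
  have hN : -((lam y p) ^ 2 + (starRingEnd ℂ (lam y p)) ^ 2) =
      2 * (((p.1 : ℝ) ^ 2 * y ^ 2 - (p.2 : ℝ) ^ 2 : ℝ) : ℂ) := by
    apply Complex.ext
    · simp [lam, pow_two]
      ring
    · simp [lam, pow_two]
      ring
  rw [hN]
  unfold uf
  push_cast
  rw [mul_div_mul_left _ _ (by norm_num : (2:ℂ) ≠ 0)]

theorem Pt3_det (y : ℝ) (p r : ℤ × ℤ) :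
    ((y * ((p.1 : ℝ) * r.2 - (r.1 : ℝ) * p.2) : ℝ) : ℂ) * (2 * Complex.I) =
      -(starRingEnd ℂ (lam y p) * lam y r - lam y p * starRingEnd ℂ (lam y r)) := by
  apply Complex.ext
  · simp [lam]
  · simp [lam]
    ring

theorem Pt3_main {y : ℝ} (p r : ℤ × ℤ) (h1 : lam y p ≠ 0) (h2 : lam y r ≠ 0)
    (h3 : lam y (p + r) ≠ 0) :
    y * ((p.1 : ℝ) * r.2 - (r.1 : ℝ) * p.2) * ((2 * uf y p + uf y r + uf y (p + r)) ^ 2
      + 2 * uf y p ^ 2 + uf y r ^ 2 + uf y (p + r) ^ 2 - 5) /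
      (Pf y p ^ 2 * Pf y r * Pf y (p + r)) = (Zk (lam y p) (lam y r)).im := by
  have hc1 : starRingEnd ℂ (lam y p) ≠ 0 := (map_ne_zero _).mpr h1
  have hc2 : starRingEnd ℂ (lam y r) ≠ 0 := (map_ne_zero _).mpr h2
  have h3' : lam y p + lam y r ≠ 0 := by rw [← lam_add]; exact h3
  have hc3 : starRingEnd ℂ (lam y p) + starRingEnd ℂ (lam y r) ≠ 0 := by
    rw [← map_add]; exact (map_ne_zero _).mpr h3'
  have key := Pt3_key h1 h2 hc1 hc2 h3' hc3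
  rw [← Pt3_Zk, ← Pt3_Zk_conj] at key
  have hu1 := Pt3_uf y p
  have hu2 := Pt3_uf y r
  have hu3 := Pt3_uf y (p + r)
  rw [lam_add, map_add] at hu3
  rw [← hu1, ← hu2, ← hu3, ← Pt3_det] at key
  have hP1 : lam y p * starRingEnd ℂ (lam y p) = ((Pf y p : ℝ) : ℂ) := by
    rw [Complex.mul_conj, normSq_lam]
  have hP2 : lam y r * starRingEnd ℂ (lam y r) = ((Pf y r : ℝ) : ℂ) := by
    rw [Complex.mul_conj, normSq_lam]
  have hP3 : (lam y p + lam y r) * (starRingEnd ℂ (lam y p) + starRingEnd ℂ (lam y r)) =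
      ((Pf y (p + r) : ℝ) : ℂ) := by
    rw [← map_add, ← lam_add, Complex.mul_conj, normSq_lam]
  rw [hP1, hP2, hP3] at key
  have him : (Zk (lam y p) (lam y r)) - starRingEnd ℂ (Zk (lam y p) (lam y r)) =
      (((Zk (lam y p) (lam y r)).im : ℝ) : ℂ) * (2 * Complex.I) := by
    rw [Complex.sub_conj]
    push_cast
    ring
  rw [him] at key
  have hI : (2 * Complex.I) ≠ 0 := mul_ne_zero two_ne_zero Complex.I_ne_zero
  have key2 : (((y * ((p.1 : ℝ) * r.2 - (r.1 : ℝ) * p.2) *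
      ((2 * uf y p + uf y r + uf y (p + r)) ^ 2
      + 2 * uf y p ^ 2 + uf y r ^ 2 + uf y (p + r) ^ 2 - 5) /
      (Pf y p ^ 2 * Pf y r * Pf y (p + r)) : ℝ)) : ℂ) * (2 * Complex.I) =
      (((Zk (lam y p) (lam y r)).im : ℝ) : ℂ) * (2 * Complex.I) := by
    rw [← key]
    push_cast
    ring
  have key3 := mul_right_cancel₀ hI key2
  exact_mod_cast key3

theorem Pt3_chi_odd {n : ℤ} (h : chi n ≠ 0) : Odd n := by
  by_contra hn
  rw [Int.not_odd_iff_even] at hn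
  apply h
  obtain ⟨k, hk⟩ := hn
  unfold chi
  subst hk
  push_cast
  have h2 : ∀ a : ZMod 4, ZMod.χ₄ (a + a) = 0 := by decide
  rw [h2]
  simp

theorem Sterm_eq {y : ℝ} (hy : 0 < y) (q : (ℤ × ℤ) × (ℤ × ℤ)) :
    Sterm q y = y ^ 3 * (Xw q.1 * wt q.2 * (Zk (lam y q.1) (lam y q.2)).im) := by
  by_cases hr : q.2 = 0
  · unfold Sterm Aterm wt
    rw [hr]
    simp
  by_cases hx : Xw q.1 = 0
  · have hx' : chi q.1.1 * chi q.1.2 = 0 := hx
    unfold Sterm Aterm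
    rw [hx, hx']
    simp
  by_cases hw : ev q.2.1 * ev q.2.2 = 0
  · have e1 : chi q.1.1 * chi q.1.2 * ev q.2.1 * ev q.2.2 = 0 := by
      rw [mul_assoc, hw, mul_zero]
    unfold Sterm Aterm wt
    rw [e1, hw]
    simp
  have hc1 : chi q.1.1 ≠ 0 := fun h => hx (by unfold Xw; rw [h, zero_mul])
  have he1 : ev q.2.1 ≠ 0 := fun h => hw (by rw [h, zero_mul])
  have ho1 : Odd q.1.1 := Pt3_chi_odd hc1
  have hev1 : Even q.2.1 := by
    by_contra h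
    exact he1 (by unfold ev; rw [if_neg h])
  have hp : q.1 ≠ 0 := by
    intro h
    rw [h] at ho1
    exact absurd ho1 (by decide)
  have hs : q.1 + q.2 ≠ 0 := by
    intro h
    have h1 : q.1.1 + q.2.1 = 0 := congrArg Prod.fst h
    have h2 : Odd (q.1.1 + q.2.1) := ho1.add_even hev1
    rw [h1] at h2
    exact absurd h2 (by decide)
  have main := Pt3_main (y := y) q.1 q.2 ((lam_eq_zero hy _).not.mpr hp)
    ((lam_eq_zero hy _).not.mpr hr) ((lam_eq_zero hy _).not.mpr hs)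
  rw [← main]
  unfold Sterm Aterm Xw wt
  rw [if_neg hr]
  ring

end MM7
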