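import Pool.Agent.MM7.Defs3b

open Real MeasureTheory Set Filter Topology

namespace MM7

-- Summ.lean
theorem summable_kk : Summable kk := by sorry
theorem summable_kk12 : Summable (fun q : (ℤ × ℤ) × (ℤ × ℤ) => kk q.1 * kk q.2) := by sorry
theorem summable_kk13 : Summable (fun q : (ℤ × ℤ) × (ℤ × ℤ) => kk q.1 * kk (q.1 + q.2)) := by sorry
theorem summable_kk23 : Summable (fun q : (ℤ × ℤ) × (ℤ × ℤ) => kk q.2 * kk (q.1 + q.2)) := by sorry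
theorem summable_KK : Summable KK := by sorry

-- Bound3.lean
theorem normSq_lam (y : ℝ) (p : ℤ × ℤ) : Complex.normSq (lam y p) = Pf y p := by sorry
theorem lam_add (y : ℝ) (p r : ℤ × ℤ) : lam y (p + r) = lam y p + lam y r := by sorry
theorem lam_eq_zero {y : ℝ} (hy : 0 < y) (p : ℤ × ℤ) : lam y p = 0 ↔ p = 0 := by sorry
theorem lam_kk {y : ℝ} (hy : 0 < y) : ∃ C : ℝ, 0 ≤ C ∧ ∀ p : ℤ × ℤ, 1 / ‖lam y p‖ ^ 3 ≤ C * kk p := by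
  sorry
theorem abs_uf_le (y : ℝ) (p : ℤ × ℤ) : |uf y p| ≤ 1 := by sorry
theorem Aterm_bound {a b : ℝ} (ha : 0 < a) :
    ∃ C : ℝ, 0 ≤ C ∧ ∀ y ∈ Set.Ioo a b, ∀ q, |Aterm q y| ≤ C * KK q := by sorry

-- DerA.lean
theorem Aser_eq (y : ℝ) : Aser y = ∑' q, Aterm q y := by sorry
theorem Aser_hasDerivAt {y : ℝ} (hy : 0 < y) : HasDerivAt Aser (Bser y / y) y := by sorry

-- DerB.lean
theorem Bser_eq (y : ℝ) : Bser y = ∑' q, Bterm q y := by sorry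
theorem Bser_hasDerivAt {y : ℝ} (hy : 0 < y) : HasDerivAt Bser ((Aser y + Sser y) / y) y := by sorry

-- Pt3.lean
theorem Sterm_eq {y : ℝ} (hy : 0 < y) (q : (ℤ × ℤ) × (ℤ × ℤ)) :
    Sterm q y = y ^ 3 * (Xw q.1 * wt q.2 * (Zk (lam y q.1) (lam y q.2)).im) := by sorry

-- Shift.lean
theorem hasSum_shift {g : ℤ × ℤ → ℂ} (hg : Tendsto g cofinite (𝓝 0))
    (h1 : Summable fun p : ℤ × ℤ => g (p + (1, 0)) - g p)
    (h2 : Summable fun p : ℤ × ℤ => g (p + (0, 1)) - g p) (μ : ℤ × ℤ) :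
    HasSum (fun p : ℤ × ℤ => g (p + μ) - g p) 0 := by sorry

-- Inner.lean
theorem inner_const {f : ℂ → ℂ} (hf : Ker2 f) {y : ℝ} (hy : 0 < y) :
    ∃ c : ℝ, ∀ p : ℤ × ℤ, Odd p.1 → Odd p.2 →
      HasSum (fun r : ℤ × ℤ => (wt r : ℂ) * (f (lam y (p + r)) - f (lam y r)))
        (-((c : ℂ) + f (lam y p))) := by sorry

-- InnerAbs.lean
theorem inner_abs {y : ℝ} (hy : 0 < y) (p : ℤ × ℤ) (h1 : Odd p.1) (h2 : Odd p.2) :
    HasSum (fun r : ℤ × ℤ => wt r * (1 / Pf y (p + r) - 1 / Pf y r))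
      (-(Eser y / y + 1 / Pf y p)) := by sorry

-- DiffSum.lean
theorem diff_sum {f K : ℂ → ℂ} {y : ℝ} (hy : 0 < y) (hf : Ker2 f)
    (hK : ∃ C : ℝ, 0 ≤ C ∧ ∀ z, ‖K z‖ ≤ C * (1 / ‖z‖ ^ 4)) {c : ℝ}
    (hc : ∀ p : ℤ × ℤ, Odd p.1 → Odd p.2 →
      HasSum (fun r : ℤ × ℤ => (wt r : ℂ) * (f (lam y (p + r)) - f (lam y r)))
        (-((c : ℂ) + f (lam y p)))) :
    HasSum (fun q : (ℤ × ℤ) × (ℤ × ℤ) => ((Xw q.1 * wt q.2 : ℝ) : ℂ) *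
        (K (lam y q.1) * (f (lam y q.1 + lam y q.2) - f (lam y q.2))))
      (-(∑' p : ℤ × ℤ, (Xw p : ℂ) * (K (lam y p) * ((c : ℂ) + f (lam y p))))) := by sorry

-- OddProd.lean
theorem sum12 {F G : ℂ → ℂ} (hF : Ker3 F) (hG : Ker3 G) {y : ℝ} (hy : 0 < y) :
    HasSum (fun q : (ℤ × ℤ) × (ℤ × ℤ) => ((Xw q.1 * wt q.2 : ℝ) : ℂ) *
      (F (lam y q.1) * G (lam y q.2))) 0 := by sorry
theorem sum13 {F G : ℂ → ℂ} (hF : Ker3 F) (hG : Ker3 G) {y : ℝ} (hy : 0 < y) :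
    HasSum (fun q : (ℤ × ℤ) × (ℤ × ℤ) => ((Xw q.1 * wt q.2 : ℝ) : ℂ) *
      (F (lam y q.1) * G (lam y q.1 + lam y q.2)))
      (-(∑' p : ℤ × ℤ, (Xw p : ℂ) * (F (lam y p) * G (lam y p)))) := by sorry
theorem sum23 {F G : ℂ → ℂ} (hF : Ker3 F) (hG : Ker3 G) {y : ℝ} (hy : 0 < y) :
    HasSum (fun q : (ℤ × ℤ) × (ℤ × ℤ) => ((Xw q.1 * wt q.2 : ℝ) : ℂ) *
      (F (lam y q.2) * G (lam y q.1 + lam y q.2))) 0 := by sorry

-- SserEq.lean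
theorem Sser_eq {y : ℝ} (hy : 0 < y) : Sser y = -(3 / 2) * y ^ 2 * Eser y * (Gser y).im := by sorry

-- Growth.lean
theorem Aser_growth : Tendsto (fun y => Aser y / y) atTop (𝓝 0) := by sorry

-- AOne.lean
theorem Aser_one : Aser 1 = 0 := by sorry

-- Ode.lean
theorem ode_solve {A B σ : ℝ → ℝ} (hA : ∀ y, 0 < y → HasDerivAt A (B y / y) y)
    (hB : ∀ y, 0 < y → HasDerivAt B ((A y + y ^ 2 * σ y) / y) y)
    (hσ : ContinuousOn σ (Ioi 0)) (hint : IntegrableOn (fun t => t ^ 2 * σ t) (Ioi 1))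
    (hgrow : Tendsto (fun y => A y / y) atTop (𝓝 0)) (hA1 : A 1 = 0)
    (h0 : ∫ t in Ioi (1:ℝ), (t ^ 2 - 1) * σ t = 0) {y : ℝ} (hy : 1 ≤ y) :
    A y = 1 / (2 * y) * ∫ t in Ioi y, (t ^ 2 - y ^ 2) * σ t ∧
    B y = -(1 / (2 * y)) * ∫ t in Ioi y, (t ^ 2 + y ^ 2) * σ t := by sorry

-- Part3.lean
theorem part3 (hE : ∀ y, 0 < y → Eser y = -(π / 12) * Real.log (ww y))
    (hG : ∀ y, 0 < y → (Gser y).im = π ^ 4 / 96 * Psi y)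
    (hc : ContinuousOn (fun t => Real.log (ww t) * Psi t) (Ioi 0))
    (hi : IntegrableOn (fun t => t ^ 2 * (Real.log (ww t) * Psi t)) (Ioi 1))
    (h0 : ∫ t in Ioi (1:ℝ), (t ^ 2 - 1) * (Real.log (ww t) * Psi t) = 0) :
    Aser (√7) = π ^ 5 / (1536 * √7) * ∫ t in Ioi (√7), (t ^ 2 - 7) * (Real.log (ww t) * Psi t) ∧
    Bser (√7) = -(π ^ 5 / (1536 * √7)) *
      ∫ t in Ioi (√7), (t ^ 2 + 7) * (Real.log (ww t) * Psi t) := by sorry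

end MM7
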