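import Pool.Agent.MM7.Defs4
import Pool.Agent.MM7.Summ

/-!
# MM7, Part 4, module ZagDer

lx y (m,n) = m(1/2+iy)+n, P = |lx|² = (m/2+n)² + m²y², termwise differentiation with the majorant C*KK-type bound
(hasDerivAt_tsum_of_isPreconnected on (y/2,2y); P ≥ c(m²+n²) there; 1/(|λ1|²|λ2|²|λ3|²) ≤ sum of the three products of cubes).
y dP/dy = 2m²y² = P(1+u), u = -Re(conj λ/λ).  So d/dy [y³ N(q)] = -y² N(q) (u1+u2+u3) = y² Re[N(q)(p1+p2+p3)], pi = conj λi/λi,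
N = 1/|λ1λ2λ3|². Pointwise (λ1+λ2+λ3=0, all nonzero), with F(z) = 1/(z² conj z):
 N (p1+p2+p3) = F(λ1)F(λ2) + F(λ2)F(λ3) + F(λ1)F(λ3).
Sum over q with all λi ≠ 0: Σ_{all λ1,λ2} F(λ1)F(λ2) = 0 (F odd, absolutely convergent), minus the terms λ2 = -λ1: -F(λ)²:
 so Σ F(λ1)F(λ2) = Σ_λ F(λ)² = Σ λ⁻⁴ λ̄⁻²; same for the other two pairs. Total 3 Σ λ⁻⁴λ̄⁻², real part 3 e42y.
e33y: d/dy [y³/P³] = -3 y² u/P³ = 3y² Re (λ⁻⁴ λ̄⁻²).
-/

open Real MeasureTheory Set Filter Topology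

namespace MM7

/-! ### the lattice points -/

theorem ZagDer_re (y : ℝ) (p : ℤ × ℤ) : (lx y p).re = (p.1:ℝ) / 2 + p.2 := by
  unfold lx
  simp [Complex.add_re, Complex.mul_re]
  ring

theorem ZagDer_im (y : ℝ) (p : ℤ × ℤ) : (lx y p).im = (p.1:ℝ) * y := by
  unfold lx
  simp [Complex.add_im, Complex.mul_im]

/-- the quadratic form -/
noncomputable def ZagDer_P (y : ℝ) (p : ℤ × ℤ) : ℝ := ((p.1:ℝ) / 2 + p.2) ^ 2 + ((p.1:ℝ) * y) ^ 2

theorem ZagDer_normSq (y : ℝ) (p : ℤ × ℤ) : Complex.normSq (lx y p) = ZagDer_P y p := by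
  rw [Complex.normSq_apply, ZagDer_re, ZagDer_im]
  unfold ZagDer_P
  ring

theorem ZagDer_add (y : ℝ) (p r : ℤ × ℤ) : lx y (p + r) = lx y p + lx y r := by
  unfold lx
  simp only [Prod.fst_add, Prod.snd_add]
  push_cast
  ring

theorem ZagDer_neg (y : ℝ) (p : ℤ × ℤ) : lx y (-p) = -lx y p := by
  unfold lx
  simp only [Prod.fst_neg, Prod.snd_neg]
  push_cast
  ring

theorem ZagDer_zero (y : ℝ) : lx y 0 = 0 := by
  unfold lx
  simp

theorem ZagDer_nn_le {a y : ℝ} (ha : 0 < a) (hy : a ≤ y) (p : ℤ × ℤ) :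
    nn p ≤ (2 + 3 / (2 * a ^ 2)) * ZagDer_P y p := by
  unfold nn ZagDer_P
  set m : ℝ := (p.1:ℝ)
  set n : ℝ := (p.2:ℝ)
  have h1 : m ^ 2 * a ^ 2 ≤ (m * y) ^ 2 := by
    rw [mul_pow]
    apply mul_le_mul_of_nonneg_left _ (sq_nonneg m)
    exact pow_le_pow_left₀ ha.le hy 2
  have h2 : 3 / (2 * a ^ 2) * (m ^ 2 * a ^ 2) = 3 / 2 * m ^ 2 := by
    field_simp
  have h3 : 0 ≤ 3 / (2 * a ^ 2) := by positivity
  have h4 : 3 / (2 * a ^ 2) * (m ^ 2 * a ^ 2) ≤ 3 / (2 * a ^ 2) * (m * y) ^ 2 :=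
    mul_le_mul_of_nonneg_left h1 h3
  have h5 : 0 ≤ 3 / (2 * a ^ 2) * (m / 2 + n) ^ 2 := by positivity
  nlinarith [sq_nonneg (m / 2 + n + m / 2), sq_nonneg (m * y), sq_nonneg (m / 2 + n - m / 2)]

theorem ZagDer_nn_pos {p : ℤ × ℤ} (hp : p ≠ 0) : 1 ≤ nn p := by
  unfold nn
  have h : 0 < p.1 ^ 2 + p.2 ^ 2 := by
    by_contra hc
    apply hp
    have h1 : p.1 = 0 := by nlinarith [sq_nonneg p.1, sq_nonneg p.2]
    have h2 : p.2 = 0 := by nlinarith [sq_nonneg p.1, sq_nonneg p.2]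
    exact Prod.ext h1 h2
  have h2 : (1:ℤ) ≤ p.1 ^ 2 + p.2 ^ 2 := h
  exact_mod_cast h2

theorem ZagDer_P_pos {y : ℝ} (hy : 0 < y) {p : ℤ × ℤ} (hp : p ≠ 0) : 0 < ZagDer_P y p := by
  have h1 := ZagDer_nn_le hy le_rfl p
  have h2 := ZagDer_nn_pos hp
  have h3 : 0 < 2 + 3 / (2 * y ^ 2) := by positivity
  by_contra hc
  have h4 : (2 + 3 / (2 * y ^ 2)) * ZagDer_P y p ≤ 0 :=
    mul_nonpos_of_nonneg_of_nonpos h3.le (not_lt.mp hc)
  linarith

theorem ZagDer_ne {y : ℝ} (hy : 0 < y) {p : ℤ × ℤ} (hp : p ≠ 0) : lx y p ≠ 0 := by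
  intro h
  have h1 := ZagDer_P_pos hy hp
  rw [← ZagDer_normSq, h] at h1
  simp at h1

theorem ZagDer_invP {a y : ℝ} (ha : 0 < a) (hy : a ≤ y) {p : ℤ × ℤ} (hp : p ≠ 0) :
    1 / ZagDer_P y p ≤ (2 + 3 / (2 * a ^ 2)) * (1 / Real.sqrt (nn p)) ^ 2 := by
  have h1 := ZagDer_nn_le ha hy p
  have h2 := ZagDer_nn_pos hp
  have h3 := ZagDer_P_pos (lt_of_lt_of_le ha hy) hp
  rw [div_pow, one_pow, Real.sq_sqrt (by linarith), mul_one_div, div_le_div_iff₀ h3 (by linarith)]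
  linarith

theorem ZagDer_kk (p : ℤ × ℤ) : kk p = (1 / Real.sqrt (nn p)) ^ 3 := by
  unfold kk
  rw [div_pow, one_pow]

/-! ### the kernel F -/

/-- `1/(z² conj z)` -/
noncomputable def ZagDer_F (z : ℂ) : ℂ := 1 / (z ^ 2 * starRingEnd ℂ z)

theorem ZagDer_F_neg (z : ℂ) : ZagDer_F (-z) = -ZagDer_F z := by
  unfold ZagDer_F
  rw [map_neg, neg_sq, mul_neg, div_neg]

theorem ZagDer_F_zero : ZagDer_F 0 = 0 := by
  unfold ZagDer_F
  simp

theorem ZagDer_norm_sq (z : ℂ) : ‖z‖ ^ 2 = Complex.normSq z := by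
  rw [Complex.normSq_eq_norm_sq]

theorem ZagDer_inv_norm {a y : ℝ} (ha : 0 < a) (hy : a ≤ y) {p : ℤ × ℤ} (hp : p ≠ 0) :
    1 / ‖lx y p‖ ≤ (2 + 3 / (2 * a ^ 2)) * (1 / Real.sqrt (nn p)) := by
  have h1 := ZagDer_invP ha hy hp
  have hK : 1 ≤ 2 + 3 / (2 * a ^ 2) := by
    have : 0 ≤ 3 / (2 * a ^ 2) := by positivity
    linarith
  have h3 : 0 < ‖lx y p‖ := norm_pos_iff.mpr (ZagDer_ne (lt_of_lt_of_le ha hy) hp)
  rw [← ZagDer_normSq, ← ZagDer_norm_sq] at h1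
  have h4 : (1 / ‖lx y p‖) ^ 2 ≤ ((2 + 3 / (2 * a ^ 2)) * (1 / Real.sqrt (nn p))) ^ 2 := by
    rw [mul_pow, div_pow, one_pow]
    refine h1.trans ?_
    apply mul_le_mul_of_nonneg_right _ (by positivity)
    nlinarith
  exact (pow_le_pow_iff_left₀ (by positivity) (by positivity) (by norm_num)).mp h4

theorem ZagDer_F_bound {y : ℝ} (hy : 0 < y) :
    ∃ C : ℝ, 0 ≤ C ∧ ∀ p : ℤ × ℤ, ‖ZagDer_F (lx y p)‖ ≤ C * kk p := by
  refine ⟨(2 + 3 / (2 * y ^ 2)) ^ 3, by positivity, fun p => ?_⟩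
  by_cases hp : p = 0
  · subst hp
    rw [ZagDer_zero, ZagDer_F_zero, norm_zero]
    exact mul_nonneg (by positivity) (Summ_kk_nonneg _)
  · have h1 := ZagDer_inv_norm hy le_rfl hp
    unfold ZagDer_F
    rw [norm_div, norm_one, norm_mul, norm_pow, RCLike.norm_conj, ZagDer_kk, ← mul_pow,
      show ‖lx y p‖ ^ 2 * ‖lx y p‖ = ‖lx y p‖ ^ 3 by ring, ← one_div_pow]
    exact pow_le_pow_left₀ (by positivity) h1 3

theorem ZagDer_F_summable {y : ℝ} (hy : 0 < y) :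
    Summable (fun p : ℤ × ℤ => ‖ZagDer_F (lx y p)‖) := by
  obtain ⟨C, hC, h⟩ := ZagDer_F_bound hy
  exact Summable.of_nonneg_of_le (fun p => norm_nonneg _) h (summable_kk.mul_left C)

theorem ZagDer_F_sum {y : ℝ} (hy : 0 < y) :
    HasSum (fun p : ℤ × ℤ => ZagDer_F (lx y p)) 0 := by
  have hs : Summable (fun p : ℤ × ℤ => ZagDer_F (lx y p)) := (ZagDer_F_summable hy).of_norm
  have h1 := hs.hasSum
  have h2 := (Equiv.neg (ℤ × ℤ)).hasSum_iff.mpr h1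
  have h3 : HasSum (fun p : ℤ × ℤ => -ZagDer_F (lx y p)) (∑' p : ℤ × ℤ, ZagDer_F (lx y p)) := by
    refine h2.congr_fun ?_ |> fun h => h
    intro p
    simp only [Function.comp, Equiv.neg_apply]
    rw [ZagDer_neg, ZagDer_F_neg]
  have h4 := h3.unique h1.neg
  have h5 : ∑' p : ℤ × ℤ, ZagDer_F (lx y p) = 0 := by
    have : (2:ℂ) * ∑' p : ℤ × ℤ, ZagDer_F (lx y p) = 0 := by linear_combination h4
    simpa using this
  rw [h5] at h1
  exact h1

theorem ZagDer_FF_summable {y : ℝ} (hy : 0 < y) :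
    Summable (fun q : (ℤ × ℤ) × (ℤ × ℤ) => ZagDer_F (lx y q.1) * ZagDer_F (lx y q.2)) :=
  summable_mul_of_summable_norm (f := fun p : ℤ × ℤ => ZagDer_F (lx y p))
    (g := fun p : ℤ × ℤ => ZagDer_F (lx y p)) (ZagDer_F_summable hy) (ZagDer_F_summable hy)

theorem ZagDer_F12 {y : ℝ} (hy : 0 < y) :
    HasSum (fun q : (ℤ × ℤ) × (ℤ × ℤ) => ZagDer_F (lx y q.1) * ZagDer_F (lx y q.2)) 0 := by
  have h := (ZagDer_F_sum hy).mul (ZagDer_F_sum hy) (ZagDer_FF_summable hy)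
  rwa [zero_mul] at h

/-- `(p, r) ↦ (p, p + r)` -/
def ZagDer_e1 : (ℤ × ℤ) × (ℤ × ℤ) ≃ (ℤ × ℤ) × (ℤ × ℤ) where
  toFun q := (q.1, q.1 + q.2)
  invFun q := (q.1, q.2 - q.1)
  left_inv q := by ext <;> simp
  right_inv q := by ext <;> simp

/-- `(p, r) ↦ (r, p + r)` -/
def ZagDer_e2 : (ℤ × ℤ) × (ℤ × ℤ) ≃ (ℤ × ℤ) × (ℤ × ℤ) where
  toFun q := (q.2, q.1 + q.2)
  invFun q := (q.2 - q.1, q.1)
  left_inv q := by ext <;> simp
  right_inv q := by ext <;> simp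

theorem ZagDer_F13 {y : ℝ} (hy : 0 < y) :
    HasSum (fun q : (ℤ × ℤ) × (ℤ × ℤ) => ZagDer_F (lx y q.1) * ZagDer_F (-(lx y (q.1 + q.2))))
      0 := by
  have h := (ZagDer_e1.hasSum_iff.mpr (ZagDer_F12 hy)).neg
  rw [neg_zero] at h
  refine h.congr_fun ?_ |> fun h => h
  intro q
  simp only [Function.comp, ZagDer_e1, Equiv.coe_fn_mk]
  rw [ZagDer_F_neg, mul_neg]

theorem ZagDer_F23 {y : ℝ} (hy : 0 < y) :
    HasSum (fun q : (ℤ × ℤ) × (ℤ × ℤ) => ZagDer_F (lx y q.2) * ZagDer_F (-(lx y (q.1 + q.2))))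
      0 := by
  have h := (ZagDer_e2.hasSum_iff.mpr (ZagDer_F12 hy)).neg
  rw [neg_zero] at h
  refine h.congr_fun ?_ |> fun h => h
  intro q
  simp only [Function.comp, ZagDer_e2, Equiv.coe_fn_mk]
  rw [ZagDer_F_neg, mul_neg]

/-! ### degenerate terms -/

theorem ZagDer_Fsq_summable {y : ℝ} (hy : 0 < y) :
    Summable (fun p : ℤ × ℤ => ‖ZagDer_F (lx y p) ^ 2‖) := by
  obtain ⟨C, hC, h⟩ := ZagDer_F_bound hy
  have hk : ∀ p : ℤ × ℤ, kk p ≤ 1 := by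
    intro p
    by_cases hp : p = 0
    · subst hp
      have : kk 0 = 0 := by
        unfold kk nn
        simp
      rw [this]
      norm_num
    · rw [ZagDer_kk]
      have h1 : 1 ≤ Real.sqrt (nn p) := by
        rw [Real.one_le_sqrt]
        exact ZagDer_nn_pos hp
      apply pow_le_one₀ (by positivity)
      rw [div_le_one (by linarith)]
      exact h1
  refine Summable.of_nonneg_of_le (fun p => norm_nonneg _) (fun p => ?_)
    (summable_kk.mul_left (C ^ 2))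
  rw [norm_pow]
  calc ‖ZagDer_F (lx y p)‖ ^ 2 ≤ (C * kk p) ^ 2 := pow_le_pow_left₀ (norm_nonneg _) (h p) 2
    _ = C ^ 2 * (kk p * kk p) := by ring
    _ ≤ C ^ 2 * (kk p * 1) := by
        apply mul_le_mul_of_nonneg_left _ (by positivity)
        exact mul_le_mul_of_nonneg_left (hk p) (Summ_kk_nonneg p)
    _ = C ^ 2 * kk p := by ring

/-- indicator of zero -/
noncomputable def ZagDer_d (p : ℤ × ℤ) : ℂ := if p = 0 then 1 else 0

theorem ZagDer_d_hasSum : HasSum ZagDer_d 1 := by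
  have h := hasSum_ite_eq (0 : ℤ × ℤ) (1 : ℂ)
  exact h

theorem ZagDer_d_norm : Summable (fun p : ℤ × ℤ => ‖ZagDer_d p‖) := by
  refine summable_of_ne_finset_zero (s := {0}) ?_
  intro p hp
  unfold ZagDer_d
  rw [if_neg (by simpa using hp), norm_zero]

theorem ZagDer_D1 {y : ℝ} (hy : 0 < y) :
    HasSum (fun q : (ℤ × ℤ) × (ℤ × ℤ) => ZagDer_d q.1 * ZagDer_F (lx y q.2) ^ 2)
      (∑' p : ℤ × ℤ, ZagDer_F (lx y p) ^ 2) := by
  have hs := (ZagDer_Fsq_summable hy).of_norm.hasSum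
  have hm : Summable (fun q : (ℤ × ℤ) × (ℤ × ℤ) => ZagDer_d q.1 * ZagDer_F (lx y q.2) ^ 2) :=
    summable_mul_of_summable_norm (f := ZagDer_d)
      (g := fun p : ℤ × ℤ => ZagDer_F (lx y p) ^ 2) ZagDer_d_norm (ZagDer_Fsq_summable hy)
  have h := ZagDer_d_hasSum.mul hs hm
  rwa [one_mul] at h

theorem ZagDer_D2 {y : ℝ} (hy : 0 < y) :
    HasSum (fun q : (ℤ × ℤ) × (ℤ × ℤ) => ZagDer_d q.2 * ZagDer_F (lx y q.1) ^ 2)
      (∑' p : ℤ × ℤ, ZagDer_F (lx y p) ^ 2) := by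
  have h := (Equiv.prodComm (ℤ × ℤ) (ℤ × ℤ)).hasSum_iff.mpr (ZagDer_D1 hy)
  exact h

theorem ZagDer_D3 {y : ℝ} (hy : 0 < y) :
    HasSum (fun q : (ℤ × ℤ) × (ℤ × ℤ) => ZagDer_d (q.1 + q.2) * ZagDer_F (lx y q.1) ^ 2)
      (∑' p : ℤ × ℤ, ZagDer_F (lx y p) ^ 2) := by
  have h := ZagDer_e1.hasSum_iff.mpr (ZagDer_D2 hy)
  exact h

/-! ### the pointwise identity -/

/-- `N (p₁ + p₂ + p₃)` -/
noncomputable def ZagDer_Z (y : ℝ) (q : (ℤ × ℤ) × (ℤ × ℤ)) : ℂ :=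
  1 / ((Complex.normSq (lx y q.1) * Complex.normSq (lx y q.2)
    * Complex.normSq (lx y (q.1 + q.2)) : ℝ) : ℂ) *
    (starRingEnd ℂ (lx y q.1) / lx y q.1 + starRingEnd ℂ (lx y q.2) / lx y q.2
      + starRingEnd ℂ (lx y (q.1 + q.2)) / lx y (q.1 + q.2))

theorem ZagDer_pt {a b : ℂ} (ha : a ≠ 0) (hb : b ≠ 0) (hab : a + b ≠ 0) :
    1 / ((Complex.normSq a * Complex.normSq b * Complex.normSq (a + b) : ℝ) : ℂ) *
      (starRingEnd ℂ a / a + starRingEnd ℂ b / b + starRingEnd ℂ (a + b) / (a + b)) =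
    ZagDer_F a * ZagDer_F b + ZagDer_F a * ZagDer_F (-(a + b)) + ZagDer_F b * ZagDer_F (-(a + b)) := by
  have ha' : starRingEnd ℂ a ≠ 0 := (map_ne_zero _).mpr ha
  have hb' : starRingEnd ℂ b ≠ 0 := (map_ne_zero _).mpr hb
  have hab' : starRingEnd ℂ a + starRingEnd ℂ b ≠ 0 := by
    rw [← map_add]
    exact (map_ne_zero _).mpr hab
  rw [ZagDer_F_neg]
  unfold ZagDer_F
  push_cast
  rw [Complex.normSq_eq_conj_mul_self, Complex.normSq_eq_conj_mul_self,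
    Complex.normSq_eq_conj_mul_self, map_add]
  generalize starRingEnd ℂ a = a' at *
  generalize starRingEnd ℂ b = b' at *
  field_simp
  ring

theorem ZagDer_Z_eq {y : ℝ} (hy : 0 < y) (q : (ℤ × ℤ) × (ℤ × ℤ)) :
    ZagDer_Z y q =
      (ZagDer_F (lx y q.1) * ZagDer_F (lx y q.2)
      + ZagDer_F (lx y q.1) * ZagDer_F (-(lx y (q.1 + q.2)))
      + ZagDer_F (lx y q.2) * ZagDer_F (-(lx y (q.1 + q.2))))
      + (ZagDer_d q.1 * ZagDer_F (lx y q.2) ^ 2 + ZagDer_d q.2 * ZagDer_F (lx y q.1) ^ 2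
      + ZagDer_d (q.1 + q.2) * ZagDer_F (lx y q.1) ^ 2) := by
  obtain ⟨p, r⟩ := q
  simp only
  by_cases hp : p = 0
  · subst hp
    have h1 : ZagDer_Z y (0, r) = 0 := by
      unfold ZagDer_Z
      simp [ZagDer_zero]
    rw [h1, ZagDer_zero, ZagDer_F_zero, zero_add]
    by_cases hr : r = 0
    · subst hr
      simp [ZagDer_zero, ZagDer_F_zero]
    · simp only [ZagDer_d, if_true, if_neg hr, ZagDer_F_neg]
      ring
  · by_cases hr : r = 0
    · subst hr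
      have h1 : ZagDer_Z y (p, 0) = 0 := by
        unfold ZagDer_Z
        simp [ZagDer_zero]
      rw [h1, ZagDer_zero, ZagDer_F_zero, add_zero]
      simp only [ZagDer_d, if_true, if_neg hp, ZagDer_F_neg]
      ring
    · by_cases hpr : p + r = 0
      · have h1 : ZagDer_Z y (p, r) = 0 := by
          unfold ZagDer_Z
          simp [hpr, ZagDer_zero]
        have h2 : lx y r = -lx y p := by
          have := ZagDer_add y p r
          rw [hpr, ZagDer_zero] at this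
          linear_combination -this
        rw [h1, hpr, ZagDer_zero, h2]
        simp only [ZagDer_d, if_true, if_neg hp, if_neg hr, ZagDer_F_neg, ZagDer_F_zero]
        ring
      · have ha := ZagDer_ne hy hp
        have hb := ZagDer_ne hy hr
        have hc := ZagDer_ne hy hpr
        rw [ZagDer_add] at hc
        simp only [ZagDer_d, if_neg hp, if_neg hr, if_neg hpr]
        unfold ZagDer_Z
        simp only [ZagDer_add]
        rw [ZagDer_pt ha hb hc]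
        ring

theorem ZagDer_Z_hasSum {y : ℝ} (hy : 0 < y) :
    HasSum (ZagDer_Z y) (3 * ∑' p : ℤ × ℤ, ZagDer_F (lx y p) ^ 2) := by
  have h := (((ZagDer_F12 hy).add (ZagDer_F13 hy)).add (ZagDer_F23 hy)).add
    (((ZagDer_D1 hy).add (ZagDer_D2 hy)).add (ZagDer_D3 hy))
  have e : (0 : ℂ) + 0 + 0 + (∑' p : ℤ × ℤ, ZagDer_F (lx y p) ^ 2
      + ∑' p : ℤ × ℤ, ZagDer_F (lx y p) ^ 2 + ∑' p : ℤ × ℤ, ZagDer_F (lx y p) ^ 2) =
      3 * ∑' p : ℤ × ℤ, ZagDer_F (lx y p) ^ 2 := by ring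
  rw [e] at h
  refine h.congr_fun ?_ |> fun h => h
  intro q
  exact ZagDer_Z_eq hy q

/-! ### derivatives -/

theorem ZagDer_P_deriv (y : ℝ) (p : ℤ × ℤ) :
    HasDerivAt (fun z => ZagDer_P z p) (2 * (p.1:ℝ) ^ 2 * y) y := by
  unfold ZagDer_P
  have h1 : HasDerivAt (fun z : ℝ => (p.1:ℝ) * z) ((p.1:ℝ) * 1) y :=
    (hasDerivAt_id y).const_mul _
  have h2 := (h1.pow 2).const_add (((p.1:ℝ) / 2 + p.2) ^ 2)
  convert! h2 using 1
  simp
  ring

theorem ZagDer_re_pk (z : ℂ) :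
    (starRingEnd ℂ z / z).re = (z.re ^ 2 - z.im ^ 2) / Complex.normSq z := by
  rw [Complex.div_re, Complex.conj_re, Complex.conj_im]
  ring

theorem ZagDer_Z_re (y : ℝ) (q : (ℤ × ℤ) × (ℤ × ℤ)) :
    (ZagDer_Z y q).re = 1 / (ZagDer_P y q.1 * ZagDer_P y q.2 * ZagDer_P y (q.1 + q.2)) *
      ((((q.1.1:ℝ) / 2 + q.1.2) ^ 2 - ((q.1.1:ℝ) * y) ^ 2) / ZagDer_P y q.1
      + (((q.2.1:ℝ) / 2 + q.2.2) ^ 2 - ((q.2.1:ℝ) * y) ^ 2) / ZagDer_P y q.2
      + ((((q.1 + q.2).1:ℝ) / 2 + (q.1 + q.2).2) ^ 2 - (((q.1 + q.2).1:ℝ) * y) ^ 2)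
        / ZagDer_P y (q.1 + q.2)) := by
  unfold ZagDer_Z
  rw [← Complex.ofReal_one, ← Complex.ofReal_div, Complex.re_ofReal_mul, Complex.add_re,
    Complex.add_re, ZagDer_re_pk, ZagDer_re_pk, ZagDer_re_pk, ZagDer_normSq, ZagDer_normSq,
    ZagDer_normSq, ZagDer_re, ZagDer_re, ZagDer_re, ZagDer_im, ZagDer_im, ZagDer_im]

/-- the summand of `y³ n0y` -/
noncomputable def ZagDer_g (q : (ℤ × ℤ) × (ℤ × ℤ)) (y : ℝ) : ℝ :=
  y ^ 3 * (1 / (Complex.normSq (lx y q.1) * Complex.normSq (lx y q.2)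
    * Complex.normSq (lx y (q.1 + q.2))))

theorem ZagDer_g_deriv_gen {y : ℝ} (hy : 0 < y) (p r s : ℤ × ℤ)
    (hp : p ≠ 0) (hr : r ≠ 0) (hs : s ≠ 0) :
    HasDerivAt (fun z => z ^ 3 * (1 / (ZagDer_P z p * ZagDer_P z r * ZagDer_P z s)))
      (y ^ 2 * (1 / (ZagDer_P y p * ZagDer_P y r * ZagDer_P y s) *
      ((((p.1:ℝ) / 2 + p.2) ^ 2 - ((p.1:ℝ) * y) ^ 2) / ZagDer_P y p
      + (((r.1:ℝ) / 2 + r.2) ^ 2 - ((r.1:ℝ) * y) ^ 2) / ZagDer_P y r
      + (((s.1:ℝ) / 2 + s.2) ^ 2 - ((s.1:ℝ) * y) ^ 2) / ZagDer_P y s))) y := by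
  have p1 := ZagDer_P_pos hy hp
  have p2 := ZagDer_P_pos hy hr
  have p3 := ZagDer_P_pos hy hs
  have d1 := ZagDer_P_deriv y p
  have d2 := ZagDer_P_deriv y r
  have d3 := ZagDer_P_deriv y s
  have dd := ((hasDerivAt_pow 3 y).mul ((hasDerivAt_const y (1:ℝ)).div ((d1.mul d2).mul d3)
    (by simp only [Pi.mul_apply]; positivity)))
  convert! dd using 1
  simp only [Pi.mul_apply, Pi.div_apply]
  have e1 : ((p.1:ℝ) / 2 + p.2) ^ 2 = ZagDer_P y p - ((p.1:ℝ) * y) ^ 2 := by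
    unfold ZagDer_P; ring
  have e2 : ((r.1:ℝ) / 2 + r.2) ^ 2 = ZagDer_P y r - ((r.1:ℝ) * y) ^ 2 := by
    unfold ZagDer_P; ring
  have e3 : ((s.1:ℝ) / 2 + s.2) ^ 2 = ZagDer_P y s - ((s.1:ℝ) * y) ^ 2 := by
    unfold ZagDer_P; ring
  rw [e1, e2, e3]
  generalize ZagDer_P y p = P1 at *
  generalize ZagDer_P y r = P2 at *
  generalize ZagDer_P y s = P3 at *
  field_simp
  ring

theorem ZagDer_P_zero (y : ℝ) : ZagDer_P y 0 = 0 := by
  unfold ZagDer_P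
  simp

theorem ZagDer_g_deriv {y : ℝ} (hy : 0 < y) (q : (ℤ × ℤ) × (ℤ × ℤ)) :
    HasDerivAt (ZagDer_g q) (y ^ 2 * (ZagDer_Z y q).re) y := by
  obtain ⟨p, r⟩ := q
  have hg : ZagDer_g (p, r) = fun z => z ^ 3 * (1 / (ZagDer_P z p * ZagDer_P z r
      * ZagDer_P z (p + r))) := by
    funext z
    unfold ZagDer_g
    simp only [ZagDer_normSq]
  rw [hg, ZagDer_Z_re]
  by_cases h : p = 0 ∨ r = 0 ∨ p + r = 0
  · have h0 : ∀ z : ℝ, ZagDer_P z p * ZagDer_P z r * ZagDer_P z (p + r) = 0 := by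
      intro z
      rcases h with h | h | h <;> rw [h] <;> simp [ZagDer_P_zero]
    have hf : (fun z => z ^ 3 * (1 / (ZagDer_P z p * ZagDer_P z r
      * ZagDer_P z (p + r)))) = fun _ => (0:ℝ) := by
      funext z
      rw [h0 z, div_zero, mul_zero]
    rw [hf]
    simp only
    rw [h0 y, div_zero, zero_mul, mul_zero]
    exact hasDerivAt_const y 0
  · push Not at h
    exact ZagDer_g_deriv_gen hy p r (p + r) h.1 h.2.1 h.2.2

theorem ZagDer_amgm {x y z : ℝ} (hx : 0 ≤ x) (hy : 0 ≤ y) (hz : 0 ≤ z) :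
    x ^ 2 * y ^ 2 * z ^ 2 ≤ x ^ 3 * y ^ 3 + x ^ 3 * z ^ 3 + y ^ 3 * z ^ 3 := by
  have key : ∀ u v w : ℝ, 0 ≤ u → 0 ≤ v → 0 ≤ w → u * v * w ≤ u ^ 3 + v ^ 3 + w ^ 3 := by
    intro u v w hu hv hw
    have h1 : u ^ 3 + v ^ 3 + w ^ 3 - 3 * (u * v * w) =
        (u + v + w) * ((u - v) ^ 2 + (v - w) ^ 2 + (u - w) ^ 2) / 2 := by ring
    have h2 : 0 ≤ (u + v + w) * ((u - v) ^ 2 + (v - w) ^ 2 + (u - w) ^ 2) / 2 := by positivity
    have h3 : 0 ≤ u * v * w := by positivity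
    linarith
  have h := key (x * y) (x * z) (y * z) (by positivity) (by positivity) (by positivity)
  calc x ^ 2 * y ^ 2 * z ^ 2 = x * y * (x * z) * (y * z) := by ring
    _ ≤ (x * y) ^ 3 + (x * z) ^ 3 + (y * z) ^ 3 := h
    _ = x ^ 3 * y ^ 3 + x ^ 3 * z ^ 3 + y ^ 3 * z ^ 3 := by ring

/-- the majorant -/
noncomputable def ZagDer_maj (q : (ℤ × ℤ) × (ℤ × ℤ)) : ℝ :=
  kk q.1 * kk q.2 + kk q.1 * kk (q.1 + q.2) + kk q.2 * kk (q.1 + q.2)

theorem ZagDer_maj_summable : Summable ZagDer_maj :=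
  (summable_kk12.add summable_kk13).add summable_kk23

theorem ZagDer_maj_nonneg (q : (ℤ × ℤ) × (ℤ × ℤ)) : 0 ≤ ZagDer_maj q := by
  unfold ZagDer_maj
  have h1 := Summ_kk_nonneg q.1
  have h2 := Summ_kk_nonneg q.2
  have h3 := Summ_kk_nonneg (q.1 + q.2)
  positivity

theorem ZagDer_N_bound {a y : ℝ} (ha : 0 < a) (hy : a ≤ y) (q : (ℤ × ℤ) × (ℤ × ℤ)) :
    1 / (ZagDer_P y q.1 * ZagDer_P y q.2 * ZagDer_P y (q.1 + q.2)) ≤
      (2 + 3 / (2 * a ^ 2)) ^ 3 * ZagDer_maj q := by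
  obtain ⟨p, r⟩ := q
  simp only
  have hm := ZagDer_maj_nonneg (p, r)
  by_cases h : p = 0 ∨ r = 0 ∨ p + r = 0
  · have h0 : ZagDer_P y p * ZagDer_P y r * ZagDer_P y (p + r) = 0 := by
      rcases h with h | h | h <;> rw [h] <;> simp [ZagDer_P_zero]
    rw [h0, div_zero]
    positivity
  · push Not at h
    obtain ⟨hp, hr, hpr⟩ := h
    have b1 := ZagDer_invP ha hy hp
    have b2 := ZagDer_invP ha hy hr
    have b3 := ZagDer_invP ha hy hpr
    have p1 := ZagDer_P_pos (lt_of_lt_of_le ha hy) hp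
    have p2 := ZagDer_P_pos (lt_of_lt_of_le ha hy) hr
    have p3 := ZagDer_P_pos (lt_of_lt_of_le ha hy) hpr
    have e : 1 / (ZagDer_P y p * ZagDer_P y r * ZagDer_P y (p + r)) =
        1 / ZagDer_P y p * (1 / ZagDer_P y r) * (1 / ZagDer_P y (p + r)) := by
      field_simp
    rw [e]
    unfold ZagDer_maj
    simp only [ZagDer_kk]
    have ham := ZagDer_amgm (x := 1 / Real.sqrt (nn p)) (y := 1 / Real.sqrt (nn r))
      (z := 1 / Real.sqrt (nn (p + r))) (by positivity) (by positivity) (by positivity)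
    set K : ℝ := 2 + 3 / (2 * a ^ 2) with hK
    have hK0 : 0 ≤ K := by positivity
    calc 1 / ZagDer_P y p * (1 / ZagDer_P y r) * (1 / ZagDer_P y (p + r))
        ≤ (K * (1 / Real.sqrt (nn p)) ^ 2) * (K * (1 / Real.sqrt (nn r)) ^ 2)
          * (K * (1 / Real.sqrt (nn (p + r))) ^ 2) := by
          apply mul_le_mul (mul_le_mul b1 b2 (by positivity) (by positivity)) b3
            (by positivity) (by positivity)
      _ = K ^ 3 * ((1 / Real.sqrt (nn p)) ^ 2 * (1 / Real.sqrt (nn r)) ^ 2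
          * (1 / Real.sqrt (nn (p + r))) ^ 2) := by ring
      _ ≤ _ := mul_le_mul_of_nonneg_left ham (by positivity)

theorem ZagDer_norm_pk (z : ℂ) : ‖starRingEnd ℂ z / z‖ ≤ 1 := by
  rw [norm_div, RCLike.norm_conj]
  exact div_self_le_one _

theorem ZagDer_Z_bound {a y : ℝ} (ha : 0 < a) (hy : a ≤ y) (q : (ℤ × ℤ) × (ℤ × ℤ)) :
    ‖ZagDer_Z y q‖ ≤ 3 * (2 + 3 / (2 * a ^ 2)) ^ 3 * ZagDer_maj q := by
  have hN := ZagDer_N_bound ha hy q
  have hN0 : 0 ≤ 1 / (ZagDer_P y q.1 * ZagDer_P y q.2 * ZagDer_P y (q.1 + q.2)) := by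
    unfold ZagDer_P
    positivity
  unfold ZagDer_Z
  simp only [ZagDer_normSq]
  rw [norm_mul, ← Complex.ofReal_one, ← Complex.ofReal_div, Complex.norm_real,
    Real.norm_of_nonneg hN0]
  have h3 : ‖starRingEnd ℂ (lx y q.1) / lx y q.1 + starRingEnd ℂ (lx y q.2) / lx y q.2
      + starRingEnd ℂ (lx y (q.1 + q.2)) / lx y (q.1 + q.2)‖ ≤ 3 := by
    refine (norm_add₃_le).trans ?_
    have t1 := ZagDer_norm_pk (lx y q.1)
    have t2 := ZagDer_norm_pk (lx y q.2)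
    have t3 := ZagDer_norm_pk (lx y (q.1 + q.2))
    linarith
  calc _ ≤ (2 + 3 / (2 * a ^ 2)) ^ 3 * ZagDer_maj q * 3 :=
        mul_le_mul hN h3 (norm_nonneg _) (mul_nonneg (by positivity) (ZagDer_maj_nonneg q))
    _ = _ := by ring

theorem ZagDer_Fsq_eq (y : ℝ) (p : ℤ × ℤ) :
    1 / (lx y p ^ 4 * (starRingEnd ℂ (lx y p)) ^ 2) = ZagDer_F (lx y p) ^ 2 := by
  unfold ZagDer_F
  rw [div_pow, one_pow, mul_pow, ← pow_mul]

theorem ZagDer_e42y_eq (y : ℝ) : e42y y = (∑' p : ℤ × ℤ, ZagDer_F (lx y p) ^ 2).re := by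
  unfold e42y
  simp only [ZagDer_Fsq_eq]

theorem n0y_hasDerivAt {y : ℝ} (hy : 0 < y) :
    HasDerivAt (fun y => y ^ 3 * n0y y) (3 * y ^ 2 * e42y y) y := by
  have hfun : (fun y => y ^ 3 * n0y y) = fun z => ∑' q, ZagDer_g q z := by
    funext z
    unfold n0y ZagDer_g
    rw [tsum_mul_left]
  rw [hfun]
  have hy2 : 0 < y / 2 := by linarith
  have hZ := (ZagDer_Z_hasSum hy)
  have hre : HasSum (fun q => y ^ 2 * (ZagDer_Z y q).re) (3 * y ^ 2 * e42y y) := by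
    have h1 := (Complex.hasSum_re hZ).mul_left (y ^ 2)
    have e : y ^ 2 * (3 * ∑' p : ℤ × ℤ, ZagDer_F (lx y p) ^ 2).re = 3 * y ^ 2 * e42y y := by
      rw [ZagDer_e42y_eq]
      have : (3 * ∑' p : ℤ × ℤ, ZagDer_F (lx y p) ^ 2 : ℂ).re =
          3 * (∑' p : ℤ × ℤ, ZagDer_F (lx y p) ^ 2 : ℂ).re := by
        rw [← Complex.ofReal_ofNat, Complex.re_ofReal_mul]
      rw [this]
      ring
    rwa [e] at h1
  rw [← hre.tsum_eq]
  refine hasDerivAt_tsum_of_isPreconnected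
    (u := fun q => (2 * y) ^ 2 * (3 * (2 + 3 / (2 * (y / 2) ^ 2)) ^ 3 * ZagDer_maj q))
    (t := Set.Ioo (y / 2) (2 * y)) (y₀ := y) (y := y)
    (g := fun q z => ZagDer_g q z) (g' := fun q z => z ^ 2 * (ZagDer_Z z q).re)
    ?_ isOpen_Ioo isPreconnected_Ioo ?_ ?_ ⟨by linarith, by linarith⟩ ?_
    ⟨by linarith, by linarith⟩
  · exact (ZagDer_maj_summable.mul_left _).mul_left _
  · intro q z hz
    exact ZagDer_g_deriv (by linarith [hz.1]) q
  · intro q z hz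
    have hz0 : 0 < z := by linarith [hz.1]
    have hb := ZagDer_Z_bound hy2 hz.1.le q
    rw [norm_mul, norm_pow, Real.norm_of_nonneg hz0.le]
    apply mul_le_mul
    · exact pow_le_pow_left₀ hz0.le hz.2.le 2
    · exact (Complex.abs_re_le_norm _).trans hb
    · exact norm_nonneg _
    · positivity
  · refine Summable.of_nonneg_of_le (fun q => ?_) (fun q => ?_)
      ((ZagDer_maj_summable.mul_left ((2 + 3 / (2 * y ^ 2)) ^ 3)).mul_left (y ^ 3))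
    · unfold ZagDer_g
      have := Complex.normSq_nonneg (lx y q.1)
      have := Complex.normSq_nonneg (lx y q.2)
      have := Complex.normSq_nonneg (lx y (q.1 + q.2))
      positivity
    · unfold ZagDer_g
      simp only [ZagDer_normSq]
      exact mul_le_mul_of_nonneg_left (ZagDer_N_bound hy le_rfl q) (by positivity)

/-! ### the single sum -/

theorem ZagDer_Fsq_re (y : ℝ) (p : ℤ × ℤ) :
    (ZagDer_F (lx y p) ^ 2).re =
      (((p.1:ℝ) / 2 + p.2) ^ 2 - ((p.1:ℝ) * y) ^ 2) / ZagDer_P y p ^ 4 := by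
  by_cases h : lx y p = 0
  · have h1 : ZagDer_P y p = 0 := by
      rw [← ZagDer_normSq, h, map_zero]
    rw [h, ZagDer_F_zero, h1]
    simp
  · have h1 : starRingEnd ℂ (lx y p) ≠ 0 := (map_ne_zero _).mpr h
    have e : ZagDer_F (lx y p) ^ 2 = starRingEnd ℂ (lx y p) ^ 2 *
        (((1 / Complex.normSq (lx y p) ^ 4 : ℝ)) : ℂ) := by
      unfold ZagDer_F
      push_cast
      rw [Complex.normSq_eq_conj_mul_self]
      generalize starRingEnd ℂ (lx y p) = b at *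
      field_simp
    rw [e, Complex.re_mul_ofReal, ZagDer_normSq, sq, Complex.mul_re, Complex.conj_re,
      Complex.conj_im, ZagDer_re, ZagDer_im]
    ring

theorem ZagDer_h_deriv {y : ℝ} (hy : 0 < y) (p : ℤ × ℤ) :
    HasDerivAt (fun z => z ^ 3 * (1 / Complex.normSq (lx z p) ^ 3))
      (3 * y ^ 2 * (ZagDer_F (lx y p) ^ 2).re) y := by
  have hg : (fun z => z ^ 3 * (1 / Complex.normSq (lx z p) ^ 3)) =
      fun z => z ^ 3 * (1 / (ZagDer_P z p * ZagDer_P z p * ZagDer_P z p)) := by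
    funext z
    rw [ZagDer_normSq]
    ring
  rw [hg, ZagDer_Fsq_re]
  by_cases h : p = 0
  · subst h
    simp only [ZagDer_P_zero]
    simp only [mul_zero, div_zero, ne_eq, OfNat.ofNat_ne_zero, not_false_eq_true, zero_pow]
    exact hasDerivAt_const y 0
  · have hd := ZagDer_g_deriv_gen hy p p p h h h
    have p1 := ZagDer_P_pos hy h
    convert! hd using 1
    field_simp
    ring

theorem e33y_hasDerivAt {y : ℝ} (hy : 0 < y) :
    HasDerivAt (fun y => y ^ 3 * e33y y) (3 * y ^ 2 * e42y y) y := by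
  have hfun : (fun y => y ^ 3 * e33y y) =
      fun z => ∑' p : ℤ × ℤ, z ^ 3 * (1 / Complex.normSq (lx z p) ^ 3) := by
    funext z
    unfold e33y
    rw [tsum_mul_left]
  rw [hfun]
  have hy2 : 0 < y / 2 := by linarith
  have hs : Summable (fun p : ℤ × ℤ => ZagDer_F (lx y p) ^ 2) :=
    (ZagDer_Fsq_summable hy).of_norm
  have hre : HasSum (fun p : ℤ × ℤ => 3 * y ^ 2 * (ZagDer_F (lx y p) ^ 2).re)
      (3 * y ^ 2 * e42y y) := by
    rw [ZagDer_e42y_eq]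
    exact (Complex.hasSum_re hs.hasSum).mul_left _
  -- bound on 1/P^3
  have hb : ∀ a z : ℝ, 0 < a → a ≤ z → ∀ p : ℤ × ℤ,
      (1 / ZagDer_P z p) ^ 3 ≤ (2 + 3 / (2 * a ^ 2)) ^ 3 * kk p := by
    intro a z ha hz p
    by_cases hp : p = 0
    · subst hp
      rw [ZagDer_P_zero, div_zero]
      have := Summ_kk_nonneg 0
      rw [zero_pow (by norm_num)]; exact mul_nonneg (by positivity) this
    · have h1 := ZagDer_invP ha hz hp
      have h2 := ZagDer_P_pos (lt_of_lt_of_le ha hz) hp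
      have h4 : 1 / Real.sqrt (nn p) ≤ 1 := by
        have h1 : 1 ≤ Real.sqrt (nn p) := by
          rw [Real.one_le_sqrt]
          exact ZagDer_nn_pos hp
        rw [div_le_one (by linarith)]
        exact h1
      have h5 : 0 ≤ 1 / Real.sqrt (nn p) := by positivity
      rw [ZagDer_kk]
      calc (1 / ZagDer_P z p) ^ 3
          ≤ ((2 + 3 / (2 * a ^ 2)) * (1 / Real.sqrt (nn p)) ^ 2) ^ 3 :=
            pow_le_pow_left₀ (by positivity) h1 3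
        _ = (2 + 3 / (2 * a ^ 2)) ^ 3 * ((1 / Real.sqrt (nn p)) ^ 6) := by ring
        _ ≤ (2 + 3 / (2 * a ^ 2)) ^ 3 * ((1 / Real.sqrt (nn p)) ^ 3) := by
            apply mul_le_mul_of_nonneg_left _ (by positivity)
            exact pow_le_pow_of_le_one h5 h4 (by norm_num)
  rw [← hre.tsum_eq]
  refine hasDerivAt_tsum_of_isPreconnected
    (u := fun p => 3 * (2 * y) ^ 2 * ((2 + 3 / (2 * (y / 2) ^ 2)) ^ 3 * kk p))
    (t := Set.Ioo (y / 2) (2 * y)) (y₀ := y) (y := y)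
    (g := fun p z => z ^ 3 * (1 / Complex.normSq (lx z p) ^ 3))
    (g' := fun p z => 3 * z ^ 2 * (ZagDer_F (lx z p) ^ 2).re)
    ?_ isOpen_Ioo isPreconnected_Ioo ?_ ?_ ⟨by linarith, by linarith⟩ ?_
    ⟨by linarith, by linarith⟩
  · exact (summable_kk.mul_left _).mul_left _
  · intro p z hz
    exact ZagDer_h_deriv (by linarith [hz.1]) p
  · intro p z hz
    have hz0 : 0 < z := by linarith [hz.1]
    have h1 := hb (y / 2) z hy2 hz.1.le p
    have h2 : ‖(ZagDer_F (lx z p) ^ 2).re‖ ≤ (1 / ZagDer_P z p) ^ 3 := by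
      refine (Complex.abs_re_le_norm _).trans ?_
      unfold ZagDer_F
      rw [norm_pow, norm_div, norm_one, norm_mul, norm_pow, RCLike.norm_conj,
        ← ZagDer_normSq, ← ZagDer_norm_sq]
      apply le_of_eq
      rw [div_pow, div_pow, one_pow, one_pow]
      congr 1
      ring
    rw [norm_mul, Real.norm_of_nonneg (by positivity)]
    apply mul_le_mul
    · have := pow_le_pow_left₀ hz0.le hz.2.le 2
      linarith
    · exact h2.trans h1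
    · exact norm_nonneg _
    · positivity
  · refine Summable.of_nonneg_of_le (fun p => ?_) (fun p => ?_)
      ((summable_kk.mul_left ((2 + 3 / (2 * y ^ 2)) ^ 3)).mul_left (y ^ 3))
    · have := Complex.normSq_nonneg (lx y p)
      positivity
    · rw [ZagDer_normSq, ← one_div_pow]
      exact mul_le_mul_of_nonneg_left (hb y y hy le_rfl p) (by positivity)

end MM7
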